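import Mathlib

/-!
# KL project, (1.1): the scalar integral.
helper65
-/

set_option autoImplicit false

namespace Pool.Agent.KL

open MeasureTheory Filter Topology

noncomputable section

theorem scal_ne {a : ℂ} (ha : 0 < a.re) (t : ℝ) : a + t * Complex.I ≠ 0 := by
  intro h
  have := congrArg Complex.re h
  simp at this
  linarith

theorem scal_ne' {a : ℂ} (ha : 0 < a.re) (t : ℝ) : a - t * Complex.I ≠ 0 := by
  intro h
  have := congrArg Complex.re h
  simp at this
  linarith

/-- the limit of `Log (b - it) - Log (a + it)` -/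
theorem scal_lim {a b : ℂ} (ha : 0 < a.re) (hb : 0 < b.re) :
    Tendsto (fun t : ℝ => Complex.log (b - t * Complex.I) - Complex.log (a + t * Complex.I))
      atTop (𝓝 (-(Real.pi * Complex.I))) := by
  have h0 : ∀ z : ℂ, Tendsto (fun t : ℝ => z / t) atTop (𝓝 0) := by
    intro z
    have h1 : Tendsto (fun t : ℝ => ((t⁻¹ : ℝ) : ℂ)) atTop (𝓝 ((0 : ℝ) : ℂ)) :=
      (Complex.continuous_ofReal.tendsto 0).comp tendsto_inv_atTop_zero
    have h2 := h1.const_mul z
    simp only [Complex.ofReal_zero, mul_zero] at h2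
    refine h2.congr fun t => ?_
    rw [Complex.ofReal_inv, div_eq_mul_inv]
  have h1 : Tendsto (fun t : ℝ => Complex.log (b / t - Complex.I)) atTop
      (𝓝 (Complex.log (0 - Complex.I))) := by
    refine ((h0 b).sub_const _).clog ?_
    rw [zero_sub, Complex.mem_slitPlane_iff]
    right
    simp
  have h2 : Tendsto (fun t : ℝ => Complex.log (a / t + Complex.I)) atTop
      (𝓝 (Complex.log (0 + Complex.I))) := by
    refine ((h0 a).add_const _).clog ?_
    rw [zero_add, Complex.mem_slitPlane_iff]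
    right
    simp
  have h3 := h1.sub h2
  have e : Complex.log (0 - Complex.I) - Complex.log (0 + Complex.I) = -(Real.pi * Complex.I) := by
    rw [zero_sub, zero_add, Complex.log_neg_I, Complex.log_I]
    ring
  rw [e] at h3
  refine h3.congr' ?_
  filter_upwards [eventually_gt_atTop (0 : ℝ)] with t ht
  have ht' : (t : ℂ) ≠ 0 := by exact_mod_cast ht.ne'
  have e1 : b - t * Complex.I = (t : ℂ) * (b / t - Complex.I) := by field_simp
  have e2 : a + t * Complex.I = (t : ℂ) * (a / t + Complex.I) := by field_simp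
  have n1 : b / t - Complex.I ≠ 0 := by
    intro h
    apply scal_ne' hb t
    rw [e1, h, mul_zero]
  have n2 : a / t + Complex.I ≠ 0 := by
    intro h
    apply scal_ne ha t
    rw [e2, h, mul_zero]
  rw [e1, e2, Complex.log_ofReal_mul ht n1, Complex.log_ofReal_mul ht n2]
  ring

/-- lower bound -/
theorem scal_lower {a : ℂ} (ha : 0 < a.re) : ∃ c : ℝ, 0 < c ∧ ∀ t : ℝ,
    c * (1 + t ^ 2) ≤ ‖a + t * Complex.I‖ ^ 2 ∧ c * (1 + t ^ 2) ≤ ‖a - t * Complex.I‖ ^ 2 := by
  set A := a.re
  set B := a.im
  have hc2 : 0 < A ^ 2 / (1 + 2 * B ^ 2) := by positivity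
  refine ⟨min (1 / 2) (A ^ 2 / (1 + 2 * B ^ 2)), lt_min (by norm_num) hc2, fun t => ?_⟩
  set c := min (1 / 2) (A ^ 2 / (1 + 2 * B ^ 2)) with hc
  have hc1 : c ≤ 1 / 2 := min_le_left _ _
  have hc3 : c * (1 + 2 * B ^ 2) ≤ A ^ 2 := by
    have h1 : c ≤ A ^ 2 / (1 + 2 * B ^ 2) := min_le_right _ _
    rwa [le_div_iff₀ (by positivity)] at h1
  have hc0 : 0 < c := lt_min (by norm_num) hc2
  have e1 : ‖a + t * Complex.I‖ ^ 2 = A ^ 2 + (B + t) ^ 2 := by
    rw [← Complex.normSq_eq_norm_sq, Complex.normSq_apply]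
    simp [A, B]
    ring
  have e2 : ‖a - t * Complex.I‖ ^ 2 = A ^ 2 + (B - t) ^ 2 := by
    rw [← Complex.normSq_eq_norm_sq, Complex.normSq_apply]
    simp [A, B]
    ring
  rw [e1, e2]
  constructor
  · nlinarith [sq_nonneg (B + t), sq_nonneg (2 * B + t), mul_nonneg hc0.le (sq_nonneg (2 * B + t))]
  · nlinarith [sq_nonneg (B - t), sq_nonneg (2 * B - t), mul_nonneg hc0.le (sq_nonneg (2 * B - t))]

theorem scal_integrable {a b : ℂ} (ha : 0 < a.re) (hb : 0 < b.re) :
    Integrable (fun t : ℝ => 1 / ((a + t * Complex.I) * (b - t * Complex.I))) := by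
  obtain ⟨c, hc, h1⟩ := scal_lower ha
  obtain ⟨d, hd, h2⟩ := scal_lower hb
  have hcont : Continuous (fun t : ℝ => 1 / ((a + t * Complex.I) * (b - t * Complex.I))) := by
    refine continuous_const.div (by fun_prop) fun t => ?_
    exact mul_ne_zero (scal_ne ha t) (scal_ne' hb t)
  have hg : Integrable (fun t : ℝ => (1 / √(c * d)) * (1 + t ^ 2)⁻¹) :=
    integrable_inv_one_add_sq.const_mul _
  refine hg.mono' hcont.aestronglyMeasurable (Filter.Eventually.of_forall fun t => ?_)
  have hp : 0 < 1 + t ^ 2 := by positivity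
  have h3 : √(c * d) * (1 + t ^ 2) ≤ ‖(a + t * Complex.I) * (b - t * Complex.I)‖ := by
    rw [norm_mul]
    refine abs_le_of_sq_le_sq' ?_ (by positivity) |>.2
    rw [mul_pow, mul_pow, Real.sq_sqrt (by positivity)]
    calc c * d * (1 + t ^ 2) ^ 2 = (c * (1 + t ^ 2)) * (d * (1 + t ^ 2)) := by ring
      _ ≤ ‖a + t * Complex.I‖ ^ 2 * ‖b - t * Complex.I‖ ^ 2 :=
          mul_le_mul (h1 t).1 (h2 t).2 (by positivity) (by positivity)
  rw [norm_div, norm_one, one_div, one_div, ← mul_inv]
  exact inv_anti₀ (by positivity) h3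

/-- **(1.1)** -/
theorem scal {a b : ℂ} (ha : 0 < a.re) (hb : 0 < b.re) :
    Integrable (fun t : ℝ => 1 / ((a + t * Complex.I) * (b - t * Complex.I))) ∧
    ∫ t : ℝ, 1 / ((a + t * Complex.I) * (b - t * Complex.I)) = 2 * Real.pi / (a + b) := by
  refine ⟨scal_integrable ha hb, ?_⟩
  have hab : a + b ≠ 0 := by
    intro h
    have := congrArg Complex.re h
    simp at this
    linarith
  set G : ℝ → ℂ := fun t => Complex.I / (a + b) *
    (Complex.log (b - t * Complex.I) - Complex.log (a + t * Complex.I)) with hG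
  have hderiv : ∀ t : ℝ, HasDerivAt G (1 / ((a + t * Complex.I) * (b - t * Complex.I))) t := by
    intro t
    have hs1 : b - t * Complex.I ∈ Complex.slitPlane := by
      rw [Complex.mem_slitPlane_iff]
      left
      simpa using hb
    have hs2 : a + t * Complex.I ∈ Complex.slitPlane := by
      rw [Complex.mem_slitPlane_iff]
      left
      simpa using ha
    have d1 : HasDerivAt (fun t : ℝ => b - t * Complex.I) (-Complex.I) t := by
      have := ((hasDerivAt_id (t : ℂ)).comp_ofReal.mul_const Complex.I).const_sub b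
      simpa using this
    have d2 : HasDerivAt (fun t : ℝ => a + t * Complex.I) Complex.I t := by
      have := ((hasDerivAt_id (t : ℂ)).comp_ofReal.mul_const Complex.I).const_add a
      simpa using this
    have d3 := ((d1.clog_real hs1).sub (d2.clog_real hs2)).const_mul (Complex.I / (a + b))
    have n1 := scal_ne ha t
    have n2 := scal_ne' hb t
    refine d3.congr_deriv ?_
    rw [div_sub_div _ _ n2 n1, div_mul_div_comm, div_eq_div_iff
      (mul_ne_zero hab (mul_ne_zero n2 n1)) (mul_ne_zero n1 n2)]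
    linear_combination (-(a + b) * (b - t * Complex.I) * (a + t * Complex.I)) * Complex.I_mul_I
  have htop : Tendsto G atTop (𝓝 (Complex.I / (a + b) * (-(Real.pi * Complex.I)))) :=
    (scal_lim ha hb).const_mul _
  have hbot : Tendsto G atBot (𝓝 (Complex.I / (a + b) * (Real.pi * Complex.I))) := by
    have h1 := ((scal_lim hb ha).comp tendsto_neg_atBot_atTop).neg.const_mul (Complex.I / (a + b))
    rw [neg_neg] at h1
    refine h1.congr fun t => ?_
    simp only [hG, Function.comp, Complex.ofReal_neg]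
    congr 1
    rw [neg_sub]
    congr 2 <;> ring
  rw [integral_of_hasDerivAt_of_tendsto hderiv (scal_integrable ha hb) hbot htop]
  have : Complex.I / (a + b) * (-(Real.pi * Complex.I)) -
      Complex.I / (a + b) * (Real.pi * Complex.I) =
      -(Complex.I * Complex.I) * (2 * Real.pi / (a + b)) := by ring
  rw [this, Complex.I_mul_I]
  ring

end

end Pool.Agent.KL
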