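import Pool.Agent.Lib.KL.Roots
import Pool.Agent.Lib.KL.Scal

/-!
KL project, rows (2.1), (2.3), (2.4) (helper94): the integral formulas for the double sums.
-/

open Complex Finset MeasureTheory
open scoped Real

namespace Pool.Agent.KL

/-- Homogeneous form of (0.4). -/
theorem sum_cw_div_hom {n : ℕ} (hn : 0 < n) {s w : ℂ} (hs : s ≠ 0)
    (hw : ∀ j ∈ range n, w - zt n j * s ≠ 0) :
    ∑ j ∈ range n, cw n j / (w - zt n j * s) = s ^ (n - 1) / ∏ j ∈ range n, (w - zt n j * s) := by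
  have hx : ∀ j ∈ range n, w / s ≠ zt n j := by
    intro j hj h
    apply hw j hj
    rw [← h, div_mul_cancel₀ _ hs, sub_self]
  have h1 : ∀ j, w - zt n j * s = s * (w / s - zt n j) := by
    intro j
    field_simp
  have h2 := sum_cw_div hn hx
  have h3 : ∏ j ∈ range n, (w - zt n j * s) = s ^ n * ∏ j ∈ range n, (w / s - zt n j) := by
    rw [prod_congr rfl fun j _ => h1 j, prod_mul_distrib, prod_const, card_range]
  have h4 : ∑ j ∈ range n, cw n j / (w - zt n j * s) =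
      s⁻¹ * ∑ j ∈ range n, cw n j / (w / s - zt n j) := by
    rw [mul_sum]
    refine sum_congr rfl fun j _ => ?_
    rw [h1 j, div_mul_eq_div_div_swap]
    field_simp
  have h5 : s ^ n = s * s ^ (n - 1) := by
    rw [← pow_succ']
    congr 1
    omega
  rw [h4, h2, h3, h5]
  have h6 : s ^ (n - 1) ≠ 0 := pow_ne_zero _ hs
  field_simp

/-- The general formula behind (2.1) and (2.3). -/
theorem integral_formula {n : ℕ} (hn : 0 < n) {s w : ℂ} (hs : s ≠ 0)
    (hw : ∀ j ∈ range n, 0 < (w - zt n j * s).re) :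
    Integrable (fun t : ℝ => 1 / ∏ j ∈ range n, ((w - zt n j * s) ^ 2 + (t : ℂ) ^ 2)) ∧
    (∑ i ∈ range n, ∑ j ∈ range n, cw n i * cw n j / (2 * w - (zt n i + zt n j) * s)) =
      s ^ (2 * n - 2) * (1 / (2 * π) *
        ∫ t : ℝ, 1 / ∏ j ∈ range n, ((w - zt n j * s) ^ 2 + (t : ℂ) ^ 2)) := by
  have hpt : ∀ t : ℝ, s ^ (2 * n - 2) * (1 / ∏ j ∈ range n, ((w - zt n j * s) ^ 2 + (t : ℂ) ^ 2)) =
      ∑ i ∈ range n, ∑ j ∈ range n, cw n i * cw n j *
        (1 / (((w - zt n i * s) + t * I) * ((w - zt n j * s) - t * I))) := by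
    intro t
    have n1 : ∀ j ∈ range n, (w + t * I) - zt n j * s ≠ 0 := by
      intro j hj h
      have h1 := congrArg Complex.re h
      have h2 := hw j hj
      simp only [Complex.sub_re, Complex.add_re, Complex.mul_re, Complex.ofReal_re, Complex.I_re,
        mul_zero, Complex.ofReal_im, Complex.I_im, zero_mul, sub_self, add_zero, Complex.zero_re] at h1 h2
      linarith
    have n2 : ∀ j ∈ range n, (w - t * I) - zt n j * s ≠ 0 := by
      intro j hj h
      have h1 := congrArg Complex.re h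
      have h2 := hw j hj
      simp only [Complex.sub_re, Complex.mul_re, Complex.ofReal_re, Complex.I_re,
        mul_zero, Complex.ofReal_im, Complex.I_im, zero_mul, sub_self, sub_zero, Complex.zero_re] at h1 h2
      linarith
    have e1 := sum_cw_div_hom hn hs n1
    have e2 := sum_cw_div_hom hn hs n2
    have e3 : ∏ j ∈ range n, ((w - zt n j * s) ^ 2 + (t : ℂ) ^ 2) =
        (∏ j ∈ range n, ((w + t * I) - zt n j * s)) * ∏ j ∈ range n, ((w - t * I) - zt n j * s) := by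
      rw [← prod_mul_distrib]
      refine prod_congr rfl fun j _ => ?_
      linear_combination ((t : ℂ) ^ 2) * Complex.I_sq
    have e4 : s ^ (2 * n - 2) = s ^ (n - 1) * s ^ (n - 1) := by
      rw [← pow_add]
      congr 1
      omega
    rw [e3, e4]
    have e5 : s ^ (n - 1) * s ^ (n - 1) * (1 / ((∏ j ∈ range n, ((w + t * I) - zt n j * s)) *
        ∏ j ∈ range n, ((w - t * I) - zt n j * s))) =
        (s ^ (n - 1) / (∏ j ∈ range n, ((w + t * I) - zt n j * s))) *
        (s ^ (n - 1) / ∏ j ∈ range n, ((w - t * I) - zt n j * s)) := by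
      rw [div_mul_div_comm, mul_one_div]
    rw [e5, ← e1, ← e2, sum_mul_sum]
    refine sum_congr rfl fun i _ => sum_congr rfl fun j _ => ?_
    rw [div_mul_div_comm, mul_one_div]
    congr 1
    ring
  have hint : ∀ i ∈ range n, ∀ j ∈ range n, Integrable (fun t : ℝ => cw n i * cw n j *
      (1 / (((w - zt n i * s) + t * I) * ((w - zt n j * s) - t * I)))) := by
    intro i hi j hj
    exact (scal_integrable (hw i hi) (hw j hj)).const_mul _
  have hsum : Integrable (fun t : ℝ => ∑ i ∈ range n, ∑ j ∈ range n, cw n i * cw n j *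
      (1 / (((w - zt n i * s) + t * I) * ((w - zt n j * s) - t * I)))) :=
    integrable_finsetSum _ fun i hi => integrable_finsetSum _ fun j hj => hint i hi j hj
  have hs2 : s ^ (2 * n - 2) ≠ 0 := pow_ne_zero _ hs
  refine ⟨?_, ?_⟩
  · have h1 := hsum.const_mul (s ^ (2 * n - 2))⁻¹
    refine h1.congr (Filter.Eventually.of_forall fun t => ?_)
    show (s ^ (2 * n - 2))⁻¹ * (∑ i ∈ range n, ∑ j ∈ range n, cw n i * cw n j *
      (1 / (((w - zt n i * s) + t * I) * ((w - zt n j * s) - t * I)))) = _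
    rw [← hpt t, ← mul_assoc, inv_mul_cancel₀ hs2, one_mul]
  · have h2 : s ^ (2 * n - 2) * ∫ t : ℝ, 1 / ∏ j ∈ range n, ((w - zt n j * s) ^ 2 + (t : ℂ) ^ 2) =
        ∑ i ∈ range n, ∑ j ∈ range n, cw n i * cw n j * (2 * π / (2 * w - (zt n i + zt n j) * s)) := by
      rw [← integral_const_mul, integral_congr_ae (Filter.Eventually.of_forall hpt),
        integral_finsetSum _ fun i hi => integrable_finsetSum _ fun j hj => hint i hi j hj]
      refine sum_congr rfl fun i hi => ?_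
      rw [integral_finsetSum _ fun j hj => hint i hi j hj]
      refine sum_congr rfl fun j hj => ?_
      rw [integral_const_mul, (scal (hw i hi) (hw j hj)).2]
      congr 2
      ring
    have hpi : (2 * (π : ℂ)) ≠ 0 := by
      have := Real.pi_ne_zero
      simp [this]
    rw [mul_left_comm, h2, mul_sum]
    refine sum_congr rfl fun i _ => ?_
    rw [mul_sum]
    refine sum_congr rfl fun j _ => ?_
    field_simp

/-- Re (1 - zeta_j s) > 0 for |s| < 1. -/
theorem one_sub_re_pos {n j : ℕ} {s : ℂ} (hs : ‖s‖ < 1) : 0 < (1 - zt n j * s).re := by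
  have h1 : (zt n j * s).re ≤ ‖zt n j * s‖ := Complex.re_le_norm _
  rw [norm_mul, norm_zt, one_mul] at h1
  rw [Complex.sub_re, Complex.one_re]
  linarith

/-- **(2.1)** -/
theorem psi_formula {n : ℕ} (hn : 0 < n) {s : ℂ} (hs : s ≠ 0) (hs1 : ‖s‖ < 1) :
    Integrable (fun t : ℝ => 1 / ∏ j ∈ range n, ((1 - zt n j * s) ^ 2 + (t : ℂ) ^ 2)) ∧
    (∑ i ∈ range n, ∑ j ∈ range n, cw n i * cw n j / (2 - (zt n i + zt n j) * s)) =
      s ^ (2 * n - 2) * (1 / (2 * π) *
        ∫ t : ℝ, 1 / ∏ j ∈ range n, ((1 - zt n j * s) ^ 2 + (t : ℂ) ^ 2)) := by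
  have h := integral_formula hn (w := 1) hs fun j _ => one_sub_re_pos hs1
  rw [mul_one] at h
  exact h

/-- The double sum `W(mu)` as an integral, `Re mu ≥ 0`. -/
theorem W_formula {n : ℕ} (hn : 0 < n) {μ : ℂ} (hμ : 0 ≤ μ.re) :
    Integrable (fun t : ℝ => 1 / ∏ j ∈ range n, ((μ / 2 - zt n j) ^ 2 + (t : ℂ) ^ 2)) ∧
    (∑ i ∈ range n, ∑ j ∈ range n, cw n i * cw n j / (μ - zt n i - zt n j)) =
      1 / (2 * π) * ∫ t : ℝ, 1 / ∏ j ∈ range n, ((μ / 2 - zt n j) ^ 2 + (t : ℂ) ^ 2) := by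
  have h := integral_formula hn (s := 1) (w := μ / 2) one_ne_zero fun j hj => by
    have := zt_re_neg (mem_range.1 hj)
    have h2 : (μ / 2).re = μ.re / 2 := by
      rw [show (2 : ℂ) = ((2 : ℝ) : ℂ) by norm_num, Complex.div_ofReal_re]
    rw [mul_one, Complex.sub_re, h2]
    linarith
  simp only [mul_one, one_pow, one_mul] at h
  refine ⟨h.1, ?_⟩
  rw [← h.2]
  refine sum_congr rfl fun i _ => sum_congr rfl fun j _ => ?_
  congr 1
  ring

/-- `∏ (zeta_j^2 + t^2) = 1 + t^(2n)`. -/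
theorem prod_sq_add {n : ℕ} (hn : 0 < n) (he : Even n) (t : ℂ) :
    ∏ j ∈ range n, ((zt n j) ^ 2 + t ^ 2) = 1 + t ^ (2 * n) := by
  have h1 := prod_zt_mul hn he (t * I)
  have h2 : ∀ j ∈ range n, ((zt n j) ^ 2 + t ^ 2) = (-1) * ((t * I - zt n j) * (t * I + zt n j)) := by
    intro j _
    linear_combination (t ^ 2) * Complex.I_sq
  rw [prod_congr rfl h2, prod_mul_distrib, prod_mul_distrib, h1, prod_const, card_range, he.neg_one_pow,
    one_mul, mul_pow, pow_mul I, Complex.I_sq, he.neg_one_pow, mul_one, add_comm]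

/-- **(2.3)** -/
theorem W_zero {n : ℕ} (hn : 0 < n) (he : Even n) :
    Integrable (fun t : ℝ => 1 / (1 + t ^ (2 * n))) ∧
    (∑ i ∈ range n, ∑ j ∈ range n, cw n i * cw n j / (-zt n i - zt n j)) =
      ((1 / (2 * π) * ∫ t : ℝ, 1 / (1 + t ^ (2 * n)) : ℝ) : ℂ) := by
  have h := W_formula hn (μ := 0) (by simp)
  simp only [zero_div, zero_sub, neg_sq] at h
  have h3 : ∀ t : ℝ, 1 / ∏ j ∈ range n, ((zt n j) ^ 2 + (t : ℂ) ^ 2) =
      ((1 / (1 + t ^ (2 * n)) : ℝ) : ℂ) := by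
    intro t
    rw [prod_sq_add hn he]
    push_cast
    rfl
  simp only [h3] at h
  obtain ⟨h4, h5⟩ := h
  refine ⟨?_, ?_⟩
  · refine h4.re.congr (Filter.Eventually.of_forall fun t => ?_)
    exact Complex.ofReal_re _
  · rw [h5]
    have h6 : ∫ t : ℝ, ((1 / (1 + t ^ (2 * n)) : ℝ) : ℂ) = ((∫ t : ℝ, 1 / (1 + t ^ (2 * n)) : ℝ) : ℂ) :=
      integral_ofReal
    rw [h6]
    push_cast
    rfl

theorem integral_W_zero_le {n : ℕ} (hn : 0 < n) (he : Even n) :
    0 < (1 / (2 * π) * ∫ t : ℝ, 1 / (1 + t ^ (2 * n)) : ℝ) ∧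
    (1 / (2 * π) * ∫ t : ℝ, 1 / (1 + t ^ (2 * n)) : ℝ) ≤ 1 := by
  have hi := (W_zero hn he).1
  have hpos : ∀ t : ℝ, 0 < 1 / (1 + t ^ (2 * n)) := by
    intro t
    have : 0 ≤ t ^ (2 * n) := (even_two_mul n).pow_nonneg t
    positivity
  have hle : ∀ t : ℝ, 1 / (1 + t ^ (2 * n)) ≤ 2 * (1 + t ^ 2)⁻¹ := by
    intro t
    have h0 : 0 ≤ t ^ (2 * n) := (even_two_mul n).pow_nonneg t
    have h1 : 1 + t ^ 2 ≤ 2 * (1 + t ^ (2 * n)) := by
      rcases le_or_gt (t ^ 2) 1 with h | h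
      · linarith
      · have : t ^ 2 ≤ t ^ (2 * n) := by
          rw [pow_mul]
          calc t ^ 2 = (t ^ 2) ^ 1 := (pow_one _).symm
            _ ≤ (t ^ 2) ^ n := pow_le_pow_right₀ h.le hn
        linarith
    rw [← div_eq_mul_inv, div_le_div_iff₀ (by positivity) (by positivity)]
    linarith
  have hI : ∫ t : ℝ, 1 / (1 + t ^ (2 * n)) ≤ 2 * π := by
    have h2 := integral_mono hi (integrable_inv_one_add_sq.const_mul 2) hle
    rwa [integral_const_mul, integral_univ_inv_one_add_sq] at h2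
  have hI0 : 0 < ∫ t : ℝ, 1 / (1 + t ^ (2 * n)) := by
    rw [integral_pos_iff_support_of_nonneg (fun t => (hpos t).le) hi]
    have : Function.support (fun t : ℝ => 1 / (1 + t ^ (2 * n))) = Set.univ := by
      ext t
      simpa using (hpos t).ne'
    rw [this]
    simp
  refine ⟨by positivity, ?_⟩
  rw [one_div, inv_mul_le_iff₀ (by positivity), mul_one]
  exact hI

/-- Homogeneous form of (0.1). -/
theorem prod_hom {n : ℕ} (hn : 0 < n) (he : Even n) (w s : ℂ) :
    ∏ j ∈ range n, ((w - zt n j * s) * (w + zt n j * s)) = w ^ (2 * n) + s ^ (2 * n) := by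
  rcases eq_or_ne s 0 with rfl | hs
  · simp only [mul_zero, sub_zero, add_zero, prod_const, card_range]
    rw [zero_pow (by omega), add_zero, ← pow_two, ← pow_mul]
  · have h1 := prod_zt_mul hn he (w / s)
    have h2 : ∀ j ∈ range n, (w - zt n j * s) * (w + zt n j * s) =
        s ^ 2 * ((w / s - zt n j) * (w / s + zt n j)) := by
      intro j _
      field_simp
    rw [prod_congr rfl h2, prod_mul_distrib, prod_const, card_range, prod_mul_distrib, h1, ← pow_mul,
      div_pow, mul_add, mul_one, mul_div_cancel₀ _ (pow_ne_zero _ hs)]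

/-- **(2.4)**, identity. -/
theorem norm_prod_im {n : ℕ} (hn : 0 < n) (he : Even n) (τ t : ℝ) :
    ‖∏ j ∈ range n, ((1 - zt n j * (I * τ)) ^ 2 + (t : ℂ) ^ 2)‖ =
      ‖(1 + t * I) ^ (2 * n) + (τ : ℂ) ^ (2 * n)‖ := by
  have h1 : ∀ j ∈ range n, (1 - zt n j * (I * τ)) ^ 2 + (t : ℂ) ^ 2 =
      ((1 + t * I) - zt n j * (I * τ)) * ((1 - t * I) - zt n j * (I * τ)) := by
    intro j _
    linear_combination ((t : ℂ) ^ 2) * Complex.I_sq
  have h2 : ∏ j ∈ range n, ((1 - t * I) - zt n j * (I * τ)) =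
      (starRingEnd ℂ) (∏ j ∈ range n, ((1 + t * I) + zt n j * (I * τ))) := by
    rw [map_prod, ← Finset.prod_range_reflect]
    refine prod_congr rfl fun j hj => ?_
    rw [zt_symm (mem_range.1 hj)]
    simp only [map_add, map_mul, map_one, Complex.conj_ofReal, Complex.conj_I]
    ring
  rw [prod_congr rfl h1, prod_mul_distrib, h2, norm_mul, Complex.norm_conj, ← norm_mul,
    ← prod_mul_distrib, prod_hom hn he, mul_pow I, pow_mul I, Complex.I_sq, he.neg_one_pow, one_mul]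

/-- **(2.4)**, bound. -/
theorem le_norm_prod_im {n : ℕ} (hn : 0 < n) (he : Even n) (τ t : ℝ) :
    (1 + t ^ 2) ^ n - τ ^ (2 * n) ≤
      ‖∏ j ∈ range n, ((1 - zt n j * (I * τ)) ^ 2 + (t : ℂ) ^ 2)‖ := by
  rw [norm_prod_im hn he]
  have h1 : ‖(1 + t * I : ℂ)‖ ^ (2 * n) = (1 + t ^ 2) ^ n := by
    rw [pow_mul, ← Complex.normSq_eq_norm_sq]
    congr 1
    rw [show (1 + t * I : ℂ) = ((1 : ℝ) : ℂ) + t * I by push_cast; ring, Complex.normSq_add_mul_I]
    ring
  have h2 : ‖(τ : ℂ) ^ (2 * n)‖ = τ ^ (2 * n) := by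
    rw [norm_pow, Complex.norm_real, Real.norm_eq_abs, (even_two_mul n).pow_abs]
  calc (1 + t ^ 2) ^ n - τ ^ (2 * n) = ‖(1 + t * I : ℂ) ^ (2 * n)‖ - ‖(τ : ℂ) ^ (2 * n)‖ := by
        rw [norm_pow, h1, h2]
    _ ≤ ‖(1 + t * I) ^ (2 * n) + (τ : ℂ) ^ (2 * n)‖ := by
        have := norm_sub_norm_le ((1 + t * I : ℂ) ^ (2 * n)) (-(τ : ℂ) ^ (2 * n))
        rwa [norm_neg, sub_neg_eq_add] at this

end Pool.Agent.KL
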