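import Pool.Agent.Lib.KL.Main

/-!
KL project: the test function on Euclidean space (helper35).
-/

open MeasureTheory Filter Topology
open scoped Real

namespace Pool.Agent.KL

noncomputable section

set_option maxHeartbeats 4000000 in
theorem test_fun {n : ℕ} (hn : 10 ≤ n) (he : Even n) :
    ∃ (ν : Measure (EuclideanSpace ℝ (Fin (4 * n)))) (F : EuclideanSpace ℝ (Fin (4 * n)) → ℝ),
      IsFiniteMeasure ν ∧ (∀ z, F z = ∫ w, Real.cos (inner ℝ w z) ∂ν) ∧ Integrable F ∧
      0 < ∫ z, F z ∧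
      (∀ z, 2 / Real.sin (π / (2 * n)) + 23 * √n * (1 + Real.log n) ≤ ‖z‖ ^ 2 → F z ≤ 0) ∧
      F 0 / ∫ z, F z ≤
        9 * π * Real.exp 9 * (n : ℝ) ^ 0 * Real.exp (6 * √n) / π ^ (2 * n) := by
  have hq1 : ∀ u, 0 ≤ u → |qR (cf n) (zf n) u| ≤ 1 := fun _ hu => qR_abs_le (by omega) he hu
  have hn0 : 0 < n := by omega
  have hnR : (10 : ℝ) ≤ n := by exact_mod_cast hn
  have hsq : 0 < √(n : ℝ) := Real.sqrt_pos.2 (by linarith)
  have hsqsq : √(n : ℝ) * √(n : ℝ) = n := Real.mul_self_sqrt (by linarith)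
  have hsq3 : 3 < √(n : ℝ) := by
    rw [Real.lt_sqrt (by norm_num)]; linarith
  set e : ℝ := 1 / √(n : ℝ) with hedef
  have he0 : 0 < e := by positivity
  have he3 : e < 1 / 3 := by
    rw [hedef]
    exact one_div_lt_one_div_of_lt (by norm_num) hsq3
  have hne : (n : ℝ) * e ^ 2 = 1 := by
    rw [hedef, div_pow, one_pow, Real.sq_sqrt (by linarith)]
    field_simp
  have hen : e * n = √(n : ℝ) := by
    rw [hedef]
    field_simp
    rw [sq, hsqsq]
  set S0 := SS (zf n) with hS0def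
  have hS0 : 0 ≤ S0 := SS_zf_nonneg n
  have hS0n : S0 ≤ n := SS_zf_le n
  have heS : e * S0 ≤ √(n : ℝ) := by
    rw [← hen]; exact mul_le_mul_of_nonneg_left hS0n he0.le
  set q := qR (cf n) (zf n) with hqdef
  set P := PR (cf n) (zf n) with hPdef
  have hq : Continuous q := continuous_qR
  have hP : ∀ s, 0 < s → ∫ u in Set.Ioi (0 : ℝ), q u * Real.exp (-(s * u)) = P s := fun s hs =>
    qR_laplace (by omega) sum_cf_pow Fin.revPerm (fun j => cf_rev j) (fun j => zf_rev j)
      (fun j => zf_re j) hs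
  obtain ⟨hSc, hSi, hSb, hSL, hS3⟩ := sn_key he0 hq hq1 hP
  -- bounds for `P`
  have h1 : P e ≤ 1 / 2 * Real.exp (-(2 * e * S0) + 5) := by
    refine (PR_upper hn0 he he0 (by linarith) ?_).trans ?_
    · have : 2 * e * S0 ≤ 2 * √(n : ℝ) := by nlinarith
      nlinarith
    · refine mul_le_mul_of_nonneg_left (Real.exp_le_exp.2 ?_) (by norm_num)
      nlinarith
  have hPl : ∀ k : ℝ, 0 < k → k ≤ 3 →
      1 / (3 * π * √n) * Real.exp (-(2 * k * (e * S0) + k ^ 2)) ≤ P (k * e) := by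
    intro k hk0 hk3
    have h := PR_lower hn0 he (s := k * e) (by positivity) (by nlinarith)
    have h2 : -(2 * (k * e) * SS (zf n) + n * (k * e) ^ 2) = -(2 * k * (e * S0) + k ^ 2) := by
      rw [← hS0def]
      linear_combination (-k ^ 2) * hne
    rw [h2] at h
    exact h
  have h2 : 1 / (10 * n) * Real.exp (-(4 * e * S0) - 12) ≤ P (2 * e) := by
    refine le_trans ?_ (hPl 2 (by norm_num) (by norm_num))
    refine mul_le_mul ?_ (Real.exp_le_exp.2 (by linarith)) (Real.exp_pos _).le (by positivity)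
    refine one_div_le_one_div_of_le (by positivity) ?_
    have hpi : π < 3.15 := Real.pi_lt_d2
    nlinarith
  have hneg := sn_neg (q := q) (P := P) (e := e) (S0 := S0) (c := 10) (n := n) (by omega) hedef
    (by norm_num) hS0 hq hq1 hP h1 h2
  -- the positive definite function
  obtain ⟨ν, F, hν, hF, hFi, hFS, hF0, hFI⟩ := pos_key (n := n) (by omega)
    (h := hR (cf n) (zf n)) (S := SnF q e) he0
    continuous_hR.measurable
    (hR_sq_integrable Fin.revPerm (fun j => cf_rev j) (fun j => zf_rev j) (fun j => zf_re j))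
    hSc.continuousOn hSi hSb (by
      intro l hl
      rw [hSL l (le_of_lt hl)]
      congr 1
      exact (PR_eq (c := cf n) (ζ := zf n) hn0 Fin.revPerm (fun j => cf_rev j)
        (fun j => zf_rev j) (fun j => zf_re j) (by positivity)).2)
  have hP3 := hPl 3 (by norm_num) le_rfl
  have hP3pos : 0 < P (3 * e) := lt_of_lt_of_le (by positivity) hP3
  have hlog : 0 ≤ Real.log n := Real.log_nonneg (by linarith)
  set R : ℝ := 2 * S0 + √(n : ℝ) * (20 + Real.log (10 * n)) with hRdef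
  have hlog10 : 0 ≤ Real.log (10 * n) := Real.log_nonneg (by linarith)
  have hRpos : 0 < R := by
    rw [hRdef]
    have : 0 < √(n : ℝ) * (20 + Real.log (10 * n)) := by positivity
    linarith
  have hFpos : 0 < ∫ z, F z := by
    rw [hFI, hS3]
    positivity
  have hFneg : ∀ z, R ≤ ‖z‖ ^ 2 → F z ≤ 0 := by
    intro z hz
    have hzpos : 0 < ‖z‖ ^ 2 := lt_of_lt_of_le hRpos hz
    have hz0 : z ≠ 0 := by
      rintro rfl
      simp at hzpos
    have h3 := hFS z hz0
    have h4 : SnF q e (‖z‖ ^ 2) ≤ 0 := hneg _ hz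
    have h5 : (‖z‖ ^ 2) ^ (2 * n - 1) * F z ≤ 0 := by
      rw [h3]
      exact mul_nonpos_of_nonneg_of_nonpos (by positivity) h4
    by_contra h6
    push Not at h6
    have h7 : 0 < (‖z‖ ^ 2) ^ (2 * n - 1) * F z := by positivity
    linarith
  have hRle : R ≤ 2 / Real.sin (π / (2 * n)) + 23 * √n * (1 + Real.log n) := by
    have h3 : 2 * S0 = 2 / Real.sin (π / (2 * n)) := by
      rw [hS0def, SS_zf hn0]; ring
    have h4 : Real.log (10 * n) = Real.log 10 + Real.log n :=
      Real.log_mul (by norm_num) (by linarith)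
    have h5 : Real.log 10 ≤ 3 := by
      rw [Real.log_le_iff_le_exp (by norm_num)]
      have h6 : (2.7182818283 : ℝ) < Real.exp 1 := Real.exp_one_gt_d9
      have h7 : Real.exp 3 = Real.exp 1 ^ 3 := by rw [← Real.exp_nat_mul]; norm_num
      rw [h7]
      have : (2.7182818283 : ℝ) ^ 3 < Real.exp 1 ^ 3 := pow_lt_pow_left₀ h6 (by norm_num) (by norm_num)
      norm_num at this ⊢
      linarith
    rw [hRdef, h3, h4]
    have h6 : √(n : ℝ) * (20 + (Real.log 10 + Real.log n)) ≤ 23 * √n * (1 + Real.log n) := by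
      nlinarith [mul_nonneg hsq.le hlog]
    linarith
  have hQle : F 0 / ∫ z, F z ≤
      9 * π * Real.exp 9 * (n : ℝ) ^ 0 * Real.exp (6 * √n) / π ^ (2 * n) := by
    rw [hF0, hFI, hS3]
    have hh := hR_le_one hn0 he
    have hpipow : 0 < π ^ (2 * n) := by positivity
    rw [div_le_div_iff₀ (by positivity) hpipow, pow_zero, mul_one]
    have h3 : Real.exp (-(2 * 3 * (e * S0) + 3 ^ 2)) * (Real.exp 9 * Real.exp (6 * √n)) ≥ 1 := by
      rw [← Real.exp_add, ← Real.exp_add]
      refine Real.one_le_exp ?_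
      nlinarith
    have h4 : 3 * e / 2 * (∫ v in Set.Ioi (0 : ℝ), hR (cf n) (zf n) v ^ 2) ≤ 3 * e / 2 := by
      have : 0 ≤ 3 * e / 2 := by positivity
      nlinarith
    have h5 : 3 * e / 2 ≤ 9 * π * Real.exp 9 * Real.exp (6 * √n) * (P (3 * e) / 2) := by
      have h6 : 1 / (3 * π * √n) * (Real.exp (-(2 * 3 * (e * S0) + 3 ^ 2)) *
          (Real.exp 9 * Real.exp (6 * √n))) ≤ P (3 * e) * (Real.exp 9 * Real.exp (6 * √n)) := by
        rw [← mul_assoc]
        exact mul_le_mul_of_nonneg_right hP3 (by positivity)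
      have h7 : 1 / (3 * π * √n) * 1 ≤ 1 / (3 * π * √n) *
          (Real.exp (-(2 * 3 * (e * S0) + 3 ^ 2)) * (Real.exp 9 * Real.exp (6 * √n))) :=
        mul_le_mul_of_nonneg_left h3 (by positivity)
      have h8 : 3 * e / 2 = 9 * π / 2 * (1 / (3 * π * √n) * 1) := by
        rw [hedef]
        field_simp
        norm_num
      rw [h8]
      have h9 : 9 * π * Real.exp 9 * Real.exp (6 * √n) * (P (3 * e) / 2) =
          9 * π / 2 * (P (3 * e) * (Real.exp 9 * Real.exp (6 * √n))) := by ring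
      rw [h9]
      exact mul_le_mul_of_nonneg_left (h7.trans h6) (by positivity)
    calc 3 * e / 2 * (∫ v in Set.Ioi (0 : ℝ), hR (cf n) (zf n) v ^ 2) * π ^ (2 * n) ≤
        9 * π * Real.exp 9 * Real.exp (6 * √n) * (P (3 * e) / 2) * π ^ (2 * n) :=
          mul_le_mul_of_nonneg_right (h4.trans h5) hpipow.le
      _ = _ := by ring
  exact ⟨ν, F, hν, hF, hFi, hFpos, fun z hz => hFneg z (hRle.trans hz), hQle⟩

/-- The form used for packings. -/
theorem test_exists : ∃ (A B D : ℝ) (C n0 : ℕ), 0 < B ∧ ∀ n : ℕ, n0 ≤ n → Even n →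
    ∃ (ν : Measure (EuclideanSpace ℝ (Fin (4 * n)))) (F : EuclideanSpace ℝ (Fin (4 * n)) → ℝ),
      IsFiniteMeasure ν ∧ (∀ z, F z = ∫ w, Real.cos (inner ℝ w z) ∂ν) ∧ Integrable F ∧
      0 < ∫ z, F z ∧
      (∀ z, 2 / Real.sin (π / (2 * n)) + A * √n * (1 + Real.log n) ≤ ‖z‖ ^ 2 → F z ≤ 0) ∧
      F 0 / ∫ z, F z ≤ B * (n : ℝ) ^ C * Real.exp (D * √n) / π ^ (2 * n) :=
  ⟨23, 9 * π * Real.exp 9, 6, 0, 10, by positivity, fun _ hn he => test_fun hn he⟩

end

end Pool.Agent.KL
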