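import Pool.Agent.Lib.KL.PackNum
import Pool.Agent.Lib.KL.Test

/-!
The density of packings of `ℝᵈ` by congruent balls: `Δ_d ≤ 2 ^ (-(0.6044 + o(1)) d)`.
-/

set_option autoImplicit false

namespace Pool.Agent.Lib.KL.Pack

open MeasureTheory Filter Topology Metric Real

theorem density_le_one {n : ℕ} (ρ : ℝ) (C : Set (EuclideanSpace ℝ (Fin n))) :
    density ρ C ≤ 1 := by
  refine limsup_le_of_le ?_ ?_
  · exact isCoboundedUnder_le_of_le atTop (x := 0) fun R => by positivity
  · filter_upwards [eventually_gt_atTop 0] with R hR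
    have h0 : 0 < volume.real (ball (0 : EuclideanSpace ℝ (Fin n)) R) := by
      rw [measureReal_def]
      exact ENNReal.toReal_pos (measure_ball_pos _ _ hR).ne' measure_ball_lt_top.ne
    rw [div_le_one h0]
    exact measureReal_mono Set.inter_subset_left measure_ball_lt_top.ne

/-- The supremum of the densities of the packings of `ℝⁿ` by congruent balls. -/
noncomputable def Delta (n : ℕ) : ℝ :=
  sSup {δ : ℝ | ∃ (ρ : ℝ) (C : Set (EuclideanSpace ℝ (Fin n))), IsPacking ρ C ∧ δ = density ρ C}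

theorem density_le_Delta {n : ℕ} {ρ : ℝ} {C : Set (EuclideanSpace ℝ (Fin n))}
    (h : IsPacking ρ C) : density ρ C ≤ Delta n := by
  refine le_csSup ⟨1, ?_⟩ ⟨ρ, C, h, rfl⟩
  rintro _ ⟨ρ', C', -, rfl⟩
  exact density_le_one _ _

/-- **The density of packings of balls.** -/
theorem packing_bound {κ : ℝ} (hκ : κ < logb 2 (2 * π / exp 1) / 2) :
    ∀ᶠ d : ℕ in atTop, Delta d ≤ (2 : ℝ) ^ (-(κ * d)) := by
  obtain ⟨A, B, D, C, n0, hB, H⟩ := Pool.Agent.KL.test_exists
  filter_upwards [pack_final hB H hκ] with d hd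
  refine csSup_le ⟨density 1 (∅ : Set (EuclideanSpace ℝ (Fin d))), 1, ∅,
    ⟨one_pos, Set.pairwiseDisjoint_empty⟩, rfl⟩ ?_
  rintro _ ⟨ρ, X, h, rfl⟩
  exact hd ρ X h

/-- The numerical value of the exponent. -/
theorem exponent_gt : (0.604 : ℝ) < logb 2 (2 * π / exp 1) / 2 := by
  have hlog2 : 0 < log 2 := log_pos (by norm_num)
  have h1 : exp (0.1442 : ℝ) ≤ 1.1552 := by
    refine (Real.exp_bound' (by norm_num) (by norm_num) (n := 4) (by norm_num)).trans ?_
    simp only [Finset.sum_range_succ, Finset.sum_range_zero, Nat.factorial]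
    norm_num
  have h2 : (1.1442 : ℝ) < log π := by
    rw [Real.lt_log_iff_exp_lt pi_pos]
    have h3 : exp (1.1442 : ℝ) = exp 1 * exp 0.1442 := by
      rw [← Real.exp_add]; norm_num
    rw [h3]
    have h4 := Real.exp_one_lt_d9
    have h5 := Real.pi_gt_d6
    have h6 : exp 1 * exp (0.1442 : ℝ) ≤ 2.7182818286 * 1.1552 :=
      mul_le_mul h4.le h1 (exp_pos _).le (by norm_num)
    refine lt_of_le_of_lt h6 ?_
    norm_num at h5 ⊢
    linarith
  have h7 := Real.log_two_lt_d9
  rw [logb, log_div (by positivity) (by positivity), log_exp,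
    log_mul (by norm_num) pi_pos.ne', div_div, lt_div_iff₀ (by positivity)]
  norm_num at h7 h2 ⊢
  linarith

/-- The density of packings is eventually at most `2 ^ (-0.604 d)`. -/
theorem packing_bound_num : ∀ᶠ d : ℕ in atTop, Delta d ≤ (2 : ℝ) ^ (-(0.604 * d : ℝ)) :=
  packing_bound exponent_gt

end Pool.Agent.Lib.KL.Pack
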