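import Pool.Agent.Lib.MP_ef2672_gt_Tauber.Super

/-!
KL project, rows K14, K15, K16: limits (helper35).
-/

open Filter Topology Real Pool.Agent.Lib.MP_ef2672_gt_Tauber

namespace Pool.Agent.KL

lemma tendsto_inv_n : Tendsto (fun n : ℕ => 1 / (n : ℝ)) atTop (𝓝 0) :=
  tendsto_one_div_atTop_nhds_zero_nat

lemma tendsto_sin : Tendsto (fun n : ℕ => (n : ℝ) * Real.sin (π / (2 * n))) atTop (𝓝 (π / 2)) := by
  have h1 : Tendsto (fun n : ℕ => π / (2 * (n : ℝ))) atTop (𝓝 0) := by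
    have h := tendsto_inv_n.const_mul (π / 2)
    rw [mul_zero] at h
    refine h.congr' ?_
    filter_upwards [eventually_gt_atTop 0] with n hn
    have : (n : ℝ) ≠ 0 := by exact_mod_cast hn.ne'
    field_simp
  have h2 : Tendsto (fun x : ℝ => Real.sinc x) (𝓝 0) (𝓝 1) := by
    have h := Real.continuous_sinc.tendsto 0
    rwa [Real.sinc_zero] at h
  have h3 := (h2.comp h1).const_mul (π / 2)
  rw [mul_one] at h3
  refine h3.congr' ?_
  filter_upwards [eventually_gt_atTop 0] with n hn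
  have hn0 : (n : ℝ) ≠ 0 := by exact_mod_cast hn.ne'
  have hx : π / (2 * (n : ℝ)) ≠ 0 := by positivity
  simp only [Function.comp]
  rw [Real.sinc_of_ne_zero hx]
  field_simp

lemma tendsto_log_div_sqrt :
    Tendsto (fun n : ℕ => Real.log n / Real.sqrt n) atTop (𝓝 0) := by
  have h := (isLittleO_log_rpow_atTop (r := 1 / 2) (by norm_num)).tendsto_div_nhds_zero
  have h2 := h.comp tendsto_natCast_atTop_atTop
  refine h2.congr fun n => ?_
  simp only [Function.comp]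
  rw [← Real.sqrt_eq_rpow]

lemma tendsto_inv_sqrt : Tendsto (fun n : ℕ => 1 / Real.sqrt n) atTop (𝓝 0) := by
  have h : Tendsto (fun n : ℕ => Real.sqrt n) atTop atTop :=
    Real.tendsto_sqrt_atTop.comp tendsto_natCast_atTop_atTop
  refine h.inv_tendsto_atTop.congr fun n => ?_
  simp

lemma sqrt_div_self' {n : ℕ} (hn : 0 < n) : Real.sqrt n / n = 1 / Real.sqrt n := by
  have h0 : (0 : ℝ) < n := by exact_mod_cast hn
  have h1 : Real.sqrt n ≠ 0 := (Real.sqrt_pos.2 h0).ne'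
  rw [div_eq_div_iff h0.ne' h1, Real.mul_self_sqrt h0.le, one_mul]

/-- The radius. -/
lemma tendsto_radius (A : ℝ) :
    Tendsto (fun n : ℕ => (2 / Real.sin (π / (2 * n)) + A * Real.sqrt n * (1 + Real.log n)) /
      (4 * n)) atTop (𝓝 (1 / π)) := by
  have h1 := (tendsto_sin.inv₀ (by positivity)).const_mul (1 / 2 : ℝ)
  have h2 : Tendsto (fun n : ℕ => A / 4 * (1 / Real.sqrt n + Real.log n / Real.sqrt n)) atTop
      (𝓝 (A / 4 * (0 + 0))) := (tendsto_inv_sqrt.add tendsto_log_div_sqrt).const_mul _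
  have h3 := h1.add h2
  have h4 : (1 / 2 : ℝ) * (π / 2)⁻¹ + A / 4 * (0 + 0) = 1 / π := by
    have := Real.pi_pos
    field_simp
    ring
  rw [h4] at h3
  refine h3.congr' ?_
  filter_upwards [eventually_gt_atTop 1] with n hn
  have h0 : (0 : ℝ) < n := by exact_mod_cast (by omega : 0 < n)
  have hs : 0 < Real.sin (π / (2 * n)) := by
    apply Real.sin_pos_of_pos_of_lt_pi (by positivity)
    have : (1 : ℝ) < n := by exact_mod_cast hn
    rw [div_lt_iff₀ (by positivity)]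
    nlinarith [Real.pi_pos]
  have h5 := sqrt_div_self' (n := n) (by omega)
  have h6 : Real.sqrt n / n * (1 + Real.log n) = 1 / Real.sqrt n + Real.log n / Real.sqrt n := by
    rw [h5]; ring
  rw [← h6]
  field_simp
  ring

/-- The value at the origin against the integral. -/
lemma tendsto_ratio {B : ℝ} (hB : 0 < B) (C : ℕ) (D : ℝ) :
    Tendsto (fun n : ℕ => (B * (n : ℝ) ^ C * Real.exp (D * Real.sqrt n) / π ^ (2 * n)) ^
      ((2 : ℝ) / (4 * n))) atTop (𝓝 (1 / π)) := by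
  have h1 : Tendsto (fun n : ℕ => Real.exp (Real.log B / 2 * (1 / (n : ℝ)) +
      C / 2 * (Real.log n / Real.sqrt n * (1 / Real.sqrt n)) + D / 2 * (1 / Real.sqrt n)) / π)
      atTop (𝓝 (Real.exp (Real.log B / 2 * 0 + C / 2 * (0 * 0) + D / 2 * 0) / π)) := by
    refine Tendsto.div_const ?_ _
    refine (Real.continuous_exp.tendsto _).comp ?_
    exact ((tendsto_inv_n.const_mul _).add
      ((tendsto_log_div_sqrt.mul tendsto_inv_sqrt).const_mul _)).add
      (tendsto_inv_sqrt.const_mul _)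
  have h2 : Real.exp (Real.log B / 2 * 0 + C / 2 * (0 * 0) + D / 2 * 0) / π = 1 / π := by simp
  rw [h2] at h1
  refine h1.congr' ?_
  filter_upwards [eventually_gt_atTop 0] with n hn
  have h0 : (0 : ℝ) < n := by exact_mod_cast hn
  have hs : 0 < Real.sqrt n := Real.sqrt_pos.2 h0
  have hpi := Real.pi_pos
  rw [Real.rpow_def_of_pos (by positivity), Real.log_div (by positivity) (by positivity),
    Real.log_mul (by positivity) (by positivity), Real.log_mul (by positivity) (by positivity),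
    Real.log_exp, Real.log_pow, Real.log_pow]
  have h3 : (Real.log B + C * Real.log n + D * Real.sqrt n - ((2 * n : ℕ) : ℝ) * Real.log π) *
      (2 / (4 * n)) = (Real.log B / 2 * (1 / (n : ℝ)) +
      C / 2 * (Real.log n / Real.sqrt n * (1 / Real.sqrt n)) + D / 2 * (1 / Real.sqrt n)) -
      Real.log π := by
    have h4 : Real.log n / Real.sqrt n * (1 / Real.sqrt n) = Real.log n / n := by
      rw [div_mul_div_comm, mul_one, Real.mul_self_sqrt h0.le]
    rw [h4, ← sqrt_div_self' hn]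
    push_cast
    field_simp
    ring
  rw [h3, Real.exp_sub, Real.exp_log hpi]

/-- Row K14: bounds in the dimensions `4n`, `n` even, give the limit. -/
theorem limit_even {A B D : ℝ} {C n0 : ℕ} (hB : 0 < B)
    (H : ∀ n : ℕ, n0 ≤ n → Even n → gamma (4 * n) ≤
      (2 / Real.sin (π / (2 * n)) + A * Real.sqrt n * (1 + Real.log n)) *
      (B * (n : ℝ) ^ C * Real.exp (D * Real.sqrt n) / π ^ (2 * n)) ^ ((2 : ℝ) / (4 * n)))
    {δ : ℝ} (hδ : 0 < δ) : ∀ᶠ n : ℕ in atTop, Even n → c (4 * n) ≤ 1 / π ^ 2 + δ := by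
  have h1 := (tendsto_radius A).mul (tendsto_ratio hB C D)
  have h2 : (1 / π) * (1 / π) = 1 / π ^ 2 := by ring
  rw [h2] at h1
  filter_upwards [h1.eventually_lt_const (show 1 / π ^ 2 < 1 / π ^ 2 + δ by linarith),
    eventually_ge_atTop n0, eventually_gt_atTop 0] with n hn h3 h4 h5
  refine le_trans ?_ hn.le
  have h0 : (0 : ℝ) < n := by exact_mod_cast h4
  unfold c
  push_cast
  rw [div_le_iff₀ (by positivity)]
  refine le_trans (H n h3 h5) (le_of_eq ?_)
  field_simp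

/-- Row K15: all dimensions. -/
theorem limit_all {δ : ℝ} (hδ : 0 < δ)
    (H : ∀ᶠ n : ℕ in atTop, Even n → c (4 * n) ≤ 1 / π ^ 2 + δ / 2) :
    ∀ᶠ d : ℕ in atTop, c d ≤ 1 / π ^ 2 + δ := by
  obtain ⟨ε, hε, h1⟩ := slow_decrease (δ / 2) (by linarith)
  obtain ⟨n0, h2⟩ := eventually_atTop.1 H
  obtain ⟨m0, h3⟩ := exists_nat_gt (7 / ε)
  filter_upwards [eventually_ge_atTop (4 * n0 + m0 + 1)] with d hd
  obtain ⟨k, m, hm, hk⟩ : ∃ k m : ℕ, m ≤ 7 ∧ d + m = 8 * k :=
    ⟨(d + 7) / 8, 8 * ((d + 7) / 8) - d, by omega, by omega⟩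
  have h4 := h2 (2 * k) (by omega) (even_two_mul k)
  have h5 := h1 d m (by omega) (by
    have h6 : (m : ℝ) ≤ 7 := by exact_mod_cast hm
    have h7 : (m0 : ℝ) ≤ d := by exact_mod_cast (by omega : m0 ≤ d)
    rw [div_lt_iff₀ hε] at h3
    nlinarith)
  rw [hk] at h5
  rw [show 4 * (2 * k) = 8 * k by ring] at h4
  linarith

/-- Row K16: `limsup γ_n / n ≤ 1 / π²`. -/
theorem final {A B D : ℝ} {C n0 : ℕ} (hB : 0 < B)
    (H : ∀ n : ℕ, n0 ≤ n → Even n → gamma (4 * n) ≤
      (2 / Real.sin (π / (2 * n)) + A * Real.sqrt n * (1 + Real.log n)) *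
      (B * (n : ℝ) ^ C * Real.exp (D * Real.sqrt n) / π ^ (2 * n)) ^ ((2 : ℝ) / (4 * n))) :
    limsup c atTop ≤ 1 / π ^ 2 ∧ ∀ δ : ℝ, 0 < δ → ∀ᶠ d : ℕ in atTop, c d ≤ 1 / π ^ 2 + δ := by
  have h : ∀ δ : ℝ, 0 < δ → ∀ᶠ d : ℕ in atTop, c d ≤ 1 / π ^ 2 + δ := fun δ hδ =>
    limit_all hδ (limit_even hB H (half_pos hδ))
  refine ⟨le_of_forall_pos_le_add fun δ hδ => ?_, h⟩
  refine limsup_le_of_le ?_ (h δ hδ)
  exact isCoboundedUnder_le_of_le atTop (x := 0) fun n => c_nonneg n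

end Pool.Agent.KL
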