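import Mathlib
import Pool.Agent.Lib.MP_ef2672_gt_Tauber.Defs

/-!
KL project (MP_ef2672): the linear programming inequality for lattices from positive
definiteness, without Poisson summation.
-/

namespace Pool.Agent.KL

open MeasureTheory Filter Topology
open Pool.Agent.Lib.MP_ef2672_gt_Tauber

/-- Positive definite functions: mixtures of `z ↦ cos ⟨w, z⟩` over a finite measure. -/
def PosDef {N : ℕ} (F : (Fin N → ℝ) → ℝ) : Prop :=
  ∃ ν : Measure (Fin N → ℝ), IsFiniteMeasure ν ∧ ∀ z, F z = ∫ w, Real.cos (∑ i, w i * z i) ∂ν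

namespace LPaux

variable {N : ℕ}

/-- The unit cube. -/
def Q (N : ℕ) : Set (Fin N → ℝ) := Set.pi Set.univ fun _ => Set.Ico (0 : ℝ) 1

lemma measurableSet_Q : MeasurableSet (Q N) :=
  MeasurableSet.univ_pi fun _ => measurableSet_Ico

lemma volume_Q : volume (Q N) = 1 := by
  unfold Q
  rw [volume_pi_pi]
  simp

instance : IsProbabilityMeasure ((volume : Measure (Fin N → ℝ)).restrict (Q N)) :=
  ⟨by simp [volume_Q]⟩

/-- The integer vector as a real vector. -/
def ι (w : Fin N → ℤ) : Fin N → ℝ := fun i => (w i : ℝ)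

/-- Averages over the unit cube. -/
noncomputable def T (f : (Fin N → ℝ) → ℝ) (z : Fin N → ℝ) : ℝ := ∫ q in Q N, f (q + z)

/-- The tile at `w`. -/
def C (w : Fin N → ℤ) : Set (Fin N → ℝ) := {z | ∀ i, (w i : ℝ) ≤ z i ∧ z i < w i + 1}

lemma measurableSet_C (w : Fin N → ℤ) : MeasurableSet (C w) := by
  have : C w = Set.pi Set.univ fun i => Set.Ico (w i : ℝ) (w i + 1) := by
    ext z
    simp [C]
  rw [this]
  exact MeasurableSet.univ_pi fun _ => measurableSet_Ico

lemma iUnion_C : (⋃ w : Fin N → ℤ, C w) = Set.univ := by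
  ext z
  simp only [Set.mem_iUnion, Set.mem_univ, iff_true]
  exact ⟨fun i => ⌊z i⌋, fun i => ⟨Int.floor_le _, Int.lt_floor_add_one _⟩⟩

lemma disjoint_C : Pairwise (Function.onFun Disjoint (C : (Fin N → ℤ) → Set (Fin N → ℝ))) := by
  intro w w' hw
  refine Set.disjoint_left.2 fun z hz hz' => hw ?_
  funext i
  have h1 := Int.floor_eq_iff.2 (hz i)
  have h2 := Int.floor_eq_iff.2 (hz' i)
  omega

lemma setIntegral_C (f : (Fin N → ℝ) → ℝ) (w : Fin N → ℤ) :
    ∫ z in C w, f z = T f (ι w) := by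
  unfold T
  rw [← integral_indicator (measurableSet_C w), ← integral_indicator measurableSet_Q,
    ← integral_add_right_eq_self _ (ι w)]
  refine integral_congr_ae (Eventually.of_forall fun z => ?_)
  have h : z + ι w ∈ C w ↔ z ∈ Q N := by
    simp only [C, Q, Set.mem_ofPred_eq, Pi.add_apply, ι, Set.mem_pi, Set.mem_univ, forall_true_left,
      Set.mem_Ico]
    refine forall_congr' fun i => ?_
    constructor
    · rintro ⟨h1, h2⟩; constructor <;> linarith
    · rintro ⟨h1, h2⟩; constructor <;> linarith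
  by_cases hz : z ∈ Q N
  · simp only [Set.indicator_of_mem hz, Set.indicator_of_mem (h.2 hz)]
  · simp only [Set.indicator_of_notMem hz, Set.indicator_of_notMem (fun h' => hz (h.1 h'))]

lemma hasSum_T {f : (Fin N → ℝ) → ℝ} (hf : Integrable f) :
    HasSum (fun w : Fin N → ℤ => T f (ι w)) (∫ z, f z) := by
  have h := hasSum_integral_iUnion (f := f) (s := (C : (Fin N → ℤ) → Set (Fin N → ℝ)))
    (μ := volume) measurableSet_C disjoint_C (by rw [iUnion_C]; exact hf.integrableOn)
  rw [iUnion_C, setIntegral_univ] at h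
  simpa only [setIntegral_C] using h

lemma integrable_prod {f : (Fin N → ℝ) → ℝ} (hf : Integrable f) :
    Integrable (fun p : (Fin N → ℝ) × (Fin N → ℝ) => f (p.1 + p.2))
      ((volume.restrict (Q N)).prod volume) := by
  have h1 : Integrable (fun p : (Fin N → ℝ) × (Fin N → ℝ) => f p.2)
      ((volume.restrict (Q N)).prod volume) := hf.comp_snd _
  have h2 := measurePreserving_prod_add (volume.restrict (Q N)) (volume : Measure (Fin N → ℝ))
  exact (h2.integrable_comp h1.aestronglyMeasurable).2 h1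

lemma integrable_T {f : (Fin N → ℝ) → ℝ} (hf : Integrable f) : Integrable (T f) :=
  (integrable_prod hf).integral_prod_right

lemma integral_T {f : (Fin N → ℝ) → ℝ} (hf : Integrable f) : ∫ z, T f z = ∫ z, f z := by
  unfold T
  have h := integral_integral_swap (μ := volume) (ν := volume.restrict (Q N))
    (f := fun z q => f (q + z)) (integrable_prod hf).swap
  rw [h]
  have h2 : ∀ q : Fin N → ℝ, ∫ z, f (q + z) = ∫ z, f z := fun q => integral_add_left_eq_self f q
  simp only [h2, integral_const, smul_eq_mul]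
  simp

/-- Averages over the reflected unit cube. -/
noncomputable def Tm (f : (Fin N → ℝ) → ℝ) (z : Fin N → ℝ) : ℝ := ∫ q in Q N, f (z - q)

lemma Tm_eq (f : (Fin N → ℝ) → ℝ) (z : Fin N → ℝ) : Tm f z = T (fun x => f (-x)) (-z) := by
  unfold Tm T
  refine integral_congr_ae (Eventually.of_forall fun q => ?_)
  simp only
  congr 1
  abel

lemma ι_neg (w : Fin N → ℤ) : ι (-w) = -ι w := by
  funext i
  simp [ι]

lemma ι_sub (w w' : Fin N → ℤ) : ι (w - w') = ι w - ι w' := by
  funext i
  simp [ι]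

lemma hasSum_Tm {f : (Fin N → ℝ) → ℝ} (hf : Integrable f) :
    HasSum (fun w : Fin N → ℤ => Tm f (ι w)) (∫ z, f z) := by
  have h := hasSum_T (f := fun x => f (-x)) hf.comp_neg
  have h2 := (Equiv.neg (Fin N → ℤ)).hasSum_iff.2 h
  have h3 : ∫ x : Fin N → ℝ, f (-x) = ∫ x, f x := integral_neg_eq_self f volume
  rw [h3] at h2
  refine h2.congr_fun ?_
  intro w
  simp only [Function.comp_apply, Equiv.neg_apply, ι_neg]
  rw [Tm_eq]

/-! ### The Fourier side -/

/-- The scalar product. -/
def dot (w z : Fin N → ℝ) : ℝ := ∑ i, w i * z i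

lemma dot_add (w x y : Fin N → ℝ) : dot w (x + y) = dot w x + dot w y := by
  simp [dot, mul_add, Finset.sum_add_distrib]

lemma dot_sub (w x y : Fin N → ℝ) : dot w (x - y) = dot w x - dot w y := by
  simp [dot, mul_sub, Finset.sum_sub_distrib]

lemma continuous_dot : Continuous fun p : (Fin N → ℝ) × (Fin N → ℝ) => dot p.1 p.2 := by
  unfold dot
  fun_prop

/-- Cosine transform of the unit cube. -/
noncomputable def KC (w : Fin N → ℝ) : ℝ := ∫ q in Q N, Real.cos (dot w q)

/-- Sine transform of the unit cube. -/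
noncomputable def KS (w : Fin N → ℝ) : ℝ := ∫ q in Q N, Real.sin (dot w q)

lemma stronglyMeasurable_KC : StronglyMeasurable (KC : (Fin N → ℝ) → ℝ) :=
  StronglyMeasurable.integral_prod_right (f := fun w q : Fin N → ℝ => Real.cos (dot w q))
    (Real.continuous_cos.comp continuous_dot).stronglyMeasurable

lemma stronglyMeasurable_KS : StronglyMeasurable (KS : (Fin N → ℝ) → ℝ) :=
  StronglyMeasurable.integral_prod_right (f := fun w q : Fin N → ℝ => Real.sin (dot w q))
    (Real.continuous_sin.comp continuous_dot).stronglyMeasurable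

lemma abs_KC (w : Fin N → ℝ) : |KC w| ≤ 1 := by
  have h := norm_integral_le_of_norm_le_const (μ := (volume : Measure (Fin N → ℝ)).restrict (Q N))
    (f := fun q => Real.cos (dot w q)) (C := 1)
    (Eventually.of_forall fun q => by rw [Real.norm_eq_abs]; exact Real.abs_cos_le_one _)
  simpa [KC] using h

lemma abs_KS (w : Fin N → ℝ) : |KS w| ≤ 1 := by
  have h := norm_integral_le_of_norm_le_const (μ := (volume : Measure (Fin N → ℝ)).restrict (Q N))
    (f := fun q => Real.sin (dot w q)) (C := 1)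
    (Eventually.of_forall fun q => by rw [Real.norm_eq_abs]; exact Real.abs_sin_le_one _)
  simpa [KS] using h

lemma integrable_cos_dot (w : Fin N → ℝ) (φ : (Fin N → ℝ) → (Fin N → ℝ)) (hφ : Continuous φ)
    (μ : Measure (Fin N → ℝ)) [IsFiniteMeasure μ] :
    Integrable (fun q => Real.cos (dot w (φ q))) μ :=
  Integrable.of_bound (Real.continuous_cos.comp
    (continuous_dot.comp (continuous_const.prodMk hφ))).aestronglyMeasurable 1
    (Eventually.of_forall fun q => by rw [Real.norm_eq_abs]; exact Real.abs_cos_le_one _)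

lemma integrable_sin_dot (w : Fin N → ℝ) (φ : (Fin N → ℝ) → (Fin N → ℝ)) (hφ : Continuous φ)
    (μ : Measure (Fin N → ℝ)) [IsFiniteMeasure μ] :
    Integrable (fun q => Real.sin (dot w (φ q))) μ :=
  Integrable.of_bound (Real.continuous_sin.comp
    (continuous_dot.comp (continuous_const.prodMk hφ))).aestronglyMeasurable 1
    (Eventually.of_forall fun q => by rw [Real.norm_eq_abs]; exact Real.abs_sin_le_one _)

lemma cos_T (w z : Fin N → ℝ) :
    ∫ q in Q N, Real.cos (dot w (q + z)) =
      Real.cos (dot w z) * KC w - Real.sin (dot w z) * KS w := by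
  have h1 : ∀ q : Fin N → ℝ, Real.cos (dot w (q + z)) =
      Real.cos (dot w z) * Real.cos (dot w q) - Real.sin (dot w z) * Real.sin (dot w q) := by
    intro q
    rw [dot_add, Real.cos_add]
    ring
  simp only [h1]
  rw [integral_sub ((integrable_cos_dot w (fun q => q) continuous_id _).const_mul _)
    ((integrable_sin_dot w (fun q => q) continuous_id _).const_mul _), integral_const_mul,
    integral_const_mul]
  rfl

lemma cos_Tm (w z : Fin N → ℝ) :
    ∫ q in Q N, Real.cos (dot w (z - q)) =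
      Real.cos (dot w z) * KC w + Real.sin (dot w z) * KS w := by
  have h1 : ∀ q : Fin N → ℝ, Real.cos (dot w (z - q)) =
      Real.cos (dot w z) * Real.cos (dot w q) + Real.sin (dot w z) * Real.sin (dot w q) := by
    intro q
    rw [dot_sub, Real.cos_sub]
  simp only [h1]
  rw [integral_add ((integrable_cos_dot w (fun q => q) continuous_id _).const_mul _)
    ((integrable_sin_dot w (fun q => q) continuous_id _).const_mul _), integral_const_mul,
    integral_const_mul]
  rfl

lemma sin_Tm (w z : Fin N → ℝ) :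
    ∫ q in Q N, Real.sin (dot w (z - q)) =
      Real.sin (dot w z) * KC w - Real.cos (dot w z) * KS w := by
  have h1 : ∀ q : Fin N → ℝ, Real.sin (dot w (z - q)) =
      Real.sin (dot w z) * Real.cos (dot w q) - Real.cos (dot w z) * Real.sin (dot w q) := by
    intro q
    rw [dot_sub, Real.sin_sub]
  simp only [h1]
  rw [integral_sub ((integrable_cos_dot w (fun q => q) continuous_id _).const_mul _)
    ((integrable_sin_dot w (fun q => q) continuous_id _).const_mul _), integral_const_mul,
    integral_const_mul]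
  rfl

section

variable {g : (Fin N → ℝ) → ℝ} {ν : Measure (Fin N → ℝ)} [IsFiniteMeasure ν]

lemma T_of (hg : ∀ z, g z = ∫ w, Real.cos (dot w z) ∂ν) (z : Fin N → ℝ) :
    T g z = ∫ w, (Real.cos (dot w z) * KC w - Real.sin (dot w z) * KS w) ∂ν := by
  unfold T
  simp only [hg]
  rw [integral_integral_swap (f := fun q w : Fin N → ℝ => Real.cos (dot w (q + z)))]
  · simp only [cos_T]
  · refine Integrable.of_bound (Continuous.aestronglyMeasurable ?_) 1
      (Eventually.of_forall fun q => ?_)
    · exact Real.continuous_cos.comp (continuous_dot.comp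
        (continuous_snd.prodMk (continuous_fst.add continuous_const)))
    · rw [Real.norm_eq_abs]; exact Real.abs_cos_le_one _

lemma Tm_of (hg : ∀ z, g z = ∫ w, Real.cos (dot w z) ∂ν) (z : Fin N → ℝ) :
    Tm g z = ∫ w, (Real.cos (dot w z) * KC w + Real.sin (dot w z) * KS w) ∂ν := by
  unfold Tm
  simp only [hg]
  rw [integral_integral_swap (f := fun q w : Fin N → ℝ => Real.cos (dot w (z - q)))]
  · simp only [cos_Tm]
  · refine Integrable.of_bound (Continuous.aestronglyMeasurable ?_) 1
      (Eventually.of_forall fun q => ?_)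
    · exact Real.continuous_cos.comp (continuous_dot.comp
        (continuous_snd.prodMk (continuous_const.sub continuous_fst)))
    · rw [Real.norm_eq_abs]; exact Real.abs_cos_le_one _

lemma TmT_of (hg : ∀ z, g z = ∫ w, Real.cos (dot w z) ∂ν) (z : Fin N → ℝ) :
    Tm (T g) z = ∫ w, Real.cos (dot w z) * (KC w ^ 2 + KS w ^ 2) ∂ν := by
  unfold Tm
  simp only [T_of hg]
  have hm : StronglyMeasurable (fun p : (Fin N → ℝ) × (Fin N → ℝ) =>
      Real.cos (dot p.2 (z - p.1)) * KC p.2 - Real.sin (dot p.2 (z - p.1)) * KS p.2) := by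
    have hc : Continuous fun p : (Fin N → ℝ) × (Fin N → ℝ) => dot p.2 (z - p.1) :=
      continuous_dot.comp (continuous_snd.prodMk (continuous_const.sub continuous_fst))
    exact ((Real.continuous_cos.comp hc).stronglyMeasurable.mul
      (stronglyMeasurable_KC.comp_measurable measurable_snd)).sub
      ((Real.continuous_sin.comp hc).stronglyMeasurable.mul
      (stronglyMeasurable_KS.comp_measurable measurable_snd))
  rw [integral_integral_swap (f := fun q w : Fin N → ℝ =>
    Real.cos (dot w (z - q)) * KC w - Real.sin (dot w (z - q)) * KS w)]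
  · refine integral_congr_ae (Eventually.of_forall fun w => ?_)
    simp only
    rw [integral_sub ((integrable_cos_dot w (fun q => z - q)
        (continuous_const.sub continuous_id) _).mul_const _)
      ((integrable_sin_dot w (fun q => z - q) (continuous_const.sub continuous_id) _).mul_const _),
      integral_mul_const, integral_mul_const]
    rw [cos_Tm, sin_Tm]
    ring
  · refine Integrable.of_bound hm.aestronglyMeasurable 2
      (Eventually.of_forall fun q => ?_)
    simp only [Function.uncurry, Real.norm_eq_abs]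
    refine (abs_sub _ _).trans ?_
    rw [abs_mul, abs_mul]
    have h1 := Real.abs_cos_le_one (dot q.2 (z - q.1))
    have h2 := Real.abs_sin_le_one (dot q.2 (z - q.1))
    have h3 := abs_KC q.2
    have h4 := abs_KS q.2
    have h5 := mul_le_mul h1 h3 (abs_nonneg _) zero_le_one
    have h6 := mul_le_mul h2 h4 (abs_nonneg _) zero_le_one
    linarith

lemma integrable_cos_mul {M : (Fin N → ℝ) → ℝ} (hM : StronglyMeasurable M) {B : ℝ}
    (hB : ∀ w, |M w| ≤ B) (z : Fin N → ℝ) :
    Integrable (fun w => Real.cos (dot w z) * M w) ν := by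
  refine Integrable.of_bound (StronglyMeasurable.aestronglyMeasurable ?_) B
    (Eventually.of_forall fun w => ?_)
  · exact ((Real.continuous_cos.comp
      (continuous_dot.comp (continuous_id.prodMk continuous_const))).stronglyMeasurable).mul hM
  · rw [Real.norm_eq_abs, abs_mul]
    have h1 := mul_le_mul (Real.abs_cos_le_one (dot w z)) (hB w) (abs_nonneg _) zero_le_one
    linarith

lemma integrable_sin_mul {M : (Fin N → ℝ) → ℝ} (hM : StronglyMeasurable M) {B : ℝ}
    (hB : ∀ w, |M w| ≤ B) (z : Fin N → ℝ) :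
    Integrable (fun w => Real.sin (dot w z) * M w) ν := by
  refine Integrable.of_bound (StronglyMeasurable.aestronglyMeasurable ?_) B
    (Eventually.of_forall fun w => ?_)
  · exact ((Real.continuous_sin.comp
      (continuous_dot.comp (continuous_id.prodMk continuous_const))).stronglyMeasurable).mul hM
  · rw [Real.norm_eq_abs, abs_mul]
    have h1 := mul_le_mul (Real.abs_sin_le_one (dot w z)) (hB w) (abs_nonneg _) zero_le_one
    linarith

/-- The multiplier of `δ₀ - 1_Q`. -/
noncomputable def Mu (w : Fin N → ℝ) : ℝ := (1 - KC w) ^ 2 + KS w ^ 2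

lemma stronglyMeasurable_Mu : StronglyMeasurable (Mu : (Fin N → ℝ) → ℝ) :=
  ((stronglyMeasurable_const.sub stronglyMeasurable_KC).pow 2).add (stronglyMeasurable_KS.pow 2)

lemma abs_Mu (w : Fin N → ℝ) : |Mu w| ≤ 5 := by
  have h1 := abs_le.1 (abs_KC w)
  have h2 := abs_le.1 (abs_KS w)
  unfold Mu
  rw [abs_le]
  constructor
  · nlinarith [sq_nonneg (1 - KC w), sq_nonneg (KS w)]
  · nlinarith [h1.1, h1.2, h2.1, h2.2]

lemma Mu_nonneg (w : Fin N → ℝ) : 0 ≤ Mu w := by
  unfold Mu
  positivity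

lemma combination (hg : ∀ z, g z = ∫ w, Real.cos (dot w z) ∂ν) (z : Fin N → ℝ) :
    g z - T g z - Tm g z + Tm (T g) z = ∫ w, Real.cos (dot w z) * Mu w ∂ν := by
  have h1 : StronglyMeasurable (fun _ : Fin N → ℝ => (1 : ℝ)) := stronglyMeasurable_const
  have i0 : Integrable (fun w => Real.cos (dot w z)) ν := by
    simpa using integrable_cos_mul (ν := ν) h1 (B := 1) (fun _ => by simp) z
  have i1 : Integrable (fun w => Real.cos (dot w z) * KC w) ν :=
    integrable_cos_mul stronglyMeasurable_KC abs_KC z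
  have i2 : Integrable (fun w => Real.sin (dot w z) * KS w) ν :=
    integrable_sin_mul stronglyMeasurable_KS abs_KS z
  have i3 : Integrable (fun w => Real.cos (dot w z) * (KC w ^ 2 + KS w ^ 2)) ν := by
    refine integrable_cos_mul ((stronglyMeasurable_KC.pow 2).add (stronglyMeasurable_KS.pow 2))
      (B := 2) (fun w => ?_) z
    have h1 := abs_le.1 (abs_KC w)
    have h2 := abs_le.1 (abs_KS w)
    change |KC w ^ 2 + KS w ^ 2| ≤ 2
    rw [abs_of_nonneg (by positivity)]
    nlinarith [h1.1, h1.2, h2.1, h2.2]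
  have i4 : Integrable (fun w => Real.cos (dot w z) * KC w - Real.sin (dot w z) * KS w) ν :=
    i1.sub i2
  have i5 : Integrable (fun w => Real.cos (dot w z) * KC w + Real.sin (dot w z) * KS w) ν :=
    i1.add i2
  have i6 : Integrable (fun w => 2 * (Real.cos (dot w z) * KC w)) ν := i1.const_mul 2
  have i7 : Integrable (fun w => Real.cos (dot w z) - 2 * (Real.cos (dot w z) * KC w)) ν :=
    i0.sub i6
  have e1 : T g z + Tm g z = ∫ w, 2 * (Real.cos (dot w z) * KC w) ∂ν := by
    rw [T_of hg, Tm_of hg, ← integral_add i4 i5]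
    refine integral_congr_ae (Eventually.of_forall fun w => ?_)
    simp only
    ring
  have e2 : g z - T g z - Tm g z + Tm (T g) z =
      (∫ w, Real.cos (dot w z) ∂ν) - (∫ w, 2 * (Real.cos (dot w z) * KC w) ∂ν) +
        ∫ w, Real.cos (dot w z) * (KC w ^ 2 + KS w ^ 2) ∂ν := by
    rw [← e1, TmT_of hg, ← hg]
    ring
  rw [e2, ← integral_sub i0 i6, ← integral_add i7 i3]
  refine integral_congr_ae (Eventually.of_forall fun w => ?_)
  simp only [Mu]
  ring

lemma sum_cos_sub {α : Type*} (X : Finset α) (θ : α → ℝ) :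
    ∑ x ∈ X, ∑ y ∈ X, Real.cos (θ x - θ y) =
      (∑ x ∈ X, Real.cos (θ x)) ^ 2 + (∑ x ∈ X, Real.sin (θ x)) ^ 2 := by
  simp only [Real.cos_sub, Finset.sum_add_distrib, sq, Finset.sum_mul_sum]

lemma positivity_sum (hg : ∀ z, g z = ∫ w, Real.cos (dot w z) ∂ν) (X : Finset (Fin N → ℤ)) :
    0 ≤ ∑ x ∈ X, ∑ y ∈ X, (g (ι (x - y)) - T g (ι (x - y)) - Tm g (ι (x - y)) +
      Tm (T g) (ι (x - y))) := by
  simp only [combination hg]
  have hi : ∀ z : Fin N → ℝ, Integrable (fun w => Real.cos (dot w z) * Mu w) ν := fun z =>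
    integrable_cos_mul stronglyMeasurable_Mu abs_Mu z
  have h1 : ∑ x ∈ X, ∑ y ∈ X, ∫ w, Real.cos (dot w (ι (x - y))) * Mu w ∂ν =
      ∫ w, ∑ x ∈ X, ∑ y ∈ X, Real.cos (dot w (ι (x - y))) * Mu w ∂ν := by
    rw [integral_finsetSum _ fun x _ => integrable_finsetSum _ fun y _ => hi _]
    refine Finset.sum_congr rfl fun x _ => ?_
    rw [integral_finsetSum _ fun y _ => hi _]
  rw [h1]
  refine integral_nonneg fun w => ?_
  have h2 : ∑ x ∈ X, ∑ y ∈ X, Real.cos (dot w (ι (x - y))) * Mu w =
      ((∑ x ∈ X, Real.cos (dot w (ι x))) ^ 2 + (∑ x ∈ X, Real.sin (dot w (ι x))) ^ 2) * Mu w := by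
    rw [← sum_cos_sub, Finset.sum_mul]
    refine Finset.sum_congr rfl fun x _ => ?_
    rw [Finset.sum_mul]
    refine Finset.sum_congr rfl fun y _ => ?_
    rw [ι_sub, dot_sub]
  simp only [Pi.zero_apply]
  rw [h2]
  exact mul_nonneg (by positivity) (Mu_nonneg w)

end

/-! ### Averages of summable functions over boxes -/

/-- The box `{0, …, m-1}^N`. -/
noncomputable def box (N m : ℕ) : Finset (Fin N → ℤ) := Fintype.piFinset fun _ => Finset.Ico (0 : ℤ) m

lemma card_box (m : ℕ) : (box N m).card = m ^ N := by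
  simp [box, Fintype.card_piFinset]

/-- The number of `x` in the box with `x - w` in the box. -/
noncomputable def cnt (N m : ℕ) (w : Fin N → ℤ) : ℕ := ((box N m).filter fun x => x - w ∈ box N m).card

lemma cnt_le (m : ℕ) (w : Fin N → ℤ) : cnt N m w ≤ m ^ N := by
  rw [← card_box]
  exact Finset.card_filter_le _ _

lemma le_cnt (m L : ℕ) (w : Fin N → ℤ) (hw : ∀ i, |w i| ≤ L) (hL : 2 * L ≤ m) :
    (m - 2 * L) ^ N ≤ cnt N m w := by
  have h1 : (Fintype.piFinset fun _ : Fin N => Finset.Ico (L : ℤ) (m - L)).card =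
      (m - 2 * L) ^ N := by
    rw [Fintype.card_piFinset]
    simp only [Int.card_Ico, Finset.prod_const, Finset.card_univ, Fintype.card_fin]
    congr 1
    omega
  rw [← h1]
  refine Finset.card_le_card fun x hx => ?_
  rw [Fintype.mem_piFinset] at hx
  rw [Finset.mem_filter, box, Fintype.mem_piFinset, Fintype.mem_piFinset]
  constructor
  · intro i
    have := Finset.mem_Ico.1 (hx i)
    have := abs_le.1 (hw i)
    rw [Finset.mem_Ico]
    omega
  · intro i
    have := Finset.mem_Ico.1 (hx i)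
    have := abs_le.1 (hw i)
    rw [Finset.mem_Ico, Pi.sub_apply]
    omega

lemma sum_box (s : (Fin N → ℤ) → ℝ) (hs : Summable s) (m : ℕ) :
    ∑ x ∈ box N m, ∑ y ∈ box N m, s (x - y) = ∑' w, s w * cnt N m w := by
  classical
  have h1 : ∀ x : Fin N → ℤ, ∑ y ∈ box N m, s (x - y) =
      ∑' w, if x - w ∈ box N m then s w else 0 := by
    intro x
    rw [← (Equiv.subLeft x).tsum_eq]
    rw [tsum_eq_sum (s := box N m)]
    · refine Finset.sum_congr rfl fun y hy => ?_
      simp [Equiv.subLeft_apply, hy]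
    · intro y hy
      simp [Equiv.subLeft_apply, hy]
  simp only [h1]
  have h2 : ∀ x : Fin N → ℤ, Summable fun w => if x - w ∈ box N m then s w else 0 := by
    intro x
    refine Summable.of_norm_bounded hs.norm fun w => ?_
    split_ifs with h
    · exact le_rfl
    · simp
  rw [← Summable.tsum_finsetSum fun x _ => h2 x]
  refine tsum_congr fun w => ?_
  rw [← Finset.sum_filter]
  rw [Finset.sum_const, nsmul_eq_mul, mul_comm]
  rfl

lemma tendsto_cnt (w : Fin N → ℤ) :
    Tendsto (fun m : ℕ => (cnt N m w : ℝ) / (m : ℝ) ^ N) atTop (𝓝 1) := by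
  obtain ⟨L, hL⟩ : ∃ L : ℕ, ∀ i, |w i| ≤ L := by
    refine ⟨(∑ i, |w i|).toNat, fun i => ?_⟩
    have h0 : 0 ≤ ∑ i, |w i| := Finset.sum_nonneg fun i _ => abs_nonneg _
    rw [Int.toNat_of_nonneg h0]
    exact Finset.single_le_sum (fun i _ => abs_nonneg (w i)) (Finset.mem_univ i)
  have h1 : Tendsto (fun m : ℕ => (((m : ℝ) - 2 * L) / m) ^ N) atTop (𝓝 1) := by
    have h2 : Tendsto (fun m : ℕ => 1 - (2 * L : ℝ) / m) atTop (𝓝 (1 - 0)) :=
      tendsto_const_nhds.sub (tendsto_const_div_atTop_nhds_zero_nat _)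
    rw [sub_zero] at h2
    have h3 := h2.pow N
    rw [one_pow] at h3
    refine h3.congr' ?_
    filter_upwards [eventually_gt_atTop 0] with m hm
    have : (m : ℝ) ≠ 0 := by positivity
    congr 1
    field_simp
  refine tendsto_of_tendsto_of_tendsto_of_le_of_le' h1 tendsto_const_nhds ?_ ?_
  · filter_upwards [eventually_ge_atTop (2 * L), eventually_gt_atTop 0] with m hm hm0
    have h4 := le_cnt m L w hL hm
    have h5 : (((m - 2 * L) ^ N : ℕ) : ℝ) ≤ cnt N m w := by exact_mod_cast h4
    rw [Nat.cast_pow, Nat.cast_sub hm] at h5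
    push_cast at h5
    rw [div_pow]
    exact div_le_div_of_nonneg_right h5 (by positivity)
  · filter_upwards [eventually_gt_atTop 0] with m hm0
    have h4 : (cnt N m w : ℝ) ≤ (m : ℝ) ^ N := by exact_mod_cast cnt_le m w
    rw [div_le_one (by positivity)]
    exact h4

lemma tendsto_avg (s : (Fin N → ℤ) → ℝ) (hs : Summable s) :
    Tendsto (fun m : ℕ => (∑ x ∈ box N m, ∑ y ∈ box N m, s (x - y)) / (m : ℝ) ^ N) atTop
      (𝓝 (∑' w, s w)) := by
  have h1 : ∀ m : ℕ, (∑ x ∈ box N m, ∑ y ∈ box N m, s (x - y)) / (m : ℝ) ^ N =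
      ∑' w, s w * (cnt N m w / (m : ℝ) ^ N) := by
    intro m
    rw [sum_box s hs, ← tsum_div_const]
    refine tsum_congr fun w => ?_
    ring
  simp only [h1]
  refine tendsto_tsum_of_dominated_convergence (bound := fun w => |s w|) hs.abs ?_ ?_
  · intro w
    simpa using (tendsto_cnt w).const_mul (s w)
  · filter_upwards [eventually_gt_atTop 0] with m hm w
    rw [Real.norm_eq_abs, abs_mul]
    have h4 : (cnt N m w : ℝ) ≤ (m : ℝ) ^ N := by exact_mod_cast cnt_le m w
    have h5 : |(cnt N m w : ℝ) / (m : ℝ) ^ N| ≤ 1 := by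
      rw [abs_of_nonneg (by positivity), div_le_one (by positivity)]
      exact h4
    have := mul_le_mul_of_nonneg_left h5 (abs_nonneg (s w))
    linarith

/-- The inequality for the lattice `ℤ^N`. -/
theorem integral_le {g : (Fin N → ℝ) → ℝ} {ν : Measure (Fin N → ℝ)} [IsFiniteMeasure ν]
    (hg : ∀ z, g z = ∫ w, Real.cos (dot w z) ∂ν) (hI : Integrable g)
    (hneg : ∀ w : Fin N → ℤ, w ≠ 0 → g (ι w) ≤ 0) : ∫ z, g z ≤ g 0 := by
  have hTI := integrable_T hI
  set s : (Fin N → ℤ) → ℝ := fun w => Tm (T g) (ι w) - T g (ι w) - Tm g (ι w) with hs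
  have hsum : HasSum s ((∫ z, g z) - (∫ z, g z) - ∫ z, g z) := by
    have h1 := ((hasSum_Tm hTI).sub (hasSum_T hI)).sub (hasSum_Tm hI)
    rw [integral_T hI] at h1
    exact h1
  have hlim := tendsto_avg s hsum.summable
  rw [hsum.tsum_eq] at hlim
  have hlow : ∀ᶠ m : ℕ in atTop,
      -g 0 ≤ (∑ x ∈ box N m, ∑ y ∈ box N m, s (x - y)) / (m : ℝ) ^ N := by
    filter_upwards [eventually_gt_atTop 0] with m hm
    rw [le_div_iff₀ (by positivity)]
    have h1 := positivity_sum hg (box N m)
    have h2 : ∑ x ∈ box N m, ∑ y ∈ box N m, (g (ι (x - y)) - T g (ι (x - y)) -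
        Tm g (ι (x - y)) + Tm (T g) (ι (x - y))) =
        ∑ x ∈ box N m, ∑ y ∈ box N m, g (ι (x - y)) +
          ∑ x ∈ box N m, ∑ y ∈ box N m, s (x - y) := by
      rw [← Finset.sum_add_distrib]
      refine Finset.sum_congr rfl fun x _ => ?_
      rw [← Finset.sum_add_distrib]
      refine Finset.sum_congr rfl fun y _ => ?_
      simp only [hs]
      ring
    have h3 : ∑ x ∈ box N m, ∑ y ∈ box N m, g (ι (x - y)) ≤ (m : ℝ) ^ N * g 0 := by
      have h4 : ∀ x ∈ box N m, ∑ y ∈ box N m, g (ι (x - y)) ≤ g 0 := by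
        intro x hx
        rw [← Finset.add_sum_erase _ _ hx]
        have h5 : ∑ y ∈ (box N m).erase x, g (ι (x - y)) ≤ 0 := by
          refine Finset.sum_nonpos fun y hy => hneg _ ?_
          rw [sub_ne_zero]
          exact (Finset.ne_of_mem_erase hy).symm
        have h6 : ι (x - x) = (0 : Fin N → ℝ) := by
          funext i
          simp [ι]
        rw [h6]
        linarith
      calc ∑ x ∈ box N m, ∑ y ∈ box N m, g (ι (x - y)) ≤ ∑ x ∈ box N m, g 0 :=
            Finset.sum_le_sum h4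
        _ = (m : ℝ) ^ N * g 0 := by
            rw [Finset.sum_const, card_box, nsmul_eq_mul]
            push_cast
            ring
    rw [h2] at h1
    linarith
  have := ge_of_tendsto hlim hlow
  linarith

/-- The change of variables by an invertible matrix. -/
lemma comp_matrix {F : (Fin N → ℝ) → ℝ} (hI : Integrable F) (A : Matrix (Fin N) (Fin N) ℝ)
    (hA : A.det ≠ 0) : Integrable (fun z => F (A.mulVec z)) ∧
      ∫ z, F (A.mulVec z) = |A.det|⁻¹ * ∫ z, F z := by
  have h1 := Real.map_matrix_volume_pi_eq_smul_volume_pi hA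
  have hm : Measurable (Matrix.toLin' A : (Fin N → ℝ) → (Fin N → ℝ)) :=
    (LinearMap.continuous_of_finiteDimensional _).measurable
  have hs : AEStronglyMeasurable F
      (Measure.map (Matrix.toLin' A : (Fin N → ℝ) → (Fin N → ℝ)) volume) := by
    rw [h1]
    exact hI.1.mono_ac Measure.smul_absolutelyContinuous
  constructor
  · have h2 : Integrable F (Measure.map (Matrix.toLin' A : (Fin N → ℝ) → (Fin N → ℝ)) volume) := by
      rw [h1]
      exact hI.smul_measure ENNReal.ofReal_ne_top
    exact (integrable_map_measure hs hm.aemeasurable).1 h2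
  · have h3 := integral_map hm.aemeasurable hs
    rw [h1, integral_smul_measure, ENNReal.toReal_ofReal (abs_nonneg _), smul_eq_mul,
      abs_inv] at h3
    rw [h3]
    rfl

lemma posDef_comp {F : (Fin N → ℝ) → ℝ} (hF : PosDef F) (A : Matrix (Fin N) (Fin N) ℝ) :
    PosDef (fun z => F (A.mulVec z)) := by
  obtain ⟨ν, hν, h⟩ := hF
  have hc : Continuous fun w : Fin N → ℝ => Matrix.vecMul w A := by
    unfold Matrix.vecMul dotProduct
    fun_prop
  refine ⟨ν.map fun w => Matrix.vecMul w A, Measure.isFiniteMeasure_map _ _, fun z => ?_⟩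
  change F (A.mulVec z) = _
  rw [h, integral_map hc.measurable.aemeasurable]
  · refine integral_congr_ae (Eventually.of_forall fun w => ?_)
    have h1 := Matrix.dotProduct_mulVec w A z
    simp only [dotProduct] at h1
    simp only [h1]
  · refine Continuous.aestronglyMeasurable ?_
    fun_prop

end LPaux

open LPaux in
/-- The linear programming inequality for one lattice. -/
theorem lp_lattice {N : ℕ} {F : (Fin N → ℝ) → ℝ} (hF : PosDef F) (hI : Integrable F) {R : ℝ}
    (hneg : ∀ z, R ≤ ∑ i, z i ^ 2 → F z ≤ 0) (A : Matrix (Fin N) (Fin N) ℝ) (hA : A.det ≠ 0)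
    (hmin : ∀ w : Fin N → ℤ, w ≠ 0 →
      R ≤ ∑ i, (Matrix.mulVec A (fun j => (w j : ℝ))) i ^ 2) :
    ∫ z, F z ≤ |A.det| * F 0 := by
  obtain ⟨ν, hν, h⟩ := posDef_comp hF A
  obtain ⟨hgI, hg⟩ := comp_matrix hI A hA
  have h1 := integral_le (g := fun z => F (A.mulVec z)) (ν := ν) h hgI
    (fun w hw => hneg _ (hmin w hw))
  rw [hg] at h1
  simp only [Matrix.mulVec_zero] at h1
  have h2 : 0 < |A.det| := abs_pos.2 hA
  rwa [inv_mul_le_iff₀ h2] at h1

/-- The linear programming bound for Hermite's constant. -/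
theorem lp {N : ℕ} (hN : 0 < N) {F : (Fin N → ℝ) → ℝ} (hF : PosDef F) (hI : Integrable F)
    (hpos : 0 < ∫ z, F z) {R : ℝ} (hR : 0 < R) (hneg : ∀ z, R ≤ ∑ i, z i ^ 2 → F z ≤ 0) :
    gamma N ≤ R * (F 0 / ∫ z, F z) ^ ((2 : ℝ) / N) := by
  have hNR : (0 : ℝ) < N := by exact_mod_cast hN
  have hbdd : ∀ A : Matrix (Fin N) (Fin N) ℝ, BddBelow (Set.range
      fun w : {w : Fin N → ℤ // w ≠ 0} => ∑ i, (Matrix.mulVec A (fun j => (w.1 j : ℝ))) i ^ 2) :=
    fun A => ⟨0, by rintro _ ⟨w, rfl⟩; positivity⟩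
  have hle : ∀ A : Matrix (Fin N) (Fin N) ℝ, ∀ w : Fin N → ℤ, w ≠ 0 →
      minSq A ≤ ∑ i, (Matrix.mulVec A (fun j => (w j : ℝ))) i ^ 2 :=
    fun A w hw => ciInf_le (hbdd A) ⟨w, hw⟩
  have key : ∀ A : Matrix (Fin N) (Fin N) ℝ, A.det ≠ 0 → 0 < minSq A → 0 < F 0 ∧
      inv A ≤ R * (F 0 / ∫ z, F z) ^ ((2 : ℝ) / N) := by
    intro A hA hm
    set t : ℝ := Real.sqrt (R / minSq A) with ht
    have ht0 : 0 < t := Real.sqrt_pos.2 (div_pos hR hm)
    have ht2 : t ^ 2 = R / minSq A := Real.sq_sqrt (div_pos hR hm).le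
    have hdet : (t • A).det = t ^ N * A.det := by
      rw [Matrix.det_smul, Fintype.card_fin]
    have hA' : (t • A).det ≠ 0 := by
      rw [hdet]
      exact mul_ne_zero (pow_ne_zero _ ht0.ne') hA
    have h1 := lp_lattice hF hI hneg (t • A) hA' (fun w hw => by
      have h2 : ∑ i, (Matrix.mulVec (t • A) (fun j => (w j : ℝ))) i ^ 2 =
          t ^ 2 * ∑ i, (Matrix.mulVec A (fun j => (w j : ℝ))) i ^ 2 := by
        rw [Finset.mul_sum]
        refine Finset.sum_congr rfl fun i _ => ?_
        rw [Matrix.smul_mulVec, Pi.smul_apply, smul_eq_mul, mul_pow]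
      rw [h2, ht2]
      have h3 := hle A w hw
      have h4 : R = R / minSq A * minSq A := by field_simp
      calc R = R / minSq A * minSq A := h4
        _ ≤ _ := mul_le_mul_of_nonneg_left h3 (div_pos hR hm).le)
    rw [hdet, abs_mul, abs_of_pos (pow_pos ht0 N)] at h1
    have hD : 0 < t ^ N * |A.det| := mul_pos (pow_pos ht0 N) (abs_pos.2 hA)
    have hF0 : 0 < F 0 := by
      by_contra hcon
      have := mul_nonpos_of_nonneg_of_nonpos hD.le (not_lt.1 hcon)
      linarith
    refine ⟨hF0, ?_⟩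
    have hroot : (t ^ N * |A.det|) ^ ((2 : ℝ) / N) = t ^ 2 * |A.det| ^ ((2 : ℝ) / N) := by
      rw [Real.mul_rpow (pow_pos ht0 N).le (abs_nonneg _), ← Real.rpow_natCast t N,
        ← Real.rpow_mul ht0.le]
      congr 1
      rw [mul_div_cancel₀ _ hNR.ne']
      exact_mod_cast Real.rpow_natCast t 2
    have hdp : 0 < |A.det| ^ ((2 : ℝ) / N) := Real.rpow_pos_of_pos (abs_pos.2 hA) _
    have hinv : inv A = R / (t ^ N * |A.det|) ^ ((2 : ℝ) / N) := by
      rw [hroot, ht2, inv]
      field_simp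
    rw [hinv, div_eq_mul_inv, ← Real.inv_rpow hD.le]
    refine mul_le_mul_of_nonneg_left ?_ hR.le
    refine Real.rpow_le_rpow (inv_pos.2 hD).le ?_ (by positivity)
    rw [inv_eq_one_div, div_le_div_iff₀ hD hpos]
    linarith
  have : Nonempty {A : Matrix (Fin N) (Fin N) ℝ // A.det ≠ 0} := ⟨⟨1, by simp⟩⟩
  have hF0' : 0 ≤ F 0 := by
    obtain ⟨ν, hν, h⟩ := hF
    rw [h]
    simp
  refine ciSup_le fun A => ?_
  rcases lt_or_ge 0 (minSq A.1) with hm | hm
  · exact (key A.1 A.2 hm).2
  · have h1 : inv A.1 ≤ 0 := div_nonpos_of_nonpos_of_nonneg hm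
      (Real.rpow_nonneg (abs_nonneg _) _)
    exact h1.trans (mul_nonneg hR.le (Real.rpow_nonneg (div_nonneg hF0' hpos.le) _))

end Pool.Agent.KL
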