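import Mathlib

/-! Uniqueness of Laplace transforms on the half line (real exponents, Weierstrass). -/

open MeasureTheory Set Filter Real Topology

namespace Pool.Agent.KL

theorem integrableOn_of_growth {D : ℝ → ℝ} (hD : ContinuousOn D (Ioi 0)) {C : ℝ}
    (hb : ∀ u, 0 < u → |D u| ≤ C * exp u) {a : ℝ} (ha : 1 < a) :
    IntegrableOn (fun u => D u * exp (-(a * u))) (Ioi 0) := by
  refine Integrable.mono' (g := fun u => C * exp (-(a - 1) * u)) ?_ ?_ ?_
  · exact (exp_neg_integrableOn_Ioi 0 (by linarith)).const_mul C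
  · refine ContinuousOn.aestronglyMeasurable ?_ measurableSet_Ioi
    exact hD.mul (by fun_prop)
  · filter_upwards [ae_restrict_mem measurableSet_Ioi] with u hu
    rw [norm_mul, norm_of_nonneg (exp_pos _).le, norm_eq_abs]
    calc |D u| * exp (-(a * u)) ≤ C * exp u * exp (-(a * u)) := by
          have := hb u hu
          gcongr
      _ = C * exp (-(a - 1) * u) := by
          rw [mul_assoc, ← exp_add]
          congr 2
          ring

/-- A function continuous on `(0,∞)`, of growth at most `C e^u`, whose Laplace transform vanishes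
at the integers from 3 on, is zero. -/
theorem lap_zero {D : ℝ → ℝ} (hD : ContinuousOn D (Ioi 0)) {C : ℝ}
    (hb : ∀ u, 0 < u → |D u| ≤ C * exp u)
    (h0 : ∀ k : ℕ, ∫ u in Ioi (0:ℝ), D u * exp (-((k + 3 : ℝ) * u)) = 0) :
    ∀ u, 0 < u → D u = 0 := by
  classical
  have hC : 0 ≤ C := by
    have h1 := (abs_nonneg _).trans (hb 1 one_pos)
    exact nonneg_of_mul_nonneg_left h1 (exp_pos 1)
  set φ : ℝ → ℝ := fun x => if 0 < x ∧ x < 1 then x ^ 2 * (1 - x) * D (-log x) else 0 with hφ
  have hφb : ∀ x, 0 ≤ x → x ≤ 1 → |φ x| ≤ C * (x * (1 - x)) := by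
    intro x hx0 hx1
    simp only [hφ]
    split_ifs with h
    · obtain ⟨h1, h2⟩ := h
      have hl : 0 < -log x := by
        have := log_neg h1 h2
        linarith
      have h3 := hb _ hl
      rw [exp_neg, exp_log h1] at h3
      have h4 : 0 ≤ x ^ 2 * (1 - x) := mul_nonneg (sq_nonneg _) (by linarith)
      rw [abs_mul, abs_of_nonneg h4]
      calc x ^ 2 * (1 - x) * |D (-log x)| ≤ x ^ 2 * (1 - x) * (C * x⁻¹) :=
            mul_le_mul_of_nonneg_left h3 h4
        _ = C * (x * (1 - x)) := by field_simp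
    · rw [abs_zero]
      exact mul_nonneg hC (mul_nonneg hx0 (by linarith))
  have hφc : ContinuousOn φ (Icc 0 1) := by
    intro x hx
    by_cases h : 0 < x ∧ x < 1
    · have hca : ContinuousAt φ x := by
        have he : φ =ᶠ[𝓝 x] fun y => y ^ 2 * (1 - y) * D (-log y) := by
          filter_upwards [Ioo_mem_nhds h.1 h.2] with y hy
          simp only [hφ]
          rw [if_pos ⟨hy.1, hy.2⟩]
        refine ContinuousAt.congr ?_ he.symm
        have hl : ContinuousAt D (-log x) := by
          refine hD.continuousAt (Ioi_mem_nhds ?_)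
          have := log_neg h.1 h.2
          linarith
        have hlog : ContinuousAt (fun y => -log y) x := (continuousAt_log h.1.ne').neg
        exact ((continuousAt_id.pow 2).mul (continuousAt_const.sub continuousAt_id)).mul
          (ContinuousAt.comp (g := D) hl hlog)
      exact hca.continuousWithinAt
    · have hx' : φ x = 0 := by
        simp only [hφ]
        rw [if_neg h]
      have hz : x * (1 - x) = 0 := by
        by_cases hx0 : x = 0
        · rw [hx0, zero_mul]
        · have h1 : 0 < x := lt_of_le_of_ne hx.1 (Ne.symm hx0)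
          have h2 : ¬ x < 1 := fun h3 => h ⟨h1, h3⟩
          have h3 : x = 1 := le_antisymm hx.2 (not_lt.mp h2)
          rw [h3]
          ring
      change Tendsto φ (𝓝[Icc 0 1] x) (𝓝 (φ x))
      rw [hx']
      refine squeeze_zero_norm' (a := fun y => C * (y * (1 - y))) ?_ ?_
      · filter_upwards [self_mem_nhdsWithin] with y hy
        exact hφb y hy.1 hy.2
      · have ht : Tendsto (fun y : ℝ => C * (y * (1 - y))) (𝓝 x) (𝓝 (C * (x * (1 - x)))) := by
          apply Continuous.tendsto
          fun_prop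
        rw [hz, mul_zero] at ht
        exact ht.mono_left nhdsWithin_le_nhds
  set ψ : ℝ → ℝ := fun u => D u * (1 - exp (-u)) * exp (-(2 * u)) with hψ
  have hψφ : ∀ u, 0 < u → φ (exp (-u)) = ψ u := by
    intro u hu
    have h1 : exp (-u) < 1 := by
      rw [exp_lt_one_iff]
      linarith
    simp only [hφ, hψ]
    rw [if_pos ⟨exp_pos _, h1⟩, log_exp, neg_neg, ← exp_nat_mul]
    have h2 : ((2:ℕ):ℝ) * -u = -(2 * u) := by push_cast; ring
    rw [h2]
    ring
  have hψc : ContinuousOn ψ (Ioi 0) := by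
    exact (hD.mul (by fun_prop)).mul (by fun_prop)
  have hψb : ∀ u, 0 < u → |ψ u| ≤ C := by
    intro u hu
    rw [← hψφ u hu]
    have h1 : exp (-u) < 1 := by
      rw [exp_lt_one_iff]
      linarith
    have h2 := hφb (exp (-u)) (exp_pos _).le h1.le
    have h3 : exp (-u) * (1 - exp (-u)) ≤ 1 := by
      nlinarith [exp_pos (-u)]
    exact h2.trans (by nlinarith)
  have hI : ∀ k : ℕ, IntegrableOn (fun u => D u * exp (-((k + 3 : ℝ) * u))) (Ioi 0) := fun k =>
    integrableOn_of_growth hD hb (by have : (0:ℝ) ≤ k := k.cast_nonneg; linarith)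
  -- moments of ψ
  have hm : ∀ k : ℕ, IntegrableOn (fun u => ψ u * exp (-u) ^ k * exp (-u)) (Ioi 0) ∧
      ∫ u in Ioi (0:ℝ), ψ u * exp (-u) ^ k * exp (-u) = 0 := by
    intro k
    have he : ∀ u, ψ u * exp (-u) ^ k * exp (-u) =
        D u * exp (-((k + 3 : ℝ) * u)) - D u * exp (-(((k + 1 : ℕ) + 3 : ℝ) * u)) := by
      intro u
      simp only [hψ]
      rw [← exp_nat_mul]
      have h1 : exp (-(((k + 1 : ℕ) + 3 : ℝ) * u)) = exp (-((k + 3 : ℝ) * u)) * exp (-u) := by
        rw [← exp_add]
        congr 1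
        push_cast
        ring
      have h2 : exp (-((k + 3 : ℝ) * u)) = exp (-(2 * u)) * exp (k * -u) * exp (-u) := by
        rw [← exp_add, ← exp_add]
        congr 1
        ring
      rw [h1, h2]
      ring
    constructor
    · refine ((hI k).sub (hI (k + 1))).congr ?_
      exact Eventually.of_forall fun u => (he u).symm
    · simp_rw [he]
      rw [integral_sub (hI k) (hI (k + 1)), h0 k, h0 (k + 1), sub_zero]
  -- polynomials
  have hp : ∀ p : Polynomial ℝ, IntegrableOn (fun u => ψ u * p.eval (exp (-u)) * exp (-u)) (Ioi 0) ∧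
      ∫ u in Ioi (0:ℝ), ψ u * p.eval (exp (-u)) * exp (-u) = 0 := by
    intro p
    have he : ∀ u, ψ u * p.eval (exp (-u)) * exp (-u) =
        ∑ k ∈ Finset.range (p.natDegree + 1), p.coeff k * (ψ u * exp (-u) ^ k * exp (-u)) := by
      intro u
      rw [Polynomial.eval_eq_sum_range, Finset.mul_sum, Finset.sum_mul]
      refine Finset.sum_congr rfl fun k _ => ?_
      ring
    constructor
    · have : IntegrableOn (fun u => ∑ k ∈ Finset.range (p.natDegree + 1),
          p.coeff k * (ψ u * exp (-u) ^ k * exp (-u))) (Ioi 0) :=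
        integrable_finsetSum _ fun k _ => (hm k).1.const_mul _
      exact this.congr (Eventually.of_forall fun u => (he u).symm)
    · simp_rw [he]
      rw [integral_finsetSum _ fun k _ => (hm k).1.const_mul _]
      refine Finset.sum_eq_zero fun k _ => ?_
      rw [integral_const_mul, (hm k).2, mul_zero]
  have hexp : IntegrableOn (fun u : ℝ => exp (-u)) (Ioi 0) := by
    simpa using exp_neg_integrableOn_Ioi 0 one_pos
  have hsq : IntegrableOn (fun u => ψ u ^ 2 * exp (-u)) (Ioi 0) := by
    refine Integrable.mono' (g := fun u => C ^ 2 * exp (-u)) (hexp.const_mul _) ?_ ?_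
    · exact ContinuousOn.aestronglyMeasurable ((hψc.pow 2).mul (by fun_prop)) measurableSet_Ioi
    · filter_upwards [ae_restrict_mem measurableSet_Ioi] with u hu
      rw [norm_mul, norm_of_nonneg (exp_pos _).le, norm_eq_abs, abs_pow]
      have := hψb u hu
      gcongr
  have hle : ∀ δ : ℝ, 0 < δ → ∫ u in Ioi (0:ℝ), ψ u ^ 2 * exp (-u) ≤ δ * (C * ∫ u in Ioi (0:ℝ), exp (-u)) := by
    intro δ hδ
    obtain ⟨p, hpδ⟩ := exists_polynomial_near_of_continuousOn 0 1 φ hφc δ hδ
    have h1 : ∫ u in Ioi (0:ℝ), ψ u ^ 2 * exp (-u) =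
        ∫ u in Ioi (0:ℝ), (ψ u ^ 2 * exp (-u) - ψ u * p.eval (exp (-u)) * exp (-u)) := by
      rw [integral_sub hsq (hp p).1, (hp p).2, sub_zero]
    rw [h1, ← integral_const_mul, ← integral_const_mul]
    refine setIntegral_mono_on (hsq.sub (hp p).1) ((hexp.const_mul _).const_mul _)
      measurableSet_Ioi fun u hu => ?_
    have hu : 0 < u := hu
    have h2 : exp (-u) < 1 := by
      rw [exp_lt_one_iff]
      linarith
    have h3 := hpδ (exp (-u)) ⟨(exp_pos _).le, h2.le⟩
    rw [hψφ u hu] at h3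
    have h4 := hψb u hu
    have h5 : ψ u ^ 2 - ψ u * p.eval (exp (-u)) ≤ δ * C := by
      have h6 : ψ u ^ 2 - ψ u * p.eval (exp (-u)) = ψ u * -(p.eval (exp (-u)) - ψ u) := by ring
      rw [h6]
      calc ψ u * -(p.eval (exp (-u)) - ψ u) ≤ |ψ u * -(p.eval (exp (-u)) - ψ u)| := le_abs_self _
        _ = |ψ u| * |p.eval (exp (-u)) - ψ u| := by rw [abs_mul, abs_neg]
        _ ≤ C * δ := mul_le_mul h4 h3.le (abs_nonneg _) hC
        _ = δ * C := mul_comm _ _
    calc ψ u ^ 2 * exp (-u) - ψ u * p.eval (exp (-u)) * exp (-u) =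
        (ψ u ^ 2 - ψ u * p.eval (exp (-u))) * exp (-u) := by ring
      _ ≤ δ * C * exp (-u) := mul_le_mul_of_nonneg_right h5 (exp_pos _).le
      _ = δ * (C * exp (-u)) := by ring
  have hint0 : ∫ u in Ioi (0:ℝ), ψ u ^ 2 * exp (-u) = 0 := by
    refine le_antisymm ?_ (setIntegral_nonneg measurableSet_Ioi fun u _ =>
      mul_nonneg (sq_nonneg _) (exp_pos _).le)
    rw [integral_exp_neg_Ioi_zero] at hle
    by_contra hcon
    rw [not_le] at hcon
    have h1 := hle ((∫ u in Ioi (0:ℝ), ψ u ^ 2 * exp (-u)) / (2 * (C + 1)))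
      (div_pos hcon (by linarith))
    have h2 : (∫ u in Ioi (0:ℝ), ψ u ^ 2 * exp (-u)) / (2 * (C + 1)) * (C * 1) ≤
        (∫ u in Ioi (0:ℝ), ψ u ^ 2 * exp (-u)) / 2 := by
      rw [div_mul_eq_mul_div, div_le_div_iff₀ (by linarith) (by norm_num)]
      nlinarith
    linarith
  have hae := (setIntegral_eq_zero_iff_of_nonneg_ae
    (Eventually.of_forall fun u => mul_nonneg (sq_nonneg (ψ u)) (exp_pos (-u)).le) hsq).mp hint0
  have heq := Measure.eqOn_open_of_ae_eq hae isOpen_Ioi ((hψc.pow 2).mul (by fun_prop))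
    continuousOn_const
  intro u hu
  have h1 := heq hu
  simp only [Pi.zero_apply] at h1
  have h2 : exp (-u) < 1 := by
    rw [exp_lt_one_iff]
    linarith
  have h3 : ψ u = 0 := by
    rcases mul_eq_zero.mp h1 with h | h
    · exact pow_eq_zero_iff (two_ne_zero) |>.mp h
    · exact absurd h (exp_pos _).ne'
  simp only [hψ] at h3
  rcases mul_eq_zero.mp h3 with h | h
  · rcases mul_eq_zero.mp h with h' | h'
    · exact h'
    · linarith
  · exact absurd h (exp_pos _).ne'

end Pool.Agent.KL
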