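import Mathlib

/-! Radial positive definite functions on `ℝ^N` with given Gaussian integrals. -/

open MeasureTheory Set Filter Real Topology

namespace Pool.Agent.KL

variable {N : ℕ}

theorem exp_re_aux (A x : ℝ) : (Complex.exp ((A : ℂ) + (x : ℂ) * Complex.I)).re = exp A * cos x := by
  rw [Complex.exp_re]
  simp

/-- The Gaussian integral with a cosine. -/
theorem gauss_cos (w : EuclideanSpace ℝ (Fin N)) {l : ℝ} (hl : 0 < l) :
    ∫ z : EuclideanSpace ℝ (Fin N), cos (inner ℝ w z) * exp (-(l * ‖z‖ ^ 2)) =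
      (π / l) ^ ((N : ℝ) / 2) * exp (-(‖w‖ ^ 2 / (4 * l))) := by
  have hb : 0 < ((l : ℝ) : ℂ).re := by simpa using hl
  have h1 := GaussianFourier.integral_cexp_neg_mul_sq_norm_add hb Complex.I w
  have h2 := GaussianFourier.integrable_cexp_neg_mul_sq_norm_add hb Complex.I w
  have h3 := congrArg Complex.re h1
  have h4 : (∫ v : EuclideanSpace ℝ (Fin N), Complex.exp (-(l : ℂ) * ‖v‖ ^ 2 +
      Complex.I * (inner ℝ w v : ℝ))).re =
      ∫ v : EuclideanSpace ℝ (Fin N), (Complex.exp (-(l : ℂ) * ‖v‖ ^ 2 +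
        Complex.I * (inner ℝ w v : ℝ))).re := (integral_re h2).symm
  rw [h4] at h3
  have h5 : ∀ v : EuclideanSpace ℝ (Fin N), (Complex.exp (-(l : ℂ) * ‖v‖ ^ 2 +
        Complex.I * (inner ℝ w v : ℝ))).re = cos (inner ℝ w v) * exp (-(l * ‖v‖ ^ 2)) := by
    intro v
    have h6 : (-(l : ℂ) * ‖v‖ ^ 2 + Complex.I * (inner ℝ w v : ℝ)) =
        ((-(l * ‖v‖ ^ 2) : ℝ) : ℂ) + ((inner ℝ w v : ℝ) : ℂ) * Complex.I := by
      push_cast
      ring
    rw [h6, exp_re_aux, mul_comm]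
  simp_rw [h5] at h3
  rw [h3, finrank_euclideanSpace_fin]
  have h7 : ((π : ℂ) / l) ^ ((N : ℂ) / 2) * Complex.exp (Complex.I ^ 2 * ‖w‖ ^ 2 / (4 * l)) =
      (((π / l) ^ ((N : ℝ) / 2) * exp (-(‖w‖ ^ 2 / (4 * l))) : ℝ) : ℂ) := by
    rw [Complex.ofReal_mul, Complex.ofReal_cpow (div_pos pi_pos hl).le, Complex.ofReal_exp]
    push_cast
    rw [Complex.I_sq]
    congr 2
    ring
  rw [h7, Complex.ofReal_re]

theorem gauss_integrable {l : ℝ} (hl : 0 < l) :
    Integrable (fun z : EuclideanSpace ℝ (Fin N) => exp (-(l * ‖z‖ ^ 2))) := by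
  have hb : 0 < ((l : ℝ) : ℂ).re := by simpa using hl
  have h2 := (GaussianFourier.integrable_cexp_neg_mul_sq_norm_add hb 0
    (0 : EuclideanSpace ℝ (Fin N))).re
  refine h2.congr (Eventually.of_forall fun z => ?_)
  have h6 : (-(l : ℂ) * ‖z‖ ^ 2 + 0 * (inner ℝ (0 : EuclideanSpace ℝ (Fin N)) z : ℝ)) =
      ((-(l * ‖z‖ ^ 2) : ℝ) : ℂ) := by
    push_cast
    ring
  change (Complex.exp (-(l : ℂ) * ‖z‖ ^ 2 +
    0 * (inner ℝ (0 : EuclideanSpace ℝ (Fin N)) z : ℝ))).re = _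
  rw [h6, ← Complex.ofReal_exp, Complex.ofReal_re]

/-- The shifted Gaussian integral. -/
theorem gauss_shift (a : EuclideanSpace ℝ (Fin N)) {b m : ℝ} (hb : 0 < b) (hm : 0 ≤ m) :
    ∫ y : EuclideanSpace ℝ (Fin N), exp (-(‖y‖ ^ 2 / b)) * exp (-(m * ‖a + y‖ ^ 2)) =
      (π * b) ^ ((N : ℝ) / 2) * (((1 + b * m) ^ ((N : ℝ) / 2))⁻¹ *
        exp (-(m / (1 + b * m) * ‖a‖ ^ 2))) := by
  have hk : 0 < m + 1 / b := by positivity
  have hb' : 0 < (((m + 1 / b : ℝ)) : ℂ).re := by simpa using hk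
  have h1 := GaussianFourier.integral_cexp_neg_mul_sq_norm_add hb' ((-2 * m : ℝ) : ℂ) a
  have h5 : ∀ y : EuclideanSpace ℝ (Fin N), Complex.exp (-((m + 1 / b : ℝ) : ℂ) * ‖y‖ ^ 2 +
        ((-2 * m : ℝ) : ℂ) * (inner ℝ a y : ℝ)) =
        ((exp (m * ‖a‖ ^ 2) * (exp (-(‖y‖ ^ 2 / b)) * exp (-(m * ‖a + y‖ ^ 2))) : ℝ) : ℂ) := by
    intro y
    rw [← exp_add, ← exp_add, Complex.ofReal_exp, @norm_add_sq_real]
    congr 1
    push_cast
    field_simp
    ring
  simp_rw [h5] at h1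
  rw [integral_complex_ofReal, finrank_euclideanSpace_fin] at h1
  have h7 : ((π : ℂ) / ((m + 1 / b : ℝ) : ℂ)) ^ ((N : ℂ) / 2) *
      Complex.exp (((-2 * m : ℝ) : ℂ) ^ 2 * ‖a‖ ^ 2 / (4 * ((m + 1 / b : ℝ) : ℂ))) =
      (((π / (m + 1 / b)) ^ ((N : ℝ) / 2) * exp (m ^ 2 * ‖a‖ ^ 2 / (m + 1 / b)) : ℝ) : ℂ) := by
    rw [Complex.ofReal_mul ((π / (m + 1 / b)) ^ ((N : ℝ) / 2)) _,
      Complex.ofReal_cpow (div_pos pi_pos hk).le, Complex.ofReal_exp]
    have hk' : (((m + 1 / b : ℝ)) : ℂ) ≠ 0 := by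
      have := hk.ne'
      exact_mod_cast this
    have e1 : (((N : ℝ) / 2 : ℝ) : ℂ) = (N : ℂ) / 2 := by push_cast; rfl
    have e2 : ((π / (m + 1 / b) : ℝ) : ℂ) = (π : ℂ) / ((m + 1 / b : ℝ) : ℂ) := by
      rw [Complex.ofReal_div]
    have e3 : ((m ^ 2 * ‖a‖ ^ 2 / (m + 1 / b) : ℝ) : ℂ) =
        (m : ℂ) ^ 2 * (‖a‖ : ℂ) ^ 2 / ((m + 1 / b : ℝ) : ℂ) := by
      rw [Complex.ofReal_div]
      push_cast
      rfl
    have e4 : ((-2 * m : ℝ) : ℂ) = -2 * (m : ℂ) := by push_cast; ring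
    rw [e1, e2, e3, e4]
    congr 2
    field_simp
    ring
  rw [h7] at h1
  have h8 := Complex.ofReal_injective h1
  rw [integral_const_mul] at h8
  have h9 : ∫ y : EuclideanSpace ℝ (Fin N), exp (-(‖y‖ ^ 2 / b)) * exp (-(m * ‖a + y‖ ^ 2)) =
      exp (-(m * ‖a‖ ^ 2)) * ((π / (m + 1 / b)) ^ ((N : ℝ) / 2) *
        exp (m ^ 2 * ‖a‖ ^ 2 / (m + 1 / b))) := by
    rw [← h8, ← mul_assoc, ← exp_add, neg_add_cancel, exp_zero, one_mul]
  rw [h9]
  have hbm : 0 < 1 + b * m := by positivity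
  have h10 : π / (m + 1 / b) = π * b / (1 + b * m) := by
    field_simp
    ring
  rw [h10, div_rpow (by positivity) hbm.le]
  have h11 : exp (-(m / (1 + b * m) * ‖a‖ ^ 2)) =
      exp (-(m * ‖a‖ ^ 2)) * exp (m ^ 2 * ‖a‖ ^ 2 / (m + 1 / b)) := by
    rw [← exp_add]
    congr 1
    have : m + 1 / b = (1 + b * m) / b := by
      field_simp
      ring
    rw [this]
    field_simp
    ring
  rw [h11, div_eq_mul_inv]
  ring

/-- The uniform probability measure of the unit ball. -/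
noncomputable def bal (N : ℕ) : Measure (EuclideanSpace ℝ (Fin N)) :=
  (volume (Metric.ball (0 : EuclideanSpace ℝ (Fin N)) 1))⁻¹ •
    volume.restrict (Metric.ball (0 : EuclideanSpace ℝ (Fin N)) 1)

instance : IsProbabilityMeasure (bal N) := by
  constructor
  rw [bal, Measure.smul_apply, Measure.restrict_apply_univ, smul_eq_mul]
  refine ENNReal.inv_mul_cancel (Metric.measure_ball_pos volume _ one_pos).ne' ?_
  exact measure_ball_lt_top.ne

theorem bal_preserving (O : EuclideanSpace ℝ (Fin N) ≃ₗᵢ[ℝ] EuclideanSpace ℝ (Fin N)) :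
    MeasurePreserving O (bal N) (bal N) := by
  have h1 := (O.measurePreserving).restrict_preimage
    (measurableSet_ball (x := (0 : EuclideanSpace ℝ (Fin N))) (ε := 1))
  have h2 : O ⁻¹' (Metric.ball (0 : EuclideanSpace ℝ (Fin N)) 1) = Metric.ball 0 1 := by
    ext y
    simp
  rw [h2] at h1
  exact h1.smul_measure _

theorem bal_ne_zero (hN : 0 < N) : ∀ᵐ y ∂(bal N), y ≠ 0 := by
  haveI : Nonempty (Fin N) := ⟨⟨0, hN⟩⟩
  haveI : Nontrivial (EuclideanSpace ℝ (Fin N)) := inferInstance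
  refine Measure.ae_smul_measure ?_ _
  exact ae_restrict_of_ae (Measure.ae_ne volume 0)

/-- The directions. -/
noncomputable def dir (p : EuclideanSpace ℝ (Fin N) × ℝ) : EuclideanSpace ℝ (Fin N) :=
  (√8 * √p.2 * ‖p.1‖⁻¹) • p.1

theorem measurable_dir : Measurable (dir (N := N)) := by
  unfold dir
  fun_prop

theorem norm_dir {p : EuclideanSpace ℝ (Fin N) × ℝ} (h1 : p.1 ≠ 0) (h2 : 0 ≤ p.2) :
    ‖dir p‖ ^ 2 = 8 * p.2 := by
  unfold dir
  rw [norm_smul, norm_mul, norm_mul, norm_inv, norm_norm, norm_of_nonneg (sqrt_nonneg _),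
    norm_of_nonneg (sqrt_nonneg _)]
  have h3 : ‖p.1‖ ≠ 0 := norm_ne_zero_iff.mpr h1
  rw [mul_assoc, inv_mul_cancel₀ h3, mul_one, mul_pow, sq_sqrt (by norm_num), sq_sqrt h2]

/-- Radial positive definite functions with prescribed Gaussian integrals. -/
theorem radial_pd (hN : 0 < N) (ρ : Measure ℝ) [IsFiniteMeasure ρ] (hρ : ∀ᵐ r ∂ρ, 0 ≤ r) :
    ∃ (ν : Measure (EuclideanSpace ℝ (Fin N))) (F : EuclideanSpace ℝ (Fin N) → ℝ),
      IsFiniteMeasure ν ∧ (∀ z, F z = ∫ w, cos (inner ℝ w z) ∂ν) ∧ Continuous F ∧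
      (∀ z z', ‖z‖ = ‖z'‖ → F z = F z') ∧ F 0 = ρ.real univ ∧
      (∀ l, 0 < l → ∫ z, F z * exp (-(l * ‖z‖ ^ 2)) =
        (π / l) ^ ((N : ℝ) / 2) * ∫ r, exp (-(2 / l * r)) ∂ρ) := by
  set ν : Measure (EuclideanSpace ℝ (Fin N)) := ((bal N).prod ρ).map dir with hν
  haveI hνf : IsFiniteMeasure ν := by
    rw [hν]
    infer_instance
  refine ⟨ν, fun z => ∫ w, cos (inner ℝ w z) ∂ν, hνf, fun _ => rfl, ?_, ?_, ?_, ?_⟩
  · refine continuous_of_dominated (bound := fun _ => (1 : ℝ)) ?_ ?_ (integrable_const 1) ?_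
    · intro z
      exact Continuous.aestronglyMeasurable (by fun_prop)
    · intro z
      exact Eventually.of_forall fun w => by
        rw [norm_eq_abs]
        exact abs_cos_le_one _
    · exact Eventually.of_forall fun w => by fun_prop
  · -- radial
    have key : ∀ (O : EuclideanSpace ℝ (Fin N) ≃ₗᵢ[ℝ] EuclideanSpace ℝ (Fin N)) z,
        ∫ w, cos (inner ℝ w (O z)) ∂ν = ∫ w, cos (inner ℝ w z) ∂ν := by
      intro O z
      have hm : Measurable (fun w : EuclideanSpace ℝ (Fin N) => O w) := O.continuous.measurable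
      have hmap : ν.map (fun w => O w) = ν := by
        rw [hν, Measure.map_map hm measurable_dir]
        have h1 : (fun w => O w) ∘ dir = dir ∘ (Prod.map O id) := by
          funext p
          simp [dir]
        rw [h1, ← Measure.map_map measurable_dir (hm.prodMap measurable_id)]
        congr 1
        exact ((bal_preserving O).prod (MeasurePreserving.id ρ)).map_eq
      calc ∫ w, cos (inner ℝ w (O z)) ∂ν = ∫ w, cos (inner ℝ w (O z)) ∂(ν.map (fun w => O w)) := by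
            rw [hmap]
        _ = ∫ w, cos (inner ℝ (O w) (O z)) ∂ν := by
            rw [integral_map hm.aemeasurable (Continuous.aestronglyMeasurable (by fun_prop))]
        _ = ∫ w, cos (inner ℝ w z) ∂ν := by simp
    intro z z' hz
    have h1 := Submodule.reflection_sub hz
    have h2 := key (Submodule.reflection (ℝ ∙ (z - z'))ᗮ) z
    rw [h1] at h2
    exact h2.symm
  · simp only [inner_zero_right, cos_zero, integral_const, smul_eq_mul, mul_one]
    rw [hν, measureReal_def, Measure.map_apply measurable_dir MeasurableSet.univ, preimage_univ,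
      ← univ_prod_univ, Measure.prod_prod, measure_univ, one_mul, measureReal_def]
  · intro l hl
    have hG := gauss_integrable (N := N) hl
    have h1 : ∀ z : EuclideanSpace ℝ (Fin N), (∫ w, cos (inner ℝ w z) ∂ν) * exp (-(l * ‖z‖ ^ 2)) =
        ∫ w, cos (inner ℝ w z) * exp (-(l * ‖z‖ ^ 2)) ∂ν := fun z => by
      rw [integral_mul_const]
    simp_rw [h1]
    rw [integral_integral_swap]
    · simp_rw [gauss_cos _ hl]
      rw [integral_const_mul, hν, integral_map measurable_dir.aemeasurable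
        (Continuous.aestronglyMeasurable (by fun_prop))]
      congr 1
      have h2 : ∀ᵐ p ∂((bal N).prod ρ), exp (-(‖dir p‖ ^ 2 / (4 * l))) = exp (-(2 / l * p.2)) := by
        filter_upwards [Measure.quasiMeasurePreserving_fst.ae (bal_ne_zero hN),
          Measure.quasiMeasurePreserving_snd.ae hρ] with p hp1 hp2
        rw [norm_dir hp1 hp2]
        congr 2
        field_simp
        ring
      rw [integral_congr_ae h2, integral_fun_snd (fun r => exp (-(2 / l * r)))]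
      simp
    · have h3 : Integrable (fun p : EuclideanSpace ℝ (Fin N) × EuclideanSpace ℝ (Fin N) =>
          exp (-(l * ‖p.1‖ ^ 2))) (volume.prod ν) := hG.comp_fst ν
      refine Integrable.mono' h3 (Continuous.aestronglyMeasurable (by
        unfold Function.uncurry
        fun_prop)) (Eventually.of_forall fun p => ?_)
      rw [Function.uncurry, norm_mul, norm_of_nonneg (exp_pos _).le, norm_eq_abs]
      exact mul_le_of_le_one_left (exp_pos _).le (abs_cos_le_one _)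

end Pool.Agent.KL
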