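import Mathlib
import Pool.Agent.Lib.KL.Radial

/-! The positive measure on the half line with the required Laplace transform. -/

open MeasureTheory Set Filter Real Topology

namespace Pool.Agent.KL

theorem int_dens {α : Type*} [MeasurableSpace α] {μ : Measure α} {d : α → ℝ} (hd : Measurable d)
    (h0 : ∀ᵐ x ∂μ, 0 ≤ d x) (g : α → ℝ) :
    ∫ x, g x ∂(μ.withDensity (fun x => ENNReal.ofReal (d x))) = ∫ x, d x * g x ∂μ := by
  rw [integral_withDensity_eq_integral_toReal_smul (by fun_prop)
    (Eventually.of_forall fun x => ENNReal.ofReal_lt_top)]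
  refine integral_congr_ae ?_
  filter_upwards [h0] with x hx
  rw [ENNReal.toReal_ofReal hx, smul_eq_mul]

theorem int_exp {a : ℝ} (ha : 0 < a) : ∫ r in Ioi (0:ℝ), exp (-(a * r)) = 1 / a := by
  have h1 := integral_exp_mul_Ioi (a := -a) (by linarith) 0
  simp only [mul_zero, exp_zero] at h1
  have h2 : ∀ r : ℝ, exp (-(a * r)) = exp (-a * r) := fun r => by
    congr 1
    ring
  simp_rw [h2]
  rw [h1]
  field_simp

theorem int_exp_on {a : ℝ} (ha : 0 < a) : IntegrableOn (fun r : ℝ => exp (-(a * r))) (Ioi 0) := by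
  have h := exp_neg_integrableOn_Ioi 0 ha
  refine h.congr (Eventually.of_forall fun r => ?_)
  change exp (-a * r) = exp (-(a * r))
  congr 1
  ring

/-- The measure `ρ`: image of a product of three positive measures. -/
theorem exists_rho {M : ℕ} (hM : 0 < M) {h : ℝ → ℝ} (hh : Measurable h)
    (hi : IntegrableOn (fun v => h v ^ 2) (Ioi 0)) {b ε : ℝ} (hb : 0 < b) (hε : 0 < ε) :
    ∃ ρ : Measure ℝ, IsFiniteMeasure ρ ∧ (∀ᵐ r ∂ρ, 0 ≤ r) ∧ ∀ m : ℝ, 0 ≤ m →
      ∫ r, exp (-(m * r)) ∂ρ = ((1 + b * m) ^ ((M : ℝ) / 2))⁻¹ *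
        (∫ v in Ioi 0, h v ^ 2 * exp (-(m / (1 + b * m) * v))) *
        (2 / (m + 1 / ε) - 1 / (m + 2 / ε)) := by
  set P1 : Measure ℝ := (volume.restrict (Ioi 0)).withDensity (fun v => ENNReal.ofReal (h v ^ 2))
    with hP1
  set c : ℝ := ((π * b) ^ ((M : ℝ) / 2))⁻¹ with hc
  have hc0 : 0 < c := inv_pos.mpr (rpow_pos_of_pos (mul_pos pi_pos hb) _)
  set P2 : Measure (EuclideanSpace ℝ (Fin M)) :=
    volume.withDensity (fun y => ENNReal.ofReal (c * exp (-(‖y‖ ^ 2 / b)))) with hP2
  set d3 : ℝ → ℝ := fun r => 2 * exp (-(1 / ε * r)) - exp (-(2 / ε * r)) with hd3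
  set P3 : Measure ℝ := (volume.restrict (Ioi 0)).withDensity (fun r => ENNReal.ofReal (d3 r))
    with hP3
  have hd3m : Measurable d3 := by
    rw [hd3]
    fun_prop
  have hd3p : ∀ r, 0 < r → 0 ≤ d3 r := by
    intro r hr
    simp only [hd3]
    have h1 : exp (-(2 / ε * r)) ≤ exp (-(1 / ε * r)) := by
      rw [exp_le_exp]
      have : 0 < 1 / ε * r := by positivity
      have h2 : 2 / ε * r = 1 / ε * r + 1 / ε * r := by ring
      linarith
    have h2 := exp_pos (-(1 / ε * r))
    linarith
  have hd3i : IntegrableOn d3 (Ioi 0) :=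
    ((int_exp_on (by positivity : 0 < 1 / ε)).const_mul 2).sub
      (int_exp_on (by positivity : 0 < 2 / ε))
  haveI : IsFiniteMeasure P1 := isFiniteMeasure_withDensity_ofReal hi.2
  have h2i : Integrable (fun y : EuclideanSpace ℝ (Fin M) => c * exp (-(‖y‖ ^ 2 / b))) := by
    have := (gauss_integrable (N := M) (l := 1 / b) (by positivity)).const_mul c
    refine this.congr (Eventually.of_forall fun y => ?_)
    change c * exp (-(1 / b * ‖y‖ ^ 2)) = c * exp (-(‖y‖ ^ 2 / b))
    congr 3
    ring
  haveI : IsFiniteMeasure P2 := isFiniteMeasure_withDensity_ofReal h2i.2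
  haveI : IsFiniteMeasure P3 := isFiniteMeasure_withDensity_ofReal hd3i.2
  have hP1p : ∀ᵐ v ∂P1, 0 < v :=
    (withDensity_absolutelyContinuous _ _).ae_le (ae_restrict_mem measurableSet_Ioi)
  have hP3p : ∀ᵐ v ∂P3, 0 < v :=
    (withDensity_absolutelyContinuous _ _).ae_le (ae_restrict_mem measurableSet_Ioi)
  set e : EuclideanSpace ℝ (Fin M) := EuclideanSpace.single ⟨0, hM⟩ 1 with he
  have hen : ‖e‖ = 1 := by simp [he]
  set R : ℝ × (EuclideanSpace ℝ (Fin M) × ℝ) → ℝ := fun p => ‖√p.1 • e + p.2.1‖ ^ 2 + p.2.2 with hR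
  have hRm : Measurable R := by
    rw [hR]
    fun_prop
  set P := P1.prod (P2.prod P3) with hP
  have hRp : ∀ᵐ p ∂P, 0 ≤ R p := by
    have h1 : ∀ᵐ q ∂(P2.prod P3), 0 < q.2 := Measure.quasiMeasurePreserving_snd.ae hP3p
    have h2 : ∀ᵐ p ∂P, 0 < p.2.2 := Measure.quasiMeasurePreserving_snd.ae h1
    filter_upwards [h2] with p hp
    simp only [hR]
    positivity
  refine ⟨P.map R, inferInstance, ?_, ?_⟩
  · rw [ae_map_iff hRm.aemeasurable measurableSet_Ici]
    exact hRp
  · intro m hm
    rw [integral_map hRm.aemeasurable (Continuous.aestronglyMeasurable (by fun_prop)), hP,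
      integral_prod]
    · have h1 : ∀ᵐ v ∂P1, ∫ q, exp (-(m * R (v, q))) ∂(P2.prod P3) =
          ((1 + b * m) ^ ((M : ℝ) / 2))⁻¹ * (2 / (m + 1 / ε) - 1 / (m + 2 / ε)) *
            exp (-(m / (1 + b * m) * v)) := by
        filter_upwards [hP1p] with v hv
        have h2 : ∀ q : EuclideanSpace ℝ (Fin M) × ℝ, exp (-(m * R (v, q))) =
            exp (-(m * ‖√v • e + q.1‖ ^ 2)) * exp (-(m * q.2)) := by
          intro q
          rw [← exp_add]
          congr 1
          simp only [hR]
          ring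
        simp_rw [h2]
        rw [integral_prod_mul (fun y : EuclideanSpace ℝ (Fin M) => exp (-(m * ‖√v • e + y‖ ^ 2)))
          (fun r => exp (-(m * r)))]
        have h3 : ∫ y, exp (-(m * ‖√v • e + y‖ ^ 2)) ∂P2 =
            ((1 + b * m) ^ ((M : ℝ) / 2))⁻¹ * exp (-(m / (1 + b * m) * v)) := by
          rw [hP2, int_dens (by fun_prop) (Eventually.of_forall fun y => by positivity)]
          simp_rw [mul_assoc]
          rw [integral_const_mul, gauss_shift _ hb hm, norm_smul, hen, mul_one,
            norm_of_nonneg (sqrt_nonneg v), sq_sqrt hv.le, ← mul_assoc, hc, inv_mul_cancel₀,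
            one_mul]
          exact (rpow_pos_of_pos (mul_pos pi_pos hb) _).ne'
        have h4 : ∫ r, exp (-(m * r)) ∂P3 = 2 / (m + 1 / ε) - 1 / (m + 2 / ε) := by
          rw [hP3, int_dens hd3m (by
            filter_upwards [ae_restrict_mem measurableSet_Ioi] with r hr using hd3p r hr)]
          have h5 : ∀ r : ℝ, d3 r * exp (-(m * r)) =
              2 * exp (-((m + 1 / ε) * r)) - exp (-((m + 2 / ε) * r)) := by
            intro r
            simp only [hd3]
            rw [sub_mul, mul_assoc, ← exp_add, ← exp_add]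
            congr 3 <;> ring
          simp_rw [h5]
          have p1 : 0 < m + 1 / ε := by positivity
          have p2 : 0 < m + 2 / ε := by positivity
          rw [integral_sub ((int_exp_on p1).const_mul 2) (int_exp_on p2), integral_const_mul,
            int_exp p1, int_exp p2]
          ring
        rw [h3, h4]
        ring
      rw [integral_congr_ae h1, integral_const_mul, hP1,
        int_dens (by fun_prop) (Eventually.of_forall fun y => by positivity)]
      ring
    · refine Integrable.of_bound (C := 1) ?_ ?_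
      · exact Measurable.aestronglyMeasurable (by fun_prop)
      · filter_upwards [hRp] with p hp
        rw [norm_of_nonneg (exp_pos _).le, exp_le_one_iff]
        have := mul_nonneg hm hp
        linarith

end Pool.Agent.KL
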