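import Mathlib
import Pool.Agent.Lib.KL.LapZero
import Pool.Agent.Lib.KL.Radial
import Pool.Agent.Lib.KL.Rho
import Pool.Agent.Lib.KL.LP

/-! The test function: `u^(2n-1) F = (2n-1)! S(u)`, `u = |z|^2`, is positive definite. -/

open MeasureTheory Set Filter Real Topology
open scoped Nat

namespace Pool.Agent.KL

/-- Polar coordinates in dimension `4n`, in the variable `u = |z|^2`. -/
theorem polar_u {n : ℕ} (hn : 1 ≤ n) (g : ℝ → ℝ) :
    ∫ z : EuclideanSpace ℝ (Fin (4 * n)), g (‖z‖ ^ 2) =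
      π ^ (2 * n) / (2 * n - 1)! * ∫ u in Ioi (0:ℝ), u ^ (2 * n - 1) * g u := by
  haveI : Nonempty (Fin (4 * n)) := ⟨⟨0, by omega⟩⟩
  have h1 := integral_fun_norm_addHaar (volume : Measure (EuclideanSpace ℝ (Fin (4 * n))))
    (fun t => g (t ^ 2))
  rw [h1, finrank_euclideanSpace_fin]
  have h2 : (volume : Measure (EuclideanSpace ℝ (Fin (4 * n)))).real (Metric.ball 0 1) =
      π ^ (2 * n) / (2 * n)! := by
    rw [measureReal_def, EuclideanSpace.volume_ball]
    simp only [ENNReal.ofReal_one, one_pow, one_mul, Fintype.card_fin]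
    rw [ENNReal.toReal_ofReal (by positivity)]
    have h3 : ((4 * n : ℕ) : ℝ) / 2 + 1 = ((2 * n : ℕ) : ℝ) + 1 := by
      push_cast
      ring
    rw [h3, Gamma_nat_eq_factorial]
    have h4 : √π ^ (4 * n) = π ^ (2 * n) := by
      rw [show 4 * n = 2 * (2 * n) by ring, pow_mul, sq_sqrt pi_pos.le]
    rw [h4]
  have h3 := integral_comp_rpow_Ioi (fun u => u ^ (2 * n - 1) * g u) (two_ne_zero (α := ℝ))
  have h4 : ∫ y in Ioi (0:ℝ), y ^ (4 * n - 1) • g (y ^ 2) =
      1 / 2 * ∫ u in Ioi (0:ℝ), u ^ (2 * n - 1) * g u := by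
    rw [← h3, ← integral_const_mul]
    refine setIntegral_congr_fun measurableSet_Ioi fun y hy => ?_
    have hy : 0 < y := hy
    simp only [smul_eq_mul]
    rw [abs_of_pos two_pos, show (2:ℝ) - 1 = 1 by norm_num, rpow_one, rpow_two, ← pow_mul,
      show 4 * n - 1 = 2 * (2 * n - 1) + 1 by omega, pow_succ]
    ring
  rw [h4, h2, nsmul_eq_mul, smul_eq_mul]
  have h5 : ((2 * n)! : ℝ) = 2 * n * ((2 * n - 1)! : ℝ) := by
    have : (2 * n)! = (2 * n) * (2 * n - 1)! := (Nat.mul_factorial_pred (by omega)).symm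
    rw [this]
    push_cast
    ring
  rw [h5]
  have hn' : (n : ℝ) ≠ 0 := by
    have : n ≠ 0 := by omega
    exact_mod_cast this
  push_cast
  field_simp
  ring

theorem integrable_u {n : ℕ} (hn : 1 ≤ n) {g : ℝ → ℝ}
    (hg : IntegrableOn (fun u => u ^ (2 * n - 1) * g u) (Ioi 0)) :
    Integrable (fun z : EuclideanSpace ℝ (Fin (4 * n)) => g (‖z‖ ^ 2)) := by
  haveI : Nonempty (Fin (4 * n)) := ⟨⟨0, by omega⟩⟩
  refine (integrable_fun_norm_addHaar (volume : Measure (EuclideanSpace ℝ (Fin (4 * n))))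
    (f := fun t => g (t ^ 2))).mpr ?_
  rw [finrank_euclideanSpace_fin]
  rw [← integrableOn_Ioi_comp_rpow_iff _ (two_ne_zero (α := ℝ))] at hg
  have hg2 : IntegrableOn (fun x : ℝ => 1 / 2 * ((|(2:ℝ)| * x ^ ((2:ℝ) - 1)) •
    ((x ^ (2:ℝ)) ^ (2 * n - 1) * g (x ^ (2:ℝ))))) (Ioi 0) := hg.const_mul (1 / 2)
  refine hg2.congr_fun (fun y hy => ?_) measurableSet_Ioi
  have hy : 0 < y := hy
  simp only [smul_eq_mul]
  rw [abs_of_pos two_pos, show (2:ℝ) - 1 = 1 by norm_num, rpow_one, rpow_two, ← pow_mul,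
    show 4 * n - 1 = 2 * (2 * n - 1) + 1 by omega, pow_succ]
  ring

theorem pos_key {n : ℕ} (hn : 1 ≤ n) {h S : ℝ → ℝ} {ε : ℝ} (hε : 0 < ε) (hh : Measurable h)
    (hi : IntegrableOn (fun v => h v ^ 2) (Ioi 0)) (hS : ContinuousOn S (Ioi 0))
    (hSi : IntegrableOn S (Ioi 0)) (hSb : ∃ C, ∀ u, 0 < u → |S u| ≤ C)
    (hL : ∀ l, 0 < l → ∫ u in Ioi 0, S u * exp (-(l * u)) =
      ((l + 3 * ε) ^ (2 * n - 1))⁻¹ * (∫ v in Ioi 0, h v ^ 2 * exp (-(2 / (l + 3 * ε) * v))) *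
        (2 * ε / (l + 2 * ε) - ε / 2 / (l + ε))) :
    ∃ (ν : Measure (EuclideanSpace ℝ (Fin (4 * n)))) (F : EuclideanSpace ℝ (Fin (4 * n)) → ℝ),
      IsFiniteMeasure ν ∧ (∀ z, F z = ∫ w, cos (inner ℝ w z) ∂ν) ∧ Integrable F ∧
      (∀ z, z ≠ 0 → (‖z‖ ^ 2) ^ (2 * n - 1) * F z = (2 * n - 1)! * S (‖z‖ ^ 2)) ∧
      F 0 = 3 * ε / 2 * ∫ v in Ioi 0, h v ^ 2 ∧
      ∫ z, F z = π ^ (2 * n) * ∫ u in Ioi 0, S u := by
  have hM : 0 < 2 * (2 * n - 1) := by omega
  obtain ⟨ρ, hρf, hρp, hρL⟩ := exists_rho hM hh hi (b := 3 * ε / 2) (by positivity) hε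
  have hMe : ((2 * (2 * n - 1) : ℕ) : ℝ) / 2 = ((2 * n - 1 : ℕ) : ℝ) := by
    push_cast
    ring
  simp_rw [hMe, rpow_natCast] at hρL
  obtain ⟨ν, F, hνf, hF, hFc, hFr, hF0, hFG⟩ := radial_pd (N := 4 * n) (by omega) ρ hρp
  have hNe : ((4 * n : ℕ) : ℝ) / 2 = ((2 * n : ℕ) : ℝ) := by
    push_cast
    ring
  simp_rw [hNe, rpow_natCast] at hFG
  -- a unit vector and the profile
  set e : EuclideanSpace ℝ (Fin (4 * n)) := EuclideanSpace.single ⟨0, by omega⟩ 1 with he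
  have hen : ‖e‖ = 1 := by simp [he]
  set F0 : ℝ → ℝ := fun u => F (√u • e) with hF0d
  have hFF0 : ∀ z, F z = F0 (‖z‖ ^ 2) := by
    intro z
    simp only [hF0d]
    refine hFr _ _ ?_
    rw [sqrt_sq (norm_nonneg z), norm_smul, norm_norm, hen, mul_one]
  have hF0c : Continuous F0 := by
    simp only [hF0d]
    fun_prop
  have hFb : ∀ z, |F z| ≤ ν.real univ := by
    intro z
    rw [hF z, ← norm_eq_abs]
    have := norm_integral_le_of_norm_le_const (μ := ν) (C := 1)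
      (f := fun w => cos (inner ℝ w z)) (Eventually.of_forall fun w => by
        rw [norm_eq_abs]
        exact abs_cos_le_one _)
    simpa using this
  obtain ⟨C, hC⟩ := hSb
  -- the difference
  set D : ℝ → ℝ := fun u => u ^ (2 * n - 1) * F0 u - (2 * n - 1)! * S u with hD
  have hDc : ContinuousOn D (Ioi 0) := by
    refine ContinuousOn.sub (Continuous.continuousOn (by fun_prop)) (continuousOn_const.mul hS)
  have hpow : ∀ u : ℝ, 0 < u → u ^ (2 * n - 1) ≤ (2 * n - 1)! * exp u := by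
    intro u hu
    have := pow_div_factorial_le_exp u hu.le (2 * n - 1)
    rw [div_le_iff₀ (by positivity)] at this
    linarith
  have hA0 : 0 ≤ ν.real univ := measureReal_nonneg
  have hC0 : 0 ≤ C := (abs_nonneg _).trans (hC 1 one_pos)
  have hA : ∀ u, 0 < u → |u ^ (2 * n - 1) * F0 u| ≤ (2 * n - 1)! * ν.real univ * exp u := by
    intro u hu
    rw [abs_mul, abs_of_nonneg (pow_nonneg hu.le _)]
    calc u ^ (2 * n - 1) * |F0 u| ≤ ((2 * n - 1)! * exp u) * ν.real univ :=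
          mul_le_mul (hpow u hu) (hFb _) (abs_nonneg _) (by positivity)
      _ = _ := by ring
  have hB : ∀ u, 0 < u → |(2 * n - 1)! * S u| ≤ (2 * n - 1)! * C * exp u := by
    intro u hu
    rw [abs_mul, abs_of_nonneg (by positivity : (0:ℝ) ≤ (2 * n - 1)!)]
    have h1 : 1 ≤ exp u := one_le_exp hu.le
    calc ((2 * n - 1)! : ℝ) * |S u| ≤ (2 * n - 1)! * C :=
          mul_le_mul_of_nonneg_left (hC u hu) (by positivity)
      _ ≤ (2 * n - 1)! * C * exp u := le_mul_of_one_le_right (by positivity) h1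
  have hDb : ∀ u, 0 < u → |D u| ≤ ((2 * n - 1)! * ν.real univ + (2 * n - 1)! * C) * exp u := by
    intro u hu
    have h1 : |D u| ≤ |u ^ (2 * n - 1) * F0 u| + |(2 * n - 1)! * S u| := abs_sub _ _
    have h2 := hA u hu
    have h3 := hB u hu
    linarith
  have hDz : ∀ u, 0 < u → D u = 0 := by
    refine lap_zero hDc hDb fun k => ?_
    have hl : (0:ℝ) < (k:ℝ) + 3 := by positivity
    have hl1 : (1:ℝ) < (k:ℝ) + 3 := by
      have : (0:ℝ) ≤ k := k.cast_nonneg
      linarith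
    have hcont : ContinuousOn (fun u : ℝ => u ^ (2 * n - 1) * F0 u) (Ioi 0) :=
      Continuous.continuousOn (by fun_prop)
    have i1 := integrableOn_of_growth hcont hA hl1
    have i2 := integrableOn_of_growth (D := fun u => ((2 * n - 1)! : ℝ) * S u)
      (continuousOn_const.mul hS) hB hl1
    have e1 : ∀ u : ℝ, D u * exp (-((k + 3 : ℝ) * u)) =
        u ^ (2 * n - 1) * F0 u * exp (-((k + 3 : ℝ) * u)) -
          (2 * n - 1)! * S u * exp (-((k + 3 : ℝ) * u)) := by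
      intro u
      simp only [hD]
      ring
    simp_rw [e1]
    rw [integral_sub i1 i2]
    -- first integral by polar coordinates
    have g1 := hFG ((k:ℝ) + 3) hl
    simp_rw [hFF0] at g1
    rw [polar_u hn (fun u => F0 u * exp (-(((k:ℝ) + 3) * u)))] at g1
    have g2 := hρL (2 / ((k:ℝ) + 3)) (by positivity)
    rw [g2] at g1
    have g3 := hL ((k:ℝ) + 3) hl
    set l : ℝ := (k:ℝ) + 3 with hldef
    have q1 : 1 + 3 * ε / 2 * (2 / l) = (l + 3 * ε) / l := by
      field_simp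
    have q2 : 2 / l / (1 + 3 * ε / 2 * (2 / l)) = 2 / (l + 3 * ε) := by
      rw [q1]
      field_simp
    have q3 : 2 / (2 / l + 1 / ε) - 1 / (2 / l + 2 / ε) =
        l * (2 * ε / (l + 2 * ε) - ε / 2 / (l + ε)) := by
      have a1 : 2 / l + 1 / ε = (l + 2 * ε) / (l * ε) := by
        field_simp
        ring
      have a2 : 2 / l + 2 / ε = 2 * (l + ε) / (l * ε) := by
        field_simp
        ring
      rw [a1, a2]
      field_simp
    rw [q2, q1, q3] at g1
    simp only [div_pow, inv_div] at g1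
    have g4 : ∫ u in Ioi (0:ℝ), u ^ (2 * n - 1) * F0 u * exp (-(l * u)) =
        ∫ u in Ioi (0:ℝ), u ^ (2 * n - 1) * (F0 u * exp (-(l * u))) := by
      refine setIntegral_congr_fun measurableSet_Ioi fun u _ => ?_
      ring
    have g5 : ∫ u in Ioi (0:ℝ), (2 * n - 1)! * S u * exp (-(l * u)) =
        (2 * n - 1)! * ∫ u in Ioi (0:ℝ), S u * exp (-(l * u)) := by
      rw [← integral_const_mul]
      refine setIntegral_congr_fun measurableSet_Ioi fun u _ => ?_
      ring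
    rw [g4, g5, g3]
    have hfac : ((2 * n - 1)! : ℝ) ≠ 0 := by positivity
    have hpi : (π : ℝ) ^ (2 * n) ≠ 0 := by positivity
    have hl0 : l ≠ 0 := hl.ne'
    have hle : (l + 3 * ε) ≠ 0 := by positivity
    have hpw : l ^ (2 * n) = l ^ (2 * n - 1) * l := by
      rw [← pow_succ]
      congr 1
      omega
    rw [hpw] at g1
    set W := ∫ v in Ioi 0, h v ^ 2 * exp (-(2 / (l + 3 * ε) * v)) with hW
    set X := ∫ u in Ioi (0:ℝ), u ^ (2 * n - 1) * (F0 u * exp (-(l * u))) with hX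
    set K := 2 * ε / (l + 2 * ε) - ε / 2 / (l + ε) with hK
    have hlp : l ^ (2 * n - 1) ≠ 0 := pow_ne_zero _ hl0
    have g6 : π ^ (2 * n) / (2 * n - 1)! * X =
        π ^ (2 * n) * (((l + 3 * ε) ^ (2 * n - 1))⁻¹ * W * K) := by
      rw [g1]
      field_simp
    have g7 : X = (2 * n - 1)! * (((l + 3 * ε) ^ (2 * n - 1))⁻¹ * W * K) := by
      have : π ^ (2 * n) * X = π ^ (2 * n) * ((2 * n - 1)! *
          (((l + 3 * ε) ^ (2 * n - 1))⁻¹ * W * K)) := by
        have h8 : π ^ (2 * n) * X = (2 * n - 1)! * (π ^ (2 * n) / (2 * n - 1)! * X) := by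
          field_simp
        rw [h8, g6]
        ring
      exact mul_left_cancel₀ hpi this
    rw [g7, sub_self]
  have hid : ∀ u, 0 < u → u ^ (2 * n - 1) * F0 u = (2 * n - 1)! * S u := by
    intro u hu
    have := hDz u hu
    simp only [hD] at this
    linarith
  refine ⟨ν, F, hνf, hF, ?_, ?_, ?_, ?_⟩
  · have h1 : F = fun z => F0 (‖z‖ ^ 2) := funext hFF0
    rw [h1]
    refine integrable_u hn ?_
    have h2 : IntegrableOn (fun u => ((2 * n - 1)! : ℝ) * S u) (Ioi 0) := hSi.const_mul _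
    exact h2.congr_fun (fun u hu => (hid u hu).symm) measurableSet_Ioi
  · intro z hz
    rw [hFF0 z]
    exact hid _ (by positivity)
  · have h1 := hρL 0 le_rfl
    simp only [zero_mul, neg_zero, exp_zero, mul_zero, add_zero, one_pow, inv_one, zero_div,
      mul_one, one_mul, zero_add, integral_const, smul_eq_mul] at h1
    rw [hF0, h1]
    field_simp
    ring
  · have h1 : F = fun z => F0 (‖z‖ ^ 2) := funext hFF0
    rw [h1, polar_u hn F0, setIntegral_congr_fun measurableSet_Ioi (fun u hu => hid u hu),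
      integral_const_mul]
    have hfac : ((2 * n - 1)! : ℝ) ≠ 0 := by positivity
    field_simp

theorem norm_toLp_sq {N : ℕ} (z : Fin N → ℝ) :
    ‖(WithLp.toLp 2 z : EuclideanSpace ℝ (Fin N))‖ ^ 2 = ∑ i, z i ^ 2 := by
  rw [EuclideanSpace.norm_sq_eq]
  refine Finset.sum_congr rfl fun i _ => ?_
  rw [norm_eq_abs, sq_abs]

/-- The same on `Fin (4n) → ℝ`. -/
theorem pos_key_fin {n : ℕ} (hn : 1 ≤ n) {h S : ℝ → ℝ} {ε : ℝ} (hε : 0 < ε) (hh : Measurable h)
    (hi : IntegrableOn (fun v => h v ^ 2) (Ioi 0)) (hS : ContinuousOn S (Ioi 0))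
    (hSi : IntegrableOn S (Ioi 0)) (hSb : ∃ C, ∀ u, 0 < u → |S u| ≤ C)
    (hL : ∀ l, 0 < l → ∫ u in Ioi 0, S u * exp (-(l * u)) =
      ((l + 3 * ε) ^ (2 * n - 1))⁻¹ * (∫ v in Ioi 0, h v ^ 2 * exp (-(2 / (l + 3 * ε) * v))) *
        (2 * ε / (l + 2 * ε) - ε / 2 / (l + ε))) :
    ∃ F : (Fin (4 * n) → ℝ) → ℝ, PosDef F ∧ Integrable F ∧
      (∀ z, z ≠ 0 → (∑ i, z i ^ 2) ^ (2 * n - 1) * F z = (2 * n - 1)! * S (∑ i, z i ^ 2)) ∧
      F 0 = 3 * ε / 2 * ∫ v in Ioi 0, h v ^ 2 ∧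
      ∫ z, F z = π ^ (2 * n) * ∫ u in Ioi 0, S u := by
  obtain ⟨ν, F, hνf, hF, hFi, hFS, hF0, hFI⟩ := pos_key hn hε hh hi hS hSi hSb hL
  have hmp := PiLp.volume_preserving_toLp (Fin (4 * n))
  have hme : MeasurableEmbedding (WithLp.toLp 2 : (Fin (4 * n) → ℝ) → _) :=
    (MeasurableEquiv.toLp 2 (Fin (4 * n) → ℝ)).measurableEmbedding
  refine ⟨fun z => F (WithLp.toLp 2 z), ?_, ?_, ?_, ?_, ?_⟩
  · have hm : Measurable (fun w : EuclideanSpace ℝ (Fin (4 * n)) => (WithLp.ofLp w)) :=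
      (PiLp.volume_preserving_ofLp (Fin (4 * n))).measurable
    refine ⟨ν.map (fun w => WithLp.ofLp w), inferInstance, fun z => ?_⟩
    rw [integral_map hm.aemeasurable (Continuous.aestronglyMeasurable (by fun_prop))]
    refine (hF (WithLp.toLp 2 z)).trans ?_
    refine integral_congr_ae (Eventually.of_forall fun w => ?_)
    change cos (inner ℝ w (WithLp.toLp 2 z)) = cos (∑ i, w i * z i)
    rw [PiLp.inner_apply]
    congr 1
    refine Finset.sum_congr rfl fun i _ => ?_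
    simp [mul_comm]
  · exact hmp.integrable_comp_of_integrable hFi
  · intro z hz
    have hz' : (WithLp.toLp 2 z : EuclideanSpace ℝ (Fin (4 * n))) ≠ 0 := by
      intro h0
      apply hz
      have := congrArg WithLp.ofLp h0
      simpa using this
    have := hFS _ hz'
    rw [norm_toLp_sq] at this
    exact this
  · rw [← hF0]
    congr 1
  · rw [← hFI, ← hmp.integral_comp hme]

end Pool.Agent.KL
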