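import Mathlib

/-!
KL project, section 0: the Butterworth roots (helper20).
-/

open Complex Finset
open scoped Real

namespace Pool.Agent.KL

/-- The angles. -/
noncomputable def psi (n j : ℕ) : ℝ := π * (2 * j + 1 - n) / (2 * n)

/-- The roots `zeta_j`. -/
noncomputable def zt (n j : ℕ) : ℂ := -Complex.exp (psi n j * I)

/-- The Lagrange weights `c_j = 1 / prod_{i ≠ j} (zeta_j - zeta_i)`. -/
noncomputable def cw (n j : ℕ) : ℂ := ∏ i ∈ (range n).erase j, (zt n j - zt n i)⁻¹

theorem norm_zt (n j : ℕ) : ‖zt n j‖ = 1 := by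
  rw [zt, norm_neg, Complex.norm_exp_ofReal_mul_I]

theorem psi_lt {n j : ℕ} (hj : j < n) : psi n j < π / 2 := by
  have hn : (0 : ℝ) < n := by exact_mod_cast (by omega : 0 < n)
  have hj' : (j : ℝ) + 1 ≤ n := by exact_mod_cast hj
  rw [psi, div_lt_iff₀ (by positivity)]
  have : π / 2 * (2 * (n : ℝ)) = π * n := by ring
  rw [this]
  exact mul_lt_mul_of_pos_left (by linarith) Real.pi_pos

theorem lt_psi {n j : ℕ} (hj : j < n) : -(π / 2) < psi n j := by
  have hn : (0 : ℝ) < n := by exact_mod_cast (by omega : 0 < n)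
  have hj' : (0 : ℝ) ≤ j := Nat.cast_nonneg j
  rw [psi, lt_div_iff₀ (by positivity)]
  have : -(π / 2) * (2 * (n : ℝ)) = π * (-n) := by ring
  rw [this]
  exact mul_lt_mul_of_pos_left (by linarith) Real.pi_pos

theorem cos_psi_pos {n j : ℕ} (hj : j < n) : 0 < Real.cos (psi n j) :=
  Real.cos_pos_of_mem_Ioo ⟨lt_psi hj, psi_lt hj⟩

theorem zt_re (n j : ℕ) : (zt n j).re = -Real.cos (psi n j) := by
  rw [zt, Complex.neg_re, Complex.exp_ofReal_mul_I_re]

theorem zt_im (n j : ℕ) : (zt n j).im = -Real.sin (psi n j) := by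
  rw [zt, Complex.neg_im, Complex.exp_ofReal_mul_I_im]

theorem zt_re_neg {n j : ℕ} (hj : j < n) : (zt n j).re < 0 := by
  rw [zt_re]
  have := cos_psi_pos hj
  linarith

theorem psi_symm {n j : ℕ} (hj : j < n) : psi n (n - 1 - j) = -psi n j := by
  have h : ((n - 1 - j : ℕ) : ℝ) = n - 1 - j := by
    rw [Nat.cast_sub (by omega), Nat.cast_sub (by omega)]
    simp
  rw [psi, psi, h]
  ring

theorem zt_symm {n j : ℕ} (hj : j < n) : zt n (n - 1 - j) = (starRingEnd ℂ) (zt n j) := by
  apply Complex.ext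
  · rw [zt_re, Complex.conj_re, zt_re, psi_symm hj, Real.cos_neg]
  · rw [zt_im, Complex.conj_im, zt_im, psi_symm hj, Real.sin_neg]

theorem psi_inj {n : ℕ} (hn : 0 < n) {i j : ℕ} (h : psi n i = psi n j) : i = j := by
  have h0 : (n : ℝ) ≠ 0 := by exact_mod_cast hn.ne'
  have hp := Real.pi_pos.ne'
  rw [psi, psi] at h
  field_simp at h
  have : (i : ℝ) = j := by linarith
  exact_mod_cast this

theorem zt_injOn (n : ℕ) : Set.InjOn (zt n) (range n : Set ℕ) := by
  intro i hi j hj h
  rw [Finset.mem_coe, Finset.mem_range] at hi hj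
  have h1 : Real.sin (psi n i) = Real.sin (psi n j) := by
    have := congrArg Complex.im h
    rw [zt_im, zt_im] at this
    linarith
  exact psi_inj (by omega) (Real.injOn_sin ⟨(lt_psi hi).le, (psi_lt hi).le⟩
    ⟨(lt_psi hj).le, (psi_lt hj).le⟩ h1)

theorem zt_ne_neg {n i j : ℕ} (hi : i < n) (hj : j < n) : zt n i ≠ -zt n j := by
  intro h
  have h1 := congrArg Complex.re h
  rw [Complex.neg_re] at h1
  have := zt_re_neg hi
  have := zt_re_neg hj
  linarith

theorem zt_pow {n j : ℕ} (hn : 0 < n) (he : Even n) : zt n j ^ (2 * n) = -1 := by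
  have h0 : (n : ℂ) ≠ 0 := by exact_mod_cast hn.ne'
  obtain ⟨m, hm⟩ := he
  rw [zt, Even.neg_pow (even_two_mul n), ← Complex.exp_nat_mul]
  have : ((2 * n : ℕ) : ℂ) * ((psi n j : ℂ) * I) = π * I + ((j : ℤ) - (m : ℤ) : ℤ) * (2 * π * I) := by
    rw [psi]
    push_cast
    rw [hm]
    rw [hm] at h0
    push_cast at h0 ⊢
    have hm0 : (m : ℂ) ≠ 0 := by
      intro h
      rw [h, add_zero] at h0
      exact h0 rfl
    have h2 : (2 * ((m : ℂ) + m)) * (π * (2 * j + 1 - (m + m)) / (2 * (m + m)) * I) =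
        π * (2 * j + 1 - (m + m)) * I := by
      field_simp
    rw [h2]
    ring
  rw [this, Complex.exp_add, Complex.exp_int_mul_two_pi_mul_I, Complex.exp_pi_mul_I, mul_one]

/-- (0.1) -/
theorem prod_zt_mul {n : ℕ} (hn : 0 < n) (he : Even n) (z : ℂ) :
    (∏ j ∈ range n, (z - zt n j)) * (∏ j ∈ range n, (z + zt n j)) = z ^ (2 * n) + 1 := by
  classical
  open Polynomial in
  set P : ℂ[X] := (∏ j ∈ range n, (X - C (zt n j))) * (∏ j ∈ range n, (X - C (-zt n j))) with hP
  set R : ℂ[X] := X ^ (2 * n) + C 1 with hR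
  have m1 : (∏ j ∈ range n, (X - C (zt n j))).Monic := Polynomial.monic_prod_X_sub_C _ _
  have m2 : (∏ j ∈ range n, (X - C (-zt n j))).Monic := Polynomial.monic_prod_X_sub_C _ _
  have hPm : P.Monic := m1.mul m2
  have hRm : R.Monic := Polynomial.monic_X_pow_add_C _ (by omega)
  have hPd : P.natDegree = 2 * n := by
    rw [hP, Polynomial.Monic.natDegree_mul m1 m2,
      Polynomial.natDegree_finsetProd_X_sub_C_eq_card, Polynomial.natDegree_finsetProd_X_sub_C_eq_card,
      card_range]
    omega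
  have hRd : R.natDegree = 2 * n := Polynomial.natDegree_X_pow_add_C
  set S : Finset ℂ := (range n).image (zt n) ∪ (range n).image (fun j => -zt n j) with hS
  have hSc : S.card = 2 * n := by
    rw [hS, card_union_of_disjoint, card_image_of_injOn (zt_injOn n), card_image_of_injOn, card_range]
    · omega
    · intro i hi j hj h
      exact zt_injOn n hi hj (neg_injective h)
    · rw [Finset.disjoint_left]
      intro x hx hx'
      rw [mem_image] at hx hx'
      obtain ⟨i, hi, rfl⟩ := hx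
      obtain ⟨j, hj, hij⟩ := hx'
      exact zt_ne_neg (mem_range.1 hi) (mem_range.1 hj) hij.symm
  have hPR : R = P := by
    refine Polynomial.eq_of_degree_sub_lt_of_eval_finset_eq S ?_ ?_
    · rw [hSc]
      have := Polynomial.degree_sub_lt_left (p := R) (q := P) (by
        rw [Polynomial.degree_eq_natDegree hRm.ne_zero, Polynomial.degree_eq_natDegree hPm.ne_zero, hPd, hRd])
        hRm.ne_zero (by rw [hRm.leadingCoeff, hPm.leadingCoeff])
      rwa [Polynomial.degree_eq_natDegree hRm.ne_zero, hRd] at this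
    · intro x hx
      rw [hS, mem_union, mem_image, mem_image] at hx
      rw [hP, hR]
      simp only [Polynomial.eval_add, Polynomial.eval_pow, Polynomial.eval_X, Polynomial.eval_C,
        Polynomial.eval_mul, Polynomial.eval_prod, Polynomial.eval_sub]
      rcases hx with ⟨j, hj, rfl⟩ | ⟨j, hj, rfl⟩
      · rw [zt_pow hn he, prod_eq_zero hj (sub_self _)]
        simp
      · rw [Even.neg_pow (even_two_mul n), zt_pow hn he,
          prod_eq_zero (s := range n) (f := fun i => -zt n j - -zt n i) hj (sub_self _)]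
        simp
  have h := congrArg (Polynomial.eval z) hPR
  rw [hP, hR] at h
  simp only [Polynomial.eval_add, Polynomial.eval_pow, Polynomial.eval_X, Polynomial.eval_C,
    Polynomial.eval_mul, Polynomial.eval_prod, Polynomial.eval_sub, sub_neg_eq_add] at h
  exact h.symm

/-- (0.2) -/
theorem prod_conj (n : ℕ) (z : ℂ) :
    ∏ j ∈ range n, ((starRingEnd ℂ) z - zt n j) = (starRingEnd ℂ) (∏ j ∈ range n, (z - zt n j)) := by
  rw [map_prod, ← Finset.prod_range_reflect]
  refine Finset.prod_congr rfl fun j hj => ?_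
  rw [map_sub, zt_symm (mem_range.1 hj)]

/-- (0.3) -/
theorem sum_cos_psi {n : ℕ} (hn : 0 < n) :
    ∑ j ∈ range n, Real.cos (psi n j) = 1 / Real.sin (π / (2 * n)) := by
  have h0 : (0 : ℝ) < n := by exact_mod_cast hn
  have hs : 0 < Real.sin (π / (2 * n)) := by
    apply Real.sin_pos_of_pos_of_lt_pi (by positivity)
    rw [div_lt_iff₀ (by positivity)]
    have : (1 : ℝ) ≤ n := by exact_mod_cast hn
    nlinarith [Real.pi_pos]
  have h1 : ∀ j : ℕ, 2 * Real.sin (π / (2 * n)) * Real.cos (psi n j) =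
      Real.sin (π * (2 * (j + 1 : ℕ) - n) / (2 * n)) - Real.sin (π * (2 * (j : ℕ) - n) / (2 * n)) := by
    intro j
    have e1 : π * (2 * (j + 1 : ℕ) - n) / (2 * n) = psi n j + π / (2 * n) := by
      rw [psi]; push_cast; ring
    have e2 : π * (2 * (j : ℕ) - n) / (2 * n) = psi n j - π / (2 * n) := by
      rw [psi]; ring
    rw [e1, e2, Real.sin_add, Real.sin_sub]
    ring
  have h2 : 2 * Real.sin (π / (2 * n)) * ∑ j ∈ range n, Real.cos (psi n j) = 2 := by
    rw [mul_sum, sum_congr rfl fun j _ => h1 j,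
      Finset.sum_range_sub (fun j : ℕ => Real.sin (π * (2 * (j : ℕ) - n) / (2 * n)))]
    have e1 : π * (2 * (n : ℕ) - n) / (2 * (n : ℝ)) = π / 2 := by field_simp; ring
    have e2 : π * (2 * (0 : ℕ) - n) / (2 * (n : ℝ)) = -(π / 2) := by
      push_cast; field_simp; ring
    rw [e1, e2, Real.sin_neg, Real.sin_pi_div_two]
    norm_num
  rw [eq_div_iff hs.ne']
  linarith

/-- (0.4) -/
theorem sum_cw_div {n : ℕ} (hn : 0 < n) {x : ℂ} (hx : ∀ j ∈ range n, x ≠ zt n j) :
    ∑ j ∈ range n, cw n j / (x - zt n j) = 1 / ∏ j ∈ range n, (x - zt n j) := by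
  have hne : (range n).Nonempty := ⟨0, mem_range.2 hn⟩
  have h1 := Lagrange.eval_interpolate_not_at_node (s := range n) (v := zt n) (r := 1) hx
  rw [Lagrange.interpolate_one (zt_injOn n) hne, Polynomial.eval_one, Lagrange.eval_nodal] at h1
  have hp : ∏ j ∈ range n, (x - zt n j) ≠ 0 :=
    Finset.prod_ne_zero_iff.2 fun j hj => sub_ne_zero.2 (hx j hj)
  rw [eq_div_iff hp]
  rw [mul_comm, h1]
  congr 1
  refine sum_congr rfl fun j hj => ?_
  simp only [Pi.one_apply, mul_one, Lagrange.nodalWeight, cw]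
  rw [div_eq_mul_inv]

/-- (0.5) -/
theorem sum_cw_pow {n k : ℕ} (hk : k + 2 ≤ n) :
    ∑ j ∈ range n, cw n j * zt n j ^ k = 0 := by
  have h1 := Lagrange.coeff_eq_sum (s := range n) (v := zt n) (zt_injOn n)
    (P := (Polynomial.X : Polynomial ℂ) ^ k) (by
      rw [Polynomial.degree_X_pow, card_range]
      exact_mod_cast (by omega : k < n))
  rw [card_range, Polynomial.coeff_X_pow, if_neg (by omega)] at h1
  rw [h1]
  refine sum_congr rfl fun j hj => ?_
  rw [Polynomial.eval_pow, Polynomial.eval_X, cw, Finset.prod_inv_distrib, div_eq_mul_inv, mul_comm]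

/-- The weights are stable under conjugation. -/
theorem cw_symm {n j : ℕ} (hj : j < n) : cw n (n - 1 - j) = (starRingEnd ℂ) (cw n j) := by
  rw [cw, cw, map_prod]
  refine Finset.prod_nbij' (fun i => n - 1 - i) (fun i => n - 1 - i) ?_ ?_ ?_ ?_ ?_
  · intro i hi
    rw [mem_erase, mem_range] at hi ⊢
    omega
  · intro i hi
    rw [mem_erase, mem_range] at hi ⊢
    omega
  · intro i hi
    rw [mem_erase, mem_range] at hi
    omega
  · intro i hi
    rw [mem_erase, mem_range] at hi
    omega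
  · intro i hi
    rw [mem_erase, mem_range] at hi
    rw [zt_symm hj, zt_symm hi.2, map_inv₀, map_sub, Complex.conj_conj]

/-- The sum of the roots. -/
theorem sum_zt {n : ℕ} (hn : 0 < n) :
    ∑ j ∈ range n, zt n j = -(1 / Real.sin (π / (2 * n)) : ℝ) := by
  apply Complex.ext
  · rw [Complex.re_sum, sum_congr rfl fun j _ => zt_re n j, sum_neg_distrib, sum_cos_psi hn,
      Complex.neg_re, Complex.ofReal_re]
  · rw [Complex.im_sum]
    have h1 : ∑ j ∈ range n, (zt n j).im = -∑ j ∈ range n, (zt n j).im := by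
      conv_lhs => rw [← Finset.sum_range_reflect]
      rw [← sum_neg_distrib]
      refine sum_congr rfl fun j hj => ?_
      rw [zt_symm (mem_range.1 hj), Complex.conj_im]
    have : ∑ j ∈ range n, (zt n j).im = 0 := by linarith
    rw [this, Complex.neg_im, Complex.ofReal_im, neg_zero]

end Pool.Agent.KL
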