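import Mathlib

/-!
# KL (MP_ef2672), section 4: the function `S_n` (helper16)

`q` is an abstract bounded continuous function and `P` its Laplace transform.
-/

set_option autoImplicit false

open MeasureTheory Set Filter Topology

namespace Pool.Agent.KL

noncomputable section

/-- the kernel `f(w) = 2e exp(-2ew) - (e/2) exp(-ew)` -/
def fE (e w : ℝ) : ℝ := 2 * e * Real.exp (-(2 * e * w)) - e / 2 * Real.exp (-(e * w))

/-- `S(u) = ∫_0^u exp(-3ev) q(v) f(u - v) dv` -/
def SnF (q : ℝ → ℝ) (e u : ℝ) : ℝ :=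
  ∫ v in (0 : ℝ)..u, Real.exp (-(3 * e * v)) * q v * fE e (u - v)

namespace Sn

/-- `A_b(u) = ∫_0^u exp(-bv) q(v) dv` -/
def AA (q : ℝ → ℝ) (b u : ℝ) : ℝ := ∫ v in (0 : ℝ)..u, q v * Real.exp (-(b * v))

lemma cont_integrand {q : ℝ → ℝ} (hq : Continuous q) (b : ℝ) :
    Continuous fun v : ℝ => q v * Real.exp (-(b * v)) := by fun_prop

lemma hasDeriv_AA {q : ℝ → ℝ} (hq : Continuous q) (b u : ℝ) :
    HasDerivAt (AA q b) (q u * Real.exp (-(b * u))) u :=
  intervalIntegral.integral_hasDerivAt_right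
    ((cont_integrand hq b).intervalIntegrable _ _)
    ((cont_integrand hq b).stronglyMeasurableAtFilter _ _) (cont_integrand hq b).continuousAt

lemma cont_AA {q : ℝ → ℝ} (hq : Continuous q) (b : ℝ) : Continuous (AA q b) :=
  continuous_iff_continuousAt.2 fun u => (hasDeriv_AA hq b u).continuousAt

lemma AA_zero (q : ℝ → ℝ) (b : ℝ) : AA q b 0 = 0 := by simp [AA]

lemma intOn_exp {b : ℝ} (hb : 0 < b) (c : ℝ) :
    IntegrableOn (fun v : ℝ => Real.exp (-(b * v))) (Ioi c) := by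
  have h := integrableOn_exp_mul_Ioi (a := -b) (by linarith) c
  simpa only [neg_mul] using h

lemma int_exp {b : ℝ} (hb : 0 < b) (c : ℝ) :
    ∫ v in Ioi c, Real.exp (-(b * v)) = Real.exp (-(b * c)) / b := by
  have h := integral_exp_mul_Ioi (a := -b) (by linarith) c
  simp only [neg_mul] at h
  rw [h]
  field_simp

lemma intOn_q {q : ℝ → ℝ} (hq : Continuous q) (hb : ∀ u, 0 ≤ u → |q u| ≤ 1) {b : ℝ} (hb0 : 0 < b)
    {c : ℝ} (hc : 0 ≤ c) : IntegrableOn (fun v : ℝ => q v * Real.exp (-(b * v))) (Ioi c) := by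
  refine Integrable.mono' (intOn_exp hb0 c) (cont_integrand hq b).aestronglyMeasurable ?_
  refine (ae_restrict_mem measurableSet_Ioi).mono fun v hv => ?_
  rw [norm_mul, Real.norm_eq_abs, Real.norm_eq_abs, Real.abs_exp]
  have h1 := hb v (hc.trans (le_of_lt hv))
  nlinarith [Real.exp_pos (-(b * v))]

/-- the tail -/
lemma AA_tail {q : ℝ → ℝ} (hq : Continuous q) (hb : ∀ u, 0 ≤ u → |q u| ≤ 1) {b : ℝ} (hb0 : 0 < b)
    {u : ℝ} (hu : 0 ≤ u) :
    |AA q b u - ∫ v in Ioi (0 : ℝ), q v * Real.exp (-(b * v))| ≤ Real.exp (-(b * u)) / b := by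
  have h1 : ∫ v in Ioi (0 : ℝ), q v * Real.exp (-(b * v)) =
      AA q b u + ∫ v in Ioi u, q v * Real.exp (-(b * v)) := by
    have h2 := intervalIntegral.integral_Ioi_sub_Ioi (intOn_q hq hb hb0 le_rfl) hu
    unfold AA
    linarith
  rw [h1]
  have h3 : AA q b u - (AA q b u + ∫ v in Ioi u, q v * Real.exp (-(b * v))) =
      -∫ v in Ioi u, q v * Real.exp (-(b * v)) := by ring
  rw [h3, abs_neg, ← int_exp hb0 u, ← Real.norm_eq_abs]
  refine norm_integral_le_of_norm_le (intOn_exp hb0 u) ?_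
  refine (ae_restrict_mem measurableSet_Ioi).mono fun v hv => ?_
  rw [norm_mul, Real.norm_eq_abs, Real.norm_eq_abs, Real.abs_exp]
  have h1 := hb v (hu.trans (le_of_lt hv))
  nlinarith [Real.exp_pos (-(b * v))]

lemma AA_le {q : ℝ → ℝ} (_hq : Continuous q) (hb : ∀ u, 0 ≤ u → |q u| ≤ 1) {b : ℝ} (hb0 : 0 < b)
    {u : ℝ} (hu : 0 ≤ u) : |AA q b u| ≤ 1 / b := by
  unfold AA
  rw [intervalIntegral.integral_of_le hu, ← Real.norm_eq_abs]
  have h1 : ‖∫ v in Ioc 0 u, q v * Real.exp (-(b * v))‖ ≤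
      ∫ v in Ioc 0 u, Real.exp (-(b * v)) := by
    refine norm_integral_le_of_norm_le ((intOn_exp hb0 0).mono_set Ioc_subset_Ioi_self) ?_
    refine (ae_restrict_mem measurableSet_Ioc).mono fun v hv => ?_
    rw [norm_mul, Real.norm_eq_abs, Real.norm_eq_abs, Real.abs_exp]
    have h1 := hb v (le_of_lt hv.1)
    nlinarith [Real.exp_pos (-(b * v))]
  refine h1.trans ?_
  have h2 : ∫ v in Ioc 0 u, Real.exp (-(b * v)) ≤ ∫ v in Ioi 0, Real.exp (-(b * v)) :=
    setIntegral_mono_set (intOn_exp hb0 0)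
      (Eventually.of_forall fun v => (Real.exp_pos _).le) Ioc_subset_Ioi_self.eventuallyLE
  refine h2.trans (le_of_eq ?_)
  rw [int_exp hb0 0, mul_zero, neg_zero, Real.exp_zero]

lemma intOn_AA {q : ℝ → ℝ} (hq : Continuous q) (hb : ∀ u, 0 ≤ u → |q u| ≤ 1) {b c : ℝ}
    (hb0 : 0 < b) (hc0 : 0 < c) :
    IntegrableOn (fun u : ℝ => Real.exp (-(c * u)) * AA q b u) (Ioi 0) := by
  refine Integrable.mono' ((intOn_exp hc0 0).mul_const (1 / b)) ?_ ?_
  · have := cont_AA hq b
    exact (by fun_prop : Continuous fun u : ℝ => Real.exp (-(c * u)) * AA q b u).aestronglyMeasurable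
  · refine (ae_restrict_mem measurableSet_Ioi).mono fun v hv => ?_
    rw [norm_mul, Real.norm_eq_abs, Real.norm_eq_abs, Real.abs_exp]
    exact mul_le_mul_of_nonneg_left (AA_le hq hb hb0 (le_of_lt hv)) (Real.exp_pos _).le

/-- integration by parts -/
lemma laplace_AA {q : ℝ → ℝ} (hq : Continuous q) (hb : ∀ u, 0 ≤ u → |q u| ≤ 1) {b c : ℝ}
    (hb0 : 0 < b) (hc0 : 0 < c) :
    ∫ u in Ioi (0 : ℝ), Real.exp (-(c * u)) * AA q b u =
      (∫ u in Ioi (0 : ℝ), q u * Real.exp (-((c + b) * u))) / c := by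
  have hd : ∀ u ∈ Ioi (0 : ℝ), HasDerivAt (fun u : ℝ => -(Real.exp (-(c * u)) * AA q b u) / c)
      (Real.exp (-(c * u)) * AA q b u - q u * Real.exp (-((c + b) * u)) / c) u := by
    intro u _
    have h1 : HasDerivAt (fun u : ℝ => Real.exp (-(c * u))) (Real.exp (-(c * u)) * (-(c * 1))) u :=
      (((hasDerivAt_id u).const_mul c).neg).exp
    have h2 := ((h1.mul (hasDeriv_AA hq b u)).neg).div_const c
    refine h2.congr_deriv ?_
    have h3 : Real.exp (-((c + b) * u)) = Real.exp (-(c * u)) * Real.exp (-(b * u)) := by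
      rw [← Real.exp_add]
      congr 1
      ring
    rw [h3]
    field_simp
    ring
  have hi1 := intOn_AA hq hb hb0 hc0
  have hi2 : IntegrableOn (fun u : ℝ => q u * Real.exp (-((c + b) * u)) / c) (Ioi 0) :=
    (intOn_q hq hb (by linarith : 0 < c + b) le_rfl).div_const c
  have hcont : ContinuousWithinAt (fun u : ℝ => -(Real.exp (-(c * u)) * AA q b u) / c) (Ici 0) 0 := by
    have := cont_AA hq b
    exact (by fun_prop : Continuous fun u : ℝ =>
      -(Real.exp (-(c * u)) * AA q b u) / c).continuousWithinAt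
  have hlim : Tendsto (fun u : ℝ => -(Real.exp (-(c * u)) * AA q b u) / c) atTop (𝓝 0) := by
    have h1 : Tendsto (fun u : ℝ => Real.exp (-(c * u)) * (1 / b) / c) atTop (𝓝 0) := by
      have h2 : Tendsto (fun u : ℝ => Real.exp (-(c * u))) atTop (𝓝 0) :=
        Real.tendsto_exp_neg_atTop_nhds_zero.comp (tendsto_id.const_mul_atTop hc0)
      have h3 := (h2.mul_const (1 / b)).div_const c
      simpa using h3
    refine squeeze_zero_norm' ?_ h1
    filter_upwards [eventually_ge_atTop 0] with u hu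
    rw [Real.norm_eq_abs, abs_div, abs_neg, abs_mul, Real.abs_exp, abs_of_pos hc0]
    have := AA_le hq hb hb0 hu
    gcongr
  have h := integral_Ioi_of_hasDerivAt_of_tendsto hcont hd (hi1.sub hi2) hlim
  rw [AA_zero, integral_sub hi1 hi2, integral_div] at h
  simp only [mul_zero, neg_zero, zero_div, sub_zero] at h
  linarith

end Sn

open Sn

/-- the formula for `S` -/
theorem SnF_eq {q : ℝ → ℝ} (hq : Continuous q) (e u : ℝ) :
    SnF q e u = 2 * e * (Real.exp (-(2 * e * u)) * AA q e u) -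
      e / 2 * (Real.exp (-(e * u)) * AA q (2 * e) u) := by
  have h1 : SnF q e u = ∫ v in (0 : ℝ)..u,
      (2 * e * Real.exp (-(2 * e * u)) * (q v * Real.exp (-(e * v))) -
        e / 2 * Real.exp (-(e * u)) * (q v * Real.exp (-(2 * e * v)))) := by
    unfold SnF fE
    refine intervalIntegral.integral_congr fun v _ => ?_
    have e1 : Real.exp (-(3 * e * v)) * Real.exp (-(2 * e * (u - v))) =
        Real.exp (-(2 * e * u)) * Real.exp (-(e * v)) := by
      rw [← Real.exp_add, ← Real.exp_add]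
      congr 1
      ring
    have e2 : Real.exp (-(3 * e * v)) * Real.exp (-(e * (u - v))) =
        Real.exp (-(e * u)) * Real.exp (-(2 * e * v)) := by
      rw [← Real.exp_add, ← Real.exp_add]
      congr 1
      ring
    linear_combination (2 * e * q v) * e1 - (e / 2 * q v) * e2
  rw [h1, intervalIntegral.integral_sub, intervalIntegral.integral_const_mul,
    intervalIntegral.integral_const_mul]
  · unfold AA
    ring
  · exact ((cont_integrand hq e).intervalIntegrable _ _).const_mul _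
  · exact ((cont_integrand hq (2 * e)).intervalIntegrable _ _).const_mul _

theorem SnF_continuous {q : ℝ → ℝ} (hq : Continuous q) (e : ℝ) : Continuous (SnF q e) := by
  have h1 := cont_AA hq e
  have h2 := cont_AA hq (2 * e)
  have h3 : SnF q e = fun u => 2 * e * (Real.exp (-(2 * e * u)) * AA q e u) -
      e / 2 * (Real.exp (-(e * u)) * AA q (2 * e) u) := funext fun u => SnF_eq hq e u
  rw [h3]
  fun_prop

/-- `|S(u)| ≤ (9/4) exp(-eu)` -/
theorem SnF_bound {q : ℝ → ℝ} {e : ℝ} (he : 0 < e) (hq : Continuous q)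
    (hb : ∀ u, 0 ≤ u → |q u| ≤ 1) {u : ℝ} (hu : 0 ≤ u) :
    |SnF q e u| ≤ 9 / 4 * Real.exp (-(e * u)) := by
  rw [SnF_eq hq]
  have h1 := AA_le hq hb he hu
  have h2 := AA_le hq hb (by linarith : 0 < 2 * e) hu
  have h3 : Real.exp (-(2 * e * u)) ≤ Real.exp (-(e * u)) :=
    Real.exp_le_exp.2 (by nlinarith)
  have h4 : 0 < Real.exp (-(2 * e * u)) := Real.exp_pos _
  have h5 : 0 < Real.exp (-(e * u)) := Real.exp_pos _
  have e1 : |2 * e * (Real.exp (-(2 * e * u)) * AA q e u)| ≤ 2 * Real.exp (-(e * u)) := by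
    rw [abs_mul, abs_mul (Real.exp _), Real.abs_exp, abs_of_pos (by linarith : 0 < 2 * e)]
    calc 2 * e * (Real.exp (-(2 * e * u)) * |AA q e u|)
        ≤ 2 * e * (Real.exp (-(e * u)) * (1 / e)) := by gcongr
      _ = _ := by field_simp
  have e2 : |e / 2 * (Real.exp (-(e * u)) * AA q (2 * e) u)| ≤ 1 / 4 * Real.exp (-(e * u)) := by
    rw [abs_mul, abs_mul (Real.exp _), Real.abs_exp, abs_of_pos (by linarith : 0 < e / 2)]
    calc e / 2 * (Real.exp (-(e * u)) * |AA q (2 * e) u|)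
        ≤ e / 2 * (Real.exp (-(e * u)) * (1 / (2 * e))) := by gcongr
      _ = _ := by field_simp; ring
  refine (abs_sub _ _).trans ?_
  linarith

/-- the Laplace transform of `S` -/
theorem SnF_laplace {q P : ℝ → ℝ} {e : ℝ} (he : 0 < e) (hq : Continuous q)
    (hb : ∀ u, 0 ≤ u → |q u| ≤ 1)
    (hP : ∀ s, 0 < s → ∫ u in Ioi (0 : ℝ), q u * Real.exp (-(s * u)) = P s) {l : ℝ} (hl : 0 ≤ l) :
    ∫ u in Ioi (0 : ℝ), SnF q e u * Real.exp (-(l * u)) =
      P (l + 3 * e) * (2 * e / (l + 2 * e) - e / 2 / (l + e)) := by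
  have h1 : ∀ u : ℝ, SnF q e u * Real.exp (-(l * u)) =
      2 * e * (Real.exp (-((l + 2 * e) * u)) * AA q e u) -
        e / 2 * (Real.exp (-((l + e) * u)) * AA q (2 * e) u) := by
    intro u
    rw [SnF_eq hq]
    have e1 : Real.exp (-(2 * e * u)) * Real.exp (-(l * u)) = Real.exp (-((l + 2 * e) * u)) := by
      rw [← Real.exp_add]
      congr 1
      ring
    have e2 : Real.exp (-(e * u)) * Real.exp (-(l * u)) = Real.exp (-((l + e) * u)) := by
      rw [← Real.exp_add]
      congr 1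
      ring
    rw [← e1, ← e2]
    ring
  have hi1 := intOn_AA hq hb he (by linarith : 0 < l + 2 * e)
  have hi2 := intOn_AA hq hb (by linarith : 0 < 2 * e) (by linarith : 0 < l + e)
  simp only [h1]
  rw [integral_sub (hi1.const_mul _) (hi2.const_mul _), integral_const_mul, integral_const_mul,
    laplace_AA hq hb he (by linarith : 0 < l + 2 * e),
    laplace_AA hq hb (by linarith : 0 < 2 * e) (by linarith : 0 < l + e)]
  have e3 : l + 2 * e + e = l + 3 * e := by ring
  have e4 : l + e + 2 * e = l + 3 * e := by ring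
  rw [e3, e4, hP (l + 3 * e) (by linarith)]
  ring

/-- the upper bound for `S` -/
theorem SnF_upper {q P : ℝ → ℝ} {e : ℝ} (he : 0 < e) (hq : Continuous q)
    (hb : ∀ u, 0 ≤ u → |q u| ≤ 1)
    (hP : ∀ s, 0 < s → ∫ u in Ioi (0 : ℝ), q u * Real.exp (-(s * u)) = P s) {u : ℝ} (hu : 0 ≤ u) :
    SnF q e u ≤ 2 * e * Real.exp (-(2 * e * u)) * P e - e / 2 * Real.exp (-(e * u)) * P (2 * e) +
      9 / 4 * Real.exp (-(3 * e * u)) := by
  rw [SnF_eq hq]
  have h1 := AA_tail hq hb he hu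
  have h2 := AA_tail hq hb (by linarith : 0 < 2 * e) hu
  rw [hP e he] at h1
  rw [hP (2 * e) (by linarith)] at h2
  have h3 := (abs_le.1 h1).2
  have h4 := (abs_le.1 h2).1
  have e1 : Real.exp (-(2 * e * u)) * Real.exp (-(e * u)) = Real.exp (-(3 * e * u)) := by
    rw [← Real.exp_add]
    congr 1
    ring
  have h5 : 2 * e * (Real.exp (-(2 * e * u)) * AA q e u) ≤
      2 * e * (Real.exp (-(2 * e * u)) * (P e + Real.exp (-(e * u)) / e)) := by
    have : AA q e u ≤ P e + Real.exp (-(e * u)) / e := by linarith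
    gcongr
  have h6 : e / 2 * (Real.exp (-(e * u)) * (P (2 * e) - Real.exp (-(2 * e * u)) / (2 * e))) ≤
      e / 2 * (Real.exp (-(e * u)) * AA q (2 * e) u) := by
    have : P (2 * e) - Real.exp (-(2 * e * u)) / (2 * e) ≤ AA q (2 * e) u := by linarith
    gcongr
  have h7 : 2 * e * (Real.exp (-(2 * e * u)) * (P e + Real.exp (-(e * u)) / e)) =
      2 * e * Real.exp (-(2 * e * u)) * P e + 2 * Real.exp (-(3 * e * u)) := by
    rw [← e1]
    field_simp
  have h8 : e / 2 * (Real.exp (-(e * u)) * (P (2 * e) - Real.exp (-(2 * e * u)) / (2 * e))) =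
      e / 2 * Real.exp (-(e * u)) * P (2 * e) - 1 / 4 * Real.exp (-(3 * e * u)) := by
    rw [← e1]
    field_simp
    ring
  rw [h7] at h5
  rw [h8] at h6
  linarith

/-- **Section 4**, without the sign. -/
theorem sn_key {q P : ℝ → ℝ} {e : ℝ} (he : 0 < e) (hq : Continuous q)
    (hb : ∀ u, 0 ≤ u → |q u| ≤ 1)
    (hP : ∀ s, 0 < s → ∫ u in Ioi (0 : ℝ), q u * Real.exp (-(s * u)) = P s) :
    Continuous (SnF q e) ∧ IntegrableOn (SnF q e) (Ioi 0) ∧ (∃ C, ∀ u > 0, |SnF q e u| ≤ C) ∧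
    (∀ l, 0 ≤ l → ∫ u in Ioi (0 : ℝ), SnF q e u * Real.exp (-(l * u)) =
      P (l + 3 * e) * (2 * e / (l + 2 * e) - e / 2 / (l + e))) ∧
    ∫ u in Ioi (0 : ℝ), SnF q e u = P (3 * e) / 2 := by
  refine ⟨SnF_continuous hq e, ?_, ⟨9 / 4, fun u hu => ?_⟩, fun l hl => SnF_laplace he hq hb hP hl,
    ?_⟩
  · refine Integrable.mono' ((intOn_exp he 0).const_mul (9 / 4))
      (SnF_continuous hq e).aestronglyMeasurable ?_
    refine (ae_restrict_mem measurableSet_Ioi).mono fun v hv => ?_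
    rw [Real.norm_eq_abs]
    exact SnF_bound he hq hb (le_of_lt hv)
  · refine (SnF_bound he hq hb hu.le).trans ?_
    have : Real.exp (-(e * u)) ≤ 1 := by
      rw [Real.exp_le_one_iff]
      nlinarith
    linarith
  · have h := SnF_laplace he hq hb hP (le_refl (0 : ℝ))
    simp only [zero_mul, neg_zero, Real.exp_zero, mul_one, zero_add] at h
    rw [h]
    field_simp
    ring

/-- **The sign of `S`** (4.4). -/
theorem sn_neg {q P : ℝ → ℝ} {e S0 c : ℝ} {n : ℕ} (hn : 1 ≤ n) (he : e = 1 / √(n : ℝ))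
    (hc : 1 ≤ c) (hS : 0 ≤ S0) (hq : Continuous q) (hb : ∀ u, 0 ≤ u → |q u| ≤ 1)
    (hP : ∀ s, 0 < s → ∫ u in Ioi (0 : ℝ), q u * Real.exp (-(s * u)) = P s)
    (h1 : P e ≤ 1 / 2 * Real.exp (-(2 * e * S0) + 5))
    (h2 : 1 / (c * n) * Real.exp (-(4 * e * S0) - 12) ≤ P (2 * e)) (u : ℝ)
    (hu : 2 * S0 + √(n : ℝ) * (20 + Real.log (c * n)) ≤ u) : SnF q e u ≤ 0 := by
  have hn1 : (1 : ℝ) ≤ n := by exact_mod_cast hn
  have hsn : 1 ≤ √(n : ℝ) := Real.one_le_sqrt.2 hn1
  have hsn0 : 0 < √(n : ℝ) := by linarith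
  have he0 : 0 < e := by rw [he]; positivity
  have hes : e * √(n : ℝ) = 1 := by rw [he]; field_simp
  have hcn : 1 ≤ c * n := by nlinarith
  have hcn0 : 0 < c * n := by linarith
  have hlog : 0 ≤ Real.log (c * n) := Real.log_nonneg hcn
  obtain ⟨w, hw⟩ : ∃ w, w = u - 2 * S0 := ⟨_, rfl⟩
  have huw : u = 2 * S0 + w := by rw [hw]; ring
  have hw1 : √(n : ℝ) * (20 + Real.log (c * n)) ≤ w := by rw [hw]; linarith
  have hew : 20 + Real.log (c * n) ≤ e * w := by
    have h3 : e * (√(n : ℝ) * (20 + Real.log (c * n))) ≤ e * w := by gcongr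
    have h4 : e * (√(n : ℝ) * (20 + Real.log (c * n))) = 20 + Real.log (c * n) := by
      rw [← mul_assoc, hes, one_mul]
    linarith
  have hw0 : 0 ≤ w := le_trans (by positivity) hw1
  have hu0 : 0 ≤ u := by rw [huw]; linarith
  have hupper := SnF_upper he0 hq hb hP hu0
  -- the quantities
  obtain ⟨E, hE⟩ : ∃ E, E = Real.exp (-(e * u)) := ⟨_, rfl⟩
  obtain ⟨G, hG⟩ : ∃ G, G = Real.exp (-(4 * e * S0)) := ⟨_, rfl⟩
  obtain ⟨D, hD⟩ : ∃ D, D = Real.exp (-(e * w)) := ⟨_, rfl⟩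
  have hE0 : 0 < E := by rw [hE]; exact Real.exp_pos _
  have hG0 : 0 < G := by rw [hG]; exact Real.exp_pos _
  have hD0 : 0 < D := by rw [hD]; exact Real.exp_pos _
  have hDle : D ≤ Real.exp (-20) / (c * n) := by
    rw [hD, ← Real.exp_log hcn0, ← Real.exp_sub]
    exact Real.exp_le_exp.2 (by linarith)
  have hne : 1 / (c * n) ≤ e := by
    rw [he]
    apply one_div_le_one_div_of_le hsn0
    have : √(n : ℝ) ≤ n := Real.sqrt_le_self_iff.2 (Or.inr hn1)
    nlinarith
  have t1 : 2 * e * Real.exp (-(2 * e * u)) * P e ≤ E * G * (e * Real.exp 5 * D) := by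
    have e1 : Real.exp (-(2 * e * u)) * Real.exp (-(2 * e * S0) + 5) = E * G * (Real.exp 5 * D) := by
      rw [hE, hG, hD, ← Real.exp_add, ← Real.exp_add, ← Real.exp_add, ← Real.exp_add]
      congr 1
      rw [huw]
      ring
    calc 2 * e * Real.exp (-(2 * e * u)) * P e
        ≤ 2 * e * Real.exp (-(2 * e * u)) * (1 / 2 * Real.exp (-(2 * e * S0) + 5)) := by gcongr
      _ = e * (Real.exp (-(2 * e * u)) * Real.exp (-(2 * e * S0) + 5)) := by ring
      _ = _ := by rw [e1]; ring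
  have t2 : E * G * (e / 2 * (1 / (c * n)) * Real.exp (-12)) ≤
      e / 2 * Real.exp (-(e * u)) * P (2 * e) := by
    have e2 : Real.exp (-(4 * e * S0) - 12) = G * Real.exp (-12) := by
      rw [hG, ← Real.exp_add]
      congr 1
    rw [← hE]
    calc E * G * (e / 2 * (1 / (c * n)) * Real.exp (-12))
        = e / 2 * E * (1 / (c * n) * Real.exp (-(4 * e * S0) - 12)) := by rw [e2]; ring
      _ ≤ _ := by gcongr
  have t3 : 9 / 4 * Real.exp (-(3 * e * u)) = E * G * (9 / 4 * D * D) := by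
    have e3 : Real.exp (-(3 * e * u)) = E * G * (D * D) := by
      rw [hE, hG, hD, ← Real.exp_add, ← Real.exp_add, ← Real.exp_add]
      congr 1
      rw [huw]
      ring
    rw [e3]
    ring
  -- the comparison
  have hx3 : Real.exp (-3) ≤ 1 / 8 := by
    have h5 : (2 : ℝ) ≤ Real.exp 1 := by
      have := Real.exp_one_gt_d9
      linarith
    have h6 : Real.exp 3 = Real.exp 1 ^ 3 := by
      rw [← Real.exp_nat_mul]
      norm_num
    have h7 : (8 : ℝ) ≤ Real.exp 3 := by
      rw [h6]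
      calc (8 : ℝ) = 2 ^ 3 := by norm_num
        _ ≤ _ := pow_le_pow_left₀ (by norm_num) h5 3
    rw [Real.exp_neg, inv_eq_one_div]
    exact one_div_le_one_div_of_le (by norm_num) h7
  have hx28 : Real.exp (-28) ≤ 1 / 8 :=
    (Real.exp_le_exp.2 (by norm_num)).trans hx3
  have c1 : e * Real.exp 5 * D ≤ e * (1 / (c * n)) * (Real.exp (-12) * (1 / 8)) := by
    calc e * Real.exp 5 * D ≤ e * Real.exp 5 * (Real.exp (-20) / (c * n)) := by gcongr
      _ = e * (1 / (c * n)) * (Real.exp (-12) * Real.exp (-3)) := by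
          have : Real.exp 5 * Real.exp (-20) = Real.exp (-12) * Real.exp (-3) := by
            rw [← Real.exp_add, ← Real.exp_add]
            norm_num
          rw [← this]
          ring
      _ ≤ _ := by gcongr
  have c2 : 9 / 4 * D * D ≤ e * (1 / (c * n)) * (Real.exp (-12) * (9 / 32)) := by
    calc 9 / 4 * D * D ≤ 9 / 4 * (Real.exp (-20) / (c * n)) * (Real.exp (-20) / (c * n)) := by
          gcongr
      _ = 9 / 4 * ((1 / (c * n)) * (1 / (c * n))) * (Real.exp (-12) * Real.exp (-28)) := by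
          have : Real.exp (-20) * Real.exp (-20) = Real.exp (-12) * Real.exp (-28) := by
            rw [← Real.exp_add, ← Real.exp_add]
            norm_num
          rw [← this]
          ring
      _ ≤ 9 / 4 * (e * (1 / (c * n))) * (Real.exp (-12) * (1 / 8)) := by gcongr
      _ = _ := by ring
  have hfin : e * Real.exp 5 * D + 9 / 4 * D * D ≤ e / 2 * (1 / (c * n)) * Real.exp (-12) := by
    have h8 : 0 < e * (1 / (c * n)) * Real.exp (-12) := by positivity
    nlinarith
  have hEG : 0 < E * G := by positivity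
  have := mul_le_mul_of_nonneg_left hfin hEG.le
  rw [t3] at hupper
  nlinarith

end

end Pool.Agent.KL
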