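import Mathlib

/-!
# KL project, K7 = (2.6), (2.7): `Psi(s)` for small real `s`.
helper65

`ζ : Fin n → ℂ` (`n` even) are numbers of modulus one with negative real part, `ζ (rev j)` is the conjugate of
`ζ j`; `S = ∑ -Re ζ_j`, `Psi(s) = (1/2π) ∫ dt / ∏ ((1 - ζ_j s)^2 + t^2)`.
-/

set_option autoImplicit false

namespace Pool.Agent.KL

open MeasureTheory

noncomputable section

/-- a product over a conjugation stable family without fixed index -/
theorem prod_conj_eq {n : ℕ} (hn : Even n) (f : Fin n → ℂ)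
    (hf : ∀ j, f (Fin.rev j) = (starRingEnd ℂ) (f j)) : ∏ j, f j = ((∏ j, ‖f j‖ : ℝ) : ℂ) := by
  obtain ⟨m, rfl⟩ := hn
  have e : ∀ i : Fin m, Fin.natAdd m (Fin.rev i) = Fin.rev (Fin.castAdd m i) := by
    intro i
    apply Fin.ext
    simp only [Fin.val_natAdd, Fin.val_rev, Fin.val_castAdd]
    omega
  have h2 : ∀ g : Fin (m + m) → ℂ, ∏ i : Fin m, g (Fin.natAdd m i) =
      ∏ i : Fin m, g (Fin.rev (Fin.castAdd m i)) := by
    intro g
    rw [← Equiv.prod_comp Fin.revPerm]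
    refine Finset.prod_congr rfl fun i _ => ?_
    rw [Fin.revPerm_apply, e]
  have h3 : ∏ j, f j = (∏ i : Fin m, f (Fin.castAdd m i)) *
      (starRingEnd ℂ) (∏ i : Fin m, f (Fin.castAdd m i)) := by
    rw [Fin.prod_univ_add, h2 f, map_prod]
    congr 1
    exact Finset.prod_congr rfl fun i _ => hf _
  have h4 : ∏ j, ((‖f j‖ : ℝ) : ℂ) = (∏ i : Fin m, ((‖f (Fin.castAdd m i)‖ : ℝ) : ℂ)) *
      (∏ i : Fin m, ((‖f (Fin.castAdd m i)‖ : ℝ) : ℂ)) := by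
    rw [Fin.prod_univ_add, h2 (fun j => ((‖f j‖ : ℝ) : ℂ))]
    congr 1
    refine Finset.prod_congr rfl fun i _ => ?_
    rw [hf, Complex.norm_conj]
  rw [h3, Complex.mul_conj, Complex.normSq_eq_norm_sq, norm_prod]
  push_cast
  rw [h4]
  ring

/-- the absolute value of the product -/
def RR {n : ℕ} (ζ : Fin n → ℂ) (s t : ℝ) : ℝ := ∏ j, ‖(1 - ζ j * s) ^ 2 + (t : ℂ) ^ 2‖

/-- `S` -/
def SS {n : ℕ} (ζ : Fin n → ℂ) : ℝ := ∑ j, -(ζ j).re

theorem prod_eq_RR {n : ℕ} (hn : Even n) {ζ : Fin n → ℂ}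
    (hc : ∀ j, ζ (Fin.rev j) = (starRingEnd ℂ) (ζ j)) (s t : ℝ) :
    ∏ j, ((1 - ζ j * s) ^ 2 + (t : ℂ) ^ 2) = ((RR ζ s t : ℝ) : ℂ) := by
  rw [RR]
  refine prod_conj_eq hn _ fun j => ?_
  simp [hc]

theorem fac_upper {z : ℂ} (hz : ‖z‖ = 1) (s t : ℝ) :
    ‖(1 - z * s) ^ 2 + (t : ℂ) ^ 2‖ ≤ (1 + t ^ 2) + (2 * (-z.re) * s + s ^ 2) := by
  have h1 : z.re ^ 2 + z.im ^ 2 = 1 := by
    have := Complex.normSq_eq_norm_sq z
    rw [hz, Complex.normSq_apply] at this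
    linarith
  refine (norm_add_le _ _).trans (le_of_eq ?_)
  have h2 : ‖1 - z * s‖ ^ 2 = 1 + 2 * (-z.re) * s + s ^ 2 := by
    rw [← Complex.normSq_eq_norm_sq, Complex.normSq_apply]
    simp
    linear_combination s ^ 2 * h1
  rw [norm_pow, norm_pow, h2, Complex.norm_real, Real.norm_eq_abs, sq_abs]
  ring

theorem fac_lower {z : ℂ} (hz : ‖z‖ = 1) (hre : z.re ≤ 0) {s : ℝ} (hs : 0 ≤ s) (hs1 : s ≤ 1)
    (t : ℝ) : ((1 + t ^ 2) + 2 * (-z.re) * s) * (1 - s ^ 2 / 2) ≤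
      ‖(1 - z * s) ^ 2 + (t : ℂ) ^ 2‖ := by
  have h1 : z.re ^ 2 + z.im ^ 2 = 1 := by
    have := Complex.normSq_eq_norm_sq z
    rw [hz, Complex.normSq_apply] at this
    linarith
  set x : ℝ := 1 + (-z.re) * s with hx
  set y : ℝ := z.im * s with hy
  have h0 : 0 ≤ -z.re * s := mul_nonneg (by linarith) hs
  have hx1 : 1 ≤ x := by linarith
  have hy2 : y ^ 2 ≤ s ^ 2 := by
    have : z.im ^ 2 ≤ 1 := by nlinarith [sq_nonneg z.re]
    calc y ^ 2 = z.im ^ 2 * s ^ 2 := by rw [hy]; ring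
      _ ≤ 1 * s ^ 2 := by gcongr
      _ = s ^ 2 := one_mul _
  have hs2 : s ^ 2 ≤ 1 := by nlinarith
  have h2 : ‖(1 - z * s) ^ 2 + (t : ℂ) ^ 2‖ ^ 2 =
      (x ^ 2 - y ^ 2 + t ^ 2) ^ 2 + (2 * x * y) ^ 2 := by
    have e : (1 - z * s) ^ 2 + (t : ℂ) ^ 2 =
        ((x ^ 2 - y ^ 2 + t ^ 2 : ℝ) : ℂ) + ((-(2 * x * y) : ℝ) : ℂ) * Complex.I := by
      have e1 : 1 - z * s = (x : ℂ) - (y : ℂ) * Complex.I := by
        apply Complex.ext
        · simp [hx]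
          ring
        · simp [hy]
      rw [e1]
      push_cast
      linear_combination (y : ℂ) ^ 2 * Complex.I_sq
    rw [e, ← Complex.normSq_eq_norm_sq, Complex.normSq_add_mul_I]
    ring
  refine abs_le_of_sq_le_sq' ?_ (norm_nonneg _) |>.2
  rw [h2]
  have h3 : (1 + t ^ 2) + 2 * (-z.re) * s ≤ x ^ 2 + t ^ 2 := by
    rw [hx]
    nlinarith [sq_nonneg (z.re * s)]
  have h4 : 0 ≤ (1 + t ^ 2) + 2 * (-z.re) * s := by nlinarith [sq_nonneg t]
  have h5 : (((1 + t ^ 2) + 2 * (-z.re) * s) * (1 - s ^ 2 / 2)) ^ 2 ≤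
      (x ^ 2 + t ^ 2) ^ 2 * (1 - s ^ 2 / 2) := by
    rw [mul_pow]
    have h6 : (1 - s ^ 2 / 2) ^ 2 ≤ 1 - s ^ 2 / 2 := by nlinarith [sq_nonneg s]
    exact mul_le_mul (by gcongr) h6 (sq_nonneg _) (sq_nonneg _)
  refine h5.trans ?_
  -- `(x²+t²)² s²/2 ≥ 2 t² y²`
  have h7 : 4 * (t ^ 2 * y ^ 2) ≤ (x ^ 2 + t ^ 2) ^ 2 * s ^ 2 := by
    have h8 : 4 * t ^ 2 ≤ (x ^ 2 + t ^ 2) ^ 2 := by
      have h9 : 1 ≤ x ^ 2 := by nlinarith
      nlinarith [sq_nonneg (1 - t ^ 2), sq_nonneg t, sq_nonneg (x ^ 2 - 1)]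
    calc 4 * (t ^ 2 * y ^ 2) = 4 * t ^ 2 * y ^ 2 := by ring
      _ ≤ (x ^ 2 + t ^ 2) ^ 2 * s ^ 2 := mul_le_mul h8 hy2 (sq_nonneg _) (sq_nonneg _)
  nlinarith [sq_nonneg (y ^ 2), sq_nonneg (x * y)]

theorem exp_le_one_add {x : ℝ} (hx : 0 ≤ x) : Real.exp (x - x ^ 2 / 2) ≤ 1 + x := by
  have h1 := Real.le_log_one_add_of_nonneg hx
  have h2 : x - x ^ 2 / 2 ≤ 2 * x / (x + 2) := by
    rw [le_div_iff₀ (by linarith)]
    nlinarith [pow_nonneg hx 3]
  have h3 := Real.exp_le_exp.2 (h2.trans h1)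
  rwa [Real.exp_log (by linarith)] at h3

theorem exp_le_one_sub {y : ℝ} (hy : 0 ≤ y) (hy2 : y ≤ 1 / 2) : Real.exp (-(2 * y)) ≤ 1 - y := by
  have h1 : 1 + 2 * y ≤ Real.exp (2 * y) := by
    have := Real.add_one_le_exp (2 * y)
    linarith
  rw [Real.exp_neg]
  have h2 : (Real.exp (2 * y))⁻¹ ≤ (1 + 2 * y)⁻¹ := inv_anti₀ (by linarith) h1
  refine h2.trans ?_
  rw [inv_le_iff_one_le_mul₀ (by linarith)]
  nlinarith

/-- the lower bound of one factor in exponential form -/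
theorem fac_exp {z : ℂ} (hz : ‖z‖ = 1) (hre : z.re ≤ 0) {s : ℝ} (hs : 0 ≤ s) (hs1 : s ≤ 1)
    (t : ℝ) : (1 + t ^ 2) * Real.exp (2 * (-z.re) * s / (1 + t ^ 2) - 3 * s ^ 2) ≤
      ‖(1 - z * s) ^ 2 + (t : ℂ) ^ 2‖ := by
  set T : ℝ := 1 + t ^ 2 with hT
  set c : ℝ := -z.re with hc
  have hT1 : 1 ≤ T := by nlinarith [sq_nonneg t]
  have hc0 : 0 ≤ c := by linarith
  have hc1 : c ≤ 1 := by
    have := Complex.abs_re_le_norm z
    rw [hz] at this
    linarith [neg_abs_le z.re]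
  have hs2 : s ^ 2 ≤ 1 := by nlinarith
  refine le_trans ?_ (fac_lower hz hre hs hs1 t)
  set x : ℝ := 2 * c * s / T with hx
  have hx0 : 0 ≤ x := by positivity
  have hx2 : x ^ 2 ≤ 4 * s ^ 2 := by
    have h1 : x ≤ 2 * s := by
      rw [hx, div_le_iff₀ (by linarith)]
      have : c * s ≤ 1 * s := by gcongr
      nlinarith
    nlinarith
  have h1 : T * Real.exp (x - 3 * s ^ 2) ≤ T * ((1 + x) * (1 - s ^ 2 / 2)) := by
    refine mul_le_mul_of_nonneg_left ?_ (by linarith)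
    calc Real.exp (x - 3 * s ^ 2) ≤ Real.exp ((x - x ^ 2 / 2) + -(2 * (s ^ 2 / 2))) :=
          Real.exp_le_exp.2 (by linarith)
      _ = Real.exp (x - x ^ 2 / 2) * Real.exp (-(2 * (s ^ 2 / 2))) := Real.exp_add _ _
      _ ≤ (1 + x) * (1 - s ^ 2 / 2) :=
          mul_le_mul (exp_le_one_add hx0) (exp_le_one_sub (by positivity) (by linarith))
            (Real.exp_pos _).le (by linarith)
  refine h1.trans (le_of_eq ?_)
  have h2 : T * (1 + x) = T + 2 * c * s := by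
    rw [hx]
    field_simp
  rw [← h2]
  ring

section main

variable {n : ℕ} {ζ : Fin n → ℂ} (h1 : ∀ j, ‖ζ j‖ = 1) (h2 : ∀ j, (ζ j).re ≤ 0)

include h2 in
theorem SS_nonneg : 0 ≤ SS ζ := Finset.sum_nonneg fun j _ => by have := h2 j; linarith

include h1 h2

theorem RR_le {s : ℝ} (hs : 0 ≤ s) (t : ℝ) :
    RR ζ s t ≤ (1 + t ^ 2) ^ n * Real.exp (2 * s * SS ζ + n * s ^ 2) := by
  have hT1 : 1 ≤ 1 + t ^ 2 := by nlinarith [sq_nonneg t]
  have h3 : ∀ j, ‖(1 - ζ j * s) ^ 2 + (t : ℂ) ^ 2‖ ≤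
      (1 + t ^ 2) * Real.exp (2 * (-(ζ j).re) * s + s ^ 2) := by
    intro j
    refine (fac_upper (h1 j) s t).trans ?_
    have h4 := Real.add_one_le_exp (2 * (-(ζ j).re) * s + s ^ 2)
    have h5 : 0 ≤ -(ζ j).re * s := mul_nonneg (by linarith [h2 j]) hs
    have h6 : 0 ≤ 2 * (-(ζ j).re) * s + s ^ 2 := by nlinarith [sq_nonneg s]
    nlinarith [sq_nonneg t]
  calc RR ζ s t ≤ ∏ j, ((1 + t ^ 2) * Real.exp (2 * (-(ζ j).re) * s + s ^ 2)) :=
        Finset.prod_le_prod (fun _ _ => norm_nonneg _) fun j _ => h3 j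
    _ = (1 + t ^ 2) ^ n * Real.exp (2 * s * SS ζ + n * s ^ 2) := by
        rw [Finset.prod_mul_distrib, Finset.prod_const, Finset.card_univ, Fintype.card_fin,
          ← Real.exp_sum, Finset.sum_add_distrib, Finset.sum_const, Finset.card_univ,
          Fintype.card_fin, SS, Finset.mul_sum, nsmul_eq_mul]
        congr 3
        exact Finset.sum_congr rfl fun j _ => by ring

theorem RR_ge {s : ℝ} (hs : 0 ≤ s) (hs1 : s ≤ 1) (t : ℝ) :
    (1 + t ^ 2) ^ n * Real.exp (2 * s * SS ζ / (1 + t ^ 2) - 3 * n * s ^ 2) ≤ RR ζ s t := by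
  have h3 : (1 + t ^ 2) ^ n * Real.exp (2 * s * SS ζ / (1 + t ^ 2) - 3 * n * s ^ 2) =
      ∏ j, ((1 + t ^ 2) * Real.exp (2 * (-(ζ j).re) * s / (1 + t ^ 2) - 3 * s ^ 2)) := by
    rw [Finset.prod_mul_distrib, Finset.prod_const, Finset.card_univ, Fintype.card_fin,
      ← Real.exp_sum, Finset.sum_sub_distrib, Finset.sum_const, Finset.card_univ,
      Fintype.card_fin, SS, Finset.mul_sum, nsmul_eq_mul, Finset.sum_div]
    congr 3
    · exact Finset.sum_congr rfl fun j _ => by ring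
    · ring
  rw [h3]
  exact Finset.prod_le_prod (fun _ _ => by positivity) fun j _ => fac_exp (h1 j) (h2 j) hs hs1 t

theorem RR_ge' {s : ℝ} (hs : 0 ≤ s) (hs1 : s ≤ 1) (t : ℝ) :
    (1 + t ^ 2) ^ n * Real.exp (-(3 * n * s ^ 2)) ≤ RR ζ s t := by
  refine le_trans ?_ (RR_ge h1 h2 hs hs1 t)
  refine mul_le_mul_of_nonneg_left (Real.exp_le_exp.2 ?_) (by positivity)
  have h3 : 0 ≤ 2 * s * SS ζ / (1 + t ^ 2) := by
    have := SS_nonneg h2
    positivity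
  linarith

theorem RR_pos {s : ℝ} (hs : 0 ≤ s) (hs1 : s ≤ 1) (t : ℝ) : 0 < RR ζ s t :=
  lt_of_lt_of_le (by positivity) (RR_ge' h1 h2 hs hs1 t)

omit h1 h2 in
theorem RR_continuous (s : ℝ) : Continuous fun t => RR ζ s t := by
  unfold RR
  fun_prop

theorem RR_integrable {s : ℝ} (hs : 0 ≤ s) (hs1 : s ≤ 1) (hn : 1 ≤ n) :
    Integrable (fun t => 1 / RR ζ s t) := by
  have hg : Integrable (fun t : ℝ => Real.exp (3 * n * s ^ 2) * (1 + t ^ 2)⁻¹) :=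
    integrable_inv_one_add_sq.const_mul _
  have hc : Continuous (fun t => 1 / RR ζ s t) :=
    continuous_const.div (RR_continuous s) fun t => (RR_pos h1 h2 hs hs1 t).ne'
  refine hg.mono' hc.aestronglyMeasurable (Filter.Eventually.of_forall fun t => ?_)
  have hT1 : 1 ≤ 1 + t ^ 2 := by nlinarith [sq_nonneg t]
  rw [Real.norm_eq_abs, abs_of_pos (one_div_pos.2 (RR_pos h1 h2 hs hs1 t)), one_div]
  have h3 := RR_ge' h1 h2 hs hs1 t
  have h4 : (1 + t ^ 2) * Real.exp (-(3 * n * s ^ 2)) ≤ RR ζ s t := by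
    refine le_trans ?_ h3
    refine mul_le_mul_of_nonneg_right ?_ (Real.exp_pos _).le
    exact le_self_pow₀ hT1 (by omega)
  refine (inv_anti₀ (by positivity) h4).trans (le_of_eq ?_)
  rw [mul_inv, Real.exp_neg, inv_inv]
  ring

/-- lower bound of `Psi(s)` -/
theorem psi_lower {s : ℝ} (hs : 0 ≤ s) (hs1 : s ≤ 1) (hn : 1 ≤ n) :
    Real.exp (-(2 * s * SS ζ + n * s ^ 2)) * ∫ t : ℝ, 1 / (1 + t ^ 2) ^ n ≤
      ∫ t, 1 / RR ζ s t := by
  rw [← integral_const_mul]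
  refine integral_mono_of_nonneg (Filter.Eventually.of_forall fun t => by positivity)
    (RR_integrable h1 h2 hs hs1 hn) (Filter.Eventually.of_forall fun t => ?_)
  have h3 := RR_le h1 h2 hs t
  have h4 := RR_pos h1 h2 hs hs1 t
  have h5 := one_div_le_one_div_of_le h4 h3
  refine le_trans (le_of_eq ?_) h5
  simp only
  rw [Real.exp_neg, one_div, one_div, mul_inv]
  ring

/-- upper bound of `Psi(s)` -/
theorem psi_upper {s : ℝ} (hs : 0 ≤ s) (hs1 : s ≤ 1) (hn : 1 ≤ n)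
    (hS : 2 * s * SS ζ ≤ n - 1) :
    ∫ t, 1 / RR ζ s t ≤ Real.pi * Real.exp (-(2 * s * SS ζ) + 3 * n * s ^ 2) := by
  have hS0 := SS_nonneg h2
  have hA : 0 ≤ 2 * s * SS ζ := by positivity
  have hint : ∫ t : ℝ, Real.exp (-(2 * s * SS ζ) + 3 * n * s ^ 2) * (1 + t ^ 2)⁻¹ =
      Real.pi * Real.exp (-(2 * s * SS ζ) + 3 * n * s ^ 2) := by
    rw [integral_const_mul, integral_univ_inv_one_add_sq, mul_comm]
  rw [← hint]
  refine integral_mono (RR_integrable h1 h2 hs hs1 hn) (integrable_inv_one_add_sq.const_mul _)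
    fun t => ?_
  have hT1 : 1 ≤ 1 + t ^ 2 := by nlinarith [sq_nonneg t]
  have hT0 : 0 < 1 + t ^ 2 := by linarith
  have h3 := RR_ge h1 h2 hs hs1 t
  -- `exp(A/T) T^n ≥ exp(A) T`
  have h4 : Real.exp (2 * s * SS ζ) * (1 + t ^ 2) ≤
      (1 + t ^ 2) ^ n * Real.exp (2 * s * SS ζ / (1 + t ^ 2)) := by
    have h5 : 1 - 1 / (1 + t ^ 2) ≤ Real.log (1 + t ^ 2) := by
      have := Real.one_sub_inv_le_log_of_pos hT0
      rwa [one_div]
    have h6 : (1 + t ^ 2) ^ n = Real.exp (n * Real.log (1 + t ^ 2)) := by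
      rw [Real.exp_nat_mul, Real.exp_log hT0]
    have hl : 0 ≤ Real.log (1 + t ^ 2) := Real.log_nonneg hT1
    have h66 : Real.exp (2 * s * SS ζ) * (1 + t ^ 2) =
        Real.exp (2 * s * SS ζ + Real.log (1 + t ^ 2)) := by
      rw [Real.exp_add, Real.exp_log hT0]
    rw [h6, ← Real.exp_add, h66]
    apply Real.exp_le_exp.2
    have h7 : 2 * s * SS ζ * (1 - 1 / (1 + t ^ 2)) ≤ (n - 1) * Real.log (1 + t ^ 2) := by
      calc _ ≤ 2 * s * SS ζ * Real.log (1 + t ^ 2) := by gcongr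
        _ ≤ _ := by gcongr
    have h8 : 2 * s * SS ζ / (1 + t ^ 2) = 2 * s * SS ζ * (1 / (1 + t ^ 2)) := by ring
    rw [h8]
    linarith
  have h9 : Real.exp (2 * s * SS ζ - 3 * n * s ^ 2) * (1 + t ^ 2) ≤ RR ζ s t := by
    refine le_trans ?_ h3
    rw [sub_eq_add_neg, sub_eq_add_neg, Real.exp_add, Real.exp_add]
    calc _ = Real.exp (2 * s * SS ζ) * (1 + t ^ 2) * Real.exp (-(3 * n * s ^ 2)) := by ring
      _ ≤ ((1 + t ^ 2) ^ n * Real.exp (2 * s * SS ζ / (1 + t ^ 2))) *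
          Real.exp (-(3 * n * s ^ 2)) := by gcongr
      _ = _ := by ring
  have h10 := one_div_le_one_div_of_le (by positivity) h9
  refine h10.trans (le_of_eq ?_)
  rw [one_div, mul_inv, ← Real.exp_neg]
  congr 2
  ring

end main

/-- **(2.7)** -/
theorem psi_zero {n : ℕ} (hn : 1 ≤ n) : 2 / (3 * √n) ≤ ∫ t : ℝ, 1 / (1 + t ^ 2) ^ n := by
  have hn0 : (0 : ℝ) < n := by exact_mod_cast hn
  have hs : 0 < √(n : ℝ) := Real.sqrt_pos.2 hn0
  have hint : Integrable (fun t : ℝ => 1 / (1 + t ^ 2) ^ n) := by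
    have hc : Continuous (fun t : ℝ => 1 / (1 + t ^ 2) ^ n) := by
      refine continuous_const.div (by fun_prop) fun t => by positivity
    refine (integrable_inv_one_add_sq).mono' hc.aestronglyMeasurable
      (Filter.Eventually.of_forall fun t => ?_)
    have hT1 : 1 ≤ 1 + t ^ 2 := by nlinarith [sq_nonneg t]
    rw [Real.norm_eq_abs, abs_of_pos (by positivity), one_div]
    exact inv_anti₀ (by positivity) (le_self_pow₀ hT1 (by omega))
  have h1 : ∫ t in Set.Icc (-(1 / √(n : ℝ))) (1 / √(n : ℝ)), (1 : ℝ) / 3 ≤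
      ∫ t in Set.Icc (-(1 / √(n : ℝ))) (1 / √(n : ℝ)), 1 / (1 + t ^ 2) ^ n := by
    refine setIntegral_mono_on (by simp) hint.integrableOn measurableSet_Icc fun t ht => ?_
    have ht2 : t ^ 2 ≤ 1 / n := by
      have h3 : |t| ≤ 1 / √(n : ℝ) := abs_le.2 ht
      calc t ^ 2 = |t| ^ 2 := (sq_abs t).symm
        _ ≤ (1 / √(n : ℝ)) ^ 2 := by gcongr
        _ = 1 / n := by rw [div_pow, Real.sq_sqrt hn0.le, one_pow]
    have h4 : (1 + t ^ 2) ^ n ≤ Real.exp 1 := by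
      calc (1 + t ^ 2) ^ n ≤ (1 + 1 / (n : ℝ)) ^ n := by gcongr
        _ ≤ (Real.exp (1 / n)) ^ n := by
            gcongr
            have := Real.add_one_le_exp (1 / (n : ℝ))
            linarith
        _ = Real.exp 1 := by
            rw [← Real.exp_nat_mul]
            congr 1
            field_simp
    have h5 : (1 + t ^ 2) ^ n ≤ 3 := h4.trans (by linarith [Real.exp_one_lt_d9])
    exact one_div_le_one_div_of_le (by positivity) h5
  have h2 : ∫ t in Set.Icc (-(1 / √(n : ℝ))) (1 / √(n : ℝ)), 1 / (1 + t ^ 2) ^ n ≤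
      ∫ t : ℝ, 1 / (1 + t ^ 2) ^ n :=
    setIntegral_le_integral hint (Filter.Eventually.of_forall fun t => by positivity)
  refine le_trans (le_of_eq ?_) (h1.trans h2)
  rw [setIntegral_const, Real.volume_real_Icc_of_le (by have : 0 < 1 / √(n : ℝ) := by positivity
                                                        linarith)]
  simp only [smul_eq_mul]
  field_simp
  ring

/-- **K7** in terms of the complex integral -/
theorem psi_real {n : ℕ} (hn : Even n) {ζ : Fin n → ℂ}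
    (hc : ∀ j, ζ (Fin.rev j) = (starRingEnd ℂ) (ζ j)) (s : ℝ) :
    ∫ t : ℝ, 1 / ∏ j, ((1 - ζ j * s) ^ 2 + (t : ℂ) ^ 2) = ((∫ t : ℝ, 1 / RR ζ s t : ℝ) : ℂ) := by
  rw [← integral_complex_ofReal]
  congr 1
  funext t
  rw [prod_eq_RR hn hc]
  push_cast
  rfl

end

end Pool.Agent.KL
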