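import Mathlib

/-!
Finite sums of decaying exponentials: Laplace transform, Fourier inversion.
-/

namespace Pool.Agent.KL

open MeasureTheory Filter Topology Complex FourierTransform

lemma exp_decay_integrable {c : ℂ} (hc : c.re < 0) (d : ℂ) :
    IntegrableOn (fun u : ℝ => d * exp (c * u)) (Set.Ioi 0) :=
  (integrableOn_exp_mul_complex_Ioi hc 0).const_mul d

lemma exp_decay_integral {c : ℂ} (hc : c.re < 0) (d : ℂ) :
    ∫ u : ℝ in Set.Ioi 0, d * exp (c * u) = -d / c := by
  rw [integral_const_mul, integral_exp_mul_complex_Ioi hc]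
  simp
  ring

/-- The Laplace transform of a finite sum of exponentials. -/
lemma expSum_laplace {ι : Type*} [Fintype ι] (d s : ι → ℂ) (z : ℂ)
    (hz : ∀ i, (s i).re < z.re) :
    IntegrableOn (fun u : ℝ => (∑ i, d i * exp (s i * u)) * exp (-(z * u))) (Set.Ioi 0) ∧
    ∫ u : ℝ in Set.Ioi 0, (∑ i, d i * exp (s i * u)) * exp (-(z * u)) =
      ∑ i, d i / (z - s i) := by
  have h1 : ∀ u : ℝ, (∑ i, d i * exp (s i * u)) * exp (-(z * u)) =
      ∑ i, d i * exp ((s i - z) * u) := by
    intro u
    rw [Finset.sum_mul]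
    refine Finset.sum_congr rfl fun i _ => ?_
    rw [mul_assoc, ← Complex.exp_add]
    congr 2
    ring
  have h2 : ∀ i, (s i - z).re < 0 := fun i => by
    rw [Complex.sub_re]
    linarith [hz i]
  simp only [h1]
  refine ⟨integrable_finsetSum _ fun i _ => exp_decay_integrable (h2 i) (d i), ?_⟩
  rw [integral_finsetSum _ fun i _ => exp_decay_integrable (h2 i) (d i)]
  refine Finset.sum_congr rfl fun i _ => ?_
  rw [exp_decay_integral (h2 i), ← neg_sub z (s i), neg_div_neg_eq]

/-- The inversion bound. -/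
theorem expSum_bound {ι : Type*} [Fintype ι] (d s : ι → ℂ) (hs : ∀ i, (s i).re < 0)
    (hG : Integrable (fun τ : ℝ => ∑ i, d i / (I * τ - s i))) (u : ℝ) (hu : 0 ≤ u) :
    ‖∑ i, d i * exp (s i * u)‖ ≤ (1 / (2 * Real.pi)) * ∫ τ : ℝ, ‖∑ i, d i / (I * τ - s i)‖ := by
  set g : ℝ → ℂ := fun u => ∑ i, d i * exp (s i * u) with hg
  set G : ℝ → ℂ := fun τ => ∑ i, d i / (I * τ - s i) with hGdef
  have hgc : Continuous g := by
    rw [hg]
    fun_prop
  -- the case of a positive argument
  have key : ∀ u : ℝ, 0 < u → ‖g u‖ ≤ (1 / (2 * Real.pi)) * ∫ τ : ℝ, ‖G τ‖ := by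
    intro u hu
    set f : ℝ → ℂ := (Set.Ioi (0 : ℝ)).indicator g with hf
    have hfint : Integrable f := by
      rw [hf, integrable_indicator_iff measurableSet_Ioi]
      exact integrable_finsetSum _ fun i _ => exp_decay_integrable (hs i) (d i)
    have hF : ∀ w : ℝ, 𝓕 f w = G (2 * Real.pi * w) := by
      intro w
      rw [Real.fourier_eq']
      have h1 := (expSum_laplace d s (2 * Real.pi * w * I) (fun i => by
        have : ((2 : ℂ) * Real.pi * w * I).re = 0 := by simp
        rw [this]; exact hs i)).2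
      have h2 : ∫ v : ℝ, exp (↑(-2 * Real.pi * inner ℝ v w) * I) • f v =
          ∫ v : ℝ, (Set.Ioi (0 : ℝ)).indicator
            (fun v => g v * exp (-(2 * Real.pi * w * I * v))) v := by
        refine integral_congr_ae (Eventually.of_forall fun v => ?_)
        simp only [hf, Set.indicator_apply]
        split_ifs with hv
        · rw [smul_eq_mul, mul_comm]
          congr 2
          simp
          ring
        · simp
      rw [h2, integral_indicator measurableSet_Ioi, h1, hGdef]
      refine Finset.sum_congr rfl fun i _ => ?_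
      push_cast
      congr 2
      ring
    have hFint : Integrable (𝓕 f) := by
      have h1 : (𝓕 f) = fun w => G (2 * Real.pi * w) := funext hF
      rw [h1]
      exact hG.comp_mul_left' (by positivity)
    have hcont : ContinuousAt f u := by
      refine (hgc.continuousAt).congr ?_
      filter_upwards [lt_mem_nhds hu] with v hv
      rw [hf, Set.indicator_of_mem (Set.mem_Ioi.2 hv)]
    have h3 := hfint.fourierInv_fourier_eq hFint hcont
    have h4 : f u = g u := by rw [hf, Set.indicator_of_mem (Set.mem_Ioi.2 hu)]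
    rw [← h4, ← h3, Real.fourierInv_eq']
    refine (norm_integral_le_integral_norm _).trans (le_of_eq ?_)
    have h5 : ∀ v : ℝ, ‖exp (↑(2 * Real.pi * inner ℝ v u) * I) • 𝓕 f v‖ =
        ‖G (2 * Real.pi * v)‖ := by
      intro v
      rw [norm_smul, Complex.norm_exp_ofReal_mul_I, one_mul, hF]
    simp_rw [h5]
    rw [Measure.integral_comp_mul_left (fun τ => ‖G τ‖) (2 * Real.pi)]
    rw [smul_eq_mul, abs_of_pos (by positivity), one_div]
  rcases hu.eq_or_lt with rfl | hu
  · have h1 : Tendsto (fun u => ‖g u‖) (𝓝[>] 0) (𝓝 ‖g 0‖) :=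
      (hgc.norm.tendsto 0).mono_left nhdsWithin_le_nhds
    exact le_of_tendsto h1 (by
      filter_upwards [self_mem_nhdsWithin] with v hv
      exact key v hv)
  · exact key u hu

end Pool.Agent.KL
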