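import Mathlib

/-!
The integral of `|Ψ(iτ)|` over the real line.
-/

namespace Pool.Agent.KL

open MeasureTheory Filter Topology Complex

/-- The majorant: `2` on `[-1, 1]` and `1/τ²` outside. -/
noncomputable def maj (τ : ℝ) : ℝ := if |τ| ≤ 1 then 2 else (τ ^ 2)⁻¹

lemma maj_integral : Integrable maj ∧ ∫ τ : ℝ, maj τ = 6 := by
  have h0 : ∀ τ : ℝ, maj τ = (Set.Icc (-1 : ℝ) 1).indicator (fun _ => (2 : ℝ)) τ +
      ((Set.Ioi (1 : ℝ)).indicator (fun τ => τ ^ (-2 : ℝ)) τ +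
        (Set.Ioi (1 : ℝ)).indicator (fun τ => τ ^ (-2 : ℝ)) (-τ)) := by
    intro τ
    unfold maj
    by_cases h : |τ| ≤ 1
    · have h1 := abs_le.1 h
      rw [if_pos h, Set.indicator_of_mem (Set.mem_Icc.2 h1),
        Set.indicator_of_notMem (by rw [Set.mem_Ioi]; linarith [h1.2]),
        Set.indicator_of_notMem (by rw [Set.mem_Ioi]; linarith [h1.1])]
      norm_num
    · rw [if_neg h, Set.indicator_of_notMem (fun h1 => h (abs_le.2 (Set.mem_Icc.1 h1)))]
      push Not at h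
      rcases lt_abs.1 h with h1 | h1
      · rw [Set.indicator_of_mem (Set.mem_Ioi.2 h1),
          Set.indicator_of_notMem (by rw [Set.mem_Ioi]; linarith), Real.rpow_neg (by linarith),
          Real.rpow_two]
        ring
      · rw [Set.indicator_of_notMem (by rw [Set.mem_Ioi]; linarith),
          Set.indicator_of_mem (Set.mem_Ioi.2 h1), Real.rpow_neg (by linarith),
          Real.rpow_two]
        ring
  have h1 : Integrable (fun τ : ℝ => (Set.Icc (-1 : ℝ) 1).indicator (fun _ => (2 : ℝ)) τ) := by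
    rw [integrable_indicator_iff measurableSet_Icc]
    exact integrableOn_const (by simp)
  have h2 : Integrable (fun τ : ℝ => (Set.Ioi (1 : ℝ)).indicator (fun τ => τ ^ (-2 : ℝ)) τ) := by
    rw [integrable_indicator_iff measurableSet_Ioi]
    exact integrableOn_Ioi_rpow_of_lt (by norm_num) (by norm_num)
  have h3 : Integrable (fun τ : ℝ =>
      (Set.Ioi (1 : ℝ)).indicator (fun τ => τ ^ (-2 : ℝ)) (-τ)) := h2.comp_neg
  have i1 : ∫ τ : ℝ, (Set.Icc (-1 : ℝ) 1).indicator (fun _ => (2 : ℝ)) τ = 4 := by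
    rw [integral_indicator measurableSet_Icc]
    simp
    norm_num
  have i2 : ∫ τ : ℝ, (Set.Ioi (1 : ℝ)).indicator (fun τ => τ ^ (-2 : ℝ)) τ = 1 := by
    rw [integral_indicator measurableSet_Ioi, integral_Ioi_rpow_of_lt (by norm_num) (by norm_num)]
    norm_num
  have i3 : ∫ τ : ℝ, (Set.Ioi (1 : ℝ)).indicator (fun τ => τ ^ (-2 : ℝ)) (-τ) = 1 := by
    rw [integral_neg_eq_self (fun τ : ℝ => (Set.Ioi (1 : ℝ)).indicator (fun τ => τ ^ (-2 : ℝ)) τ)]
    exact i2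
  have h4 : maj = fun τ => (Set.Icc (-1 : ℝ) 1).indicator (fun _ => (2 : ℝ)) τ +
      ((Set.Ioi (1 : ℝ)).indicator (fun τ => τ ^ (-2 : ℝ)) τ +
        (Set.Ioi (1 : ℝ)).indicator (fun τ => τ ^ (-2 : ℝ)) (-τ)) := funext h0
  constructor
  · rw [h4]
    exact h1.add (h2.add h3)
  · have e1 : ∫ τ : ℝ, maj τ = ∫ τ : ℝ, ((Set.Icc (-1 : ℝ) 1).indicator (fun _ => (2 : ℝ)) τ +
      ((Set.Ioi (1 : ℝ)).indicator (fun τ => τ ^ (-2 : ℝ)) τ +
        (Set.Ioi (1 : ℝ)).indicator (fun τ => τ ^ (-2 : ℝ)) (-τ))) :=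
      integral_congr_ae (Eventually.of_forall h0)
    have e2 := integral_add h1 (h2.add h3)
    have e3 := integral_add h2 h3
    simp only [Pi.add_apply] at e2
    rw [e1, e2, e3, i1, i2, i3]
    norm_num

theorem g_bound {n : ℕ} (hn : 2 ≤ n) {Ψ : ℝ → ℂ} (hm : AEStronglyMeasurable Ψ)
    (h1 : ∀ τ : ℝ, τ ^ (2 * n) ≤ 1 / 2 → ‖Ψ τ‖ ≤ 1)
    (h2 : ∀ τ : ℝ, τ ≠ 0 → ‖Ψ τ‖ ≤ (|τ| ^ (2 * n - 1))⁻¹) :
    Integrable Ψ ∧ (1 / (2 * Real.pi)) * ∫ τ : ℝ, ‖Ψ τ‖ ≤ 1 := by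
  have hb : ∀ τ : ℝ, ‖Ψ τ‖ ≤ maj τ := by
    intro τ
    unfold maj
    split_ifs with h
    · by_cases h3 : τ ^ (2 * n) ≤ 1 / 2
      · exact (h1 τ h3).trans (by norm_num)
      · push Not at h3
        have hτ : τ ≠ 0 := by
          rintro rfl
          rw [zero_pow (by omega)] at h3
          norm_num at h3
        refine (h2 τ hτ).trans ?_
        have h4 : |τ| ^ (2 * n) ≤ |τ| ^ (2 * n - 1) :=
          pow_le_pow_of_le_one (abs_nonneg τ) h (by omega)
        have h5 : |τ| ^ (2 * n) = τ ^ (2 * n) := by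
          rw [pow_mul, sq_abs, ← pow_mul]
        rw [h5] at h4
        have h6 : 1 / 2 ≤ |τ| ^ (2 * n - 1) := by linarith
        calc (|τ| ^ (2 * n - 1))⁻¹ ≤ (1 / 2)⁻¹ := inv_anti₀ (by norm_num) h6
          _ = 2 := by norm_num
    · push Not at h
      have hτ : τ ≠ 0 := by
        rintro rfl
        rw [abs_zero] at h
        linarith
      refine (h2 τ hτ).trans ?_
      rw [← sq_abs τ]
      exact inv_anti₀ (by positivity) (pow_le_pow_right₀ h.le (by omega))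
  have hint : Integrable Ψ := maj_integral.1.mono' hm (Eventually.of_forall hb)
  refine ⟨hint, ?_⟩
  have h3 : ∫ τ : ℝ, ‖Ψ τ‖ ≤ 6 := by
    rw [← maj_integral.2]
    exact integral_mono hint.norm maj_integral.1 hb
  have h4 := Real.pi_gt_three
  rw [one_div, inv_mul_le_iff₀ (by positivity)]
  linarith

end Pool.Agent.KL
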