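import Pool.Agent.Lib.KL.Q

/-!
KL project, rows K2, (2.2) and K6 in real form (helper35).
-/

open MeasureTheory Real

namespace Pool.Agent.KL

/-- A sum of exponentials which is stable under conjugation is real. -/
lemma esum_real {ι : Type*} [Fintype ι] {d p : ι → ℂ} (σ : Equiv.Perm ι)
    (hd : ∀ i, d (σ i) = (starRingEnd ℂ) (d i)) (hp : ∀ i, p (σ i) = (starRingEnd ℂ) (p i))
    (u : ℝ) : ((esum d p u).re : ℂ) = esum d p u := by
  rw [← Complex.conj_eq_iff_re]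
  unfold esum
  rw [map_sum, ← Equiv.sum_comp σ (fun i => d i * Complex.exp (p i * u))]
  refine Finset.sum_congr rfl fun i _ => ?_
  rw [map_mul, ← Complex.exp_conj, map_mul, Complex.conj_ofReal, hd, hp]

variable {n : ℕ} (c ζ : Fin n → ℂ)

/-- `Ψ`. -/
noncomputable def PsiC (s : ℂ) : ℂ :=
  ∑ x : Fin n × Fin n, c x.1 * c x.2 * (s ^ (2 * n - 2))⁻¹ / (2 - (ζ x.1 + ζ x.2) * s)

/-- `W`. -/
noncomputable def WC (μ : ℂ) : ℂ :=
  ∑ x : Fin n × Fin n, c x.1 * c x.2 / (μ - (ζ x.1 + ζ x.2))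

/-- `h`. -/
noncomputable def hR (v : ℝ) : ℝ := (esum c ζ v).re

/-- `q`. -/
noncomputable def qR (u : ℝ) : ℝ := (esum (dq c ζ) (pq ζ) u).re

/-- `Ψ` on the real line. -/
noncomputable def PR (s : ℝ) : ℝ := (PsiC c ζ s).re

variable {c ζ}

/-! ### `h` and `W` -/

lemma continuous_hR : Continuous (hR c ζ) :=
  Complex.continuous_re.comp (continuous_esum c ζ)

lemma continuous_qR : Continuous (qR c ζ) :=
  Complex.continuous_re.comp (continuous_esum _ _)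

lemma hR_sq (σ : Equiv.Perm (Fin n)) (hc : ∀ j, c (σ j) = (starRingEnd ℂ) (c j))
    (hζ : ∀ j, ζ (σ j) = (starRingEnd ℂ) (ζ j)) (v : ℝ) :
    ((hR c ζ v ^ 2 : ℝ) : ℂ) =
      esum (fun x : Fin n × Fin n => c x.1 * c x.2) (fun x => ζ x.1 + ζ x.2) v := by
  have h1 : ((hR c ζ v : ℝ) : ℂ) = esum c ζ v := esum_real σ hc hζ v
  rw [Complex.ofReal_pow, h1, sq]
  unfold esum
  rw [Finset.sum_mul_sum, Fintype.sum_prod_type]
  refine Finset.sum_congr rfl fun i _ => Finset.sum_congr rfl fun j _ => ?_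
  simp only
  rw [add_mul, Complex.exp_add]
  ring

/-- `W` is the Laplace transform of `h²`. -/
theorem WC_eq (σ : Equiv.Perm (Fin n)) (hc : ∀ j, c (σ j) = (starRingEnd ℂ) (c j))
    (hζ : ∀ j, ζ (σ j) = (starRingEnd ℂ) (ζ j)) (hre : ∀ j, (ζ j).re < 0) {μ : ℂ}
    (hμ : 0 ≤ μ.re) :
    IntegrableOn (fun v : ℝ => ((hR c ζ v ^ 2 : ℝ) : ℂ) * Complex.exp (-μ * v)) (Set.Ioi 0) ∧
    ∫ v in Set.Ioi (0 : ℝ), ((hR c ζ v ^ 2 : ℝ) : ℂ) * Complex.exp (-μ * v) = WC c ζ μ := by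
  simp_rw [hR_sq σ hc hζ]
  refine laplace_esum (d := fun x : Fin n × Fin n => c x.1 * c x.2)
    (p := fun x => ζ x.1 + ζ x.2) (s := μ) fun x => ?_
  simp only [Complex.add_re]
  linarith [hre x.1, hre x.2]

theorem hR_sq_integrable (σ : Equiv.Perm (Fin n)) (hc : ∀ j, c (σ j) = (starRingEnd ℂ) (c j))
    (hζ : ∀ j, ζ (σ j) = (starRingEnd ℂ) (ζ j)) (hre : ∀ j, (ζ j).re < 0) :
    IntegrableOn (fun v : ℝ => hR c ζ v ^ 2) (Set.Ioi 0) := by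
  have h1 := (WC_eq σ hc hζ hre (μ := 0) (by simp)).1
  simp only [neg_zero, zero_mul, Complex.exp_zero, mul_one] at h1
  exact h1.re

theorem WC_real (σ : Equiv.Perm (Fin n)) (hc : ∀ j, c (σ j) = (starRingEnd ℂ) (c j))
    (hζ : ∀ j, ζ (σ j) = (starRingEnd ℂ) (ζ j)) (hre : ∀ j, (ζ j).re < 0) {m : ℝ}
    (hm : 0 ≤ m) :
    ((∫ v in Set.Ioi (0 : ℝ), hR c ζ v ^ 2 * Real.exp (-(m * v)) : ℝ) : ℂ) = WC c ζ m := by
  rw [← (WC_eq σ hc hζ hre (μ := m) (by simpa using hm)).2, ← integral_complex_ofReal]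
  refine integral_congr_ae (Filter.Eventually.of_forall fun v => ?_)
  simp only
  push_cast
  rw [neg_mul]

theorem WC_zero (σ : Equiv.Perm (Fin n)) (hc : ∀ j, c (σ j) = (starRingEnd ℂ) (c j))
    (hζ : ∀ j, ζ (σ j) = (starRingEnd ℂ) (ζ j)) (hre : ∀ j, (ζ j).re < 0) :
    ((∫ v in Set.Ioi (0 : ℝ), hR c ζ v ^ 2 : ℝ) : ℂ) = WC c ζ 0 := by
  have := WC_real σ hc hζ hre (m := 0) le_rfl
  simpa using this

theorem norm_WC_le (σ : Equiv.Perm (Fin n)) (hc : ∀ j, c (σ j) = (starRingEnd ℂ) (c j))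
    (hζ : ∀ j, ζ (σ j) = (starRingEnd ℂ) (ζ j)) (hre : ∀ j, (ζ j).re < 0) {μ : ℂ}
    (hμ : 0 ≤ μ.re) : ‖WC c ζ μ‖ ≤ ∫ v in Set.Ioi (0 : ℝ), hR c ζ v ^ 2 := by
  rw [← (WC_eq σ hc hζ hre hμ).2]
  refine norm_integral_le_of_norm_le (hR_sq_integrable σ hc hζ hre) ?_
  refine (ae_restrict_iff' measurableSet_Ioi).2 (Filter.Eventually.of_forall fun v hv => ?_)
  rw [norm_mul, Complex.norm_exp, Complex.norm_real, Real.norm_of_nonneg (sq_nonneg _)]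
  have h1 : (-μ * (v : ℂ)).re ≤ 0 := by
    simp only [Complex.mul_re, Complex.neg_re, Complex.ofReal_re, Complex.neg_im,
      Complex.ofReal_im, mul_zero, sub_zero]
    have := mul_nonneg hμ (le_of_lt (Set.mem_Ioi.1 hv))
    linarith
  have h2 : Real.exp (-μ * (v : ℂ)).re ≤ 1 := Real.exp_le_one_iff.2 h1
  nlinarith [sq_nonneg (hR c ζ v)]

/-! ### `Ψ` and `W` -/

theorem PsiC_eq_WC (hn : 1 ≤ n) {s : ℂ} (hs : s ≠ 0) :
    PsiC c ζ s = (s ^ (2 * n - 1))⁻¹ * WC c ζ (2 / s) := by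
  unfold PsiC WC
  rw [Finset.mul_sum]
  refine Finset.sum_congr rfl fun x _ => ?_
  have h1 : s ^ (2 * n - 1) = s ^ (2 * n - 2) * s := by
    rw [← pow_succ]
    congr 1
    omega
  have h2 : 2 / s - (ζ x.1 + ζ x.2) = (2 - (ζ x.1 + ζ x.2) * s) / s := by
    field_simp
  rw [h1, h2]
  by_cases h3 : 2 - (ζ x.1 + ζ x.2) * s = 0
  · rw [h3]; simp
  · field_simp

theorem norm_PsiC_le (hn : 1 ≤ n) (σ : Equiv.Perm (Fin n))
    (hc : ∀ j, c (σ j) = (starRingEnd ℂ) (c j)) (hζ : ∀ j, ζ (σ j) = (starRingEnd ℂ) (ζ j))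
    (hre : ∀ j, (ζ j).re < 0) {s : ℂ} (hs : s ≠ 0) (hs2 : 0 ≤ s.re) :
    ‖PsiC c ζ s‖ ≤ (‖s‖ ^ (2 * n - 1))⁻¹ * ∫ v in Set.Ioi (0 : ℝ), hR c ζ v ^ 2 := by
  rw [PsiC_eq_WC hn hs, norm_mul, norm_inv, norm_pow]
  refine mul_le_mul_of_nonneg_left (norm_WC_le σ hc hζ hre ?_) (by positivity)
  rw [Complex.div_re]
  simp only [Complex.re_ofNat, Complex.im_ofNat, zero_mul, zero_div, add_zero]
  exact div_nonneg (by positivity) (Complex.normSq_nonneg _)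

/-- `Ψ` on the positive axis. -/
theorem PR_eq (hn : 1 ≤ n) (σ : Equiv.Perm (Fin n))
    (hc : ∀ j, c (σ j) = (starRingEnd ℂ) (c j)) (hζ : ∀ j, ζ (σ j) = (starRingEnd ℂ) (ζ j))
    (hre : ∀ j, (ζ j).re < 0) {s : ℝ} (hs : 0 < s) :
    ((PR c ζ s : ℝ) : ℂ) = PsiC c ζ s ∧
    PR c ζ s = (s ^ (2 * n - 1))⁻¹ *
      ∫ v in Set.Ioi (0 : ℝ), hR c ζ v ^ 2 * Real.exp (-(2 / s * v)) := by
  have h1 : PsiC c ζ s = (((s ^ (2 * n - 1))⁻¹ *
      ∫ v in Set.Ioi (0 : ℝ), hR c ζ v ^ 2 * Real.exp (-(2 / s * v)) : ℝ) : ℂ) := by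
    rw [PsiC_eq_WC hn (by exact_mod_cast hs.ne')]
    push_cast
    congr 1
    have h2 := WC_real σ hc hζ hre (m := 2 / s) (by positivity)
    rw [h2]
    push_cast
    rfl
  unfold PR
  rw [h1]
  exact ⟨rfl, rfl⟩

/-! ### `q` -/

lemma re_add_lt (hre : ∀ j, (ζ j).re < 0) (x : Fin n × Fin n) : (ζ x.1 + ζ x.2).re < 0 := by
  rw [Complex.add_re]; linarith [hre x.1, hre x.2]

lemma add_ne (hre : ∀ j, (ζ j).re < 0) (i j : Fin n) : ζ i + ζ j ≠ 0 := fun h => by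
  have := re_add_lt hre (i, j)
  simp only [h, Complex.zero_re, lt_irrefl] at this

lemma re_pq (hre : ∀ j, (ζ j).re < 0) (x : Fin n × Fin n) : (pq ζ x).re < 0 := by
  unfold pq
  rw [Complex.div_re]
  simp only [Complex.re_ofNat, Complex.im_ofNat, zero_mul, zero_div, add_zero]
  have h1 := re_add_lt hre x
  have h2 : 0 < Complex.normSq (ζ x.1 + ζ x.2) := Complex.normSq_pos.2 (add_ne hre _ _)
  exact div_neg_of_neg_of_pos (by linarith) h2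

lemma two_sub_ne (hre : ∀ j, (ζ j).re < 0) {s : ℂ} (hs : s ≠ 0) (hs2 : 0 ≤ s.re) (i j : Fin n) :
    2 - (ζ i + ζ j) * s ≠ 0 := by
  intro h
  have h1 : ζ i + ζ j = 2 / s := by
    field_simp
    linear_combination -h
  have h2 := re_add_lt hre (i, j)
  simp only [h1] at h2
  rw [Complex.div_re] at h2
  simp only [Complex.re_ofNat, Complex.im_ofNat, zero_mul, zero_div, add_zero] at h2
  have : 0 ≤ 2 * s.re / Complex.normSq s := div_nonneg (by positivity) (Complex.normSq_nonneg _)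
  linarith

theorem sum_dq_div' (hn : 2 ≤ n) (hc0 : ∀ k, k + 2 ≤ n → ∑ j, c j * ζ j ^ k = 0)
    (hre : ∀ j, (ζ j).re < 0) {s : ℂ} (hs : s ≠ 0) (hs2 : 0 ≤ s.re) :
    ∑ x, dq c ζ x / (s - pq ζ x) = PsiC c ζ s :=
  sum_dq_div c ζ hn hc0 (add_ne hre) hs (two_sub_ne hre hs hs2)

lemma qR_ofReal (σ : Equiv.Perm (Fin n))
    (hc : ∀ j, c (σ j) = (starRingEnd ℂ) (c j)) (hζ : ∀ j, ζ (σ j) = (starRingEnd ℂ) (ζ j))
    (u : ℝ) : ((qR c ζ u : ℝ) : ℂ) = esum (dq c ζ) (pq ζ) u := by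
  refine esum_real (Equiv.prodCongr σ σ) ?_ ?_ u
  · intro x
    simp only [dq, Equiv.prodCongr_apply, Prod.map_fst, Prod.map_snd, hc, hζ, map_mul, map_neg,
      map_pow, map_div₀, map_add, map_one, Complex.conj_ofNat]
  · intro x
    simp only [pq, Equiv.prodCongr_apply, Prod.map_fst, Prod.map_snd, hζ, map_div₀, map_add,
      Complex.conj_ofNat]

/-- The Laplace transform of `q`. -/
theorem qR_laplace (hn : 2 ≤ n) (hc0 : ∀ k, k + 2 ≤ n → ∑ j, c j * ζ j ^ k = 0)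
    (σ : Equiv.Perm (Fin n))
    (hc : ∀ j, c (σ j) = (starRingEnd ℂ) (c j)) (hζ : ∀ j, ζ (σ j) = (starRingEnd ℂ) (ζ j))
    (hre : ∀ j, (ζ j).re < 0) {s : ℝ} (hs : 0 < s) :
    ∫ u in Set.Ioi (0 : ℝ), qR c ζ u * Real.exp (-(s * u)) = PR c ζ s := by
  have h1 : ((∫ u in Set.Ioi (0 : ℝ), qR c ζ u * Real.exp (-(s * u)) : ℝ) : ℂ) =
      PsiC c ζ s := by
    rw [← sum_dq_div' hn hc0 hre (s := s) (by exact_mod_cast hs.ne') (by simpa using hs.le),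
      ← (laplace_esum (d := dq c ζ) (p := pq ζ) (s := s) fun i => ?_).2,
      ← integral_complex_ofReal]
    · refine integral_congr_ae (Filter.Eventually.of_forall fun u => ?_)
      simp only
      push_cast
      rw [qR_ofReal σ hc hζ, neg_mul]
    · have := re_pq hre i
      simp only [Complex.ofReal_re]
      linarith
  unfold PR
  rw [← h1, Complex.ofReal_re]

/-- The bound for `q`. -/
theorem qR_le (hn : 2 ≤ n) (hc0 : ∀ k, k + 2 ≤ n → ∑ j, c j * ζ j ^ k = 0)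
    (σ : Equiv.Perm (Fin n))
    (hc : ∀ j, c (σ j) = (starRingEnd ℂ) (c j)) (hζ : ∀ j, ζ (σ j) = (starRingEnd ℂ) (ζ j))
    (hre : ∀ j, (ζ j).re < 0) (hI : Integrable fun τ : ℝ => PsiC c ζ (τ * Complex.I))
    {G : ℝ} (hG : (1 / (2 * π)) * ∫ τ : ℝ, ‖PsiC c ζ (τ * Complex.I)‖ ≤ G) {u : ℝ} (hu : 0 ≤ u) :
    |qR c ζ u| ≤ G := by
  have h1 : (fun τ : ℝ => ∑ i, dq c ζ i / (τ * Complex.I - pq ζ i)) =ᵐ[volume]
      fun τ : ℝ => PsiC c ζ (τ * Complex.I) := by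
    have : ∀ᵐ x : ℝ, x ≠ 0 := by simp [ae_iff, measure_singleton]
    filter_upwards [this] with τ hτ
    refine sum_dq_div' hn hc0 hre ?_ ?_
    · exact mul_ne_zero (by exact_mod_cast hτ) Complex.I_ne_zero
    · simp
  have h2 := norm_esum_le (re_pq hre) (sum_dq c ζ hn hc0) (hI.congr h1.symm) hu
  have h3 : ∫ τ : ℝ, ‖∑ i, dq c ζ i / (τ * Complex.I - pq ζ i)‖ =
      ∫ τ : ℝ, ‖PsiC c ζ (τ * Complex.I)‖ :=
    integral_congr_ae (h1.fun_comp (fun z => ‖z‖))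
  rw [h3] at h2
  refine le_trans ?_ (h2.trans hG)
  rw [← qR_ofReal σ hc hζ, Complex.norm_real, Real.norm_eq_abs]

end Pool.Agent.KL
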