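import Pool.Agent.Lib.KL.Formula
import Pool.Agent.Lib.KL.H
import Pool.Agent.Lib.KL.GBound

/-!
KL project: the concrete data `zt`, `cw` in the `Fin n` form, the formula (2.1) for `PsiC`, (2.3) for
`hR`, (2.5) and the bound `|q| ≤ 1` (helper94).
-/

open Complex Finset MeasureTheory
open scoped Real

namespace Pool.Agent.KL

theorem zF_conj {n : ℕ} (j : Fin n) :
    (fun j : Fin n => zt n j) (Fin.revPerm j) = (starRingEnd ℂ) ((fun j : Fin n => zt n j) j) := by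
  have h := zt_symm j.2
  have h2 : ((Fin.revPerm j : Fin n) : ℕ) = n - 1 - j := by
    rw [Fin.revPerm_apply, Fin.val_rev]
    omega
  simp only [h2, h]

theorem cF_conj {n : ℕ} (j : Fin n) :
    (fun j : Fin n => cw n j) (Fin.revPerm j) = (starRingEnd ℂ) ((fun j : Fin n => cw n j) j) := by
  have h := cw_symm j.2
  have h2 : ((Fin.revPerm j : Fin n) : ℕ) = n - 1 - j := by
    rw [Fin.revPerm_apply, Fin.val_rev]
    omega
  simp only [h2, h]

theorem zF_re {n : ℕ} (j : Fin n) : ((fun j : Fin n => zt n j) j).re < 0 := zt_re_neg j.2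

theorem cF_pow {n : ℕ} (k : ℕ) (hk : k + 2 ≤ n) :
    ∑ j : Fin n, (fun j : Fin n => cw n j) j * (fun j : Fin n => zt n j) j ^ k = 0 := by
  have h := sum_cw_pow hk
  rw [Finset.sum_range (fun j => cw n j * zt n j ^ k)] at h
  exact h

theorem sum_fin_sq {n : ℕ} (f : ℕ → ℕ → ℂ) :
    ∑ x : Fin n × Fin n, f x.1 x.2 = ∑ i ∈ range n, ∑ j ∈ range n, f i j := by
  rw [Fintype.sum_prod_type, Finset.sum_range]
  refine Finset.sum_congr rfl fun i _ => ?_
  rw [Finset.sum_range]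

/-- **(2.1)** for `PsiC`. -/
theorem PsiC_formula {n : ℕ} (hn : 0 < n) {s : ℂ} (hs : s ≠ 0) (hs1 : ‖s‖ < 1) :
    Integrable (fun t : ℝ => 1 / ∏ j : Fin n, ((1 - zt n j * s) ^ 2 + (t : ℂ) ^ 2)) ∧
    PsiC (fun j : Fin n => cw n j) (fun j : Fin n => zt n j) s =
      1 / (2 * π) * ∫ t : ℝ, 1 / ∏ j : Fin n, ((1 - zt n j * s) ^ 2 + (t : ℂ) ^ 2) := by
  have h := psi_formula hn hs hs1
  have hp : ∀ t : ℝ, ∏ j ∈ range n, ((1 - zt n j * s) ^ 2 + (t : ℂ) ^ 2) =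
      ∏ j : Fin n, ((1 - zt n j * s) ^ 2 + (t : ℂ) ^ 2) := by
    intro t
    rw [Finset.prod_range (fun j => ((1 - zt n j * s) ^ 2 + (t : ℂ) ^ 2))]
  simp only [hp] at h
  refine ⟨h.1, ?_⟩
  have hs2 : s ^ (2 * n - 2) ≠ 0 := pow_ne_zero _ hs
  have h3 : PsiC (fun j : Fin n => cw n j) (fun j : Fin n => zt n j) s =
      (s ^ (2 * n - 2))⁻¹ *
      ∑ i ∈ range n, ∑ j ∈ range n, cw n i * cw n j / (2 - (zt n i + zt n j) * s) := by
    rw [← sum_fin_sq (fun i j => cw n i * cw n j / (2 - (zt n i + zt n j) * s)), PsiC, mul_sum]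
    refine sum_congr rfl fun x _ => ?_
    ring
  rw [h3, h.2, ← mul_assoc, inv_mul_cancel₀ hs2, one_mul]

/-- `W(0)` for the concrete data. -/
theorem WC_zero_eq {n : ℕ} (hn : 0 < n) (he : Even n) :
    WC (fun j : Fin n => cw n j) (fun j : Fin n => zt n j) 0 =
      ((1 / (2 * π) * ∫ t : ℝ, 1 / (1 + t ^ (2 * n)) : ℝ) : ℂ) := by
  rw [← (W_zero hn he).2, ← sum_fin_sq (fun i j => cw n i * cw n j / (-zt n i - zt n j)), WC]
  refine sum_congr rfl fun x _ => ?_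
  congr 1
  ring

/-- **(2.3)** for `hR`. -/
theorem hR_sq_le {n : ℕ} (hn : 0 < n) (he : Even n) :
    0 < ∫ v in Set.Ioi (0 : ℝ), hR (fun j : Fin n => cw n j) (fun j : Fin n => zt n j) v ^ 2 ∧
    ∫ v in Set.Ioi (0 : ℝ), hR (fun j : Fin n => cw n j) (fun j : Fin n => zt n j) v ^ 2 ≤ 1 := by
  have h1 := WC_zero (c := fun j : Fin n => cw n j) (ζ := fun j : Fin n => zt n j) Fin.revPerm
    cF_conj zF_conj zF_re
  rw [WC_zero_eq hn he] at h1
  rw [Complex.ofReal_inj.1 h1]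
  exact integral_W_zero_le hn he

/-- The bound of `Psi` on the middle part of the imaginary axis. -/
theorem PsiC_im_le_one {n : ℕ} (hn : 2 ≤ n) (he : Even n) (τ : ℝ) (hτ : τ ^ (2 * n) ≤ 1 / 2) :
    ‖PsiC (fun j : Fin n => cw n j) (fun j : Fin n => zt n j) (τ * I)‖ ≤ 1 := by
  rcases eq_or_ne τ 0 with rfl | h0
  · have : PsiC (fun j : Fin n => cw n j) (fun j : Fin n => zt n j) (((0 : ℝ) : ℂ) * I) = 0 := by
      rw [PsiC]
      refine sum_eq_zero fun x _ => ?_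
      rw [Complex.ofReal_zero, zero_mul, zero_pow (by omega), inv_zero, mul_zero, zero_div]
    rw [this, norm_zero]
    exact zero_le_one
  have hn0 : 0 < n := by omega
  have hlt : |τ| < 1 := by
    by_contra h
    have h1 : (1 : ℝ) ≤ |τ| ^ (2 * n) := one_le_pow₀ (not_lt.1 h)
    rw [(even_two_mul n).pow_abs] at h1
    linarith
  have hs : (τ : ℂ) * I ≠ 0 := mul_ne_zero (by exact_mod_cast h0) Complex.I_ne_zero
  have hs1 : ‖(τ : ℂ) * I‖ < 1 := by
    rw [norm_mul, Complex.norm_I, mul_one, Complex.norm_real, Real.norm_eq_abs]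
    exact hlt
  rw [(PsiC_formula hn0 hs hs1).2, norm_mul]
  have hb : ∀ t : ℝ, ‖1 / ∏ j : Fin n, ((1 - zt n j * (τ * I)) ^ 2 + (t : ℂ) ^ 2)‖ ≤
      2 * (1 + t ^ 2)⁻¹ := by
    intro t
    have h1 := le_norm_prod_im hn0 he τ t
    rw [Finset.prod_range (fun j => ((1 - zt n j * (I * τ)) ^ 2 + (t : ℂ) ^ 2)),
      mul_comm I (τ : ℂ)] at h1
    have h2 : (1 : ℝ) + t ^ 2 ≤ (1 + t ^ 2) ^ n := by
      calc (1 : ℝ) + t ^ 2 = (1 + t ^ 2) ^ 1 := (pow_one _).symm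
        _ ≤ (1 + t ^ 2) ^ n := pow_le_pow_right₀ (by nlinarith [sq_nonneg t]) (by omega)
    have h3 : (1 + t ^ 2) / 2 ≤
        ‖∏ j : Fin n, ((1 - zt n j * (τ * I)) ^ 2 + (t : ℂ) ^ 2)‖ := by
      have : (1 : ℝ) ≤ 1 + t ^ 2 := by nlinarith [sq_nonneg t]
      linarith
    rw [norm_div, norm_one, one_div]
    refine (inv_anti₀ (by positivity) h3).trans (le_of_eq ?_)
    rw [inv_div, div_eq_mul_inv]
  have hI : ‖∫ t : ℝ, 1 / ∏ j : Fin n, ((1 - zt n j * (τ * I)) ^ 2 + (t : ℂ) ^ 2)‖ ≤ 2 * π := by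
    refine (norm_integral_le_of_norm_le (integrable_inv_one_add_sq.const_mul 2)
      (Filter.Eventually.of_forall hb)).trans (le_of_eq ?_)
    rw [integral_const_mul, integral_univ_inv_one_add_sq]
  have h5 : ‖(1 / (2 * π) : ℂ)‖ = 1 / (2 * π) := by
    rw [show (1 / (2 * π) : ℂ) = ((1 / (2 * π) : ℝ) : ℂ) by push_cast; rfl, Complex.norm_real,
      Real.norm_of_nonneg (by positivity)]
  rw [h5, one_div, inv_mul_le_iff₀ (by positivity), mul_one]
  exact hI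

/-- **(2.5)** -/
theorem PsiC_im_integral {n : ℕ} (hn : 2 ≤ n) (he : Even n) :
    Integrable (fun τ : ℝ => PsiC (fun j : Fin n => cw n j) (fun j : Fin n => zt n j) (τ * I)) ∧
    (1 / (2 * π)) *
      ∫ τ : ℝ, ‖PsiC (fun j : Fin n => cw n j) (fun j : Fin n => zt n j) (τ * I)‖ ≤ 1 := by
  refine g_bound hn ?_ (PsiC_im_le_one hn he) ?_
  · have : Measurable (fun τ : ℝ =>
        PsiC (fun j : Fin n => cw n j) (fun j : Fin n => zt n j) (τ * I)) := by
      unfold PsiC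
      fun_prop
    exact this.aestronglyMeasurable
  · intro τ hτ
    have hs : (τ : ℂ) * I ≠ 0 := mul_ne_zero (by exact_mod_cast hτ) Complex.I_ne_zero
    have h1 := norm_PsiC_le (c := fun j : Fin n => cw n j) (ζ := fun j : Fin n => zt n j)
      (by omega) Fin.revPerm cF_conj zF_conj zF_re hs (by simp)
    have h2 : ‖(τ : ℂ) * I‖ = |τ| := by
      rw [norm_mul, Complex.norm_I, mul_one, Complex.norm_real, Real.norm_eq_abs]
    rw [h2] at h1
    refine h1.trans ?_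
    have h3 := (hR_sq_le (n := n) (by omega) he).2
    have h4 : 0 ≤ (|τ| ^ (2 * n - 1))⁻¹ := by positivity
    calc (|τ| ^ (2 * n - 1))⁻¹ *
        ∫ v in Set.Ioi (0 : ℝ), hR (fun j : Fin n => cw n j) (fun j : Fin n => zt n j) v ^ 2 ≤
        (|τ| ^ (2 * n - 1))⁻¹ * 1 := mul_le_mul_of_nonneg_left h3 h4
      _ = _ := mul_one _

/-- **(3.3)** -/
theorem qR_abs_le {n : ℕ} (hn : 2 ≤ n) (he : Even n) {u : ℝ} (hu : 0 ≤ u) :
    |qR (fun j : Fin n => cw n j) (fun j : Fin n => zt n j) u| ≤ 1 :=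
  qR_le hn cF_pow Fin.revPerm cF_conj zF_conj zF_re (PsiC_im_integral hn he).1
    (PsiC_im_integral hn he).2 hu

end Pool.Agent.KL
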