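import Pool.Agent.Lib.KL.H
import Pool.Agent.Lib.KL.Formula
import Pool.Agent.Lib.KL.Imag
import Pool.Agent.Lib.KL.Pos
import Pool.Agent.Lib.KL.Real
import Pool.Agent.Lib.KL.Sn
import Pool.Agent.Lib.KL.LP
import Pool.Agent.Lib.KL.Limit

/-!
KL project: assembly (helper35).
-/

open MeasureTheory Filter Topology
open scoped Real
open Pool.Agent.Lib.MP_ef2672_gt_Tauber

namespace Pool.Agent.KL

noncomputable section

/-- The roots, indexed by `Fin n`. -/
def zf (n : ℕ) (j : Fin n) : ℂ := zt n j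

/-- The weights, indexed by `Fin n`. -/
def cf (n : ℕ) (j : Fin n) : ℂ := cw n j

lemma zf_rev {n : ℕ} (j : Fin n) : zf n (Fin.rev j) = (starRingEnd ℂ) (zf n j) := by
  unfold zf
  rw [← zt_symm j.2]
  congr 1
  rw [Fin.val_rev]
  omega

lemma cf_rev {n : ℕ} (j : Fin n) : cf n (Fin.rev j) = (starRingEnd ℂ) (cf n j) := by
  unfold cf
  rw [← cw_symm j.2]
  congr 1
  rw [Fin.val_rev]
  omega

lemma zf_re {n : ℕ} (j : Fin n) : (zf n j).re < 0 := zt_re_neg j.2

lemma zf_norm {n : ℕ} (j : Fin n) : ‖zf n j‖ = 1 := norm_zt n j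

lemma sum_cf_pow {n : ℕ} (k : ℕ) (hk : k + 2 ≤ n) : ∑ j, cf n j * zf n j ^ k = 0 := by
  have h := sum_cw_pow hk
  rw [Finset.sum_range] at h
  exact h

lemma SS_zf {n : ℕ} (hn : 0 < n) : SS (zf n) = 1 / Real.sin (π / (2 * n)) := by
  rw [← sum_cos_psi hn, Finset.sum_range]
  unfold SS zf
  refine Finset.sum_congr rfl fun j _ => ?_
  rw [zt_re, neg_neg]

lemma SS_zf_le (n : ℕ) : SS (zf n) ≤ n := by
  unfold SS
  calc ∑ j : Fin n, -(zf n j).re ≤ ∑ _j : Fin n, (1 : ℝ) := by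
        refine Finset.sum_le_sum fun j _ => ?_
        have h1 := Complex.abs_re_le_norm (zf n j)
        rw [zf_norm] at h1
        linarith [(abs_le.1 h1).1]
    _ = n := by simp

lemma SS_zf_nonneg (n : ℕ) : 0 ≤ SS (zf n) := by
  unfold SS
  refine Finset.sum_nonneg fun j _ => ?_
  linarith [zf_re j]

/-- (2.1) for `PsiC`. -/
lemma PsiC_int {n : ℕ} (hn : 0 < n) {s : ℂ} (hs : s ≠ 0) (hs1 : ‖s‖ < 1) :
    PsiC (cf n) (zf n) s =
      1 / (2 * π) * ∫ t : ℝ, 1 / ∏ j : Fin n, ((1 - zf n j * s) ^ 2 + (t : ℂ) ^ 2) := by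
  have h := (psi_formula hn hs hs1).2
  simp only [Finset.sum_range, Finset.prod_range] at h
  have h1 : PsiC (cf n) (zf n) s =
      (s ^ (2 * n - 2))⁻¹ * ∑ i : Fin n, ∑ j : Fin n,
        cw n i * cw n j / (2 - (zt n i + zt n j) * s) := by
    unfold PsiC cf zf
    rw [Fintype.sum_prod_type, Finset.mul_sum]
    refine Finset.sum_congr rfl fun i _ => ?_
    rw [Finset.mul_sum]
    refine Finset.sum_congr rfl fun j _ => ?_
    simp only
    ring
  rw [h1, h, ← mul_assoc, inv_mul_cancel₀ (pow_ne_zero _ hs), one_mul]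
  rfl

/-- `Ψ` on `(0, 1)` is a real integral. -/
lemma PR_int {n : ℕ} (hn : 0 < n) (he : Even n) {s : ℝ} (hs : 0 < s) (hs1 : s < 1) :
    PR (cf n) (zf n) s = 1 / (2 * π) * ∫ t : ℝ, 1 / RR (zf n) s t := by
  have h1 := (PR_eq (c := cf n) (ζ := zf n) hn Fin.revPerm (fun j => cf_rev j)
    (fun j => zf_rev j) (fun j => zf_re j) hs).1
  rw [PsiC_int hn (by exact_mod_cast hs.ne') (by
    rw [Complex.norm_real, Real.norm_of_nonneg hs.le]; exact hs1),
    psi_real he (fun j => zf_rev j)] at h1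
  have h2 : ((PR (cf n) (zf n) s : ℝ) : ℂ) =
      ((1 / (2 * π) * ∫ t : ℝ, 1 / RR (zf n) s t : ℝ) : ℂ) := by
    rw [h1]
    push_cast
    rfl
  exact_mod_cast h2

/-- The lower bound for `Ψ`. -/
lemma PR_lower {n : ℕ} (hn : 0 < n) (he : Even n) {s : ℝ} (hs : 0 < s) (hs1 : s < 1) :
    1 / (3 * π * √n) * Real.exp (-(2 * s * SS (zf n) + n * s ^ 2)) ≤ PR (cf n) (zf n) s := by
  rw [PR_int hn he hs hs1]
  have h1 := psi_lower (ζ := zf n) zf_norm (fun j => (zf_re j).le) hs.le hs1.le hn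
  have h2 := psi_zero (n := n) hn
  have hsq : 0 < √(n : ℝ) := Real.sqrt_pos.2 (by exact_mod_cast hn)
  have h3 : 1 / (3 * π * √n) * Real.exp (-(2 * s * SS (zf n) + n * s ^ 2)) =
      1 / (2 * π) * (Real.exp (-(2 * s * SS (zf n) + n * s ^ 2)) * (2 / (3 * √n))) := by
    field_simp
  rw [h3]
  refine mul_le_mul_of_nonneg_left ?_ (by positivity)
  refine le_trans ?_ h1
  exact mul_le_mul_of_nonneg_left h2 (Real.exp_pos _).le

/-- The upper bound for `Ψ`. -/
lemma PR_upper {n : ℕ} (hn : 0 < n) (he : Even n) {s : ℝ} (hs : 0 < s) (hs1 : s < 1)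
    (hS : 2 * s * SS (zf n) ≤ n - 1) :
    PR (cf n) (zf n) s ≤ 1 / 2 * Real.exp (-(2 * s * SS (zf n)) + 3 * n * s ^ 2) := by
  rw [PR_int hn he hs hs1]
  have h1 := psi_upper (ζ := zf n) zf_norm (fun j => (zf_re j).le) hs.le hs1.le hn hS
  calc 1 / (2 * π) * ∫ t : ℝ, 1 / RR (zf n) s t ≤
      1 / (2 * π) * (π * Real.exp (-(2 * s * SS (zf n)) + 3 * n * s ^ 2)) :=
        mul_le_mul_of_nonneg_left h1 (by positivity)
    _ = _ := by field_simp

/-- The integral of `h²` is at most one. -/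
lemma hR_le_one {n : ℕ} (hn : 0 < n) (he : Even n) :
    ∫ v in Set.Ioi (0 : ℝ), hR (cf n) (zf n) v ^ 2 ≤ 1 := by
  have h1 := WC_zero (c := cf n) (ζ := zf n) Fin.revPerm (fun j => cf_rev j)
    (fun j => zf_rev j) (fun j => zf_re j)
  have h2 := (W_zero hn he).2
  have h3 := (integral_W_zero_le hn he).2
  simp only [Finset.sum_range] at h2
  have h4 : WC (cf n) (zf n) 0 = ((1 / (2 * π) * ∫ t : ℝ, 1 / (1 + t ^ (2 * n)) : ℝ) : ℂ) := by
    rw [← h2]
    unfold WC cf zf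
    rw [Fintype.sum_prod_type]
    refine Finset.sum_congr rfl fun i _ => Finset.sum_congr rfl fun j _ => ?_
    simp only
    congr 1
    ring
  rw [h4] at h1
  have h5 : ∫ v in Set.Ioi (0 : ℝ), hR (cf n) (zf n) v ^ 2 =
      1 / (2 * π) * ∫ t : ℝ, 1 / (1 + t ^ (2 * n)) := by exact_mod_cast h1
  rw [h5]
  exact h3

/-- The input of the section on positive definite functions. -/
def PosKey (n : ℕ) : Prop :=
  ∀ {h S : ℝ → ℝ} {ε : ℝ}, 0 < ε → Measurable h →
    IntegrableOn (fun v => h v ^ 2) (Set.Ioi 0) →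
    ContinuousOn S (Set.Ioi 0) → IntegrableOn S (Set.Ioi 0) → (∃ C, ∀ u > 0, |S u| ≤ C) →
    (∀ l > 0, ∫ u in Set.Ioi (0 : ℝ), S u * Real.exp (-(l * u)) =
      ((l + 3 * ε) ^ (2 * n - 1))⁻¹ *
        (∫ v in Set.Ioi (0 : ℝ), h v ^ 2 * Real.exp (-(2 / (l + 3 * ε) * v))) *
        (2 * ε / (l + 2 * ε) - ε / 2 / (l + ε))) →
    ∃ F : (Fin (4 * n) → ℝ) → ℝ, PosDef F ∧ Integrable F ∧
      (∀ z, z ≠ 0 → (∑ i, z i ^ 2) ^ (2 * n - 1) * F z =
        (2 * n - 1).factorial * S (∑ i, z i ^ 2)) ∧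
      F 0 = 3 * ε / 2 * ∫ v in Set.Ioi (0 : ℝ), h v ^ 2 ∧
      ∫ z, F z = π ^ (2 * n) * ∫ u in Set.Ioi (0 : ℝ), S u

set_option maxHeartbeats 4000000 in
theorem key_bound {n : ℕ} (hn : 10 ≤ n) (he : Even n)
    (hq1 : ∀ u, 0 ≤ u → |qR (cf n) (zf n) u| ≤ 1) (hpos : PosKey n) :
    gamma (4 * n) ≤ (2 / Real.sin (π / (2 * n)) + 23 * √n * (1 + Real.log n)) *
      (9 * π * Real.exp 9 * (n : ℝ) ^ 0 * Real.exp (6 * √n) / π ^ (2 * n)) ^ ((2 : ℝ) / (4 * n)) := by
  have hn0 : 0 < n := by omega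
  have hnR : (10 : ℝ) ≤ n := by exact_mod_cast hn
  have hsq : 0 < √(n : ℝ) := Real.sqrt_pos.2 (by linarith)
  have hsqsq : √(n : ℝ) * √(n : ℝ) = n := Real.mul_self_sqrt (by linarith)
  have hsq3 : 3 < √(n : ℝ) := by
    rw [Real.lt_sqrt (by norm_num)]; linarith
  set e : ℝ := 1 / √(n : ℝ) with hedef
  have he0 : 0 < e := by positivity
  have he3 : e < 1 / 3 := by
    rw [hedef]
    exact one_div_lt_one_div_of_lt (by norm_num) hsq3
  have hne : (n : ℝ) * e ^ 2 = 1 := by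
    rw [hedef, div_pow, one_pow, Real.sq_sqrt (by linarith)]
    field_simp
  have hen : e * n = √(n : ℝ) := by
    rw [hedef]
    field_simp
    rw [sq, hsqsq]
  set S0 := SS (zf n) with hS0def
  have hS0 : 0 ≤ S0 := SS_zf_nonneg n
  have hS0n : S0 ≤ n := SS_zf_le n
  have heS : e * S0 ≤ √(n : ℝ) := by
    rw [← hen]; exact mul_le_mul_of_nonneg_left hS0n he0.le
  set q := qR (cf n) (zf n) with hqdef
  set P := PR (cf n) (zf n) with hPdef
  have hq : Continuous q := continuous_qR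
  have hP : ∀ s, 0 < s → ∫ u in Set.Ioi (0 : ℝ), q u * Real.exp (-(s * u)) = P s := fun s hs =>
    qR_laplace (by omega) sum_cf_pow Fin.revPerm (fun j => cf_rev j) (fun j => zf_rev j)
      (fun j => zf_re j) hs
  obtain ⟨hSc, hSi, hSb, hSL, hS3⟩ := sn_key he0 hq hq1 hP
  -- bounds for `P`
  have h1 : P e ≤ 1 / 2 * Real.exp (-(2 * e * S0) + 5) := by
    refine (PR_upper hn0 he he0 (by linarith) ?_).trans ?_
    · have : 2 * e * S0 ≤ 2 * √(n : ℝ) := by nlinarith
      nlinarith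
    · refine mul_le_mul_of_nonneg_left (Real.exp_le_exp.2 ?_) (by norm_num)
      nlinarith
  have hPl : ∀ k : ℝ, 0 < k → k ≤ 3 →
      1 / (3 * π * √n) * Real.exp (-(2 * k * (e * S0) + k ^ 2)) ≤ P (k * e) := by
    intro k hk0 hk3
    have h := PR_lower hn0 he (s := k * e) (by positivity) (by nlinarith)
    have h2 : -(2 * (k * e) * SS (zf n) + n * (k * e) ^ 2) = -(2 * k * (e * S0) + k ^ 2) := by
      rw [← hS0def]
      linear_combination (-k ^ 2) * hne
    rw [h2] at h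
    exact h
  have h2 : 1 / (10 * n) * Real.exp (-(4 * e * S0) - 12) ≤ P (2 * e) := by
    refine le_trans ?_ (hPl 2 (by norm_num) (by norm_num))
    refine mul_le_mul ?_ (Real.exp_le_exp.2 (by linarith)) (Real.exp_pos _).le (by positivity)
    refine one_div_le_one_div_of_le (by positivity) ?_
    have hpi : π < 3.15 := Real.pi_lt_d2
    nlinarith
  have hneg := sn_neg (q := q) (P := P) (e := e) (S0 := S0) (c := 10) (n := n) (by omega) hedef
    (by norm_num) hS0 hq hq1 hP h1 h2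
  -- the positive definite function
  obtain ⟨F, hF, hFi, hFS, hF0, hFI⟩ := hpos (h := hR (cf n) (zf n)) (S := SnF q e) he0
    continuous_hR.measurable
    (hR_sq_integrable Fin.revPerm (fun j => cf_rev j) (fun j => zf_rev j) (fun j => zf_re j))
    hSc.continuousOn hSi hSb (by
      intro l hl
      rw [hSL l (le_of_lt hl)]
      congr 1
      exact (PR_eq (c := cf n) (ζ := zf n) hn0 Fin.revPerm (fun j => cf_rev j)
        (fun j => zf_rev j) (fun j => zf_re j) (by positivity)).2)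
  have hP3 := hPl 3 (by norm_num) le_rfl
  have hP3pos : 0 < P (3 * e) := lt_of_lt_of_le (by positivity) hP3
  have hlog : 0 ≤ Real.log n := Real.log_nonneg (by linarith)
  set R : ℝ := 2 * S0 + √(n : ℝ) * (20 + Real.log (10 * n)) with hRdef
  have hlog10 : 0 ≤ Real.log (10 * n) := Real.log_nonneg (by linarith)
  have hRpos : 0 < R := by
    rw [hRdef]
    have : 0 < √(n : ℝ) * (20 + Real.log (10 * n)) := by positivity
    linarith
  have hFpos : 0 < ∫ z, F z := by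
    rw [hFI, hS3]
    positivity
  have hlp := lp (N := 4 * n) (by omega) hF hFi hFpos hRpos (by
    intro z hz
    have hzpos : 0 < ∑ i, z i ^ 2 := lt_of_lt_of_le hRpos hz
    have hz0 : z ≠ 0 := by
      rintro rfl
      simp at hzpos
    have h3 := hFS z hz0
    have h4 : SnF q e (∑ i, z i ^ 2) ≤ 0 := hneg _ hz
    have h5 : (∑ i, z i ^ 2) ^ (2 * n - 1) * F z ≤ 0 := by
      rw [h3]
      exact mul_nonpos_of_nonneg_of_nonpos (by positivity) h4
    by_contra h6
    push Not at h6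
    have h7 : 0 < (∑ i, z i ^ 2) ^ (2 * n - 1) * F z := by positivity
    linarith)
  -- numbers
  refine hlp.trans ?_
  have hcast : ((2 : ℝ) / ((4 * n : ℕ) : ℝ)) = 2 / (4 * n) := by push_cast; rfl
  rw [hcast]
  have hRle : R ≤ 2 / Real.sin (π / (2 * n)) + 23 * √n * (1 + Real.log n) := by
    have h3 : 2 * S0 = 2 / Real.sin (π / (2 * n)) := by
      rw [hS0def, SS_zf hn0]; ring
    have h4 : Real.log (10 * n) = Real.log 10 + Real.log n :=
      Real.log_mul (by norm_num) (by linarith)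
    have h5 : Real.log 10 ≤ 3 := by
      rw [Real.log_le_iff_le_exp (by norm_num)]
      have h6 : (2.7182818283 : ℝ) < Real.exp 1 := Real.exp_one_gt_d9
      have h7 : Real.exp 3 = Real.exp 1 ^ 3 := by rw [← Real.exp_nat_mul]; norm_num
      rw [h7]
      have : (2.7182818283 : ℝ) ^ 3 < Real.exp 1 ^ 3 := pow_lt_pow_left₀ h6 (by norm_num) (by norm_num)
      norm_num at this ⊢
      linarith
    rw [hRdef, h3, h4]
    have h6 : √(n : ℝ) * (20 + (Real.log 10 + Real.log n)) ≤ 23 * √n * (1 + Real.log n) := by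
      nlinarith [mul_nonneg hsq.le hlog]
    linarith
  have hQle : F 0 / ∫ z, F z ≤
      9 * π * Real.exp 9 * (n : ℝ) ^ 0 * Real.exp (6 * √n) / π ^ (2 * n) := by
    rw [hF0, hFI, hS3]
    have hh := hR_le_one hn0 he
    have hpipow : 0 < π ^ (2 * n) := by positivity
    rw [div_le_div_iff₀ (by positivity) hpipow, pow_zero, mul_one]
    have h3 : Real.exp (-(2 * 3 * (e * S0) + 3 ^ 2)) * (Real.exp 9 * Real.exp (6 * √n)) ≥ 1 := by
      rw [← Real.exp_add, ← Real.exp_add]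
      refine Real.one_le_exp ?_
      nlinarith
    have h4 : 3 * e / 2 * (∫ v in Set.Ioi (0 : ℝ), hR (cf n) (zf n) v ^ 2) ≤ 3 * e / 2 := by
      have : 0 ≤ 3 * e / 2 := by positivity
      nlinarith
    have h5 : 3 * e / 2 ≤ 9 * π * Real.exp 9 * Real.exp (6 * √n) * (P (3 * e) / 2) := by
      have h6 : 1 / (3 * π * √n) * (Real.exp (-(2 * 3 * (e * S0) + 3 ^ 2)) *
          (Real.exp 9 * Real.exp (6 * √n))) ≤ P (3 * e) * (Real.exp 9 * Real.exp (6 * √n)) := by
        rw [← mul_assoc]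
        exact mul_le_mul_of_nonneg_right hP3 (by positivity)
      have h7 : 1 / (3 * π * √n) * 1 ≤ 1 / (3 * π * √n) *
          (Real.exp (-(2 * 3 * (e * S0) + 3 ^ 2)) * (Real.exp 9 * Real.exp (6 * √n))) :=
        mul_le_mul_of_nonneg_left h3 (by positivity)
      have h8 : 3 * e / 2 = 9 * π / 2 * (1 / (3 * π * √n) * 1) := by
        rw [hedef]
        field_simp
        norm_num
      rw [h8]
      have h9 : 9 * π * Real.exp 9 * Real.exp (6 * √n) * (P (3 * e) / 2) =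
          9 * π / 2 * (P (3 * e) * (Real.exp 9 * Real.exp (6 * √n))) := by ring
      rw [h9]
      exact mul_le_mul_of_nonneg_left (h7.trans h6) (by positivity)
    calc 3 * e / 2 * (∫ v in Set.Ioi (0 : ℝ), hR (cf n) (zf n) v ^ 2) * π ^ (2 * n) ≤
        9 * π * Real.exp 9 * Real.exp (6 * √n) * (P (3 * e) / 2) * π ^ (2 * n) :=
          mul_le_mul_of_nonneg_right (h4.trans h5) hpipow.le
      _ = _ := by ring
  have hF0nn : 0 ≤ F 0 / ∫ z, F z := by
    refine div_nonneg ?_ hFpos.le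
    rw [hF0]
    refine mul_nonneg (by positivity) ?_
    exact integral_nonneg fun v => sq_nonneg _
  refine mul_le_mul hRle (Real.rpow_le_rpow hF0nn hQle (by positivity))
    (Real.rpow_nonneg hF0nn _) (le_trans hRpos.le hRle)

theorem posKey {n : ℕ} (hn : 1 ≤ n) : PosKey n := by
  intro h S ε hε hh hi hS hSi hSb hL
  exact pos_key_fin hn hε hh hi hS hSi hSb hL

theorem main_gamma {n : ℕ} (hn : 10 ≤ n) (he : Even n) :
    gamma (4 * n) ≤ (2 / Real.sin (π / (2 * n)) + 23 * √n * (1 + Real.log n)) *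
      (9 * π * Real.exp 9 * (n : ℝ) ^ 0 * Real.exp (6 * √n) / π ^ (2 * n)) ^ ((2 : ℝ) / (4 * n)) :=
  key_bound hn he (fun _ hu => qR_abs_le (by omega) he hu) (posKey (by omega))

/-- **The upper bound**: `limsup γ_n / n ≤ 1 / π²`. -/
theorem main_limsup :
    limsup c atTop ≤ 1 / π ^ 2 ∧ ∀ δ : ℝ, 0 < δ → ∀ᶠ d : ℕ in atTop, c d ≤ 1 / π ^ 2 + δ :=
  final (A := 23) (B := 9 * π * Real.exp 9) (C := 0) (D := 6) (n0 := 10) (by positivity)
    fun _ hn he => main_gamma hn he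

end

end Pool.Agent.KL
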