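import Pool.Agent.Lib.KL.PackLP

/-!
Packings of `ℝᵈ` by congruent balls: the linear programming bound from a function on `ℝ^(d+k)`.
-/

set_option autoImplicit false

namespace Pool.Agent.Lib.KL.Pack

open MeasureTheory Filter Topology Metric

/-- The isometry of `ℝᵈ × ℝᵏ` with `ℝᴺ`. -/
noncomputable def phi {d k N : ℕ} (hN : N = d + k) :
    WithLp 2 (EuclideanSpace ℝ (Fin d) × EuclideanSpace ℝ (Fin k)) ≃ₗᵢ[ℝ]
      EuclideanSpace ℝ (Fin N) :=
  ((stdOrthonormalBasis ℝ
    (WithLp 2 (EuclideanSpace ℝ (Fin d) × EuclideanSpace ℝ (Fin k)))).reindex (finCongr (by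
      rw [(WithLp.linearEquiv 2 ℝ _).finrank_eq, Module.finrank_prod, finrank_euclideanSpace_fin,
        finrank_euclideanSpace_fin, hN]))).repr

/-- The measure preserving additive map `ℝᵈ × ℝᵏ → ℝᴺ`. -/
noncomputable def Phi {d k N : ℕ} (hN : N = d + k)
    (p : EuclideanSpace ℝ (Fin d) × (Fin k → ℝ)) : EuclideanSpace ℝ (Fin N) :=
  phi hN (WithLp.toLp 2 (p.1, WithLp.toLp 2 p.2))

theorem Phi_sub {d k N : ℕ} (hN : N = d + k) (p q : EuclideanSpace ℝ (Fin d) × (Fin k → ℝ)) :
    Phi hN (p - q) = Phi hN p - Phi hN q := by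
  unfold Phi
  rw [← map_sub]
  rfl

theorem Phi_zero {d k N : ℕ} (hN : N = d + k) : Phi hN (0 : EuclideanSpace ℝ (Fin d) ×
    (Fin k → ℝ)) = 0 := by
  have := Phi_sub hN (0 : EuclideanSpace ℝ (Fin d) × (Fin k → ℝ)) 0
  simpa using this

theorem Phi_norm_sq {d k N : ℕ} (hN : N = d + k) (p : EuclideanSpace ℝ (Fin d) × (Fin k → ℝ)) :
    ‖Phi hN p‖ ^ 2 = ‖p.1‖ ^ 2 + ∑ i, p.2 i ^ 2 := by
  unfold Phi
  rw [LinearIsometryEquiv.norm_map, WithLp.prod_norm_sq_eq_of_L2]
  change ‖p.1‖ ^ 2 + ‖(WithLp.toLp 2 p.2 : EuclideanSpace ℝ (Fin k))‖ ^ 2 = _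
  rw [EuclideanSpace.norm_sq_eq (WithLp.toLp 2 p.2 : EuclideanSpace ℝ (Fin k))]
  simp

theorem Phi_mp {d k N : ℕ} (hN : N = d + k) : MeasurePreserving (Phi (d := d) (k := k) hN) := by
  have h1 := (phi (d := d) (k := k) hN).measurePreserving
  have h2 := WithLp.volume_preserving_toLp (EuclideanSpace ℝ (Fin d)) (EuclideanSpace ℝ (Fin k))
  have h3 := (MeasurePreserving.id (volume : Measure (EuclideanSpace ℝ (Fin d)))).prod
    (PiLp.volume_preserving_toLp (Fin k))
  exact (h1.comp h2).comp h3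

/-- Separated sets are locally finite. -/
theorem finite_inter {d : ℕ} {C : Set (EuclideanSpace ℝ (Fin d))} {s : ℝ} (hs : 0 < s)
    (hC : ∀ x ∈ C, ∀ y ∈ C, x ≠ y → s ≤ dist x y) (R : ℝ) : (C ∩ ball 0 R).Finite := by
  have h1 : 0 < volume (ball (0 : EuclideanSpace ℝ (Fin d)) (s / 2)) :=
    measure_ball_pos _ _ (by positivity)
  have h2 := Measure.finite_const_le_meas_of_disjoint_iUnion
    (volume : Measure (EuclideanSpace ℝ (Fin d))) h1
    (As := fun x : ↥(C ∩ ball 0 R) => ball (x : EuclideanSpace ℝ (Fin d)) (s / 2))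
    (fun x => measurableSet_ball) (fun x y hxy => by
      refine ball_disjoint_ball ?_
      have := hC x x.2.1 y y.2.1 (fun h => hxy (Subtype.ext h))
      linarith)
    (by
      refine ((measure_mono ?_).trans_lt
        (measure_ball_lt_top (x := (0 : EuclideanSpace ℝ (Fin d))) (r := R + s))).ne
      refine Set.iUnion_subset fun x => ?_
      intro z hz
      have hx := x.2.2
      rw [mem_ball] at hx hz ⊢
      calc dist z 0 ≤ dist z x + dist (x : EuclideanSpace ℝ (Fin d)) 0 := dist_triangle _ _ _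
        _ < R + s := by linarith)
  have h3 : {x : ↥(C ∩ ball 0 R) | volume (ball (0 : EuclideanSpace ℝ (Fin d)) (s / 2)) ≤
      volume (ball (x : EuclideanSpace ℝ (Fin d)) (s / 2))} = Set.univ := by
    ext x
    refine ⟨fun _ => Set.mem_univ _, fun _ => ?_⟩
    exact (Measure.addHaar_ball_center volume (x : EuclideanSpace ℝ (Fin d)) (s / 2)).ge
  rw [h3, Set.finite_univ_iff] at h2
  exact Set.toFinite _

/-- The volume of a ball. -/
theorem real_ball {d : ℕ} (x : EuclideanSpace ℝ (Fin d)) {R : ℝ} (hR : 0 < R) :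
    volume.real (ball x R) = R ^ d * volume.real (ball (0 : EuclideanSpace ℝ (Fin d)) 1) := by
  rw [measureReal_def, Measure.addHaar_ball_of_pos _ _ hR, finrank_euclideanSpace_fin,
    ENNReal.toReal_mul, ENNReal.toReal_ofReal (by positivity)]
  rfl

/-- The volume of a cube. -/
theorem real_box (k : ℕ) {a b : ℝ} (hab : a ≤ b) :
    volume.real (Set.Icc (fun _ : Fin k => a) (fun _ => b)) = (b - a) ^ k := by
  rw [measureReal_def, Real.volume_Icc_pi_toReal (fun _ => hab)]
  simp

theorem prod_neg (d k : ℕ) :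
    (volume : Measure (EuclideanSpace ℝ (Fin d) × (Fin k → ℝ))).IsNegInvariant := by
  have h := (Measure.measurePreserving_neg (volume : Measure (EuclideanSpace ℝ (Fin d)))).prod
    (Measure.measurePreserving_neg (volume : Measure (Fin k → ℝ)))
  exact ⟨h.map_eq⟩

theorem prod_haar (d k : ℕ) :
    (volume : Measure (EuclideanSpace ℝ (Fin d) × (Fin k → ℝ))).IsAddHaarMeasure :=
  Measure.prod.instIsAddHaarMeasure _ _

/-- The inequality for a finite piece of a separated set times a finite piece of a cubic lattice. -/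
theorem step {d k N : ℕ} (hN : N = d + k) (ν : Measure (EuclideanSpace ℝ (Fin N)))
    [IsFiniteMeasure ν] {F : EuclideanSpace ℝ (Fin N) → ℝ}
    (hF : ∀ z, F z = ∫ w, Real.cos (inner ℝ w z) ∂ν) (hi : Integrable F) (hpos : 0 < ∫ z, F z)
    {s : ℝ} (hs : 0 < s) (hneg : ∀ z, s ≤ ‖z‖ → F z ≤ 0) {C : Set (EuclideanSpace ℝ (Fin d))}
    (hC : ∀ x ∈ C, ∀ y ∈ C, x ≠ y → s ≤ dist x y) {R T : ℝ} (hR : 0 < R) (hT : 0 < T) {M : ℕ}
    (hM : 0 < M) :
    ((C ∩ ball 0 R).ncard * (M : ℝ) ^ k) /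
      ((R + T) ^ d * volume.real (ball (0 : EuclideanSpace ℝ (Fin d)) 1) * (M * s + 2 * T) ^ k) *
      ((∫ z, F z) - 3 * (∫ z in (ball (0 : EuclideanSpace ℝ (Fin N)) T)ᶜ, |F z|) -
      (1 - (R ^ d * volume.real (ball (0 : EuclideanSpace ℝ (Fin d)) 1) * (M * s) ^ k) /
        ((R + T) ^ d * volume.real (ball (0 : EuclideanSpace ℝ (Fin d)) 1) *
        (M * s + 2 * T) ^ k)) * ∫ z, |F z|) ≤ F 0 := by
  classical
  have hfin := finite_inter hs hC R
  set v := volume.real (ball (0 : EuclideanSpace ℝ (Fin d)) 1) with hv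
  have hv0 : 0 < v := by
    rw [hv, measureReal_def]
    exact ENNReal.toReal_pos (measure_ball_pos _ _ one_pos).ne' measure_ball_lt_top.ne
  have hmp := Phi_mp (d := d) (k := k) hN
  set Y : Finset ℝ := (Finset.range M).image fun j : ℕ => (j : ℝ) * s with hY
  set X : Finset (EuclideanSpace ℝ (Fin d) × (Fin k → ℝ)) :=
    hfin.toFinset ×ˢ Fintype.piFinset (fun _ : Fin k => Y) with hX
  set K : Set (EuclideanSpace ℝ (Fin d) × (Fin k → ℝ)) :=
    ball 0 R ×ˢ Set.Icc (fun _ => 0) (fun _ => M * s) with hK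
  set D : Set (EuclideanSpace ℝ (Fin d) × (Fin k → ℝ)) :=
    ball 0 (R + T) ×ˢ Set.Icc (fun _ => -T) (fun _ => M * s + T) with hD
  set B : Set (EuclideanSpace ℝ (Fin d) × (Fin k → ℝ)) :=
    (Phi hN) ⁻¹' (ball 0 T) with hB
  have hM0 : (0 : ℝ) < M := by exact_mod_cast hM
  have hKv : volume.real K = R ^ d * v * (M * s) ^ k := by
    rw [hK, Measure.volume_eq_prod, measureReal_prod_prod, real_ball _ hR,
      real_box k (by positivity), sub_zero]
  have hDv : volume.real D = (R + T) ^ d * v * (M * s + 2 * T) ^ k := by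
    have h0 : 0 ≤ (M : ℝ) * s := by positivity
    rw [hD, Measure.volume_eq_prod, measureReal_prod_prod, real_ball _ (by positivity),
      real_box k (by linarith)]
    congr 2
    ring
  have hcard : (X.card : ℝ) = (C ∩ ball 0 R).ncard * (M : ℝ) ^ k := by
    rw [hX, Finset.card_product, Fintype.card_piFinset, Set.ncard_eq_toFinset_card _ hfin]
    have : Y.card = M := by
      rw [hY, Finset.card_image_of_injective, Finset.card_range]
      intro i j hij
      have := mul_right_cancel₀ hs.ne' hij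
      exact_mod_cast this
    simp [this]
  have hmem : ∀ x ∈ X, x.1 ∈ C ∧ x.1 ∈ ball (0 : EuclideanSpace ℝ (Fin d)) R ∧
      ∀ i, ∃ j : ℕ, j < M ∧ x.2 i = j * s := by
    intro x hx
    rw [hX, Finset.mem_product, Set.Finite.mem_toFinset, Fintype.mem_piFinset] at hx
    refine ⟨hx.1.1, hx.1.2, fun i => ?_⟩
    have := hx.2 i
    rw [hY, Finset.mem_image] at this
    obtain ⟨j, hj, e⟩ := this
    exact ⟨j, Finset.mem_range.1 hj, e.symm⟩
  have hDt : volume D ≠ ⊤ := by
    intro h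
    have : volume.real D = 0 := by rw [measureReal_def, h]; simp
    rw [hDv] at this
    have : 0 < (R + T) ^ d * v * (M * s + 2 * T) ^ k := by positivity
    linarith
  have hint : ∀ f : EuclideanSpace ℝ (Fin N) → ℝ, AEStronglyMeasurable f volume →
      ∫ z, f (Phi hN z) = ∫ z : EuclideanSpace ℝ (Fin N), f z := by
    intro f hf
    have h1 := integral_map (μ := (volume : Measure (EuclideanSpace ℝ (Fin d) × (Fin k → ℝ))))
      (φ := Phi hN) hmp.measurable.aemeasurable (f := f) (by rw [hmp.map_eq]; exact hf)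
    rw [hmp.map_eq] at h1
    exact h1.symm
  have hKD : K ⊆ D := by
    rw [hK, hD]
    refine Set.prod_mono (ball_subset_ball (by linarith)) (Set.Icc_subset_Icc ?_ ?_)
    · intro i; simp only; linarith
    · intro i; simp only; linarith
  have hXK : ∀ x ∈ X, x ∈ K := by
    intro x hx
    obtain ⟨-, h2, h3⟩ := hmem x hx
    refine ⟨h2, fun i => ?_, fun i => ?_⟩
    · obtain ⟨j, -, e⟩ := h3 i
      simp only [e]
      positivity
    · obtain ⟨j, hj, e⟩ := h3 i
      simp only [e]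
      exact mul_le_mul_of_nonneg_right (by exact_mod_cast hj.le) hs.le
  have hBD : ∀ x ∈ K, ∀ z ∈ B, x - z ∈ D := by
    intro x hx z hz
    rw [hB, Set.mem_preimage, mem_ball_zero_iff] at hz
    have h1 := Phi_norm_sq hN z
    have h2 : ‖z.1‖ ^ 2 + ∑ i, z.2 i ^ 2 ≤ T ^ 2 := by
      rw [← h1]
      exact pow_le_pow_left₀ (norm_nonneg _) hz.le 2
    have h3 : ‖z.1‖ ≤ T := by
      refine abs_le_of_sq_le_sq' ?_ hT.le |>.2
      have : 0 ≤ ∑ i, z.2 i ^ 2 := Finset.sum_nonneg fun i _ => sq_nonneg _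
      linarith
    have h4 : ∀ i, |z.2 i| ≤ T := by
      intro i
      refine abs_le_of_sq_le_sq ?_ hT.le
      have : z.2 i ^ 2 ≤ ∑ i, z.2 i ^ 2 :=
        Finset.single_le_sum (f := fun i => z.2 i ^ 2) (fun i _ => sq_nonneg _) (Finset.mem_univ i)
      have := sq_nonneg ‖z.1‖
      linarith
    refine ⟨?_, fun i => ?_, fun i => ?_⟩
    · have hx1 : ‖x.1‖ < R := mem_ball_zero_iff.1 hx.1
      rw [mem_ball_zero_iff]
      calc ‖(x - z).1‖ ≤ ‖x.1‖ + ‖z.1‖ := norm_sub_le _ _
        _ < R + T := by linarith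
    · have := hx.2.1 i
      have h5 := abs_le.1 (h4 i)
      simp only [Prod.snd_sub, Pi.sub_apply] at this ⊢
      linarith [h5.2]
    · have := hx.2.2 i
      have h5 := abs_le.1 (h4 i)
      simp only [Prod.snd_sub, Pi.sub_apply] at this ⊢
      linarith [h5.1]
  have hsign : ∀ x ∈ X, ∀ y ∈ X, x ≠ y → F (Phi hN (x - y)) ≤ 0 := by
    intro x hx y hy hxy
    apply hneg
    refine abs_le_of_sq_le_sq' ?_ (norm_nonneg _) |>.2
    rw [Phi_norm_sq]
    obtain ⟨hx1, -, hx3⟩ := hmem x hx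
    obtain ⟨hy1, -, hy3⟩ := hmem y hy
    by_cases h : x.1 = y.1
    · have h2 : x.2 ≠ y.2 := fun h2 => hxy (Prod.ext h h2)
      obtain ⟨i, hi⟩ := Function.ne_iff.1 h2
      obtain ⟨a, -, ea⟩ := hx3 i
      obtain ⟨b, -, eb⟩ := hy3 i
      have hab : (a : ℤ) - b ≠ 0 := by
        intro h0
        apply hi
        rw [ea, eb]
        have : (a : ℤ) = b := by linarith
        have : a = b := by exact_mod_cast this
        rw [this]
      have h3 : (1 : ℝ) ≤ ((a : ℝ) - b) ^ 2 := by
        have : (1 : ℤ) ≤ ((a : ℤ) - b) ^ 2 := by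
          have := sq_pos_of_ne_zero hab
          linarith
        exact_mod_cast this
      have h4 : (x - y).2 i ^ 2 ≤ ∑ i, (x - y).2 i ^ 2 :=
        Finset.single_le_sum (f := fun i => (x - y).2 i ^ 2) (fun i _ => sq_nonneg _)
          (Finset.mem_univ i)
      have h5 : (x - y).2 i ^ 2 = ((a : ℝ) - b) ^ 2 * s ^ 2 := by
        simp only [Prod.snd_sub, Pi.sub_apply, ea, eb]
        ring
      have h6 : s ^ 2 ≤ ((a : ℝ) - b) ^ 2 * s ^ 2 := le_mul_of_one_le_left (sq_nonneg _) h3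
      have := sq_nonneg ‖(x - y).1‖
      linarith
    · have h1 := hC x.1 hx1 y.1 hy1 h
      rw [dist_eq_norm] at h1
      have h2 : s ^ 2 ≤ ‖(x - y).1‖ ^ 2 := pow_le_pow_left₀ hs.le h1 2
      have : 0 ≤ ∑ i, (x - y).2 i ^ 2 := Finset.sum_nonneg fun i _ => sq_nonneg _
      linarith
  have := prod_haar d k
  have := prod_neg d k
  have key := lp_general ν (fun w z => inner ℝ w (Phi hN z))
    (by
      have h1 : Measurable fun q : EuclideanSpace ℝ (Fin N) ×
          (EuclideanSpace ℝ (Fin d) × (Fin k → ℝ)) => Phi hN q.2 :=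
        hmp.measurable.comp measurable_snd
      exact measurable_fst.inner h1)
    (fun w x y => by rw [Phi_sub, inner_sub_right])
    (volume : Measure (EuclideanSpace ℝ (Fin d) × (Fin k → ℝ)))
    (g := fun z => F (Phi hN z)) (fun z => hF _) (hmp.integrable_comp_of_integrable hi)
    (by rw [hint F hi.aestronglyMeasurable]; exact hpos.le)
    X (K := K) (D := D) (B := B) (measurableSet_ball.prod measurableSet_Icc)
    (measurableSet_ball.prod measurableSet_Icc) hDt
    (by rw [hDv]; positivity) hKD hXK hBD hsign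
  rw [hcard, hKv, hDv, hint F hi.aestronglyMeasurable,
    hint (fun z => |F z|) hi.abs.aestronglyMeasurable, Phi_zero] at key
  have htail : ∫ z in Bᶜ, |F (Phi hN z)| =
      ∫ z in (ball (0 : EuclideanSpace ℝ (Fin N)) T)ᶜ, |F z| := by
    rw [← integral_indicator measurableSet_ball.compl,
      ← integral_indicator (hmp.measurable measurableSet_ball).compl,
      ← hint _ (hi.abs.indicator measurableSet_ball.compl).aestronglyMeasurable]
    rfl
  rw [htail] at key
  exact key

end Pool.Agent.Lib.KL.Pack
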