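import Mathlib

/-!
The linear programming inequality for a cosine transform of a finite measure on characters, without
Poisson summation.
-/

set_option autoImplicit false

namespace Pool.Agent.Lib.KL.Pack

open MeasureTheory Filter Topology

variable {Ω V : Type*} [MeasurableSpace Ω] [MeasurableSpace V] [AddCommGroup V]

/-- Fubini for the sesquilinear form of a cosine transform. -/
theorem bform (ν : Measure Ω) [IsFiniteMeasure ν] (L : Ω → V → ℝ)
    (hL : Measurable (Function.uncurry L)) (hadd : ∀ ω x y, L ω (x - y) = L ω x - L ω y)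
    (μ₁ μ₂ : Measure V) [IsFiniteMeasure μ₁] [IsFiniteMeasure μ₂] :
    ∫ ω, ((∫ x, Real.cos (L ω x) ∂μ₁) * (∫ y, Real.cos (L ω y) ∂μ₂) +
      (∫ x, Real.sin (L ω x) ∂μ₁) * (∫ y, Real.sin (L ω y) ∂μ₂)) ∂ν =
    ∫ x, ∫ y, (∫ ω, Real.cos (L ω (x - y)) ∂ν) ∂μ₂ ∂μ₁ := by
  have hm : Measurable fun q : Ω × (V × V) => Real.cos (L q.1 (q.2.1 - q.2.2)) := by
    have h1 : Measurable fun q : Ω × (V × V) => L q.1 q.2.1 :=
      hL.comp (measurable_fst.prodMk (measurable_fst.comp measurable_snd))
    have h2 : Measurable fun q : Ω × (V × V) => L q.1 q.2.2 :=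
      hL.comp (measurable_fst.prodMk (measurable_snd.comp measurable_snd))
    have h3 : (fun q : Ω × (V × V) => Real.cos (L q.1 (q.2.1 - q.2.2))) =
        fun q => Real.cos (L q.1 q.2.1 - L q.1 q.2.2) := by
      funext q; rw [hadd]
    rw [h3]
    exact Real.measurable_cos.comp (h1.sub h2)
  have hint : Integrable (Function.uncurry fun (ω : Ω) (p : V × V) =>
      Real.cos (L ω (p.1 - p.2))) (ν.prod (μ₁.prod μ₂)) := by
    refine Integrable.of_bound hm.aestronglyMeasurable 1 (ae_of_all _ fun q => ?_)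
    exact Real.abs_cos_le_one (L q.1 (q.2.1 - q.2.2))
  have h1 : ∀ ω, ∫ p : V × V, Real.cos (L ω (p.1 - p.2)) ∂(μ₁.prod μ₂) =
      (∫ x, Real.cos (L ω x) ∂μ₁) * (∫ y, Real.cos (L ω y) ∂μ₂) +
      (∫ x, Real.sin (L ω x) ∂μ₁) * (∫ y, Real.sin (L ω y) ∂μ₂) := by
    intro ω
    have hLω : Measurable (L ω) := hL.of_uncurry_left
    have hc : ∀ μ : Measure V, IsFiniteMeasure μ → Integrable (fun x => Real.cos (L ω x)) μ := by
      intro μ hμ
      refine Integrable.of_bound (Real.measurable_cos.comp hLω).aestronglyMeasurable 1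
        (ae_of_all _ fun q => ?_)
      simpa [Real.norm_eq_abs] using Real.abs_cos_le_one _
    have hs : ∀ μ : Measure V, IsFiniteMeasure μ → Integrable (fun x => Real.sin (L ω x)) μ := by
      intro μ hμ
      refine Integrable.of_bound (Real.measurable_sin.comp hLω).aestronglyMeasurable 1
        (ae_of_all _ fun q => ?_)
      simpa [Real.norm_eq_abs] using Real.abs_sin_le_one _
    have h2 : ∀ p : V × V, Real.cos (L ω (p.1 - p.2)) =
        Real.cos (L ω p.1) * Real.cos (L ω p.2) + Real.sin (L ω p.1) * Real.sin (L ω p.2) := by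
      intro p
      rw [hadd, Real.cos_sub]
    simp only [h2]
    rw [integral_add]
    · rw [integral_prod_mul (fun x => Real.cos (L ω x)) (fun x => Real.cos (L ω x)),
        integral_prod_mul (fun x => Real.sin (L ω x)) (fun x => Real.sin (L ω x))]
    · exact (hc μ₁ inferInstance).mul_prod (hc μ₂ inferInstance)
    · exact (hs μ₁ inferInstance).mul_prod (hs μ₂ inferInstance)
  simp only [← h1]
  rw [integral_integral_swap hint]
  have hint2 : Integrable (fun p : V × V => ∫ ω, Real.cos (L ω (p.1 - p.2)) ∂ν)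
      (μ₁.prod μ₂) := by
    have := hint.swap.integral_prod_left
    simpa using this
  rw [integral_prod _ hint2]

/-- The quadratic form of a cosine transform at `Σ_x δ_x - c 1_D` is nonnegative. -/
theorem quad_nonneg (ν : Measure Ω) [IsFiniteMeasure ν] (L : Ω → V → ℝ)
    (hL : Measurable (Function.uncurry L)) (hadd : ∀ ω x y, L ω (x - y) = L ω x - L ω y)
    (μ₁ μ₂ : Measure V) [IsFiniteMeasure μ₁] [IsFiniteMeasure μ₂] (c : ℝ)
    (g : V → ℝ) (hg : ∀ z, g z = ∫ ω, Real.cos (L ω z) ∂ν) :
    0 ≤ (∫ x, ∫ y, g (x - y) ∂μ₁ ∂μ₁) - 2 * c * (∫ x, ∫ y, g (x - y) ∂μ₂ ∂μ₁) +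
      c ^ 2 * ∫ x, ∫ y, g (x - y) ∂μ₂ ∂μ₂ := by
  simp only [hg]
  rw [← bform ν L hL hadd μ₁ μ₁, ← bform ν L hL hadd μ₁ μ₂, ← bform ν L hL hadd μ₂ μ₂]
  have hI : ∀ (f : ℝ → ℝ) (hf : Measurable f) (hb : ∀ x, |f x| ≤ 1) (f' : ℝ → ℝ)
      (hf' : Measurable f') (hb' : ∀ x, |f' x| ≤ 1) (μ μ' : Measure V) (_ : IsFiniteMeasure μ)
      (_ : IsFiniteMeasure μ'),
      Integrable (fun ω => (∫ x, f (L ω x) ∂μ) * ∫ x, f' (L ω x) ∂μ') ν := by
    intro f hf hb f' hf' hb' μ μ' _ _
    have key : ∀ (f : ℝ → ℝ) (hf : Measurable f) (hb : ∀ x, |f x| ≤ 1) (μ : Measure V)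
        (_ : IsFiniteMeasure μ), StronglyMeasurable (fun ω => ∫ x, f (L ω x) ∂μ) ∧
        ∀ ω, ‖∫ x, f (L ω x) ∂μ‖ ≤ μ.real Set.univ := by
      intro f hf hb μ _
      refine ⟨?_, fun ω => ?_⟩
      · have h1 : StronglyMeasurable (Function.uncurry fun (ω : Ω) (x : V) => f (L ω x)) :=
          (hf.comp hL).stronglyMeasurable
        exact h1.integral_prod_right
      · refine (norm_integral_le_of_norm_le_const (C := 1) (ae_of_all _ fun x => ?_)).trans ?_
        · simpa [Real.norm_eq_abs] using hb _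
        · simp
    obtain ⟨m1, b1⟩ := key f hf hb μ inferInstance
    obtain ⟨m2, b2⟩ := key f' hf' hb' μ' inferInstance
    refine Integrable.of_bound (m1.mul m2).aestronglyMeasurable
      (μ.real Set.univ * μ'.real Set.univ) (ae_of_all _ fun ω => ?_)
    rw [norm_mul]
    exact mul_le_mul (b1 ω) (b2 ω) (norm_nonneg _) measureReal_nonneg
  have hc := hI Real.cos Real.measurable_cos Real.abs_cos_le_one Real.cos Real.measurable_cos
    Real.abs_cos_le_one
  have hs := hI Real.sin Real.measurable_sin Real.abs_sin_le_one Real.sin Real.measurable_sin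
    Real.abs_sin_le_one
  rw [← integral_const_mul, ← integral_const_mul, ← integral_sub, ← integral_add]
  · refine integral_nonneg fun ω => ?_
    simp only [Pi.zero_apply]
    nlinarith [sq_nonneg ((∫ x, Real.cos (L ω x) ∂μ₁) - c * ∫ x, Real.cos (L ω x) ∂μ₂),
      sq_nonneg ((∫ x, Real.sin (L ω x) ∂μ₁) - c * ∫ x, Real.sin (L ω x) ∂μ₂)]
  · refine Integrable.sub ?_ ?_
    · exact (hc _ _ inferInstance inferInstance).add (hs _ _ inferInstance inferInstance)
    · exact ((hc _ _ inferInstance inferInstance).add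
        (hs _ _ inferInstance inferInstance)).const_mul _
  · exact ((hc _ _ inferInstance inferInstance).add
        (hs _ _ inferInstance inferInstance)).const_mul _
  · exact (hc _ _ inferInstance inferInstance).add (hs _ _ inferInstance inferInstance)
  · exact ((hc _ _ inferInstance inferInstance).add
        (hs _ _ inferInstance inferInstance)).const_mul _

variable [MeasurableAdd V] [MeasurableNeg V]

/-- The mean of `g (x - ·)` over `D`, up to the tail. -/
theorem mean_close (μ : Measure V) [μ.IsAddLeftInvariant] [μ.IsNegInvariant] {g : V → ℝ}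
    (hg : Integrable g μ) {D B : Set V} (hD : MeasurableSet D) {x : V}
    (hx : ∀ z ∈ B, x - z ∈ D) :
    |(∫ y in D, g (x - y) ∂μ) - ∫ z, g z ∂μ| ≤ ∫ z in Bᶜ, |g z| ∂μ := by
  have hpre : MeasurableSet ((fun z => x - z) ⁻¹' D) := by
    simp only [sub_eq_add_neg]
    exact (measurable_neg.const_add x) hD
  have h1 : ∫ y in D, g (x - y) ∂μ = ∫ z in (fun z => x - z) ⁻¹' D, g z ∂μ := by
    rw [← integral_indicator hD, ← integral_indicator hpre,
      ← integral_sub_left_eq_self (fun y => D.indicator (fun y => g (x - y)) y) μ x]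
    refine integral_congr_ae (ae_of_all _ fun z => ?_)
    simp only [Set.indicator, sub_sub_cancel]
    rfl
  have h2 := integral_add_compl hpre hg
  rw [h1]
  have h3 : (∫ z in (fun z => x - z) ⁻¹' D, g z ∂μ) - ∫ z, g z ∂μ =
      -∫ z in ((fun z => x - z) ⁻¹' D)ᶜ, g z ∂μ := by linarith
  rw [h3, abs_neg]
  refine (abs_integral_le_integral_abs).trans ?_
  refine setIntegral_mono_set hg.abs.integrableOn (ae_of_all _ fun z => abs_nonneg _) ?_
  refine LE.le.eventuallyLE fun z hz => ?_
  simp only [Set.mem_compl_iff, Set.mem_preimage] at hz ⊢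
  exact fun hzB => hz (hx z hzB)

theorem mean_le (μ : Measure V) [μ.IsAddLeftInvariant] [μ.IsNegInvariant] {g : V → ℝ}
    (hg : Integrable g μ) (D : Set V) (x : V) :
    (∫ y in D, g (x - y) ∂μ) ≤ ∫ z, |g z| ∂μ := by
  have hi : Integrable (fun y => g (x - y)) μ := hg.comp_sub_left x
  calc (∫ y in D, g (x - y) ∂μ) ≤ ∫ y in D, |g (x - y)| ∂μ :=
        setIntegral_mono hi.integrableOn hi.abs.integrableOn fun y => le_abs_self _
    _ ≤ ∫ y, |g (x - y)| ∂μ := setIntegral_le_integral hi.abs (ae_of_all _ fun y => abs_nonneg _)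
    _ = ∫ z, |g z| ∂μ := integral_sub_left_eq_self (fun z => |g z|) μ x

/-- **The linear programming inequality for finite sets of points.** -/
theorem lp_general [MeasurableSingletonClass V] (ν : Measure Ω) [IsFiniteMeasure ν] (L : Ω → V → ℝ)
    (hL : Measurable (Function.uncurry L)) (hadd : ∀ ω x y, L ω (x - y) = L ω x - L ω y)
    (μ : Measure V) [SigmaFinite μ] [μ.IsAddLeftInvariant] [μ.IsNegInvariant] {g : V → ℝ}
    (hgν : ∀ z, g z = ∫ ω, Real.cos (L ω z) ∂ν) (hg : Integrable g μ) (hI : 0 ≤ ∫ z, g z ∂μ)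
    (X : Finset V) {K D B : Set V} (hK : MeasurableSet K) (hD : MeasurableSet D)
    (hDt : μ D ≠ ⊤) (hD0 : 0 < μ.real D) (hKD : K ⊆ D) (hXK : ∀ x ∈ X, x ∈ K)
    (hx : ∀ x ∈ K, ∀ z ∈ B, x - z ∈ D) (hs : ∀ x ∈ X, ∀ y ∈ X, x ≠ y → g (x - y) ≤ 0) :
    (X.card : ℝ) / μ.real D * ((∫ z, g z ∂μ) - 3 * (∫ z in Bᶜ, |g z| ∂μ) -
      (1 - μ.real K / μ.real D) * ∫ z, |g z| ∂μ) ≤ g 0 := by
  classical
  set I := ∫ z, g z ∂μ with hIdef
  set T := ∫ z in Bᶜ, |g z| ∂μ with hTdef
  set A := ∫ z, |g z| ∂μ with hAdef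
  set d := μ.real D with hddef
  set k := μ.real K with hkdef
  have hKt : μ K ≠ ⊤ := ((measure_mono hKD).trans_lt (lt_top_iff_ne_top.2 hDt)).ne
  have hkd : k ≤ d := measureReal_mono hKD hDt
  have hk0 : 0 ≤ k := measureReal_nonneg
  have hT0 : 0 ≤ T := integral_nonneg fun z => abs_nonneg _
  have hA0 : 0 ≤ A := integral_nonneg fun z => abs_nonneg _
  have : IsFiniteMeasure (μ.restrict D) := ⟨by
    rw [Measure.restrict_apply_univ]; exact lt_top_iff_ne_top.2 hDt⟩
  have : IsFiniteMeasure (μ.restrict K) := ⟨by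
    rw [Measure.restrict_apply_univ]; exact lt_top_iff_ne_top.2 hKt⟩
  have hg0 : 0 ≤ g 0 := by
    rw [hgν]
    have h0 : ∀ ω, L ω 0 = 0 := fun ω => by
      have := hadd ω 0 0
      simpa using this
    simp only [h0, Real.cos_zero]
    rw [integral_const]
    simp
  set n : ℝ := (X.card : ℝ) with hndef
  have hn0 : 0 ≤ n := Nat.cast_nonneg _
  set σ : Measure V := ∑ x ∈ X, Measure.dirac x with hσ
  have : IsFiniteMeasure σ := by
    rw [hσ]; infer_instance
  have hmg : Measurable g := by
    have h1 : StronglyMeasurable (Function.uncurry fun (z : V) (ω : Ω) => Real.cos (L ω z)) :=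
      (Real.measurable_cos.comp (hL.comp measurable_swap)).stronglyMeasurable
    have h2 := h1.integral_prod_right (ν := ν)
    have h3 : g = fun z => ∫ ω, Real.cos (L ω z) ∂ν := funext hgν
    rw [h3]
    exact h2.measurable
  have hbg : ∀ z, |g z| ≤ ν.real Set.univ := fun z => by
    rw [hgν]
    have := norm_integral_le_of_norm_le_const (μ := ν) (f := fun ω => Real.cos (L ω z)) (C := 1)
      (ae_of_all _ fun ω => by simpa [Real.norm_eq_abs] using Real.abs_cos_le_one _)
    simpa [Real.norm_eq_abs] using this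
  have hquad := quad_nonneg ν L hL hadd σ (μ.restrict D) (n / d) g hgν
  have hsum : ∀ f : V → ℝ, ∫ x, f x ∂σ = ∑ x ∈ X, f x := by
    intro f
    rw [hσ, integral_finsetSum_measure]
    · refine Finset.sum_congr rfl fun x _ => ?_
      rw [integral_dirac]
    · intro x _
      exact integrable_dirac (by simp)
  have hT1 : (∫ x, ∫ y, g (x - y) ∂σ ∂σ) ≤ n * g 0 := by
    rw [hsum]
    have h1 : ∀ x ∈ X, (∫ y, g (x - y) ∂σ) ≤ g 0 := by
      intro x hxX
      rw [hsum]
      calc ∑ y ∈ X, g (x - y) ≤ ∑ y ∈ X, (if y = x then g 0 else 0) := by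
            refine Finset.sum_le_sum fun y hy => ?_
            split_ifs with h
            · rw [h, sub_self]
            · exact hs x hxX y hy (Ne.symm h)
        _ = g 0 := by rw [Finset.sum_ite_eq' X x]; simp [hxX]
    calc ∑ x ∈ X, ∫ y, g (x - y) ∂σ ≤ ∑ x ∈ X, g 0 := Finset.sum_le_sum h1
      _ = n * g 0 := by rw [Finset.sum_const, nsmul_eq_mul]
  have hT2 : n * (I - T) ≤ ∫ x, ∫ y, g (x - y) ∂(μ.restrict D) ∂σ := by
    rw [hsum]
    calc n * (I - T) = ∑ x ∈ X, (I - T) := by rw [Finset.sum_const, nsmul_eq_mul]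
      _ ≤ _ := by
        refine Finset.sum_le_sum fun x hxX => ?_
        have := mean_close μ hg hD (hx x (hXK x hxX))
        rw [abs_le] at this
        linarith [this.1]
  have hT3 : (∫ x, ∫ y, g (x - y) ∂(μ.restrict D) ∂(μ.restrict D)) ≤
      k * (I + T) + (d - k) * A := by
    have hmj : StronglyMeasurable (Function.uncurry fun (x y : V) => g (x - y)) := by
      have h3 : (Function.uncurry fun (x y : V) => g (x - y)) =
          fun q : V × V => ∫ ω, Real.cos (L ω q.1 - L ω q.2) ∂ν := by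
        funext q
        simp only [Function.uncurry, hgν, hadd]
      rw [h3]
      have h1 : StronglyMeasurable (Function.uncurry fun (q : V × V) (ω : Ω) =>
          Real.cos (L ω q.1 - L ω q.2)) := by
        refine Measurable.stronglyMeasurable (Real.measurable_cos.comp ?_)
        refine Measurable.sub ?_ ?_
        · exact hL.comp (measurable_snd.prodMk (measurable_fst.comp measurable_fst))
        · exact hL.comp (measurable_snd.prodMk (measurable_snd.comp measurable_fst))
      exact h1.integral_prod_right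
    have hms : StronglyMeasurable fun x => ∫ y, g (x - y) ∂(μ.restrict D) :=
      hmj.integral_prod_right
    have hbd : ∀ x, ‖∫ y, g (x - y) ∂(μ.restrict D)‖ ≤ ν.real Set.univ * (μ.restrict D).real
        Set.univ := fun x =>
      norm_integral_le_of_norm_le_const (ae_of_all _ fun y => hbg (x - y))
    have hi : Integrable (fun x => ∫ y, g (x - y) ∂(μ.restrict D)) (μ.restrict D) :=
      Integrable.of_bound hms.aestronglyMeasurable _ (ae_of_all _ hbd)
    have hpt : ∀ x ∈ D, (∫ y, g (x - y) ∂(μ.restrict D)) ≤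
        K.indicator (fun _ => I + T) x + (D \ K).indicator (fun _ => A) x := by
      intro x hxD
      by_cases hxK : x ∈ K
      · have := mean_close μ hg hD (hx x hxK)
        rw [abs_le] at this
        rw [Set.indicator_of_mem hxK, Set.indicator_of_notMem (by simp [hxK])]
        linarith [this.2]
      · rw [Set.indicator_of_notMem hxK, Set.indicator_of_mem (show x ∈ D \ K from ⟨hxD, hxK⟩),
          zero_add]
        exact mean_le μ hg D x
    have hi2 : Integrable (fun x => K.indicator (fun _ => I + T) x +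
        (D \ K).indicator (fun _ => A) x) (μ.restrict D) :=
      ((integrable_const _).indicator hK).add ((integrable_const _).indicator (hD.diff hK))
    calc (∫ x, ∫ y, g (x - y) ∂(μ.restrict D) ∂(μ.restrict D)) ≤
          ∫ x in D, (K.indicator (fun _ => I + T) x + (D \ K).indicator (fun _ => A) x) ∂μ :=
          setIntegral_mono_on hi hi2 hD hpt
      _ = k * (I + T) + (d - k) * A := by
        rw [integral_add ((integrable_const _).indicator hK)
          ((integrable_const _).indicator (hD.diff hK)), integral_indicator hK,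
          integral_indicator (hD.diff hK), Measure.restrict_restrict hK,
          Measure.restrict_restrict (hD.diff hK), setIntegral_const, setIntegral_const,
          Set.inter_eq_left.2 hKD, Set.inter_eq_left.2 Set.sdiff_subset, smul_eq_mul, smul_eq_mul,
          measureReal_sdiff hKD hK hDt]
  rcases hn0.eq_or_lt with h0 | hpos
  · rw [← h0]; simpa using hg0
  have hc : 0 ≤ n / d := div_nonneg hn0 hD0.le
  have h4 : 0 ≤ n * g 0 - 2 * (n / d) * (n * (I - T)) +
      (n / d) ^ 2 * (k * (I + T) + (d - k) * A) := by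
    have e1 : 2 * (n / d) * (n * (I - T)) ≤
        2 * (n / d) * ∫ x, ∫ y, g (x - y) ∂(μ.restrict D) ∂σ :=
      mul_le_mul_of_nonneg_left hT2 (by positivity)
    have e2 := mul_le_mul_of_nonneg_left hT3 (sq_nonneg (n / d))
    linarith
  have h5 : k * (I + T) ≤ d * (I + T) := mul_le_mul_of_nonneg_right hkd (by linarith)
  have h6 : (n / d) ^ 2 * (k * (I + T) + (d - k) * A) ≤
      (n / d) ^ 2 * (d * (I + T) + (d - k) * A) :=
    mul_le_mul_of_nonneg_left (by linarith) (sq_nonneg _)
  have h7 : n * (n / d * (I - 3 * T - (1 - k / d) * A)) ≤ n * g 0 := by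
    have e : n * (n / d * (I - 3 * T - (1 - k / d) * A)) = 2 * (n / d) * (n * (I - T)) -
        (n / d) ^ 2 * (d * (I + T) + (d - k) * A) := by
      field_simp
      ring
    rw [e]
    linarith
  exact le_of_mul_le_mul_left h7 hpos

end Pool.Agent.Lib.KL.Pack
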