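import Pool.Agent.Lib.KL.Pack

/-!
The density of a packing of `ℝᵈ` by congruent balls: the limit form of the linear programming bound.
-/

set_option autoImplicit false

namespace Pool.Agent.Lib.KL.Pack

open MeasureTheory Filter Topology Metric

/-- The tail of an integrable function tends to zero. -/
theorem tendsto_tail {N : ℕ} {F : EuclideanSpace ℝ (Fin N) → ℝ} (hi : Integrable F) :
    Tendsto (fun T : ℝ => ∫ z in (ball (0 : EuclideanSpace ℝ (Fin N)) T)ᶜ, |F z|) atTop (𝓝 0) := by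
  have h : ∀ T : ℝ, ∫ z in (ball (0 : EuclideanSpace ℝ (Fin N)) T)ᶜ, |F z| =
      ∫ z, (ball (0 : EuclideanSpace ℝ (Fin N)) T)ᶜ.indicator (fun z => |F z|) z :=
    fun T => (integral_indicator measurableSet_ball.compl).symm
  simp only [h]
  rw [← integral_zero (EuclideanSpace ℝ (Fin N)) ℝ]
  refine tendsto_integral_filter_of_dominated_convergence (fun z => |F z|) ?_ ?_ hi.abs ?_
  · exact Eventually.of_forall fun T =>
      (hi.abs.indicator measurableSet_ball.compl).aestronglyMeasurable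
  · refine Eventually.of_forall fun T => ae_of_all _ fun z => ?_
    by_cases hz : z ∈ (ball (0 : EuclideanSpace ℝ (Fin N)) T)ᶜ
    · rw [Set.indicator_of_mem hz, Real.norm_eq_abs, abs_abs]
    · rw [Set.indicator_of_notMem hz, norm_zero]
      exact abs_nonneg _
  · refine ae_of_all _ fun z => ?_
    refine tendsto_const_nhds.congr' ?_
    filter_upwards [eventually_gt_atTop ‖z‖] with T hT
    rw [Set.indicator_of_notMem]
    simp [hT]

theorem tendsto_sqrt_div : Tendsto (fun R : ℝ => √R / R) atTop (𝓝 0) := by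
  have h1 : Tendsto (fun R : ℝ => (√R)⁻¹) atTop (𝓝 0) :=
    tendsto_inv_atTop_zero.comp Real.tendsto_sqrt_atTop
  refine h1.congr' ?_
  filter_upwards [eventually_gt_atTop 0] with R hR
  have h2 : √R ≠ 0 := (Real.sqrt_pos.2 hR).ne'
  rw [eq_div_iff hR.ne', inv_mul_eq_div, div_eq_iff h2, Real.mul_self_sqrt hR.le]

/-- The ratio of the volumes of the two regions. -/
noncomputable def kap (d k : ℕ) (s R : ℝ) : ℝ :=
  (R / (R + √R)) ^ d * ((⌈R⌉₊ * s) / (⌈R⌉₊ * s + 2 * √R)) ^ k

theorem tendsto_kap (d k : ℕ) {s : ℝ} (hs : 0 < s) : Tendsto (kap d k s) atTop (𝓝 1) := by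
  have h1 : Tendsto (fun R : ℝ => R / (R + √R)) atTop (𝓝 1) := by
    have h : Tendsto (fun R : ℝ => (1 + √R / R)⁻¹) atTop (𝓝 (1 + 0)⁻¹) :=
      (tendsto_const_nhds.add tendsto_sqrt_div).inv₀ (by norm_num)
    rw [add_zero, inv_one] at h
    refine h.congr' ?_
    filter_upwards [eventually_gt_atTop 0] with R hR
    have : 0 < R + √R := by positivity
    field_simp
  have h2 : Tendsto (fun R : ℝ => (⌈R⌉₊ * s) / (⌈R⌉₊ * s + 2 * √R)) atTop (𝓝 1) := by
    have h3 : Tendsto (fun R : ℝ => 2 * √R / (⌈R⌉₊ * s)) atTop (𝓝 0) := by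
      have h4 : Tendsto (fun R : ℝ => 2 / s * (√R / R)) atTop (𝓝 0) := by
        simpa using tendsto_sqrt_div.const_mul (2 / s)
      refine squeeze_zero' (Eventually.of_forall fun R => by positivity) ?_ h4
      filter_upwards [eventually_gt_atTop 0] with R hR
      have h5 : R ≤ ⌈R⌉₊ := Nat.le_ceil R
      rw [div_mul_div_comm, mul_comm s R]
      exact div_le_div_of_nonneg_left (by positivity) (by positivity)
        (mul_le_mul_of_nonneg_right h5 hs.le)
    have h : Tendsto (fun R : ℝ => (1 + 2 * √R / (⌈R⌉₊ * s))⁻¹) atTop (𝓝 (1 + 0)⁻¹) :=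
      (tendsto_const_nhds.add h3).inv₀ (by norm_num)
    rw [add_zero, inv_one] at h
    refine h.congr' ?_
    filter_upwards [eventually_gt_atTop 0] with R hR
    have h6 : (0 : ℝ) < ⌈R⌉₊ := by exact_mod_cast Nat.ceil_pos.2 hR
    have : 0 < (⌈R⌉₊ : ℝ) * s + 2 * √R := by positivity
    field_simp
  have := (h1.pow d).mul (h2.pow k)
  rw [one_pow, one_pow, one_mul] at this
  exact this

/-- The number of points of a separated set in a large ball. -/
theorem count_bound {d k N : ℕ} (hN : N = d + k) (ν : Measure (EuclideanSpace ℝ (Fin N)))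
    [IsFiniteMeasure ν] {F : EuclideanSpace ℝ (Fin N) → ℝ}
    (hF : ∀ z, F z = ∫ w, Real.cos (inner ℝ w z) ∂ν) (hi : Integrable F) (hpos : 0 < ∫ z, F z)
    {s : ℝ} (hs : 0 < s) (hneg : ∀ z, s ≤ ‖z‖ → F z ≤ 0) {C : Set (EuclideanSpace ℝ (Fin d))}
    (hC : ∀ x ∈ C, ∀ y ∈ C, x ≠ y → s ≤ dist x y) :
    ∃ u : ℝ → ℝ, Tendsto u atTop (𝓝 (s ^ k * F 0 / ∫ z, F z)) ∧ ∀ᶠ R in atTop,
      (C ∩ ball 0 R).ncard / (R ^ d * volume.real (ball (0 : EuclideanSpace ℝ (Fin d)) 1)) ≤
        u R := by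
  set v := volume.real (ball (0 : EuclideanSpace ℝ (Fin d)) 1) with hv
  have hv0 : 0 < v := by
    rw [hv, measureReal_def]
    exact ENNReal.toReal_pos (measure_ball_pos _ _ one_pos).ne' measure_ball_lt_top.ne
  set I := ∫ z, F z with hI
  set A := ∫ z, |F z| with hA
  set Q : ℝ → ℝ := fun R => I - 3 * (∫ z in (ball (0 : EuclideanSpace ℝ (Fin N)) (√R))ᶜ, |F z|) -
    (1 - kap d k s R) * A with hQ
  have hk := tendsto_kap d k hs
  have hQt : Tendsto Q atTop (𝓝 I) := by
    have h1 := (tendsto_tail hi).comp Real.tendsto_sqrt_atTop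
    have h2 := ((tendsto_const_nhds (x := I)).sub (h1.const_mul 3)).sub
      (((tendsto_const_nhds (x := (1 : ℝ))).sub hk).mul_const A)
    simpa [hQ, Function.comp_def] using h2
  have hkQ : Tendsto (fun R => kap d k s R * Q R) atTop (𝓝 I) := by
    simpa using hk.mul hQt
  refine ⟨fun R => s ^ k * F 0 / (kap d k s R * Q R), ?_, ?_⟩
  · exact tendsto_const_nhds.div hkQ hpos.ne'
  · filter_upwards [eventually_gt_atTop 0, hkQ.eventually (lt_mem_nhds hpos)] with R hR hkq
    have hsq : 0 < √R := Real.sqrt_pos.2 hR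
    have hM : 0 < ⌈R⌉₊ := Nat.ceil_pos.2 hR
    have hM0 : (0 : ℝ) < ⌈R⌉₊ := by exact_mod_cast hM
    have h1 := step hN ν hF hi hpos hs hneg hC hR hsq hM
    rw [← hv, ← hI, ← hA] at h1
    have e1 : (R ^ d * v * (⌈R⌉₊ * s) ^ k) / ((R + √R) ^ d * v * (⌈R⌉₊ * s + 2 * √R) ^ k) =
        kap d k s R := by
      have : 0 < (⌈R⌉₊ : ℝ) * s + 2 * √R := by positivity
      rw [kap, div_pow, div_pow]
      field_simp
    have e2 : ((C ∩ ball 0 R).ncard * (⌈R⌉₊ : ℝ) ^ k) /
        ((R + √R) ^ d * v * (⌈R⌉₊ * s + 2 * √R) ^ k) =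
        (C ∩ ball 0 R).ncard / (R ^ d * v) * (kap d k s R / s ^ k) := by
      have : 0 < (⌈R⌉₊ : ℝ) * s + 2 * √R := by positivity
      rw [← e1, mul_pow]
      field_simp
    rw [e1, e2] at h1
    rw [le_div_iff₀ hkq]
    have e3 : (C ∩ ball 0 R).ncard / (R ^ d * v) * (kap d k s R * Q R) =
        s ^ k * ((C ∩ ball 0 R).ncard / (R ^ d * v) * (kap d k s R / s ^ k) * Q R) := by
      field_simp
    rw [e3]
    exact mul_le_mul_of_nonneg_left h1 (by positivity)

/-- `C` is the set of the centres of a packing of `ℝⁿ` by closed balls of radius `ρ` with disjoint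
interiors. -/
def IsPacking {n : ℕ} (ρ : ℝ) (C : Set (EuclideanSpace ℝ (Fin n))) : Prop :=
  0 < ρ ∧ C.PairwiseDisjoint fun x => ball x ρ

/-- The (upper) density of the union of the closed balls of radius `ρ` about the points of `C`. -/
noncomputable def density {n : ℕ} (ρ : ℝ) (C : Set (EuclideanSpace ℝ (Fin n))) : ℝ :=
  limsup (fun R : ℝ => volume.real (ball 0 R ∩ ⋃ x ∈ C, closedBall x ρ) /
    volume.real (ball (0 : EuclideanSpace ℝ (Fin n)) R)) atTop

theorem IsPacking.sep {n : ℕ} {ρ : ℝ} {C : Set (EuclideanSpace ℝ (Fin n))} (h : IsPacking ρ C) :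
    ∀ x ∈ C, ∀ y ∈ C, x ≠ y → 2 * ρ ≤ dist x y := by
  intro x hx y hy hxy
  have h1 := h.2 hx hy hxy
  rw [Function.onFun, disjoint_ball_ball_iff h.1 h.1] at h1
  linarith

/-- The density of a packing when the test function is adapted to its radius. -/
theorem density_le_aux {d k N : ℕ} (hN : N = d + k) (ν : Measure (EuclideanSpace ℝ (Fin N)))
    [IsFiniteMeasure ν] {F : EuclideanSpace ℝ (Fin N) → ℝ}
    (hF : ∀ z, F z = ∫ w, Real.cos (inner ℝ w z) ∂ν) (hi : Integrable F) (hpos : 0 < ∫ z, F z)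
    {ρ : ℝ} (hneg : ∀ z, 2 * ρ ≤ ‖z‖ → F z ≤ 0) {C : Set (EuclideanSpace ℝ (Fin d))}
    (hC : IsPacking ρ C) :
    density ρ C ≤ ρ ^ d * volume.real (ball (0 : EuclideanSpace ℝ (Fin d)) 1) *
      ((2 * ρ) ^ k * F 0 / ∫ z, F z) := by
  have hρ := hC.1
  have hs : 0 < 2 * ρ := by linarith
  set v := volume.real (ball (0 : EuclideanSpace ℝ (Fin d)) 1) with hv
  have hv0 : 0 < v := by
    rw [hv, measureReal_def]
    exact ENNReal.toReal_pos (measure_ball_pos _ _ one_pos).ne' measure_ball_lt_top.ne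
  obtain ⟨u, hu, hcb⟩ := count_bound hN ν hF hi hpos hs hneg hC.sep
  set U : ℝ → ℝ := fun R => ((R + ρ) / R) ^ d * (ρ ^ d * v) * u (R + ρ) with hU
  have hUt : Tendsto U atTop (𝓝 (ρ ^ d * v * ((2 * ρ) ^ k * F 0 / ∫ z, F z))) := by
    have h1 : Tendsto (fun R : ℝ => R + ρ) atTop atTop := tendsto_atTop_add_const_right _ _ tendsto_id
    have h2 : Tendsto (fun R : ℝ => (R + ρ) / R) atTop (𝓝 1) := by
      have h3 : Tendsto (fun R : ℝ => 1 + ρ / R) atTop (𝓝 (1 + 0)) :=
        tendsto_const_nhds.add (tendsto_const_nhds.div_atTop tendsto_id)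
      rw [add_zero] at h3
      refine h3.congr' ?_
      filter_upwards [eventually_gt_atTop 0] with R hR
      field_simp
    have h4 := ((h2.pow d).mul_const (ρ ^ d * v)).mul (hu.comp h1)
    simpa [hU, Function.comp_def] using h4
  rw [← hUt.limsup_eq]
  refine limsup_le_limsup ?_ ?_ hUt.isBoundedUnder_le
  · filter_upwards [eventually_gt_atTop 0, (tendsto_atTop_add_const_right atTop ρ
      (tendsto_id (α := ℝ))).eventually hcb] with R hR hcR
    have hfin := finite_inter hs hC.sep (R + ρ)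
    have h1 : volume.real (ball 0 R ∩ ⋃ x ∈ C, closedBall x ρ) ≤
        (C ∩ ball 0 (R + ρ)).ncard * (ρ ^ d * v) := by
      have h2 : ball 0 R ∩ ⋃ x ∈ C, closedBall x ρ ⊆
          ⋃ x ∈ hfin.toFinset, closedBall x ρ := by
        intro z hz
        obtain ⟨hz1, hz2⟩ := hz
        simp only [Set.mem_iUnion] at hz2 ⊢
        obtain ⟨x, hx, hzx⟩ := hz2
        refine ⟨x, ?_, hzx⟩
        rw [Set.Finite.mem_toFinset]
        refine ⟨hx, ?_⟩
        rw [mem_ball] at hz1 ⊢
        rw [mem_closedBall, dist_comm] at hzx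
        calc dist x 0 ≤ dist x z + dist z 0 := dist_triangle _ _ _
          _ < R + ρ := by linarith
      have h3 : ∀ x : EuclideanSpace ℝ (Fin d), volume.real (closedBall x ρ) = ρ ^ d * v := by
        intro x
        rw [measureReal_def, Measure.addHaar_closedBall _ _ hρ.le, finrank_euclideanSpace_fin,
          ENNReal.toReal_mul, ENNReal.toReal_ofReal (by positivity)]
        rfl
      calc volume.real (ball 0 R ∩ ⋃ x ∈ C, closedBall x ρ) ≤
            volume.real (⋃ x ∈ hfin.toFinset, closedBall x ρ) := by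
            refine measureReal_mono h2 ?_
            refine ((measure_biUnion_finset_le _ _).trans_lt ?_).ne
            exact ENNReal.sum_lt_top.2 fun x _ => measure_closedBall_lt_top
        _ ≤ ∑ x ∈ hfin.toFinset, volume.real (closedBall x ρ) :=
            measureReal_biUnion_finset_le _ _
        _ = (C ∩ ball 0 (R + ρ)).ncard * (ρ ^ d * v) := by
            rw [Finset.sum_congr rfl fun x _ => h3 x, Finset.sum_const, nsmul_eq_mul,
              Set.ncard_eq_toFinset_card _ hfin]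
    rw [real_ball _ hR, ← hv]
    have h5 : 0 < R + ρ := by linarith
    calc volume.real (ball 0 R ∩ ⋃ x ∈ C, closedBall x ρ) / (R ^ d * v) ≤
          ((C ∩ ball 0 (R + ρ)).ncard * (ρ ^ d * v)) / (R ^ d * v) :=
          div_le_div_of_nonneg_right h1 (by positivity)
      _ = ((R + ρ) / R) ^ d * (ρ ^ d * v) *
          ((C ∩ ball 0 (R + ρ)).ncard / ((R + ρ) ^ d * v)) := by
          rw [div_pow]; field_simp
      _ ≤ U R := by
          rw [hU]
          exact mul_le_mul_of_nonneg_left hcR (by positivity)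
  · exact isCoboundedUnder_le_of_le atTop (x := 0) fun R => by positivity

/-- **The density of a packing is at most the linear programming bound.** -/
theorem density_le {d k N : ℕ} (hN : N = d + k) (ν : Measure (EuclideanSpace ℝ (Fin N)))
    [IsFiniteMeasure ν] {F : EuclideanSpace ℝ (Fin N) → ℝ}
    (hF : ∀ z, F z = ∫ w, Real.cos (inner ℝ w z) ∂ν) (hi : Integrable F) (hpos : 0 < ∫ z, F z)
    {r : ℝ} (hr : 0 < r) (hneg : ∀ z, r ≤ ‖z‖ → F z ≤ 0) {ρ : ℝ}
    {C : Set (EuclideanSpace ℝ (Fin d))} (hC : IsPacking ρ C) :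
    density ρ C ≤ volume.real (ball (0 : EuclideanSpace ℝ (Fin d)) 1) * (1 / 2) ^ d *
      (r ^ N * F 0 / ∫ z, F z) := by
  have hρ := hC.1
  set a : ℝ := r / (2 * ρ) with ha
  have ha0 : 0 < a := by positivity
  have hsm : Measurable fun w : EuclideanSpace ℝ (Fin N) => a • w := measurable_const_smul a
  have hint : ∫ z, F (a • z) = (a ^ N)⁻¹ * ∫ z, F z := by
    rw [Measure.integral_comp_smul, finrank_euclideanSpace_fin, smul_eq_mul,
      abs_of_pos (by positivity)]
  have h1 := density_le_aux hN (ν.map fun w => a • w) (F := fun z => F (a • z))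
    (fun z => by
      rw [hF, integral_map hsm.aemeasurable]
      · refine integral_congr_ae (ae_of_all _ fun w => ?_)
        simp only [inner_smul_left, inner_smul_right]
        simp
      · exact (Real.continuous_cos.comp (by fun_prop)).aestronglyMeasurable)
    (hi.comp_smul ha0.ne') (by rw [hint]; positivity) (ρ := ρ)
    (fun z hz => by
      apply hneg
      rw [norm_smul, Real.norm_eq_abs, abs_of_pos ha0, ha, div_mul_eq_mul_div,
        le_div_iff₀ (by positivity)]
      exact mul_le_mul_of_nonneg_left hz hr.le) hC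
  rw [hint, smul_zero] at h1
  refine h1.trans (le_of_eq ?_)
  have h2 : r = a * (2 * ρ) := by rw [ha]; field_simp
  have h3 : r ^ N = a ^ N * ((2 * ρ) ^ d * (2 * ρ) ^ k) := by
    rw [h2, mul_pow, hN, pow_add (2 * ρ)]
  rw [h3, mul_pow 2 ρ d]
  have hI := hpos.ne'
  have h4 : (1 / 2 : ℝ) ^ d = (2 ^ d)⁻¹ := by rw [one_div, inv_pow]
  rw [h4]
  field_simp

end Pool.Agent.Lib.KL.Pack
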