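import Pool.Agent.Lib.KL.PackLim
import Pool.Agent.Lib.KL.Limit

/-!
Packings of balls: the numbers.
-/

set_option autoImplicit false

namespace Pool.Agent.Lib.KL.Pack

open MeasureTheory Filter Topology Metric Real Pool.Agent.KL

/-- A lower bound for the Gamma function. -/
theorem gamma_ge {x : ℝ} (hx : 0 < x) : x ^ x * exp (-x) ≤ Real.Gamma (x + 1) := by
  rw [Real.Gamma_eq_integral (by linarith)]
  have hi : IntegrableOn (fun t : ℝ => exp (-t) * t ^ (x + 1 - 1)) (Set.Ioi 0) :=
    Real.GammaIntegral_convergent (by linarith)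
  have h1 : ∫ t in Set.Ioi x, exp (-t) * x ^ x ≤ ∫ t in Set.Ioi x, exp (-t) * t ^ (x + 1 - 1) := by
    refine setIntegral_mono_on ((integrableOn_exp_neg_Ioi x).mul_const _)
      (hi.mono_set (Set.Ioi_subset_Ioi hx.le)) measurableSet_Ioi fun t ht => ?_
    rw [add_sub_cancel_right]
    exact mul_le_mul_of_nonneg_left (rpow_le_rpow hx.le (le_of_lt ht) hx.le) (exp_pos _).le
  have h2 : ∫ t in Set.Ioi x, exp (-t) * t ^ (x + 1 - 1) ≤
      ∫ t in Set.Ioi 0, exp (-t) * t ^ (x + 1 - 1) := by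
    refine setIntegral_mono_set hi ?_ (LE.le.eventuallyLE (Set.Ioi_subset_Ioi hx.le))
    filter_upwards [self_mem_ae_restrict (measurableSet_Ioi (a := (0 : ℝ)))] with t ht
    have : 0 < t := ht
    simp only [Pi.zero_apply]
    positivity
  rw [integral_mul_const, integral_exp_neg_Ioi] at h1
  linarith

/-- An upper bound for the volume of the unit ball. -/
theorem log_vol_le {d : ℕ} (hd : 0 < d) :
    log (volume.real (ball (0 : EuclideanSpace ℝ (Fin d)) 1)) ≤
      d / 2 * (log (2 * π * exp 1) - log d) := by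
  have : Nonempty (Fin d) := ⟨⟨0, hd⟩⟩
  have hd0 : (0 : ℝ) < d := by exact_mod_cast hd
  have h0 : 0 < volume.real (ball (0 : EuclideanSpace ℝ (Fin d)) 1) := by
    rw [measureReal_def]
    exact ENNReal.toReal_pos (measure_ball_pos _ _ one_pos).ne' measure_ball_lt_top.ne
  have h1 : volume.real (ball (0 : EuclideanSpace ℝ (Fin d)) 1) =
      √π ^ d / Real.Gamma (d / 2 + 1) := by
    rw [measureReal_def, EuclideanSpace.volume_ball]
    simp only [ENNReal.ofReal_one, one_pow, one_mul, Fintype.card_fin]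
    rw [ENNReal.toReal_ofReal (by positivity)]
  have hx : (0 : ℝ) < d / 2 := by positivity
  have h2 := gamma_ge hx
  have h3 : log ((d / 2 : ℝ) ^ (d / 2 : ℝ) * exp (-(d / 2 : ℝ))) =
      d / 2 * (log d - log 2 - 1) := by
    rw [log_mul (by positivity) (by positivity), log_rpow hx, log_exp,
      log_div (by positivity) (by norm_num)]
    ring
  have h4 : log (√π ^ d) = d / 2 * log π := by
    rw [log_pow, log_sqrt pi_pos.le]
    ring
  have h5 := log_le_log (by positivity) h2
  rw [h3] at h5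
  rw [h1, log_div (by positivity) (Real.Gamma_pos_of_pos (by positivity)).ne', h4,
    log_mul (by positivity) (by positivity), log_mul (by norm_num) (by positivity), log_exp]
  nlinarith

/-- The dimension, a multiple of eight. -/
theorem tendsto_dim : Tendsto (fun d : ℕ => ((8 * ((d + 7) / 8) : ℕ) : ℝ) / d) atTop (𝓝 1) := by
  have h1 : Tendsto (fun d : ℕ => 1 + 7 / (d : ℝ)) atTop (𝓝 (1 + 0)) :=
    tendsto_const_nhds.add (tendsto_const_nhds.div_atTop tendsto_natCast_atTop_atTop)
  rw [add_zero] at h1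
  refine tendsto_of_tendsto_of_tendsto_of_le_of_le' tendsto_const_nhds h1 ?_ ?_
  · filter_upwards [eventually_gt_atTop 0] with d hd
    have hd0 : (0 : ℝ) < d := by exact_mod_cast hd
    rw [le_div_iff₀ hd0, one_mul]
    exact_mod_cast (by omega : d ≤ 8 * ((d + 7) / 8))
  · filter_upwards [eventually_gt_atTop 0] with d hd
    have hd0 : (0 : ℝ) < d := by exact_mod_cast hd
    rw [div_le_iff₀ hd0, add_mul, div_mul_cancel₀ _ hd0.ne', one_mul]
    exact_mod_cast (by omega : 8 * ((d + 7) / 8) ≤ d + 7)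

theorem tendsto_log_dim : Tendsto (fun d : ℕ =>
    (((8 * ((d + 7) / 8) : ℕ) : ℝ) - d) / d * log (8 * ((d + 7) / 8) : ℕ)) atTop (𝓝 0) := by
  have hl : Tendsto (fun d : ℕ => log d / (d : ℝ)) atTop (𝓝 0) := by
    have h := (isLittleO_log_id_atTop).tendsto_div_nhds_zero
    exact h.comp tendsto_natCast_atTop_atTop
  have h1 : Tendsto (fun d : ℕ => 7 * (log 2 / (d : ℝ) + log d / (d : ℝ))) atTop
      (𝓝 (7 * (0 + 0))) :=
    ((tendsto_const_nhds.div_atTop tendsto_natCast_atTop_atTop).add hl).const_mul 7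
  rw [add_zero, mul_zero] at h1
  refine squeeze_zero' ?_ ?_ h1
  · filter_upwards [eventually_gt_atTop 0] with d hd
    have h2 : (d : ℝ) ≤ (8 * ((d + 7) / 8) : ℕ) := by
      exact_mod_cast (by omega : d ≤ 8 * ((d + 7) / 8))
    have h3 : (1 : ℝ) ≤ (8 * ((d + 7) / 8) : ℕ) := by
      exact_mod_cast (by omega : 1 ≤ 8 * ((d + 7) / 8))
    have := log_nonneg h3
    have : 0 ≤ ((8 * ((d + 7) / 8) : ℕ) : ℝ) - d := by linarith
    positivity
  · filter_upwards [eventually_ge_atTop 7] with d hd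
    have hd0 : (0 : ℝ) < d := by exact_mod_cast (by omega : 0 < d)
    have h2 : (d : ℝ) ≤ (8 * ((d + 7) / 8) : ℕ) := by
      exact_mod_cast (by omega : d ≤ 8 * ((d + 7) / 8))
    have h3 : (1 : ℝ) ≤ (8 * ((d + 7) / 8) : ℕ) := by
      exact_mod_cast (by omega : 1 ≤ 8 * ((d + 7) / 8))
    have h4 : (((8 * ((d + 7) / 8) : ℕ) : ℝ) - d) ≤ 7 := by
      have : ((8 * ((d + 7) / 8) : ℕ) : ℝ) ≤ ((d + 7 : ℕ) : ℝ) := by
        exact_mod_cast (by omega : 8 * ((d + 7) / 8) ≤ d + 7)
      push_cast at this ⊢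
      linarith
    have h5 : ((8 * ((d + 7) / 8) : ℕ) : ℝ) ≤ 2 * d := by
      exact_mod_cast (by omega : 8 * ((d + 7) / 8) ≤ 2 * d)
    have h6 : log (8 * ((d + 7) / 8) : ℕ) ≤ log 2 + log d := by
      rw [← log_mul (by norm_num) hd0.ne']
      exact log_le_log (by linarith) h5
    have h7 : 0 ≤ log (8 * ((d + 7) / 8) : ℕ) := log_nonneg h3
    calc (((8 * ((d + 7) / 8) : ℕ) : ℝ) - d) / d * log (8 * ((d + 7) / 8) : ℕ) ≤
          7 / d * (log 2 + log d) := by
          refine mul_le_mul ?_ h6 h7 (by positivity)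
          exact div_le_div_of_nonneg_right h4 hd0.le
      _ = 7 * (log 2 / d + log d / d) := by ring

/-- The squared radius beyond which the test function in dimension `4 n` is not positive. -/
noncomputable def rad (A : ℝ) (n : ℕ) : ℝ :=
  2 / Real.sin (π / (2 * n)) + A * √n * (1 + log n)

/-- The bound for the ratio of the test function in dimension `4 n`. -/
noncomputable def rat (B D : ℝ) (C n : ℕ) : ℝ := B * (n : ℝ) ^ C * exp (D * √n) / π ^ (2 * n)

/-- There are test functions in the dimensions `4 n`, `n` even. -/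
def TestStatement (A B D : ℝ) (C n0 : ℕ) : Prop :=
  ∀ n : ℕ, n0 ≤ n → Even n → ∃ (ν : Measure (EuclideanSpace ℝ (Fin (4 * n))))
    (F : EuclideanSpace ℝ (Fin (4 * n)) → ℝ), IsFiniteMeasure ν ∧
    (∀ z, F z = ∫ w, Real.cos (inner ℝ w z) ∂ν) ∧ Integrable F ∧ 0 < ∫ z, F z ∧
    (∀ z, 2 / Real.sin (π / (2 * n)) + A * √n * (1 + log n) ≤ ‖z‖ ^ 2 → F z ≤ 0) ∧
    F 0 / ∫ z, F z ≤ B * (n : ℝ) ^ C * exp (D * √n) / π ^ (2 * n)

/-- The logarithm of the bound for the density, divided by the dimension. -/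
theorem tendsto_exponent {A B D : ℝ} {C : ℕ} (hB : 0 < B) :
    Tendsto (fun d : ℕ => 1 / 2 * (log (2 * π * exp 1) - log d) - log 2 +
      ((8 * ((d + 7) / 8) : ℕ) : ℝ) / d * (1 / 2) * (log (8 * ((d + 7) / 8) : ℕ) +
        log (rad A (2 * ((d + 7) / 8)) / (4 * (2 * ((d + 7) / 8) : ℕ)) *
          rat B D C (2 * ((d + 7) / 8)) ^ ((2 : ℝ) / (4 * (2 * ((d + 7) / 8) : ℕ)))))) atTop
      (𝓝 (-(1 / 2 * (log (2 * π) - 1)))) := by
  have hm : Tendsto (fun d : ℕ => 2 * ((d + 7) / 8)) atTop atTop := by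
    refine tendsto_atTop.2 fun b => ?_
    filter_upwards [eventually_ge_atTop (8 * b)] with d hd
    omega
  have h1 : Tendsto (fun n : ℕ => rad A n / (4 * n) * rat B D C n ^ ((2 : ℝ) / (4 * n))) atTop
      (𝓝 (1 / π * (1 / π))) := (tendsto_radius A).mul (tendsto_ratio hB C D)
  have h2 := (h1.log (by positivity)).comp hm
  have h3 := tendsto_dim
  have h4 : Tendsto (fun d : ℕ => 1 / 2 * ((((8 * ((d + 7) / 8) : ℕ) : ℝ) - d) / d *
      log (8 * ((d + 7) / 8) : ℕ))) atTop (𝓝 (1 / 2 * 0)) := tendsto_log_dim.const_mul _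
  have h5 : Tendsto (fun d : ℕ => 1 / 2 * (log (8 * ((d + 7) / 8) : ℕ) - log d)) atTop
      (𝓝 (1 / 2 * 0)) := by
    refine Tendsto.const_mul _ ?_
    have h6 := h3.log one_ne_zero
    rw [log_one] at h6
    refine h6.congr' ?_
    filter_upwards [eventually_gt_atTop 0] with d hd
    have hd0 : (d : ℝ) ≠ 0 := by exact_mod_cast hd.ne'
    have h7 : ((8 * ((d + 7) / 8) : ℕ) : ℝ) ≠ 0 := by
      exact_mod_cast (by omega : 8 * ((d + 7) / 8) ≠ 0)
    rw [log_div h7 hd0]
  have h6 := (((h3.mul_const (1 / 2)).mul h2).add (h4.add h5)).add_const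
    (1 / 2 * log (2 * π * exp 1) - log 2)
  have hpi := pi_pos
  have e : 1 * (1 / 2) * log (1 / π * (1 / π)) + (1 / 2 * 0 + 1 / 2 * 0) +
      (1 / 2 * log (2 * π * exp 1) - log 2) = -(1 / 2 * (log (2 * π) - 1)) := by
    have h7 : log (1 / π * (1 / π)) = -(2 * log π) := by
      rw [log_mul (by positivity) (by positivity), one_div, log_inv]; ring
    rw [h7, log_mul (by positivity) (by positivity), log_exp, log_mul (by norm_num) hpi.ne']
    ring
  rw [e] at h6
  refine h6.congr' ?_
  filter_upwards [eventually_gt_atTop 0] with d hd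
  have hd0 : (d : ℝ) ≠ 0 := by exact_mod_cast hd.ne'
  simp only [Function.comp]
  field_simp
  ring

/-- **Every packing of balls in high dimension has density at most `2 ^ (-κ d)` for every
`κ < log₂ (2 π / e) / 2`.** -/
theorem pack_final {A B D : ℝ} {C n0 : ℕ} (hB : 0 < B) (H : TestStatement A B D C n0) {κ : ℝ}
    (hκ : κ < logb 2 (2 * π / exp 1) / 2) :
    ∀ᶠ d : ℕ in atTop, ∀ (ρ : ℝ) (X : Set (EuclideanSpace ℝ (Fin d))), IsPacking ρ X →
      density ρ X ≤ (2 : ℝ) ^ (-(κ * d)) := by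
  have hlog2 : 0 < log 2 := log_pos (by norm_num)
  have h1 : -(1 / 2 * (log (2 * π) - 1)) < -(κ * log 2) := by
    rw [logb, log_div (by positivity) (by positivity), log_exp, div_div,
      lt_div_iff₀ (by positivity)] at hκ
    linarith
  have hm : Tendsto (fun d : ℕ => 2 * ((d + 7) / 8)) atTop atTop := by
    refine tendsto_atTop.2 fun b => ?_
    filter_upwards [eventually_ge_atTop (8 * b)] with d hd
    omega
  have hX : Tendsto (fun n : ℕ => rad A n / (4 * n)) atTop (𝓝 (1 / π)) := tendsto_radius A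
  have hX0 : (0 : ℝ) < 1 / π := by positivity
  filter_upwards [(tendsto_exponent (A := A) (D := D) (C := C) hB).eventually_lt_const h1,
    eventually_gt_atTop 0, hm.eventually (eventually_ge_atTop n0),
    hm.eventually (eventually_gt_atTop 0), (hX.eventually_const_lt hX0).filter_mono hm] with
    d hd1 hd hn0 hn hr
  intro ρ X hpack
  set n := 2 * ((d + 7) / 8) with hndef
  have hN : 8 * ((d + 7) / 8) = 4 * n := by omega
  rw [hN] at hd1
  have hd0 : (0 : ℝ) < d := by exact_mod_cast hd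
  have hn1 : (0 : ℝ) < n := by exact_mod_cast hn
  have hrad : 0 < rad A n := by
    have h := mul_pos hr (show (0 : ℝ) < 4 * n by positivity)
    rwa [div_mul_cancel₀ _ (by positivity)] at h
  have hratp : 0 < rat B D C n := by unfold rat; positivity
  obtain ⟨ν, F, hfin, hF, hi, hpos, hneg, hrat⟩ := H n hn0 (even_two_mul _)
  have hr0 : 0 < √(rad A n) := Real.sqrt_pos.2 hrad
  have h2 := density_le (d := d) (k := 4 * n - d) (N := 4 * n) (by omega) ν hF hi hpos hr0
    (fun z hz => hneg z (by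
      have h := pow_le_pow_left₀ hr0.le hz 2
      rwa [Real.sq_sqrt hrad.le] at h)) hpack
  have h3 : √(rad A n) ^ (4 * n) = rad A n ^ (2 * n) := by
    rw [show 4 * n = 2 * (2 * n) by ring, pow_mul, Real.sq_sqrt hrad.le]
  rw [h3, mul_div_assoc] at h2
  set v := volume.real (ball (0 : EuclideanSpace ℝ (Fin d)) 1) with hv
  have hv0 : 0 < v := by
    rw [hv, measureReal_def]
    exact ENNReal.toReal_pos (measure_ball_pos _ _ one_pos).ne' measure_ball_lt_top.ne
  have h4 : density ρ X ≤ v * (1 / 2) ^ d * (rad A n ^ (2 * n) * rat B D C n) := by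
    refine h2.trans ?_
    refine mul_le_mul_of_nonneg_left ?_ (by positivity)
    exact mul_le_mul_of_nonneg_left hrat (by positivity)
  refine h4.trans ?_
  have h5 : log (v * (1 / 2) ^ d * (rad A n ^ (2 * n) * rat B D C n)) =
      log v - d * log 2 + (2 * n * log (rad A n) + log (rat B D C n)) := by
    rw [log_mul (by positivity) (by positivity), log_mul (by positivity) (by positivity),
      log_mul (by positivity) (by positivity), log_pow, log_pow, one_div, log_inv]
    push_cast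
    ring
  have h6 : log (rad A n / (4 * n) * rat B D C n ^ ((2 : ℝ) / (4 * n))) =
      log (rad A n) - log (4 * n : ℕ) + 2 / (4 * n) * log (rat B D C n) := by
    rw [log_mul (by positivity) (by positivity), log_div (by positivity) (by positivity),
      log_rpow hratp]
    push_cast
    ring
  rw [h6] at hd1
  have h7 := log_vol_le hd
  rw [← hv] at h7
  have h8 := mul_lt_mul_of_pos_left hd1 hd0
  have h9 : (d : ℝ) * (1 / 2 * (log (2 * π * exp 1) - log d) - log 2 +
      ((4 * n : ℕ) : ℝ) / d * (1 / 2) * (log (4 * n : ℕ) +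
        (log (rad A n) - log (4 * n : ℕ) + 2 / (4 * n) * log (rat B D C n)))) =
      d / 2 * (log (2 * π * exp 1) - log d) - d * log 2 +
        (2 * n * log (rad A n) + log (rat B D C n)) := by
    push_cast
    field_simp
    ring
  rw [h9] at h8
  have h10 : log (v * (1 / 2) ^ d * (rad A n ^ (2 * n) * rat B D C n)) ≤
      log 2 * (-(κ * d)) := by
    rw [h5]
    linarith
  rw [Real.rpow_def_of_pos (by norm_num), ← Real.log_le_iff_le_exp (by positivity)]
  exact h10

end Pool.Agent.Lib.KL.Pack
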