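import Mathlib

/-!
KL project, row K6: finite sums of exponentials, Laplace transform, inversion (helper35).
-/

open MeasureTheory Real FourierTransform

namespace Pool.Agent.KL

section expsum

variable {ι : Type*} [Fintype ι]

/-- A finite sum of exponentials. -/
noncomputable def esum (d p : ι → ℂ) (u : ℝ) : ℂ := ∑ i, d i * Complex.exp (p i * u)

lemma continuous_esum (d p : ι → ℂ) : Continuous (esum d p) := by
  unfold esum
  fun_prop

lemma integrableOn_term {a b : ℂ} (ha : a.re < 0) (c : ℝ) :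
    IntegrableOn (fun u : ℝ => b * Complex.exp (a * u)) (Set.Ioi c) :=
  (integrableOn_exp_mul_complex_Ioi ha c).const_mul b

lemma integrableOn_esum {d p : ι → ℂ} (hp : ∀ i, (p i).re < 0) (c : ℝ) :
    IntegrableOn (esum d p) (Set.Ioi c) := by
  unfold esum
  exact integrable_finsetSum _ fun i _ => integrableOn_term (hp i) c

/-- The Laplace transform of a finite sum of exponentials. -/
lemma laplace_esum {d p : ι → ℂ} {s : ℂ} (hs : ∀ i, (p i).re < s.re) :
    IntegrableOn (fun u : ℝ => esum d p u * Complex.exp (-s * u)) (Set.Ioi 0) ∧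
    ∫ u in Set.Ioi (0 : ℝ), esum d p u * Complex.exp (-s * u) = ∑ i, d i / (s - p i) := by
  have h1 : ∀ u : ℝ, esum d p u * Complex.exp (-s * u) =
      ∑ i, d i * Complex.exp ((p i - s) * u) := by
    intro u
    unfold esum
    rw [Finset.sum_mul]
    refine Finset.sum_congr rfl fun i _ => ?_
    rw [mul_assoc, ← Complex.exp_add]
    congr 2
    ring
  have h2 : ∀ i, (p i - s).re < 0 := fun i => by
    rw [Complex.sub_re]; linarith [hs i]
  simp_rw [h1]
  refine ⟨integrable_finsetSum _ fun i _ => integrableOn_term (h2 i) 0, ?_⟩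
  rw [integral_finsetSum _ fun i _ => integrableOn_term (h2 i) 0]
  refine Finset.sum_congr rfl fun i _ => ?_
  rw [integral_const_mul, integral_exp_mul_complex_Ioi (h2 i) 0]
  have h3 : p i - s ≠ 0 := fun h => by
    have := h2 i; rw [h] at this; simp at this
  have h4 : s - p i ≠ 0 := fun h => h3 (by rw [← neg_sub, h, neg_zero])
  simp only [Complex.ofReal_zero, mul_zero, Complex.exp_zero]
  field_simp
  ring

/-- Fourier inversion for a finite sum of exponentials which vanishes at the origin. -/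
theorem norm_esum_le {d p : ι → ℂ} (hp : ∀ i, (p i).re < 0) (h0 : ∑ i, d i = 0)
    (hI : Integrable fun τ : ℝ => ∑ i, d i / (τ * Complex.I - p i)) {u : ℝ} (hu : 0 ≤ u) :
    ‖esum d p u‖ ≤ (1 / (2 * π)) * ∫ τ : ℝ, ‖∑ i, d i / (τ * Complex.I - p i)‖ := by
  set f : ℝ → ℂ := fun u => if 0 ≤ u then esum d p u else 0 with hf
  set g : ℝ → ℂ := fun τ => ∑ i, d i / (τ * Complex.I - p i) with hg
  have hcont : Continuous f := by
    refine Continuous.if_le (continuous_esum d p) continuous_const continuous_const continuous_id ?_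
    intro x hx
    rw [← hx]
    simp [esum, h0]
  have hint : Integrable f := by
    have h1 : f =ᵐ[volume] (Set.Ioi (0 : ℝ)).indicator (esum d p) := by
      have : ∀ᵐ x : ℝ, x ≠ 0 := by simp [ae_iff, measure_singleton]
      filter_upwards [this] with x hx
      simp only [hf, Set.indicator, Set.mem_Ioi]
      by_cases h : 0 < x
      · rw [if_pos h, if_pos h.le]
      · rw [if_neg h, if_neg (fun h' => h (lt_of_le_of_ne h' (Ne.symm hx)))]
    rw [integrable_congr h1, integrable_indicator_iff measurableSet_Ioi]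
    exact integrableOn_esum hp 0
  have hF : ∀ w : ℝ, 𝓕 f w = g (2 * π * w) := by
    intro w
    rw [Real.fourier_real_eq_integral_exp_smul]
    have h1 : (∫ v : ℝ, Complex.exp (↑(-2 * π * v * w) * Complex.I) • f v) =
        ∫ v in Set.Ioi (0 : ℝ), esum d p v * Complex.exp (-(2 * π * w * Complex.I) * v) := by
      rw [← integral_indicator measurableSet_Ioi]
      refine integral_congr_ae ?_
      have : ∀ᵐ x : ℝ, x ≠ 0 := by simp [ae_iff, measure_singleton]
      filter_upwards [this] with x hx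
      simp only [hf, Set.indicator, Set.mem_Ioi]
      by_cases h : 0 < x
      · rw [if_pos h, if_pos h.le, smul_eq_mul, mul_comm]
        congr 2
        push_cast
        ring
      · rw [if_neg h, if_neg (fun h' => h (lt_of_le_of_ne h' (Ne.symm hx)))]
        simp
    rw [h1, (laplace_esum (d := d) (p := p) (s := 2 * π * w * Complex.I) ?_).2]
    · simp only [hg]
      push_cast
      rfl
    · intro i
      have : (2 * (π : ℂ) * w * Complex.I).re = 0 := by
        simp
      rw [this]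
      exact hp i
  have hFint : Integrable (𝓕 f) := by
    have h1 : 𝓕 f = fun w => g (2 * π * w) := funext hF
    rw [h1]
    exact hI.comp_mul_left' (by positivity)
  have hinv := congrFun (hcont.fourierInv_fourier_eq hint hFint) u
  have h2 : esum d p u = 𝓕⁻ (𝓕 f) u := by
    rw [hinv]
    simp [hf, hu]
  rw [h2, Real.fourierInv_eq]
  calc ‖∫ v : ℝ, 𝐞 (inner ℝ v u) • 𝓕 f v‖ ≤ ∫ v : ℝ, ‖𝐞 (inner ℝ v u) • 𝓕 f v‖ :=
        norm_integral_le_integral_norm _
    _ = ∫ v : ℝ, ‖g (2 * π * v)‖ := by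
        refine integral_congr_ae (Filter.Eventually.of_forall fun v => ?_)
        simp only [Circle.norm_smul, hF]
    _ = (1 / (2 * π)) * ∫ τ : ℝ, ‖g τ‖ := by
        rw [MeasureTheory.Measure.integral_comp_mul_left (fun x => ‖g x‖) (2 * π),
          abs_of_pos (by positivity), smul_eq_mul, one_div]

end expsum

section pf

variable {n : ℕ} (c ζ : Fin n → ℂ)

/-- The power sums of `ζ_i + ζ_j` with weights `c_i c_j` vanish up to `2 n - 3`. -/
lemma sum_pow_eq_zero (hc : ∀ k, k + 2 ≤ n → ∑ j, c j * ζ j ^ k = 0) {m : ℕ}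
    (hm : m + 3 ≤ 2 * n) : ∑ x : Fin n × Fin n, c x.1 * c x.2 * (ζ x.1 + ζ x.2) ^ m = 0 := by
  have h1 : ∀ x : Fin n × Fin n, c x.1 * c x.2 * (ζ x.1 + ζ x.2) ^ m =
      ∑ k ∈ Finset.range (m + 1), (c x.1 * ζ x.1 ^ k) * (c x.2 * ζ x.2 ^ (m - k)) * m.choose k := by
    intro x
    rw [add_pow, Finset.mul_sum]
    refine Finset.sum_congr rfl fun k _ => ?_
    ring
  simp_rw [h1]
  rw [Finset.sum_comm]
  refine Finset.sum_eq_zero fun k hk => ?_
  rw [← Finset.sum_mul, Fintype.sum_prod_type]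
  simp_rw [← Finset.mul_sum, ← Finset.sum_mul]
  have hk' : k ≤ m := by simpa [Nat.lt_succ_iff] using hk
  rcases Nat.lt_or_ge (k + 2) (n + 1) with h | h
  · rw [hc k (by omega)]; simp
  · rw [hc (m - k) (by omega)]; simp

/-- The exponents and coefficients of `q`. -/
noncomputable def pq (x : Fin n × Fin n) : ℂ := 2 / (ζ x.1 + ζ x.2)

noncomputable def dq (x : Fin n × Fin n) : ℂ :=
  -(1 / 2) * (c x.1 * c x.2) * ((ζ x.1 + ζ x.2) / 2) ^ (2 * n - 3)

lemma sum_dq (hn : 2 ≤ n) (hc : ∀ k, k + 2 ≤ n → ∑ j, c j * ζ j ^ k = 0) :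
    ∑ x, dq c ζ x = 0 := by
  have h := sum_pow_eq_zero c ζ hc (m := 2 * n - 3) (by omega)
  have h1 : ∀ x, dq c ζ x = -(1 / 2) * (1 / 2) ^ (2 * n - 3) *
      (c x.1 * c x.2 * (ζ x.1 + ζ x.2) ^ (2 * n - 3)) := by
    intro x
    unfold dq
    simp only [div_eq_mul_inv, mul_pow, inv_pow]
    ring
  simp_rw [h1]
  rw [← Finset.mul_sum, h, mul_zero]

/-- Partial fractions (3.1). -/
theorem sum_dq_div (hn : 2 ≤ n) (hc : ∀ k, k + 2 ≤ n → ∑ j, c j * ζ j ^ k = 0)
    (hz : ∀ i j, ζ i + ζ j ≠ 0) {s : ℂ} (hs : s ≠ 0) (hs2 : ∀ i j, 2 - (ζ i + ζ j) * s ≠ 0) :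
    ∑ x, dq c ζ x / (s - pq ζ x) =
      ∑ x : Fin n × Fin n, c x.1 * c x.2 * (s ^ (2 * n - 2))⁻¹ / (2 - (ζ x.1 + ζ x.2) * s) := by
  rw [← sub_eq_zero, ← Finset.sum_sub_distrib]
  obtain ⟨m, hm⟩ : ∃ m, 2 * n - 2 = m + 1 := ⟨2 * n - 3, by omega⟩
  have hm' : 2 * n - 3 = m := by omega
  have h1 : ∀ x : Fin n × Fin n, dq c ζ x / (s - pq ζ x) -
      c x.1 * c x.2 * (s ^ (2 * n - 2))⁻¹ / (2 - (ζ x.1 + ζ x.2) * s) =
      ∑ k ∈ Finset.range (m + 1), -(1 / (2 * s)) * ((1 / 2) ^ k * (s⁻¹) ^ (m - k)) *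
        (c x.1 * c x.2 * (ζ x.1 + ζ x.2) ^ k) := by
    intro x
    have hzx := hz x.1 x.2
    have hsx := hs2 x.1 x.2
    set z := ζ x.1 + ζ x.2 with hzdef
    have h2 : dq c ζ x / (s - pq ζ x) = c x.1 * c x.2 * (z / 2) ^ (m + 1) / (2 - z * s) := by
      unfold dq pq
      rw [hm', ← hzdef]
      have h3 : s - 2 / z = -(2 - z * s) / z := by
        field_simp
        ring
      rw [h3, pow_succ]
      field_simp
    have h4 : (z / 2) ^ (m + 1) - (s⁻¹) ^ (m + 1) =
        (∑ k ∈ Finset.range (m + 1), (z / 2) ^ k * (s⁻¹) ^ (m - k)) * (z / 2 - s⁻¹) := by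
      have := (Commute.all (z / 2) s⁻¹).geom_sum₂_mul (m + 1)
      simpa using this.symm
    have h5 : z / 2 - s⁻¹ = -(2 - z * s) / (2 * s) := by
      field_simp
      ring
    rw [h2, hm, ← inv_pow]
    have h6 : c x.1 * c x.2 * (z / 2) ^ (m + 1) / (2 - z * s) -
        c x.1 * c x.2 * s⁻¹ ^ (m + 1) / (2 - z * s) =
        c x.1 * c x.2 * ((z / 2) ^ (m + 1) - (s⁻¹) ^ (m + 1)) / (2 - z * s) := by ring
    rw [h6, h4, h5]
    have h7 : c x.1 * c x.2 * ((∑ k ∈ Finset.range (m + 1), (z / 2) ^ k * s⁻¹ ^ (m - k)) *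
        (-(2 - z * s) / (2 * s))) / (2 - z * s) =
        -(1 / (2 * s)) * (c x.1 * c x.2) *
        ∑ k ∈ Finset.range (m + 1), (z / 2) ^ k * s⁻¹ ^ (m - k) := by
      field_simp
    rw [h7, Finset.mul_sum]
    refine Finset.sum_congr rfl fun k _ => ?_
    simp only [div_eq_mul_inv, mul_pow, inv_pow]
    ring
  simp_rw [h1]
  rw [Finset.sum_comm]
  refine Finset.sum_eq_zero fun k hk => ?_
  rw [← Finset.mul_sum, sum_pow_eq_zero c ζ hc (m := k) (by
    have := Finset.mem_range.1 hk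
    omega), mul_zero]

end pf

end Pool.Agent.KL
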