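import Mathlib

/-!
Bounds for `Ψ(s) = (1/2π) ∫ dt / ∏ ((1 - ζ_j s)² + t²)` at real `s`, and the integral of `|Ψ|` on
the imaginary axis.
-/

namespace Pool.Agent.KL

open MeasureTheory Filter Topology Complex

/-- Positivity of the product at real arguments. -/
lemma prod_eq_norm {ι : Type*} [Fintype ι] (ζ : ι → ℂ) (σ : ι → ι) (hσ : ∀ j, σ (σ j) = j)
    (hc : ∀ j, ζ (σ j) = (starRingEnd ℂ) (ζ j)) (him : ∀ j, (ζ j).im ≠ 0) (s t : ℝ) :
    ∏ j, ((1 - ζ j * s) ^ 2 + (t : ℂ) ^ 2) =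
      ((∏ j, ‖(1 - ζ j * s) ^ 2 + (t : ℂ) ^ 2‖ : ℝ) : ℂ) := by
  classical
  set p : ι → ℂ := fun j => (1 - ζ j * s) ^ 2 + (t : ℂ) ^ 2 with hp
  have hpc : ∀ j, p (σ j) = (starRingEnd ℂ) (p j) := by
    intro j
    simp only [hp, hc, map_add, map_pow, map_sub, map_mul, map_one, Complex.conj_ofReal]
  have hsplit : ∀ f : ι → ℂ, ∏ j, f j =
      (∏ j ∈ Finset.univ.filter (fun j => 0 < (ζ j).im), f j) *
        ∏ j ∈ Finset.univ.filter (fun j => 0 < (ζ j).im), f (σ j) := by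
    intro f
    rw [← Finset.prod_filter_mul_prod_filter_not Finset.univ (fun j => 0 < (ζ j).im) f]
    congr 1
    symm
    refine Finset.prod_bij (fun j _ => σ j) ?_ ?_ ?_ ?_
    · intro j hj
      rw [Finset.mem_filter] at hj ⊢
      refine ⟨Finset.mem_univ _, ?_⟩
      rw [hc, Complex.conj_im]
      linarith [hj.2]
    · intro a _ b _ hab
      have := congrArg σ hab
      simpa [hσ] using this
    · intro j hj
      rw [Finset.mem_filter] at hj
      refine ⟨σ j, ?_, hσ j⟩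
      rw [Finset.mem_filter]
      refine ⟨Finset.mem_univ _, ?_⟩
      rw [hc, Complex.conj_im]
      have h1 := him j
      have h2 : (ζ j).im ≤ 0 := not_lt.1 hj.2
      have h3 : (ζ j).im < 0 := lt_of_le_of_ne h2 h1
      linarith
    · intro j _
      rfl
  have h1 := hsplit p
  have h2 := hsplit (fun j => ((‖p j‖ : ℝ) : ℂ))
  have h3 : ∏ j, p j = ∏ j, ((‖p j‖ : ℝ) : ℂ) := by
    rw [h1, h2, ← Finset.prod_mul_distrib, ← Finset.prod_mul_distrib]
    refine Finset.prod_congr rfl fun j _ => ?_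
    rw [hpc, Complex.mul_conj, Complex.normSq_eq_norm_sq, Complex.norm_conj]
    push_cast
    ring
  rw [h3]
  push_cast
  rfl

lemma factor_lower {z : ℂ} (hz : ‖z‖ = 1) {s : ℝ} (t : ℝ) :
    1 + t ^ 2 + 2 * (-z.re) * s - s ^ 2 ≤ ‖(1 - z * s) ^ 2 + (t : ℂ) ^ 2‖ := by
  refine le_trans ?_ (Complex.re_le_norm _)
  have h1 : z.re ^ 2 + z.im ^ 2 = 1 := by
    have := Complex.sq_norm z
    rw [hz, Complex.normSq_apply] at this
    nlinarith
  have h2 : ((1 - z * s) ^ 2 + (t : ℂ) ^ 2).re =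
      1 + t ^ 2 - 2 * z.re * s + s ^ 2 * (z.re ^ 2 - z.im ^ 2) := by
    simp [sq]
    ring
  rw [h2]
  nlinarith [sq_nonneg (s * z.re), mul_nonneg (sq_nonneg s) (sq_nonneg z.re)]

lemma factor_upper {z : ℂ} (hz : ‖z‖ = 1) (hre : z.re ≤ 0) {s : ℝ} (hs : 0 ≤ s) (t : ℝ) :
    ‖(1 - z * s) ^ 2 + (t : ℂ) ^ 2‖ ≤ 1 + t ^ 2 + 2 * (-z.re) * s + 3 * s ^ 2 := by
  have h1 : z.re ^ 2 + z.im ^ 2 = 1 := by
    have := Complex.sq_norm z
    rw [hz, Complex.normSq_apply] at this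
    nlinarith
  have h2 : (1 - z * s) ^ 2 + (t : ℂ) ^ 2 =
      (((1 + t ^ 2 : ℝ) : ℂ) - 2 * z * s) + z ^ 2 * (s : ℂ) ^ 2 := by
    push_cast
    ring
  have h3 : ‖z ^ 2 * (s : ℂ) ^ 2‖ = s ^ 2 := by
    rw [norm_mul, norm_pow, norm_pow, hz, one_pow, one_mul, Complex.norm_real,
      Real.norm_of_nonneg hs]
  have h4 : ‖((1 + t ^ 2 : ℝ) : ℂ) - 2 * z * s‖ ≤ 1 + t ^ 2 + 2 * (-z.re) * s + 2 * s ^ 2 := by
    have h5 : 0 ≤ 1 + t ^ 2 + 2 * (-z.re) * s + 2 * s ^ 2 := by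
      have : 0 ≤ (-z.re) * s := mul_nonneg (by linarith) hs
      nlinarith [sq_nonneg t, sq_nonneg s]
    refine abs_le_of_sq_le_sq' ?_ h5 |>.2
    rw [Complex.sq_norm, Complex.normSq_apply]
    have h6 : (((1 + t ^ 2 : ℝ) : ℂ) - 2 * z * s).re = 1 + t ^ 2 - 2 * z.re * s := by
      rw [Complex.sub_re, Complex.ofReal_re, Complex.mul_re, Complex.ofReal_re,
        Complex.ofReal_im, mul_zero, sub_zero]
      simp
    have h7 : (((1 + t ^ 2 : ℝ) : ℂ) - 2 * z * s).im = - (2 * z.im * s) := by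
      rw [Complex.sub_im, Complex.ofReal_im, Complex.mul_im, Complex.ofReal_re,
        Complex.ofReal_im, mul_zero, zero_add, zero_sub]
      simp
    rw [h6, h7]
    have h8 : z.im ^ 2 ≤ 1 := by nlinarith [sq_nonneg z.re]
    have h9 : 0 ≤ (-z.re) * s := mul_nonneg (by linarith) hs
    have h10 : 0 ≤ (-z.re) * s * s ^ 2 := by positivity
    have h11 : 0 ≤ t ^ 2 * s ^ 2 := by positivity
    have h12 : z.im ^ 2 * s ^ 2 ≤ s ^ 2 := by
      have := mul_le_mul_of_nonneg_right h8 (sq_nonneg s)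
      linarith
    nlinarith [sq_nonneg (s ^ 2)]
  rw [h2]
  refine (norm_add_le _ _).trans ?_
  rw [h3]
  linarith

section prod

variable {n : ℕ} (ζ : Fin n → ℂ) (hζ : ∀ j, ‖ζ j‖ = 1) (hre : ∀ j, (ζ j).re ≤ 0)

include hζ hre

lemma prod_upper {s : ℝ} (hs : 0 ≤ s) (t : ℝ) :
    ∏ j, ‖(1 - ζ j * s) ^ 2 + (t : ℂ) ^ 2‖ ≤
      (1 + t ^ 2) ^ n * Real.exp (2 * s * (∑ j, -(ζ j).re) + 3 * n * s ^ 2) := by
  have hT : (1 : ℝ) ≤ 1 + t ^ 2 := by nlinarith [sq_nonneg t]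
  have h1 : ∀ j, ‖(1 - ζ j * s) ^ 2 + (t : ℂ) ^ 2‖ ≤
      (1 + t ^ 2) * Real.exp (2 * s * (-(ζ j).re) + 3 * s ^ 2) := by
    intro j
    refine (factor_upper (hζ j) (hre j) hs t).trans ?_
    have h2 : 0 ≤ 2 * s * (-(ζ j).re) + 3 * s ^ 2 := by
      have := mul_nonneg hs (neg_nonneg.2 (hre j))
      nlinarith [sq_nonneg s]
    have h3 := Real.add_one_le_exp (2 * s * (-(ζ j).re) + 3 * s ^ 2)
    have h4 : (1 + t ^ 2) * (2 * s * (-(ζ j).re) + 3 * s ^ 2 + 1) ≤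
        (1 + t ^ 2) * Real.exp (2 * s * (-(ζ j).re) + 3 * s ^ 2) :=
      mul_le_mul_of_nonneg_left h3 (by linarith)
    have h5 : 0 ≤ t ^ 2 * (2 * s * (-(ζ j).re) + 3 * s ^ 2) := by positivity
    nlinarith
  refine (Finset.prod_le_prod (fun _ _ => norm_nonneg _) fun j _ => h1 j).trans (le_of_eq ?_)
  rw [Finset.prod_mul_distrib, Finset.prod_const, Finset.card_univ, Fintype.card_fin,
    ← Real.exp_sum, Finset.sum_add_distrib, ← Finset.mul_sum, Finset.sum_const,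
    Finset.card_univ, Fintype.card_fin, nsmul_eq_mul]
  congr 2
  ring

lemma prod_lower {s : ℝ} (hs : 0 ≤ s) (hs4 : s ≤ 1 / 4) (t : ℝ) :
    (1 + t ^ 2) ^ n * Real.exp (2 * s * (∑ j, -(ζ j).re) / (1 + t ^ 2) - 5 * n * s ^ 2) ≤
      ∏ j, ‖(1 - ζ j * s) ^ 2 + (t : ℂ) ^ 2‖ := by
  set T := 1 + t ^ 2 with hTdef
  have hT : (1 : ℝ) ≤ T := by nlinarith [sq_nonneg t]
  have hT0 : (0 : ℝ) < T := by linarith
  have h1 : ∀ j, T * Real.exp (2 * s * (-(ζ j).re) / T - 5 * s ^ 2) ≤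
      ‖(1 - ζ j * s) ^ 2 + (t : ℂ) ^ 2‖ := by
    intro j
    refine le_trans ?_ (factor_lower (hζ j) t)
    have hc0 : 0 ≤ -(ζ j).re := neg_nonneg.2 (hre j)
    have hc1 : -(ζ j).re ≤ 1 := by
      have := Complex.abs_re_le_norm (ζ j)
      rw [hζ j] at this
      linarith [neg_abs_le (ζ j).re]
    set x := (2 * (-(ζ j).re) * s - s ^ 2) / T with hx
    have hxl : -(1 / 2) ≤ x := by
      rw [hx, le_div_iff₀ hT0]
      have : 0 ≤ (-(ζ j).re) * s := mul_nonneg hc0 hs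
      nlinarith
    have hxabs : |x| ≤ 2 * s := by
      rw [hx, abs_div, abs_of_pos hT0, div_le_iff₀ hT0, abs_le]
      have h2 : 0 ≤ (-(ζ j).re) * s := mul_nonneg hc0 hs
      have h3 : (-(ζ j).re) * s ≤ s := by nlinarith
      constructor
      · nlinarith
      · nlinarith [sq_nonneg s]
    have hx2 : x ^ 2 ≤ 4 * s ^ 2 := by
      have := sq_le_sq' (by linarith [neg_abs_le x, hxabs]) (le_trans (le_abs_self x) hxabs)
      nlinarith
    have hlog : x - x ^ 2 ≤ Real.log (1 + x) := by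
      have h2 : 0 < 1 + x := by linarith
      -- `log (1 + x) ≥ x - x²` for `x ≥ -1/2`
      have h3 : Real.exp (x - x ^ 2) ≤ 1 + x := by
        have h4 : Real.exp (x - x ^ 2) = (Real.exp (-(x - x ^ 2)))⁻¹ := by
          rw [Real.exp_neg, inv_inv]
        rw [h4, inv_le_iff_one_le_mul₀ (Real.exp_pos _)]
        rcases le_total 0 x with hx0 | hx0
        · have h5 : 1 + (-(x - x ^ 2)) ≤ Real.exp (-(x - x ^ 2)) := by
            linarith [Real.add_one_le_exp (-(x - x ^ 2))]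
          have h6 : (1 + x) * (1 + (-(x - x ^ 2))) ≤ (1 + x) * Real.exp (-(x - x ^ 2)) :=
            mul_le_mul_of_nonneg_left h5 h2.le
          have h7 : 0 ≤ x ^ 3 := by positivity
          nlinarith
        · have hy : 0 ≤ -(x - x ^ 2) := by nlinarith [sq_nonneg x]
          have h5 := Real.quadratic_le_exp_of_nonneg hy
          have h6 : (1 + x) * (1 + (-(x - x ^ 2)) + (-(x - x ^ 2)) ^ 2 / 2) ≤
              (1 + x) * Real.exp (-(x - x ^ 2)) := mul_le_mul_of_nonneg_left h5 h2.le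
          have h7 : (1 + x) * (1 + (-(x - x ^ 2)) + (-(x - x ^ 2)) ^ 2 / 2) =
              1 + x ^ 2 / 2 * (1 + x - x ^ 2 + x ^ 3) := by ring
          have h8 : 0 ≤ 1 + x - x ^ 2 + x ^ 3 := by
            have h9 : 0 ≤ x ^ 2 * (1 / 2 + x) := mul_nonneg (sq_nonneg x) (by linarith)
            nlinarith
          have h9 : 0 ≤ x ^ 2 / 2 * (1 + x - x ^ 2 + x ^ 3) :=
            mul_nonneg (by positivity) h8
          linarith
      rw [Real.le_log_iff_exp_le h2]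
      exact h3
    have h8 : 0 < 1 + x := by linarith
    have h9 : T + 2 * (-(ζ j).re) * s - s ^ 2 = T * (1 + x) := by
      rw [hx]
      field_simp
      ring
    rw [h9]
    refine mul_le_mul_of_nonneg_left ?_ hT0.le
    rw [← Real.le_log_iff_exp_le h8]
    refine le_trans ?_ hlog
    have h10 : s ^ 2 / T ≤ s ^ 2 := div_le_self (sq_nonneg s) hT
    have h11 : x = 2 * s * (-(ζ j).re) / T - s ^ 2 / T := by
      rw [hx]
      ring
    rw [h11] at hx2 ⊢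
    linarith
  refine le_trans (le_of_eq ?_) (Finset.prod_le_prod (fun _ _ => by positivity) fun j _ => h1 j)
  rw [Finset.prod_mul_distrib, Finset.prod_const, Finset.card_univ, Fintype.card_fin,
    ← Real.exp_sum, Finset.sum_sub_distrib, ← Finset.sum_div, ← Finset.mul_sum,
    Finset.sum_const, Finset.card_univ, Fintype.card_fin, nsmul_eq_mul]
  congr 2
  ring

end prod

end Pool.Agent.KL
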