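import Mathlib

/-!
KL project, (1.1): the integral of `1 / ((a + i t)(b - i t))` over the real line (helper20).
-/

open MeasureTheory Filter Complex
open scoped Topology Real

namespace Pool.Agent.KL

/-- The integrand is integrable. -/
theorem scalar_integrable {a b : ℂ} (ha : 0 < a.re) (hb : 0 < b.re) :
    Integrable (fun t : ℝ => 1 / ((a + I * t) * (b - I * t))) := by
  have key : ∀ {c : ℂ} (hc : 0 < c.re) (e : ℝ) (he : e = 1 ∨ e = -1),
      Integrable (fun t : ℝ => (c.re ^ 2 + (c.im + e * t) ^ 2)⁻¹) := by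
    intro c hc e he
    have h0 := integrable_inv_one_add_sq
    have h1 : Integrable (fun t : ℝ => (c.re ^ 2)⁻¹ * (1 + (c.im * c.re⁻¹ + (e * c.re⁻¹) * t) ^ 2)⁻¹) := by
      refine Integrable.const_mul ?_ _
      have h2 : Integrable (fun t : ℝ => (1 + (c.im * c.re⁻¹ + t) ^ 2)⁻¹) := h0.comp_add_left _
      have h3 : e * c.re⁻¹ ≠ 0 := by
        rcases he with h | h <;> rw [h] <;> simp [hc.ne']
      exact h2.comp_mul_left' h3
    refine h1.congr (Eventually.of_forall fun t => ?_)
    simp only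
    rw [← mul_inv]
    congr 1
    have := hc.ne'
    field_simp
  have h1 := (key ha 1 (Or.inl rfl)).add (key hb (-1) (Or.inr rfl))
  refine Integrable.mono' h1 ?_ (Eventually.of_forall fun t => ?_)
  · refine Continuous.aestronglyMeasurable ?_
    refine Continuous.div continuous_const (by fun_prop) (fun t => ?_)
    refine mul_ne_zero ?_ ?_
    · intro h
      have := congrArg Complex.re h
      simp at this
      linarith
    · intro h
      have := congrArg Complex.re h
      simp at this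
      linarith
  · simp only [Pi.add_apply]
    have n1 : ‖a + I * t‖ ^ 2 = a.re ^ 2 + (a.im + 1 * t) ^ 2 := by
      rw [← Complex.normSq_eq_norm_sq, Complex.normSq_apply]; simp; ring
    have n2 : ‖b - I * t‖ ^ 2 = b.re ^ 2 + (b.im + (-1) * t) ^ 2 := by
      rw [← Complex.normSq_eq_norm_sq, Complex.normSq_apply]; simp; ring
    rw [← n1, ← n2, norm_div, norm_mul, norm_one]
    have p1 : 0 < ‖a + I * t‖ := by
      rw [norm_pos_iff]; intro h
      have := congrArg Complex.re h
      simp at this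
      linarith
    have p2 : 0 < ‖b - I * t‖ := by
      rw [norm_pos_iff]; intro h
      have := congrArg Complex.re h
      simp at this
      linarith
    set x := ‖a + I * t‖
    set y := ‖b - I * t‖
    have : (x ^ 2)⁻¹ + (y ^ 2)⁻¹ - 1 / (x * y) = (1/2) * (x⁻¹ - y⁻¹) ^ 2 + (1/2) * ((x⁻¹) ^ 2 + (y⁻¹) ^ 2) := by
      field_simp; ring
    nlinarith [sq_nonneg (x⁻¹ - y⁻¹), sq_nonneg (x⁻¹), sq_nonneg (y⁻¹)]

theorem lim_log_top {a : ℂ} {s : ℂ} (hs : s = I ∨ s = -I) :
    Tendsto (fun t : ℝ => Complex.log (a + s * t) - (Real.log t : ℂ)) atTop (𝓝 (Complex.log s)) := by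
  have hsl : s ∈ Complex.slitPlane := by
    rcases hs with h | h <;> rw [h, Complex.mem_slitPlane_iff] <;> simp
  have h1 : Tendsto (fun t : ℝ => a * ((t⁻¹ : ℝ) : ℂ) + s) atTop (𝓝 (a * ((0:ℝ):ℂ) + s)) := by
    refine Tendsto.add ?_ tendsto_const_nhds
    refine Tendsto.const_mul _ ?_
    exact (Complex.continuous_ofReal.tendsto _).comp tendsto_inv_atTop_zero
  have h2 : Tendsto (fun t : ℝ => Complex.log (a * ((t⁻¹ : ℝ) : ℂ) + s)) atTop (𝓝 (Complex.log s)) := by
    have := (continuousAt_clog hsl)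
    have h3 : a * ((0:ℝ):ℂ) + s = s := by simp
    rw [h3] at h1
    exact this.tendsto.comp h1
  refine h2.congr' ?_
  filter_upwards [eventually_gt_atTop (0:ℝ), (h1.eventually (by
    have h3 : a * ((0:ℝ):ℂ) + s = s := by simp
    rw [h3]
    exact Complex.isOpen_slitPlane.mem_nhds hsl))] with t ht h4
  have hne : a * ((t⁻¹ : ℝ) : ℂ) + s ≠ 0 := Complex.slitPlane_ne_zero h4
  have h5 : a + s * t = (t : ℂ) * (a * ((t⁻¹ : ℝ) : ℂ) + s) := by
    push_cast
    have : (t : ℂ) ≠ 0 := by exact_mod_cast ht.ne'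
    field_simp
  rw [h5, Complex.log_ofReal_mul ht hne]
  ring

theorem scalar_integral {a b : ℂ} (ha : 0 < a.re) (hb : 0 < b.re) :
    ∫ t : ℝ, 1 / ((a + I * t) * (b - I * t)) = 2 * π / (a + b) := by
  have hab : a + b ≠ 0 := by
    intro h
    have := congrArg Complex.re h
    simp at this
    linarith
  have hA : ∀ t : ℝ, (a + I * t) ∈ Complex.slitPlane := by
    intro t
    rw [Complex.mem_slitPlane_iff]; left; simpa using ha
  have hB : ∀ t : ℝ, (b - I * t) ∈ Complex.slitPlane := by
    intro t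
    rw [Complex.mem_slitPlane_iff]; left; simpa using hb
  have hd : ∀ t : ℝ, HasDerivAt (fun t : ℝ => (a + b)⁻¹ * ((-I) * (Complex.log (a + I * t) - Complex.log (b - I * t))))
      (1 / ((a + I * t) * (b - I * t))) t := by
    intro t
    have e1 : HasDerivAt (fun t : ℝ => (a + I * (t:ℂ))) I t := by
      have := ((Complex.ofRealCLM.hasDerivAt (x := t)).const_mul I).const_add a
      simpa using this
    have e2 : HasDerivAt (fun t : ℝ => (b - I * (t:ℂ))) (-I) t := by
      have := ((Complex.ofRealCLM.hasDerivAt (x := t)).const_mul I).const_sub b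
      simpa using this
    have e3 := (e1.clog_real (hA t)).sub (e2.clog_real (hB t))
    have e4 := (e3.const_mul (-I)).const_mul ((a + b)⁻¹)
    refine HasDerivAt.congr_deriv e4 ?_
    have hA0 : a + I * (t:ℂ) ≠ 0 := Complex.slitPlane_ne_zero (hA t)
    have hB0 : b - I * (t:ℂ) ≠ 0 := Complex.slitPlane_ne_zero (hB t)
    have hI : I / (a + I * (t:ℂ)) - -I / (b - I * t) = I * (a + b) / ((a + I * t) * (b - I * t)) := by
      rw [div_sub_div _ _ hA0 hB0]; congr 1; ring
    rw [hI]
    have : -I * (I * (a + b) / ((a + I * t) * (b - I * t))) = (a + b) / ((a + I * t) * (b - I * t)) := by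
      rw [← mul_div_assoc, ← mul_assoc, neg_mul, Complex.I_mul_I]; simp
    rw [this, ← mul_div_assoc, inv_mul_cancel₀ hab]
  have hlimT : Tendsto (fun t : ℝ => (a + b)⁻¹ * ((-I) * (Complex.log (a + I * t) - Complex.log (b - I * t)))) atTop
      (𝓝 ((a + b)⁻¹ * ((-I) * (Complex.log I - Complex.log (-I))))) := by
    refine Tendsto.const_mul _ (Tendsto.const_mul _ ?_)
    have h1 := lim_log_top (a := a) (s := I) (Or.inl rfl)
    have h2 := lim_log_top (a := b) (s := -I) (Or.inr rfl)
    refine (h1.sub h2).congr (fun t => ?_)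
    rw [show b - I * (t:ℂ) = b + -I * t by ring]
    ring
  have hlimB : Tendsto (fun t : ℝ => (a + b)⁻¹ * ((-I) * (Complex.log (a + I * t) - Complex.log (b - I * t)))) atBot
      (𝓝 ((a + b)⁻¹ * ((-I) * (Complex.log (-I) - Complex.log I)))) := by
    refine Tendsto.const_mul _ (Tendsto.const_mul _ ?_)
    have h1 := lim_log_top (a := a) (s := -I) (Or.inr rfl)
    have h2 := lim_log_top (a := b) (s := I) (Or.inl rfl)
    have h3 := (h1.sub h2).comp tendsto_neg_atBot_atTop
    refine h3.congr (fun t => ?_)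
    simp only [Function.comp]
    push_cast
    rw [show a + -I * -(t:ℂ) = a + I * t by ring, show b + I * -(t:ℂ) = b - I * t by ring]
    ring
  rw [integral_of_hasDerivAt_of_tendsto hd (scalar_integrable ha hb) hlimB hlimT, Complex.log_I, Complex.log_neg_I]
  have : -I * ((π:ℂ) / 2 * I - -((π:ℂ) / 2) * I) - -I * (-((π:ℂ) / 2) * I - (π:ℂ) / 2 * I) = 2 * π := by
    linear_combination (-2 * (π:ℂ)) * Complex.I_mul_I
  rw [← mul_sub]
  rw [show (2 * (π:ℂ)) / (a + b) = (a + b)⁻¹ * (2 * π) by rw [div_eq_inv_mul], ← this]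

end Pool.Agent.KL
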